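import Pool.Agent.Lib_CN94.Defs

/-!
# Piece ABEL: summation by parts for periodic coefficients
-/

namespace CN94

private theorem abel_le (q : ℕ) [NeZero q] (h : ZMod q → ℝ) (x : ZMod q) : |h x| ≤ ∑ x, |h x| :=
  Finset.single_le_sum (f := fun x => |h x|) (fun _ _ => abs_nonneg _) (Finset.mem_univ x)

private theorem abel_summable (q : ℕ) [NeZero q] (h : ZMod q → ℝ) (φ : ℕ → ℝ) (hφ : Summable φ)
    (s : ℕ → ZMod q) : Summable (fun n => h (s n) * φ n) := by
  refine Summable.of_norm_bounded (hφ.norm.mul_left (∑ x, |h x|)) fun n => ?_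
  rw [norm_mul]
  exact mul_le_mul_of_nonneg_right (by rw [Real.norm_eq_abs]; exact abel_le q h _) (norm_nonneg _)

/-- PROOF: the sums split (everything is absolutely summable since `h` is bounded: it takes finitely
many values).  `∑_{n ≥ 1} (h n - h (n-1)) φ n = ∑_{n ≥ 1} h n φ n - ∑_{n ≥ 0} h n φ (n+1)
= -h 0 φ 1 - ∑_{n ≥ 1} h n (φ (n+1) - φ n)`; add the term `n = 0` of the left side,
`1/2 (h 0 - h (-1)) φ 0`, and write `-h 0 φ 1 = -h 0 (φ 1 - φ 0) - h 0 φ 0`.
(`tsum_eq_zero_add`, `hw 0 = 1/2`, `hw (n+1) = 1`.) -/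
theorem abel1 (q : ℕ) [NeZero q] (h : ZMod q → ℝ) (φ : ℕ → ℝ) (hφ : Summable φ) :
    ∑' n : ℕ, hw n * (h (n : ZMod q) - h ((n : ZMod q) - 1)) * φ n =
      -((h 0 + h (-1)) / 2) * φ 0 - ∑' n : ℕ, h (n : ZMod q) * (φ (n + 1) - φ n) := by
  have hφ1 : Summable (fun n => φ (n + 1)) := (summable_nat_add_iff 1).mpr hφ
  have s1 : Summable (fun n : ℕ => h (n : ZMod q) * φ n) :=
    abel_summable q h φ hφ (fun n => (n : ZMod q))
  have s2 : Summable (fun n : ℕ => h (n : ZMod q) * φ (n + 1)) :=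
    abel_summable q h _ hφ1 (fun n => (n : ZMod q))
  have s3 : Summable (fun n : ℕ => h ((n + 1 : ℕ) : ZMod q) * φ (n + 1)) :=
    (summable_nat_add_iff 1).mpr s1
  have e1 : ∑' n : ℕ, h (n : ZMod q) * (φ (n + 1) - φ n) =
      ∑' n : ℕ, h (n : ZMod q) * φ (n + 1) - ∑' n : ℕ, h (n : ZMod q) * φ n := by
    rw [← s2.tsum_sub s1]
    exact tsum_congr fun n => by ring
  have e2 : ∑' n : ℕ, h (n : ZMod q) * φ n =
      h 0 * φ 0 + ∑' n : ℕ, h ((n + 1 : ℕ) : ZMod q) * φ (n + 1) := by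
    rw [s1.tsum_eq_zero_add]
    simp
  have s4 : Summable (fun n : ℕ => hw (n + 1) * (h ((n + 1 : ℕ) : ZMod q) -
      h (((n + 1 : ℕ) : ZMod q) - 1)) * φ (n + 1)) := by
    refine (s3.sub s2).congr fun n => ?_
    have h1 : (((n + 1 : ℕ) : ZMod q) - 1) = (n : ZMod q) := by push_cast; ring
    rw [h1]
    simp only [hw, Nat.succ_ne_zero, if_false]
    ring
  have s5 : Summable (fun n : ℕ => hw n * (h (n : ZMod q) - h ((n : ZMod q) - 1)) * φ n) :=
    (summable_nat_add_iff 1).mp s4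
  rw [s5.tsum_eq_zero_add, e1, e2]
  have e3 : ∑' n : ℕ, hw (n + 1) * (h ((n + 1 : ℕ) : ZMod q) -
      h (((n + 1 : ℕ) : ZMod q) - 1)) * φ (n + 1) =
      ∑' n : ℕ, h ((n + 1 : ℕ) : ZMod q) * φ (n + 1) - ∑' n : ℕ, h (n : ZMod q) * φ (n + 1) := by
    rw [← s3.tsum_sub s2]
    refine tsum_congr fun n => ?_
    have h1 : (((n + 1 : ℕ) : ZMod q) - 1) = (n : ZMod q) := by push_cast; ring
    rw [h1]
    simp only [hw, Nat.succ_ne_zero, if_false]
    ring
  rw [e3]
  simp only [hw, if_true, Nat.cast_zero, zero_sub]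
  ring

private theorem abel_full (q : ℕ) [NeZero q] (h : ZMod q → ℝ) :
    ∑ j ∈ Finset.range q, h (j : ZMod q) = ∑ x, h x := by
  refine Finset.sum_nbij' (fun n => (n : ZMod q)) (fun x => x.val) ?_ ?_ ?_ ?_ ?_
  · intro n _; exact Finset.mem_univ _
  · intro x _; exact Finset.mem_range.mpr (ZMod.val_lt x)
  · intro n hn; exact ZMod.val_cast_of_lt (Finset.mem_range.mp hn)
  · intro x _; exact ZMod.natCast_zmod_val x
  · intro n _; rfl

private theorem abel_S (q : ℕ) [NeZero q] (h : ZMod q → ℝ) (hz : ∑ x, h x = 0) (n : ℕ) :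
    |∑ j ∈ Finset.range n, h (j : ZMod q)| ≤ ∑ x, |h x| := by
  induction n using Nat.strong_induction_on with
  | _ n ih =>
    rcases lt_or_ge n q with hn | hn
    · refine (Finset.abs_sum_le_sum_abs _ _).trans ?_
      rw [← abel_full q (fun x => |h x|)]
      exact Finset.sum_le_sum_of_subset_of_nonneg (Finset.range_mono hn.le)
        (fun _ _ _ => abs_nonneg _)
    · obtain ⟨m, rfl⟩ := Nat.exists_eq_add_of_le hn
      have hq : 0 < q := Nat.pos_of_ne_zero (NeZero.ne q)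
      rw [Finset.sum_range_add, abel_full q h, hz, zero_add]
      have h1 : ∑ x ∈ Finset.range m, h ((q + x : ℕ) : ZMod q) =
          ∑ x ∈ Finset.range m, h (x : ZMod q) := by
        refine Finset.sum_congr rfl fun x _ => ?_
        push_cast
        rw [ZMod.natCast_self, zero_add]
      rw [h1]
      exact ih m (by omega)

/-- PROOF: let `S n = ∑_{j<n} h j` (periodic because `∑ h = 0` over a period, and
`|S n| ≤ ∑_x |h x|`: write `n = q a + b`, the full periods cancel and the rest is a sum of `b < q`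
different values).  `∑_{j<N} h j φ j = S N φ (N-1) - ∑_{j<N-1} S (j+1) (φ (j+1) - φ j)`
(`Finset.sum_range_by_parts` or induction), let `N → ∞`, `φ (N-1) → 0`. -/
theorem abel_bound (q : ℕ) [NeZero q] (h : ZMod q → ℝ) (hz : ∑ x, h x = 0) (φ : ℕ → ℝ)
    (hφ : Summable φ) :
    |∑' n : ℕ, h (n : ZMod q) * φ n| ≤ (∑ x, |h x|) * ∑' n : ℕ, |φ (n + 1) - φ n| := by
  have hφ1 : Summable (fun n => φ (n + 1)) := (summable_nat_add_iff 1).mpr hφ
  have s1 : Summable (fun n : ℕ => h (n : ZMod q) * φ n) :=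
    abel_summable q h φ hφ (fun n => (n : ZMod q))
  have sd : Summable (fun n : ℕ => |φ (n + 1) - φ n|) := (hφ1.sub hφ).abs
  have key : ∀ N : ℕ, ∑ j ∈ Finset.range (N + 1), h (j : ZMod q) * φ j =
      (∑ j ∈ Finset.range (N + 1), h (j : ZMod q)) * φ N -
        ∑ j ∈ Finset.range N, (∑ i ∈ Finset.range (j + 1), h (i : ZMod q)) * (φ (j + 1) - φ j) := by
    intro N
    induction N with
    | zero => simp
    | succ N ih =>
      have r1 := Finset.sum_range_succ (fun j : ℕ => h (j : ZMod q) * φ j) (N + 1)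
      have r2 := Finset.sum_range_succ (fun j : ℕ => h (j : ZMod q)) (N + 1)
      have r3 := Finset.sum_range_succ (fun j : ℕ =>
        (∑ i ∈ Finset.range (j + 1), h (i : ZMod q)) * (φ (j + 1) - φ j)) N
      rw [r1, ih, r2, r3]
      generalize ∑ j ∈ Finset.range N, (∑ i ∈ Finset.range (j + 1), h (i : ZMod q)) *
        (φ (j + 1) - φ j) = Q
      generalize ∑ j ∈ Finset.range (N + 1), h (j : ZMod q) = R
      ring
  have hC : 0 ≤ ∑ x, |h x| := Finset.sum_nonneg fun _ _ => abs_nonneg _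
  have hbd : ∀ N : ℕ, |∑ j ∈ Finset.range (N + 1), h (j : ZMod q) * φ j| ≤
      (∑ x, |h x|) * |φ N| + (∑ x, |h x|) * ∑' n : ℕ, |φ (n + 1) - φ n| := by
    intro N
    rw [key N]
    refine (abs_sub _ _).trans (add_le_add ?_ ?_)
    · rw [abs_mul]
      exact mul_le_mul_of_nonneg_right (abel_S q h hz _) (abs_nonneg _)
    · refine (Finset.abs_sum_le_sum_abs _ _).trans ?_
      calc ∑ j ∈ Finset.range N, |(∑ i ∈ Finset.range (j + 1), h (i : ZMod q)) * (φ (j + 1) - φ j)|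
          ≤ ∑ j ∈ Finset.range N, (∑ x, |h x|) * |φ (j + 1) - φ j| := by
            refine Finset.sum_le_sum fun j _ => ?_
            rw [abs_mul]
            exact mul_le_mul_of_nonneg_right (abel_S q h hz _) (abs_nonneg _)
        _ = (∑ x, |h x|) * ∑ j ∈ Finset.range N, |φ (j + 1) - φ j| := by rw [Finset.mul_sum]
        _ ≤ _ := mul_le_mul_of_nonneg_left (sd.sum_le_tsum _ fun _ _ => abs_nonneg _) hC
  have t1 : Filter.Tendsto (fun N : ℕ => |∑ j ∈ Finset.range (N + 1), h (j : ZMod q) * φ j|)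
      Filter.atTop (nhds |∑' n : ℕ, h (n : ZMod q) * φ n|) :=
    ((s1.hasSum.tendsto_sum_nat).comp (Filter.tendsto_add_atTop_nat 1)).abs
  have t2 : Filter.Tendsto (fun N : ℕ => (∑ x, |h x|) * |φ N| +
      (∑ x, |h x|) * ∑' n : ℕ, |φ (n + 1) - φ n|) Filter.atTop
      (nhds ((∑ x, |h x|) * |(0 : ℝ)| + (∑ x, |h x|) * ∑' n : ℕ, |φ (n + 1) - φ n|)) :=
    ((hφ.tendsto_atTop_zero.abs).const_mul _).add_const _
  have h3 := le_of_tendsto_of_tendsto' t1 t2 hbd
  simpa using h3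

end CN94
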