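import Pool.Agent.Lib_CN94.Defs

/-!
# Basic identities for `pr`, `dt`, `norm`
-/

namespace CN94

open QP QuadraticAlgebra

variable {e : ℤ}

theorem norm_eq (z : R e) : norm z = z.re ^ 2 + z.re * z.im - e * z.im ^ 2 := by
  rw [norm_def]; ring

theorem pr_eq (v w : R e) :
    pr v w = 2 * (v.re * w.re) + v.re * w.im + v.im * w.re - 2 * e * (v.im * w.im) := by
  simp only [pr, tr, re_mul, im_mul, re_star, im_star]; ring

theorem norm_combo (x y : ℤ) (v w : R e) :
    norm ((x : R e) * v + (y : R e) * w) =
      norm v * x ^ 2 + pr v w * (x * y) + norm w * y ^ 2 := by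
  simp only [norm_eq, pr_eq, re_add, im_add, re_mul, im_mul, re_intCast, im_intCast, Int.cast_id]
  ring

theorem norm_add' (v w : R e) : norm (v + w) = norm v + pr v w + norm w := by
  simp only [norm_eq, pr_eq, re_add, im_add]; ring

theorem pr_symm (v w : R e) : pr v w = pr w v := by
  simp only [pr_eq]; ring

theorem pr_add_left (u v w : R e) : pr (u + v) w = pr u w + pr v w := by
  simp only [pr_eq, re_add, im_add]; ring

theorem pr_add_right (u v w : R e) : pr u (v + w) = pr u v + pr u w := by
  simp only [pr_eq, re_add, im_add]; ring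

theorem pr_neg_right (v w : R e) : pr v (-w) = -pr v w := by
  simp only [pr_eq, re_neg, im_neg]; ring

theorem pr_self (v : R e) : pr v v = 2 * norm v := by
  simp only [norm_eq, pr_eq]; ring

theorem norm_neg' (v : R e) : norm (-v) = norm v := by
  simp only [norm_eq, re_neg, im_neg]; ring

theorem pr_star (v w : R e) : pr (star v) (star w) = pr v w := by
  simp only [pr_eq, re_star, im_star]; ring

theorem pr_mul (ε v w : R e) : pr (ε * v) (ε * w) = norm ε * pr v w := by
  simp only [norm_eq, pr_eq, re_mul, im_mul]; ring

theorem dt_mul (ε v w : R e) : dt (ε * v) (ε * w) = norm ε * dt v w := by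
  simp only [norm_eq, dt, re_mul, im_mul]; ring

theorem dt_star (v w : R e) : dt (star v) (star w) = -dt v w := by
  simp only [dt, re_star, im_star]; ring

/-- the discriminant of the form of a pair -/
theorem disc_eq (v w : R e) :
    pr v w ^ 2 - 4 * norm v * norm w = (4 * e + 1) * dt v w ^ 2 := by
  simp only [norm_eq, pr_eq, dt]; ring

/-- Cramer's rule -/
theorem cramer (v w β : R e) :
    ((dt v w : ℤ) : R e) * β = ((dt β w : ℤ) : R e) * v + ((dt v β : ℤ) : R e) * w := by
  ext
  · simp only [dt, re_add, re_mul, re_intCast, im_intCast, Int.cast_id]; ring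
  · simp only [dt, im_add, im_mul, re_intCast, im_intCast, Int.cast_id]; ring

end CN94
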