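import Pool.Agent.Lib_CN94.ExDefs

/-!
# Piece DIFFBB: bounds for the differences of the kernel

`Q = A x² + T x y + C y²`, `E = exp (-t Q)`, `a = ∂Q/∂x = 2 A x + T y`, `b = ∂Q/∂y = T x + 2 C y`:
* `∂E/∂x = -t a E`
* `∂²E/∂x² = (t² a² - 2 A t) E`
* `∂³E/∂x³ = (-t³ a³ + 6 A t² a) E`
* `∂³E/∂x²∂y = (2 T t² a - t³ a² b + 2 A t² b) E`.
With `M = 2 (A + T + C)`, `z = √t (x + y)`: `0 ≤ √t a, √t b ≤ M z`; with
`μ = min A (min C (T/2))`, `Q ≥ μ (x + y)²`, so `E ≤ exp (-μ z²)`.  So the first bound is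
`|∂²E/∂x²| ≤ t (M² z² + 2 A) exp (-μ z²)`, the others
`≤ t √t (M³ z³ + 6 A M z + 2 T M z) exp (-μ z²)`, and `(polynomial in z) exp (-μ z²)
≤ K exp (-(μ/2) z²)` (e.g. `z² ≤ (4/μ) exp (μ z²/4)`, `z ≤ 1 + z²`, ...), `z² ≥ t (x² + y²)`.
Differences: `|g (x+1) - g x| ≤ sup_{[x,x+1]} |g'|` (mean value theorem,
`Convex.norm_image_sub_le_of_norm_deriv_le` or `exists_deriv_eq_slope`), applied two or three times
(the derivative of a difference is the difference of the derivatives); the bound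
`exp (-(c t (x² + y²)))` is decreasing in `x, y ≥ 0`.
-/

namespace CN94

private theorem dbb_slope {f f' : ℝ → ℝ} (hf : ∀ x, HasDerivAt f (f' x) x) (x : ℝ) :
    ∃ c ∈ Set.Ioo x (x + 1), f (x + 1) - f x = f' c := by
  obtain ⟨c, hc, h⟩ := exists_hasDerivAt_eq_slope f f' (by linarith : x < x + 1)
    (fun z _ => (hf z).continuousAt.continuousWithinAt) (fun z _ => hf z)
  refine ⟨c, hc, ?_⟩
  rw [h]
  have : x + 1 - x = 1 := by ring
  rw [this, div_one]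

/-- the third difference is a value of the third derivative -/
private theorem dbb_diff3 {g g1 g2 g3 : ℝ → ℝ} (h1 : ∀ x, HasDerivAt g (g1 x) x)
    (h2 : ∀ x, HasDerivAt g1 (g2 x) x) (h3 : ∀ x, HasDerivAt g2 (g3 x) x) (x : ℝ) :
    ∃ c ∈ Set.Ioo x (x + 3), g (x + 3) - 3 * g (x + 2) + 3 * g (x + 1) - g x = g3 c := by
  have sh : ∀ {f f' : ℝ → ℝ} (_ : ∀ x, HasDerivAt f (f' x) x) (a : ℝ) (x : ℝ),
      HasDerivAt (fun s => f (s + a)) (f' (x + a)) x := by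
    intro f f' hf a x
    exact (hf (x + a)).comp_add_const x a
  have hF : ∀ s, HasDerivAt (fun s => g (s + 2) - 2 * g (s + 1) + g s)
      (g1 (s + 2) - 2 * g1 (s + 1) + g1 s) s := fun s =>
    ((sh h1 2 s).sub ((sh h1 1 s).const_mul 2)).add (h1 s)
  have hG : ∀ s, HasDerivAt (fun s => g1 (s + 1) - g1 s) (g2 (s + 1) - g2 s) s := fun s =>
    (sh h2 1 s).sub (h2 s)
  obtain ⟨c1, hc1, e1⟩ := dbb_slope hF x
  obtain ⟨c2, hc2, e2⟩ := dbb_slope hG c1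
  obtain ⟨c3, hc3, e3⟩ := dbb_slope h3 c2
  refine ⟨c3, ⟨by linarith [hc1.1, hc2.1, hc3.1], by linarith [hc1.2, hc2.2, hc3.2]⟩, ?_⟩
  rw [← e3, ← e2]
  have e4 : g1 (c1 + 1 + 1) - g1 (c1 + 1) - (g1 (c1 + 1) - g1 c1) =
      g1 (c1 + 2) - 2 * g1 (c1 + 1) + g1 c1 := by
    rw [show c1 + 1 + 1 = c1 + 2 by ring]
    ring
  have e5 : g (x + 1 + 2) - 2 * g (x + 1 + 1) + g (x + 1) - (g (x + 2) - 2 * g (x + 1) + g x) =
      g1 (c1 + 2) - 2 * g1 (c1 + 1) + g1 c1 := e1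
  rw [e4, ← e5, show x + 1 + 2 = x + 3 by ring, show x + 1 + 1 = x + 2 by ring]
  ring

private theorem dbb_a (A T y : ℝ) (x : ℝ) : HasDerivAt (fun x : ℝ => 2 * A * x + T * y) (2 * A) x := by
  have := ((hasDerivAt_id x).const_mul (2 * A)).add_const (T * y)
  simpa using this

private theorem dbb_h1 (A T C t y : ℝ) (x : ℝ) :
    HasDerivAt (fun x => ex A T C t x y) (-(t * (2 * A * x + T * y)) * ex A T C t x y) x := by
  have h1 : HasDerivAt (fun x : ℝ => -(t * (A * x ^ 2 + T * (x * y) + C * y ^ 2)))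
      (-(t * (2 * A * x + T * y))) x := by
    have h2 : HasDerivAt (fun x : ℝ => A * x ^ 2 + T * (x * y) + C * y ^ 2)
        (A * (2 * x) + T * y) x := by
      have h3 : HasDerivAt (fun x : ℝ => A * x ^ 2) (A * (2 * x)) x := by
        have := (hasDerivAt_pow 2 x).const_mul A
        simpa using this
      have h4 : HasDerivAt (fun x : ℝ => T * (x * y)) (T * y) x := by
        have := ((hasDerivAt_id x).mul_const y).const_mul T
        simpa using this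
      exact (h3.add h4).add_const _
    exact (h2.const_mul t).neg.congr_deriv (by ring)
  exact h1.exp.congr_deriv (by unfold ex; ring)

private theorem dbb_h2 (A T C t y : ℝ) (x : ℝ) :
    HasDerivAt (fun x => -(t * (2 * A * x + T * y)) * ex A T C t x y)
      ((t ^ 2 * (2 * A * x + T * y) ^ 2 - 2 * A * t) * ex A T C t x y) x := by
  have h1 : HasDerivAt (fun x : ℝ => -(t * (2 * A * x + T * y))) (-(t * (2 * A))) x :=
    ((dbb_a A T y x).const_mul t).neg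
  exact (h1.mul (dbb_h1 A T C t y x)).congr_deriv (by ring)

private theorem dbb_h3 (A T C t y : ℝ) (x : ℝ) :
    HasDerivAt (fun x => (t ^ 2 * (2 * A * x + T * y) ^ 2 - 2 * A * t) * ex A T C t x y)
      ((-(t ^ 3 * (2 * A * x + T * y) ^ 3) + 6 * A * t ^ 2 * (2 * A * x + T * y)) *
        ex A T C t x y) x := by
  have h1 : HasDerivAt (fun x : ℝ => t ^ 2 * (2 * A * x + T * y) ^ 2 - 2 * A * t)
      (t ^ 2 * (2 * (2 * A * x + T * y) * (2 * A))) x := by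
    have := (((dbb_a A T y x).pow 2).const_mul (t ^ 2)).sub_const (2 * A * t)
    exact this.congr_deriv (by norm_num)
  exact (h1.mul (dbb_h1 A T C t y x)).congr_deriv (by ring)

private theorem dbb_exp (μ z : ℝ) (hμ : 0 < μ) :
    z ≤ (1 + 2 / μ) * Real.exp (μ / 2 * z ^ 2) ∧
      z ^ 3 ≤ (1 + 8 / μ ^ 2) * Real.exp (μ / 2 * z ^ 2) := by
  have hs : 0 ≤ μ / 2 * z ^ 2 := by positivity
  have h1 := Real.quadratic_le_exp_of_nonneg hs
  have h2 : z ^ 2 = 2 / μ * (μ / 2 * z ^ 2) := by field_simp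
  generalize Real.exp (μ / 2 * z ^ 2) = X at *
  generalize μ / 2 * z ^ 2 = s at *
  have hX1 : 1 ≤ X := by nlinarith
  have hXs : s ≤ X := by nlinarith [sq_nonneg s]
  have hXs2 : s ^ 2 ≤ 2 * X := by nlinarith
  have h3 : z ≤ 1 + z ^ 2 := by nlinarith [sq_nonneg (z - 1)]
  have h4 : z ^ 3 ≤ 1 + (z ^ 2) ^ 2 := by nlinarith [sq_nonneg (z - 1), sq_nonneg (z ^ 2 - z), sq_nonneg (z^2)]
  have hm : 0 < 2 / μ := by positivity
  constructor
  · refine h3.trans ?_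
    rw [h2]
    nlinarith [mul_le_mul_of_nonneg_left hXs hm.le]
  · refine h4.trans ?_
    rw [h2]
    have h5 : (2 / μ * s) ^ 2 = (4 / μ ^ 2) * s ^ 2 := by
      field_simp
      ring
    have hm2 : 0 < 4 / μ ^ 2 := by positivity
    have h6 : 8 / μ ^ 2 = 2 * (4 / μ ^ 2) := by ring
    rw [h5, h6]
    nlinarith [mul_le_mul_of_nonneg_left hXs2 hm2.le]

theorem diff_xxx (A T C : ℝ) (hA : 0 < A) (hT : 0 < T) (hC : 0 < C) :
    ∃ K c : ℝ, 0 ≤ K ∧ 0 < c ∧ ∀ t : ℝ, 0 < t → t ≤ 1 → ∀ x y : ℝ, 0 ≤ x → 0 ≤ y →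
      |ex A T C t (x + 3) y - 3 * ex A T C t (x + 2) y + 3 * ex A T C t (x + 1) y
          - ex A T C t x y| ≤
        K * (t * Real.sqrt t) * Real.exp (-(c * t * (x ^ 2 + y ^ 2))) := by
  obtain ⟨μ, hμ, hμA, hμC, hμT⟩ : ∃ μ : ℝ, 0 < μ ∧ μ ≤ A ∧ μ ≤ C ∧ μ ≤ T / 2 :=
    ⟨min A (min C (T / 2)), by positivity, min_le_left _ _,
      (min_le_right _ _).trans (min_le_left _ _), (min_le_right _ _).trans (min_le_right _ _)⟩
  obtain ⟨M, hM⟩ : ∃ M : ℝ, M = 2 * A + T := ⟨_, rfl⟩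
  have hM0 : 0 < M := by rw [hM]; positivity
  refine ⟨M ^ 3 * (1 + 8 / μ ^ 2) + 6 * A * (M * (1 + 2 / μ)), μ / 2, by positivity,
    by positivity, fun t ht _ x y hx hy => ?_⟩
  obtain ⟨c, hc, e⟩ := dbb_diff3 (dbb_h1 A T C t y) (dbb_h2 A T C t y) (dbb_h3 A T C t y) x
  have e' : ex A T C t (x + 3) y - 3 * ex A T C t (x + 2) y + 3 * ex A T C t (x + 1) y
          - ex A T C t x y = (-(t ^ 3 * (2 * A * c + T * y) ^ 3) +
          6 * A * t ^ 2 * (2 * A * c + T * y)) * ex A T C t c y := e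
  rw [e']
  have hc0 : 0 ≤ c := hx.trans hc.1.le
  obtain ⟨s, hs⟩ : ∃ s : ℝ, s = Real.sqrt t := ⟨_, rfl⟩
  have hs0 : 0 ≤ s := by rw [hs]; exact Real.sqrt_nonneg t
  have hss : s ^ 2 = t := by rw [hs]; exact Real.sq_sqrt ht.le
  obtain ⟨a, ha⟩ : ∃ a : ℝ, a = 2 * A * c + T * y := ⟨_, rfl⟩
  have ha0 : 0 ≤ a := by rw [ha]; positivity
  obtain ⟨z, hz⟩ : ∃ z : ℝ, z = s * (c + y) := ⟨_, rfl⟩
  have hz0 : 0 ≤ z := by rw [hz]; positivity
  have haz : s * a ≤ M * z := by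
    have h1 : a ≤ M * (c + y) := by
      rw [ha, hM]
      nlinarith [mul_nonneg hA.le hy, mul_nonneg hT.le hc0]
    calc s * a ≤ s * (M * (c + y)) := mul_le_mul_of_nonneg_left h1 hs0
      _ = M * z := by rw [hz]; ring
  rw [← ha, ← hs]
  have hE : ex A T C t c y ≤ Real.exp (-(μ * z ^ 2)) := by
    unfold ex
    apply Real.exp_le_exp.2
    apply neg_le_neg
    have h1 : μ * (c + y) ^ 2 ≤ A * c ^ 2 + T * (c * y) + C * y ^ 2 := by
      have h2 : 0 ≤ c ^ 2 := sq_nonneg c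
      have h3 : 0 ≤ y ^ 2 := sq_nonneg y
      have h4 : 0 ≤ c * y := mul_nonneg hc0 hy
      nlinarith [mul_le_mul_of_nonneg_right hμA h2, mul_le_mul_of_nonneg_right hμC h3,
        mul_le_mul_of_nonneg_right hμT h4]
    have h2 : μ * z ^ 2 = t * (μ * (c + y) ^ 2) := by
      rw [hz, ← hss]; ring
    rw [h2]
    exact mul_le_mul_of_nonneg_left h1 ht.le
  have hx2 : Real.exp (-(μ * z ^ 2)) * Real.exp (μ / 2 * z ^ 2) ≤
      Real.exp (-(μ / 2 * t * (x ^ 2 + y ^ 2))) := by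
    rw [← Real.exp_add]
    apply Real.exp_le_exp.2
    have h1 : x ^ 2 + y ^ 2 ≤ (c + y) ^ 2 := by
      nlinarith [hc.1, mul_nonneg hc0 hy]
    have h2 : z ^ 2 = t * (c + y) ^ 2 := by
      rw [hz, ← hss]; ring
    have h3 : μ / 2 * t * (x ^ 2 + y ^ 2) ≤ μ / 2 * z ^ 2 := by
      rw [h2, ← mul_assoc]
      exact mul_le_mul_of_nonneg_left h1 (by positivity)
    linarith
  obtain ⟨hz1, hz3⟩ := dbb_exp μ z hμ
  have hsa0 : 0 ≤ s * a := mul_nonneg hs0 ha0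
  have h1 : |(-(t ^ 3 * a ^ 3) + 6 * A * t ^ 2 * a) * ex A T C t c y| ≤
      (t * s) * (M ^ 3 * z ^ 3 + 6 * A * (M * z)) * Real.exp (-(μ * z ^ 2)) := by
    rw [abs_mul, abs_of_pos (ex_pos _ _ _ _ _ _)]
    refine mul_le_mul ?_ hE (ex_pos _ _ _ _ _ _).le (by positivity)
    have h2 : -(t ^ 3 * a ^ 3) + 6 * A * t ^ 2 * a = (t * s) * (-(s * a) ^ 3 + 6 * A * (s * a)) := by
      rw [← hss]; ring
    rw [h2, abs_mul, abs_of_nonneg (by positivity : 0 ≤ t * s)]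
    refine mul_le_mul_of_nonneg_left ?_ (by positivity)
    refine (abs_add_le _ _).trans ?_
    rw [abs_neg, abs_of_nonneg (by positivity), abs_of_nonneg (by positivity)]
    have h3 : (s * a) ^ 3 ≤ (M * z) ^ 3 := pow_le_pow_left₀ hsa0 haz 3
    have h4 : 6 * A * (s * a) ≤ 6 * A * (M * z) := mul_le_mul_of_nonneg_left haz (by positivity)
    calc (s * a) ^ 3 + 6 * A * (s * a) ≤ (M * z) ^ 3 + 6 * A * (M * z) := add_le_add h3 h4
      _ = M ^ 3 * z ^ 3 + 6 * A * (M * z) := by ring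
  refine h1.trans ?_
  have h5 : M ^ 3 * z ^ 3 + 6 * A * (M * z) ≤
      (M ^ 3 * (1 + 8 / μ ^ 2) + 6 * A * (M * (1 + 2 / μ))) * Real.exp (μ / 2 * z ^ 2) := by
    have h6 := mul_le_mul_of_nonneg_left hz3 (by positivity : 0 ≤ M ^ 3)
    have h7 := mul_le_mul_of_nonneg_left hz1 (by positivity : 0 ≤ 6 * A * M)
    calc M ^ 3 * z ^ 3 + 6 * A * (M * z) = M ^ 3 * z ^ 3 + 6 * A * M * z := by ring
      _ ≤ M ^ 3 * ((1 + 8 / μ ^ 2) * Real.exp (μ / 2 * z ^ 2)) +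
          6 * A * M * ((1 + 2 / μ) * Real.exp (μ / 2 * z ^ 2)) := add_le_add h6 h7
      _ = _ := by ring
  have hK : 0 ≤ M ^ 3 * (1 + 8 / μ ^ 2) + 6 * A * (M * (1 + 2 / μ)) := by positivity
  generalize M ^ 3 * (1 + 8 / μ ^ 2) + 6 * A * (M * (1 + 2 / μ)) = K at *
  calc (t * s) * (M ^ 3 * z ^ 3 + 6 * A * (M * z)) * Real.exp (-(μ * z ^ 2))
      ≤ (t * s) * (K * Real.exp (μ / 2 * z ^ 2)) * Real.exp (-(μ * z ^ 2)) :=
        mul_le_mul_of_nonneg_right (mul_le_mul_of_nonneg_left h5 (by positivity))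
          (Real.exp_pos _).le
    _ = (K * (t * s)) * (Real.exp (-(μ * z ^ 2)) * Real.exp (μ / 2 * z ^ 2)) := by ring
    _ ≤ (K * (t * s)) * Real.exp (-(μ / 2 * t * (x ^ 2 + y ^ 2))) :=
        mul_le_mul_of_nonneg_left hx2 (by positivity)

end CN94
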