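import Pool.Agent.Lib_CN94.ExDefs

/-!
# Piece DIFFBC: bounds for the differences of the kernel

`Q = A x² + T x y + C y²`, `E = exp (-t Q)`, `a = ∂Q/∂x = 2 A x + T y`, `b = ∂Q/∂y = T x + 2 C y`:
* `∂E/∂x = -t a E`
* `∂²E/∂x² = (t² a² - 2 A t) E`
* `∂³E/∂x³ = (-t³ a³ + 6 A t² a) E`
* `∂³E/∂x²∂y = (2 T t² a - t³ a² b + 2 A t² b) E`.
With `M = 2 (A + T + C)`, `z = √t (x + y)`: `0 ≤ √t a, √t b ≤ M z`; with
`μ = min A (min C (T/2))`, `Q ≥ μ (x + y)²`, so `E ≤ exp (-μ z²)`.  So the first bound is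
`|∂²E/∂x²| ≤ t (M² z² + 2 A) exp (-μ z²)`, the others
`≤ t √t (M³ z³ + 6 A M z + 2 T M z) exp (-μ z²)`, and `(polynomial in z) exp (-μ z²)
≤ K exp (-(μ/2) z²)` (e.g. `z² ≤ (4/μ) exp (μ z²/4)`, `z ≤ 1 + z²`, ...), `z² ≥ t (x² + y²)`.
Differences: `|g (x+1) - g x| ≤ sup_{[x,x+1]} |g'|` (mean value theorem,
`Convex.norm_image_sub_le_of_norm_deriv_le` or `exists_deriv_eq_slope`), applied two or three times
(the derivative of a difference is the difference of the derivatives); the bound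
`exp (-(c t (x² + y²)))` is decreasing in `x, y ≥ 0`.
-/

namespace CN94

private theorem mvt1 {g g' : ℝ → ℝ} (hg : ∀ x, HasDerivAt g (g' x) x) (x : ℝ) :
    ∃ ξ, x ≤ ξ ∧ ξ ≤ x + 1 ∧ g (x + 1) - g x = g' ξ := by
  obtain ⟨ξ, hξ, h⟩ := exists_hasDerivAt_eq_slope g g' (show x < x + 1 by linarith)
    (fun y _ => (hg y).continuousAt.continuousWithinAt) (fun y _ => hg y)
  refine ⟨ξ, hξ.1.le, hξ.2.le, ?_⟩
  rw [h]
  ring

private theorem mvt2 {g g' g'' : ℝ → ℝ} (hg : ∀ x, HasDerivAt g (g' x) x)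
    (hg' : ∀ x, HasDerivAt g' (g'' x) x) (x : ℝ) :
    ∃ ξ, x ≤ ξ ∧ g (x + 2) - 2 * g (x + 1) + g x = g'' ξ := by
  have h1 : ∀ s, HasDerivAt (fun s => g (s + 1) - g s) (g' (s + 1) - g' s) s := by
    intro s
    exact ((hg (s + 1)).comp_add_const s 1).sub (hg s)
  obtain ⟨ξ, hξ, _, e1⟩ := mvt1 h1 x
  obtain ⟨ζ, hζ, _, e2⟩ := mvt1 hg' ξ
  refine ⟨ζ, by linarith, ?_⟩
  rw [← e2, ← e1, show x + 1 + 1 = x + 2 by ring]
  ring

private theorem poly_bound {μ : ℝ} (hμ : 0 < μ) {z : ℝ} (hz : 0 ≤ z) :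
    z ≤ (1 + 2 / μ) * Real.exp (μ / 2 * z ^ 2) ∧
      z ^ 3 ≤ (1 + 8 / μ ^ 2) * Real.exp (μ / 2 * z ^ 2) := by
  have h1 := Real.quadratic_le_exp_of_nonneg (show 0 ≤ μ / 2 * z ^ 2 by positivity)
  set W := Real.exp (μ / 2 * z ^ 2) with hW
  have h2 : 0 ≤ μ / 2 * z ^ 2 := by positivity
  have h3 : 1 ≤ W := by
    have : 0 ≤ (μ / 2 * z ^ 2) ^ 2 / 2 := by positivity
    linarith
  have h4 : z ^ 2 ≤ 2 / μ * W := by
    have : μ / 2 * z ^ 2 ≤ W := by
      have : 0 ≤ (μ / 2 * z ^ 2) ^ 2 / 2 := by positivity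
      linarith
    calc z ^ 2 = 2 / μ * (μ / 2 * z ^ 2) := by field_simp
      _ ≤ 2 / μ * W := by gcongr
  have h5 : z ^ 4 ≤ 8 / μ ^ 2 * W := by
    have : (μ / 2 * z ^ 2) ^ 2 / 2 ≤ W := by linarith
    calc z ^ 4 = 8 / μ ^ 2 * ((μ / 2 * z ^ 2) ^ 2 / 2) := by field_simp; ring
      _ ≤ 8 / μ ^ 2 * W := by gcongr
  constructor
  · nlinarith [sq_nonneg (z - 1)]
  · have h6 : z ^ 3 ≤ 1 + z ^ 4 := by
      rcases le_total z 1 with h | h
      · have : z ^ 3 ≤ 1 := pow_le_one₀ hz h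
        have : 0 ≤ z ^ 4 := by positivity
        linarith
      · have : z ^ 3 ≤ z ^ 4 := pow_le_pow_right₀ h (by norm_num)
        linarith
    linarith

theorem diff_xxy (A T C : ℝ) (hA : 0 < A) (hT : 0 < T) (hC : 0 < C) :
    ∃ K c : ℝ, 0 ≤ K ∧ 0 < c ∧ ∀ t : ℝ, 0 < t → t ≤ 1 → ∀ x y : ℝ, 0 ≤ x → 0 ≤ y →
      |(ex A T C t (x + 2) (y + 1) - 2 * ex A T C t (x + 1) (y + 1) + ex A T C t x (y + 1))
          - (ex A T C t (x + 2) y - 2 * ex A T C t (x + 1) y + ex A T C t x y)| ≤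
        K * (t * Real.sqrt t) * Real.exp (-(c * t * (x ^ 2 + y ^ 2))) := by
  obtain ⟨μ, hμ, hμA, hμC, hμT⟩ : ∃ μ : ℝ, 0 < μ ∧ μ ≤ A ∧ μ ≤ C ∧ 2 * μ ≤ T := by
    refine ⟨min A (min C (T / 2)), by positivity, min_le_left _ _,
      (min_le_right _ _).trans (min_le_left _ _), ?_⟩
    have := (min_le_right A (min C (T / 2))).trans (min_le_right C (T / 2))
    linarith
  set M : ℝ := 2 * (A + T + C) with hM
  have hM0 : 0 < M := by rw [hM]; positivity
  refine ⟨(2 * T + 2 * A) * M * (1 + 2 / μ) + M ^ 3 * (1 + 8 / μ ^ 2), μ / 2, by positivity,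
    by positivity, ?_⟩
  intro t ht _ x y hx hy
  -- derivatives
  have hE : ∀ x y : ℝ, ex A T C t x y = Real.exp (-(t * (A * x ^ 2 + T * (x * y) + C * y ^ 2))) := by
    intro x y
    unfold ex
    ring_nf
  have dy : ∀ x y : ℝ, HasDerivAt (fun y => ex A T C t x y)
      (-(t * (T * x + 2 * C * y)) * ex A T C t x y) y := by
    intro x y
    simp only [hE]
    have h1 : HasDerivAt (fun y : ℝ => -(t * (A * x ^ 2 + T * (x * y) + C * y ^ 2)))
        (-(t * (T * x + 2 * C * y))) y := by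
      have h2 : HasDerivAt (fun y : ℝ => y ^ 2) (2 * y) y := by
        simpa using hasDerivAt_pow 2 y
      have h3 : HasDerivAt (fun y : ℝ => x * y) (x * 1) y := (hasDerivAt_id y).const_mul x
      have h4 := ((((hasDerivAt_const y (A * x ^ 2)).add (h3.const_mul T)).add
        (h2.const_mul C)).const_mul t).neg
      refine h4.congr_deriv ?_
      ring
    refine h1.exp.congr_deriv ?_
    ring
  have dx : ∀ x y : ℝ, HasDerivAt (fun x => ex A T C t x y)
      (-(t * (2 * A * x + T * y)) * ex A T C t x y) x := by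
    intro x y
    simp only [hE]
    have h1 : HasDerivAt (fun x : ℝ => -(t * (A * x ^ 2 + T * (x * y) + C * y ^ 2)))
        (-(t * (2 * A * x + T * y))) x := by
      have h2 : HasDerivAt (fun x : ℝ => x ^ 2) (2 * x) x := by
        simpa using hasDerivAt_pow 2 x
      have h3 : HasDerivAt (fun x : ℝ => x * y) (1 * y) x := (hasDerivAt_id x).mul_const y
      have h4 := ((((h2.const_mul A).add (h3.const_mul T)).add
        (hasDerivAt_const x (C * y ^ 2))).const_mul t).neg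
      refine h4.congr_deriv ?_
      ring
    refine h1.exp.congr_deriv ?_
    ring
  -- first step: `y`
  obtain ⟨η, hη, _, e1⟩ := mvt1 (g := fun y => ex A T C t (x + 2) y - 2 * ex A T C t (x + 1) y
      + ex A T C t x y) (fun y => ((dy (x + 2) y).sub ((dy (x + 1) y).const_mul 2)).add (dy x y)) y
  -- second step: `x`
  obtain ⟨ζ, hζ, e2⟩ := mvt2 (g := fun x => -(t * (T * x + 2 * C * η)) * ex A T C t x η)
    (g' := fun x => (t ^ 2 * ((2 * A * x + T * η) * (T * x + 2 * C * η)) - t * T) * ex A T C t x η)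
    (g'' := fun x => (2 * T * t ^ 2 * (2 * A * x + T * η) - t ^ 3 * (2 * A * x + T * η) ^ 2 *
      (T * x + 2 * C * η) + 2 * A * t ^ 2 * (T * x + 2 * C * η)) * ex A T C t x η)
    (fun x => by
      have h1 : HasDerivAt (fun x : ℝ => -(t * (T * x + 2 * C * η))) (-(t * T)) x := by
        have h4 := ((((hasDerivAt_id x).const_mul T).add
          (hasDerivAt_const x (2 * C * η))).const_mul t).neg
        refine h4.congr_deriv ?_
        ring
      refine (h1.mul (dx x η)).congr_deriv ?_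
      ring)
    (fun x => by
      have ha : HasDerivAt (fun x : ℝ => 2 * A * x + T * η) (2 * A) x := by
        have h4 := ((hasDerivAt_id x).const_mul (2 * A)).add (hasDerivAt_const x (T * η))
        refine h4.congr_deriv ?_
        ring
      have hb : HasDerivAt (fun x : ℝ => T * x + 2 * C * η) T x := by
        have h4 := ((hasDerivAt_id x).const_mul T).add (hasDerivAt_const x (2 * C * η))
        refine h4.congr_deriv ?_
        ring
      have h1 : HasDerivAt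
          (fun x : ℝ => t ^ 2 * ((2 * A * x + T * η) * (T * x + 2 * C * η)) - t * T)
          (t ^ 2 * (2 * A * (T * x + 2 * C * η) + (2 * A * x + T * η) * T)) x :=
        ((ha.mul hb).const_mul (t ^ 2)).sub_const (t * T)
      refine (h1.mul (dx x η)).congr_deriv ?_
      ring) x
  have e3 : (ex A T C t (x + 2) (y + 1) - 2 * ex A T C t (x + 1) (y + 1) + ex A T C t x (y + 1))
      - (ex A T C t (x + 2) y - 2 * ex A T C t (x + 1) y + ex A T C t x y) =
      (2 * T * t ^ 2 * (2 * A * ζ + T * η) - t ^ 3 * (2 * A * ζ + T * η) ^ 2 *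
      (T * ζ + 2 * C * η) + 2 * A * t ^ 2 * (T * ζ + 2 * C * η)) * ex A T C t ζ η := by
    rw [← e2]
    refine Eq.trans e1 ?_
    ring
  rw [e3]
  have hζ0 : 0 ≤ ζ := hx.trans hζ
  have hη0 : 0 ≤ η := hy.trans hη
  set s := Real.sqrt t with hs
  have hs0 : 0 ≤ s := Real.sqrt_nonneg t
  have hst : s ^ 2 = t := Real.sq_sqrt ht.le
  set a := 2 * A * ζ + T * η with ha
  set b := T * ζ + 2 * C * η with hb
  set z := s * (ζ + η) with hz
  have hz0 : 0 ≤ z := by positivity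
  have ha0 : 0 ≤ a := by positivity
  have hb0 : 0 ≤ b := by positivity
  have haM : s * a ≤ M * z := by
    have h1 : 0 ≤ s * ((2 * T + 2 * C) * ζ + (2 * A + T + 2 * C) * η) := by positivity
    have h2 : M * z - s * a = s * ((2 * T + 2 * C) * ζ + (2 * A + T + 2 * C) * η) := by
      rw [hz, ha, hM]; ring
    linarith
  have hbM : s * b ≤ M * z := by
    have h1 : 0 ≤ s * ((2 * A + T + 2 * C) * ζ + (2 * A + 2 * T) * η) := by positivity
    have h2 : M * z - s * b = s * ((2 * A + T + 2 * C) * ζ + (2 * A + 2 * T) * η) := by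
      rw [hz, hb, hM]; ring
    linarith
  have hE1 : ex A T C t ζ η ≤ Real.exp (-(μ * z ^ 2)) := by
    rw [hE]
    apply Real.exp_le_exp.2
    apply neg_le_neg
    have h1 : μ * (ζ + η) ^ 2 ≤ A * ζ ^ 2 + T * (ζ * η) + C * η ^ 2 := by
      have h2 : 0 ≤ (A - μ) * ζ ^ 2 := mul_nonneg (by linarith) (by positivity)
      have h3 : 0 ≤ (C - μ) * η ^ 2 := mul_nonneg (by linarith) (by positivity)
      have h4 : 0 ≤ (T - 2 * μ) * (ζ * η) := mul_nonneg (by linarith) (by positivity)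
      have h5 : A * ζ ^ 2 + T * (ζ * η) + C * η ^ 2 - μ * (ζ + η) ^ 2 =
          (A - μ) * ζ ^ 2 + (T - 2 * μ) * (ζ * η) + (C - μ) * η ^ 2 := by ring
      linarith
    calc μ * z ^ 2 = t * (μ * (ζ + η) ^ 2) := by rw [hz, mul_pow, hst]; ring
      _ ≤ t * (A * ζ ^ 2 + T * (ζ * η) + C * η ^ 2) := by gcongr
  have hE0 : 0 ≤ ex A T C t ζ η := by rw [hE]; positivity
  have hW := poly_bound hμ hz0
  set W := Real.exp (μ / 2 * z ^ 2) with hWd
  have hpoly : |2 * T * t ^ 2 * a - t ^ 3 * a ^ 2 * b + 2 * A * t ^ 2 * b| ≤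
      (t * s) * (((2 * T + 2 * A) * M * (1 + 2 / μ) + M ^ 3 * (1 + 8 / μ ^ 2)) * W) := by
    have h1 : |2 * T * t ^ 2 * a - t ^ 3 * a ^ 2 * b + 2 * A * t ^ 2 * b| ≤
        2 * T * t ^ 2 * a + t ^ 3 * a ^ 2 * b + 2 * A * t ^ 2 * b := by
      rw [abs_le]
      have h2 : 0 ≤ 2 * T * t ^ 2 * a := by positivity
      have h3 : 0 ≤ t ^ 3 * a ^ 2 * b := by positivity
      have h4 : 0 ≤ 2 * A * t ^ 2 * b := by positivity
      constructor <;> linarith
    have h2 : 2 * T * t ^ 2 * a + t ^ 3 * a ^ 2 * b + 2 * A * t ^ 2 * b =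
        (t * s) * (2 * T * (s * a) + (s * a) ^ 2 * (s * b) + 2 * A * (s * b)) := by
      have h3 : t ^ 2 = t * s ^ 2 := by rw [hst]; ring
      have h4 : t ^ 3 = t * s ^ 2 * s ^ 2 := by rw [hst]; ring
      rw [h3, h4]
      ring
    rw [h2] at h1
    refine h1.trans ?_
    have hsa : 0 ≤ s * a := by positivity
    have hsb : 0 ≤ s * b := by positivity
    gcongr
    have h5 : (s * a) ^ 2 * (s * b) ≤ (M * z) ^ 2 * (M * z) := by gcongr
    have h6 : 2 * T * (s * a) ≤ 2 * T * (M * z) := by gcongr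
    have h7 : 2 * A * (s * b) ≤ 2 * A * (M * z) := by gcongr
    have h8 : (2 * T + 2 * A) * M * z ≤ (2 * T + 2 * A) * M * ((1 + 2 / μ) * W) := by
      have := hW.1
      gcongr
    have h9 : M ^ 3 * z ^ 3 ≤ M ^ 3 * ((1 + 8 / μ ^ 2) * W) := by
      have := hW.2
      gcongr
    calc 2 * T * (s * a) + (s * a) ^ 2 * (s * b) + 2 * A * (s * b)
        ≤ 2 * T * (M * z) + (M * z) ^ 2 * (M * z) + 2 * A * (M * z) := by linarith
      _ = (2 * T + 2 * A) * M * z + M ^ 3 * z ^ 3 := by ring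
      _ ≤ (2 * T + 2 * A) * M * ((1 + 2 / μ) * W) + M ^ 3 * ((1 + 8 / μ ^ 2) * W) :=
        add_le_add h8 h9
      _ = _ := by ring
  rw [abs_mul, abs_of_nonneg hE0]
  have hfin : W * Real.exp (-(μ * z ^ 2)) ≤ Real.exp (-(μ / 2 * t * (x ^ 2 + y ^ 2))) := by
    rw [hWd, ← Real.exp_add]
    apply Real.exp_le_exp.2
    have h1 : z ^ 2 = t * (ζ + η) ^ 2 := by rw [hz, mul_pow, hst]
    have h2 : x ^ 2 + y ^ 2 ≤ (ζ + η) ^ 2 := by
      have h3 : x ^ 2 ≤ ζ ^ 2 := pow_le_pow_left₀ hx hζ 2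
      have h4 : y ^ 2 ≤ η ^ 2 := pow_le_pow_left₀ hy hη 2
      have h5 : 0 ≤ ζ * η := by positivity
      have h6 : (ζ + η) ^ 2 = ζ ^ 2 + η ^ 2 + 2 * (ζ * η) := by ring
      linarith
    have h6 : μ / 2 * t * (x ^ 2 + y ^ 2) ≤ μ / 2 * t * (ζ + η) ^ 2 := by gcongr
    rw [h1]
    linarith
  calc |2 * T * t ^ 2 * a - t ^ 3 * a ^ 2 * b + 2 * A * t ^ 2 * b| * ex A T C t ζ η
      ≤ ((t * s) * (((2 * T + 2 * A) * M * (1 + 2 / μ) + M ^ 3 * (1 + 8 / μ ^ 2)) * W)) *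
        Real.exp (-(μ * z ^ 2)) := mul_le_mul hpoly hE1 hE0 (by positivity)
    _ = ((2 * T + 2 * A) * M * (1 + 2 / μ) + M ^ 3 * (1 + 8 / μ ^ 2)) * (t * s) *
        (W * Real.exp (-(μ * z ^ 2))) := by ring
    _ ≤ _ := by gcongr

end CN94
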