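import Pool.Agent.Lib_CN94.DiffBA
import Pool.Agent.Lib_CN94.DiffBB
import Pool.Agent.Lib_CN94.DiffBC

/-!
# Bounds for the differences of the kernel (collects the three pieces)
-/
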