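import Pool.Agent.Lib_CN94.Defs

/-!
# Piece KAP: discrete primitives of periodic functions
-/

namespace CN94

/-- the zero mean primitive of `δ₀ - 1/q` -/
noncomputable def kap (q : ℕ) (x : ZMod q) : ℝ := ((q : ℝ) - 1) / (2 * q) - (x.val : ℝ) / q

/-- the zero mean primitive of `g` -/
noncomputable def prim (q : ℕ) [NeZero q] (g : ZMod q → ℝ) (x : ZMod q) : ℝ :=
  ∑ a, g a * kap q (x - a)

variable (q : ℕ) [NeZero q]

theorem kap_q_ne : (q : ℝ) ≠ 0 := by exact_mod_cast NeZero.ne q

/-- sums over `ZMod q` of functions of the value -/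
theorem kap_sum_val (f : ℕ → ℝ) : ∑ x : ZMod q, f x.val = ∑ n ∈ Finset.range q, f n := by
  refine Finset.sum_nbij (fun x => x.val) (fun x _ => ?_) (fun x _ y _ h => ?_) (fun n hn => ?_)
    (fun x _ => rfl)
  · exact Finset.mem_range.2 (ZMod.val_lt x)
  · exact ZMod.val_injective q h
  · have hn' : n < q := Finset.mem_range.1 (Finset.mem_coe.1 hn)
    exact ⟨(n : ZMod q), Finset.mem_coe.2 (Finset.mem_univ _), ZMod.val_natCast_of_lt hn'⟩

/-- PROOF: `∑ x.val = q (q-1) / 2`. -/
theorem kap_sum : ∑ x, kap q x = 0 := by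
  unfold kap
  rw [kap_sum_val q (fun n => ((q : ℝ) - 1) / (2 * q) - (n : ℝ) / q), Finset.sum_sub_distrib,
    Finset.sum_const, Finset.card_range, nsmul_eq_mul, ← Finset.sum_div]
  have h1 : (∑ n ∈ Finset.range q, (n : ℝ)) * 2 = q * (q - 1) := by
    have h2 := Finset.sum_range_id_mul_two q
    have h3 : 1 ≤ q := Nat.one_le_iff_ne_zero.2 (NeZero.ne q)
    have h4 : (((∑ i ∈ Finset.range q, i) * 2 : ℕ) : ℝ) = ((q * (q - 1) : ℕ) : ℝ) := by rw [h2]
    rw [Nat.cast_mul, Nat.cast_mul, Nat.cast_sub h3, Nat.cast_sum] at h4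
    push_cast at h4
    exact h4
  have hq := kap_q_ne q
  field_simp
  linear_combination -h1

/-- the value of `x - 1` -/
theorem kap_val_sub_one (x : ZMod q) :
    ((x - 1).val : ℝ) = (if x = 0 then (q : ℝ) else 0) + x.val - 1 := by
  have hq : 1 ≤ q := Nat.one_le_iff_ne_zero.2 (NeZero.ne q)
  by_cases hx : x = 0
  · subst hx
    have h1 : (0 - 1 : ZMod q) = ((q - 1 : ℕ) : ZMod q) := by
      rw [Nat.cast_sub hq]
      simp
    rw [h1, ZMod.val_natCast_of_lt (by omega), if_pos rfl, ZMod.val_zero, Nat.cast_sub hq]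
    push_cast
    ring
  · have h0 : 1 ≤ x.val := Nat.one_le_iff_ne_zero.2 fun h => hx ((ZMod.val_eq_zero x).1 h)
    have h1 : x - 1 = ((x.val - 1 : ℕ) : ZMod q) := by
      rw [Nat.cast_sub h0, ZMod.natCast_zmod_val]
      simp
    have h2 := ZMod.val_lt x
    rw [h1, ZMod.val_natCast_of_lt (by omega), if_neg hx, Nat.cast_sub h0]
    push_cast
    ring

/-- the value of `-1 - x` -/
theorem kap_val_neg (x : ZMod q) : ((-1 - x).val : ℝ) = q - 1 - x.val := by
  have h2 := ZMod.val_lt x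
  have hq : 1 ≤ q := by omega
  have h3 : x.val ≤ q - 1 := by omega
  have h1 : -1 - x = ((q - 1 - x.val : ℕ) : ZMod q) := by
    rw [Nat.cast_sub h3, Nat.cast_sub hq, ZMod.natCast_zmod_val]
    simp
  rw [h1, ZMod.val_natCast_of_lt (by omega), Nat.cast_sub h3, Nat.cast_sub hq]
  push_cast
  ring

theorem kap_neg (x : ZMod q) : kap q (-1 - x) = - kap q x := by
  have hq := kap_q_ne q
  unfold kap
  rw [kap_val_neg]
  field_simp
  ring

/-- PROOF: for `x ≠ 0`, `(x - 1).val = x.val - 1`; for `x = 0`, `(-1).val = q - 1`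
(also for `q = 1`). -/
theorem kap_diff (x : ZMod q) : kap q x - kap q (x - 1) = (if x = 0 then 1 else 0) - 1 / q := by
  have hq := kap_q_ne q
  unfold kap
  rw [kap_val_sub_one]
  split_ifs
  · field_simp
    ring
  · field_simp
    ring

/-- PROOF: `a = 0`: `kap 0 = (q-1)/(2q)`, `kap (-1) = -(q-1)/(2q)`.  `a ≠ 0`:
`(-a).val = q - a.val`, `(-a-1).val = q - a.val - 1`. -/
theorem kap_saw (a : ZMod q) : (kap q (-a) + kap q (-a - 1)) / 2 = saw q a := by
  have hq := kap_q_ne q
  have h1 := kap_diff q (-a)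
  have h2 : kap q (-a - 1) = - kap q a := by
    rw [← kap_neg]
    congr 1
    ring
  have h3 : kap q (-a) = -kap q a + ((if -a = 0 then 1 else 0) - 1 / q) := by
    rw [← h1, h2]
    ring
  rw [h3, h2]
  unfold saw kap
  by_cases ha : a = 0
  · subst ha
    simp only [neg_zero, if_true, ZMod.val_zero]
    push_cast
    field_simp
    ring
  · rw [if_neg (neg_ne_zero.2 ha), if_neg ha]
    field_simp
    ring

/-- PROOF: `kap_diff` at `x - a`. -/
theorem prim_diff (g : ZMod q → ℝ) (hg : ∑ x, g x = 0) (x : ZMod q) :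
    prim q g x - prim q g (x - 1) = g x := by
  unfold prim
  rw [← Finset.sum_sub_distrib]
  have h1 : ∀ a ∈ Finset.univ, g a * kap q (x - a) - g a * kap q (x - 1 - a) =
      (if x = a then g a else 0) - g a * (1 / q) := by
    intro a _
    have h2 := kap_diff q (x - a)
    have h3 : x - a - 1 = x - 1 - a := by ring
    rw [h3] at h2
    rw [← mul_sub, h2, mul_sub]
    congr 1
    by_cases hxa : x = a
    · rw [if_pos (sub_eq_zero.2 hxa), if_pos hxa, mul_one]
    · rw [if_neg (fun h => hxa (sub_eq_zero.1 h)), if_neg hxa, mul_zero]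
  rw [Finset.sum_congr rfl h1, Finset.sum_sub_distrib, ← Finset.sum_mul, hg, zero_mul, sub_zero,
    Finset.sum_ite_eq Finset.univ x g, if_pos (Finset.mem_univ _)]

/-- PROOF: exchange the sums, `kap_sum` (translation invariance). -/
theorem prim_sum (g : ZMod q → ℝ) : ∑ x, prim q g x = 0 := by
  unfold prim
  rw [Finset.sum_comm]
  refine Finset.sum_eq_zero fun a _ => ?_
  rw [← Finset.mul_sum]
  have h1 : ∑ x, kap q (x - a) = ∑ x, kap q x :=
    Equiv.sum_comp (Equiv.subRight a) (fun x => kap q x)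
  rw [h1, kap_sum, mul_zero]

/-- PROOF: `kap_saw`. -/
theorem prim_saw (g : ZMod q → ℝ) : (prim q g 0 + prim q g (-1)) / 2 = ∑ a, g a * saw q a := by
  unfold prim
  rw [← Finset.sum_add_distrib, Finset.sum_div]
  refine Finset.sum_congr rfl fun a _ => ?_
  rw [← kap_saw]
  have h1 : (0 : ZMod q) - a = -a := by ring
  have h2 : (-1 : ZMod q) - a = -a - 1 := by ring
  rw [h1, h2]
  ring

theorem kap_saw_neg (a : ZMod q) : saw q (-a) = - saw q a := by
  rw [← kap_saw, ← kap_saw, neg_neg]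
  have h1 : -a - 1 = -1 - a := by ring
  have h2 : a - 1 = -1 - (-a) := by ring
  rw [h1, h2, kap_neg, kap_neg]
  ring

/-- PROOF: `saw (-a) = -saw a` (prove it here or import `Saw.lean`), so the sum is its own negative. -/
theorem saw_even_sum (g : ZMod q → ℝ) (hev : ∀ x, g (-x) = g x) : ∑ a, g a * saw q a = 0 := by
  have h1 : ∑ a, g a * saw q a = ∑ a, g (-a) * saw q (-a) :=
    (Equiv.sum_comp (Equiv.neg (ZMod q)) (fun a => g a * saw q a)).symm
  have h2 : ∑ a, g (-a) * saw q (-a) = -∑ a, g a * saw q a := by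
    rw [← Finset.sum_neg_distrib]
    refine Finset.sum_congr rfl fun a _ => ?_
    rw [hev, kap_saw_neg]
    ring
  linarith

theorem kap_bb_diff (x : ZMod q) : bb q x - bb q (x - 1) = -(2 / q) * kap q (x - 1) := by
  have hq := kap_q_ne q
  unfold bb kap
  rw [kap_val_sub_one]
  by_cases hx : x = 0
  · subst hx
    rw [if_pos rfl, ZMod.val_zero]
    push_cast
    field_simp
    ring
  · rw [if_neg hx]
    field_simp
    ring

/-- PROOF: let `h1 = prim g`, `h2 = prim h1`; `g a = h1 a - h1 (a-1) = h2 a - 2 h2 (a-1) + h2 (a-2)`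
(`prim_diff`, `prim_sum`).  Hence `∑ g a b(a) = ∑ h2 a (b(a) - 2 b(a+1) + b(a+2))` and
`b(c-1) - 2 b(c) + b(c+1) = (2/q) (1/q - [c = 0])` (for `c ≠ 0`, `c ≠ -1` from
`b(c) = u² - u + 1/6`, `u = c.val/q`; for `c = 0`: `b(1) = b(-1) = 1/q² - 1/q + 1/6`; the value
`u = 1` gives the same as `u = 0`, so `c = -1` is no exception).  Therefore
`∑ g b = (2/q²) ∑ h2 - (2/q) h2 (-1) = -(2/q) h2 (-1)`. -/
theorem prim2 (g : ZMod q → ℝ) (hg : ∑ x, g x = 0) :
    prim q (prim q g) (-1) = -((q : ℝ) / 2) * ∑ a, g a * bb q a := by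
  have hq := kap_q_ne q
  have h1 : ∑ a, g a * bb q a = (2 / q) * ∑ a, prim q g a * kap q a := by
    have h2 : ∀ a ∈ Finset.univ, g a * bb q a = prim q g a * bb q a - prim q g (a - 1) * bb q a := by
      intro a _
      rw [← sub_mul, prim_diff q g hg]
    have h3 : ∑ a, prim q g (a - 1) * bb q a = ∑ a, prim q g a * bb q (a + 1) := by
      rw [← Equiv.sum_comp (Equiv.subRight (1 : ZMod q))
        (fun a => prim q g a * bb q (a + 1))]
      refine Finset.sum_congr rfl fun a _ => ?_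
      show _ = prim q g (a - 1) * bb q (a - 1 + 1)
      rw [sub_add_cancel]
    rw [Finset.sum_congr rfl h2, Finset.sum_sub_distrib, h3, ← Finset.sum_sub_distrib,
      Finset.mul_sum]
    refine Finset.sum_congr rfl fun a _ => ?_
    have h4 := kap_bb_diff q (a + 1)
    rw [add_sub_cancel_right] at h4
    linear_combination (-prim q g a) * h4
  have h5 : prim q (prim q g) (-1) = -∑ a, prim q g a * kap q a := by
    rw [← Finset.sum_neg_distrib]
    show ∑ a, prim q g a * kap q (-1 - a) = _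
    refine Finset.sum_congr rfl fun a _ => ?_
    rw [kap_neg]
    ring
  rw [h5, h1]
  field_simp

end CN94
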