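import Pool.Agent.Lib_CN94.Gauss
import Pool.Agent.Lib_CN94.DiffB
import Pool.Agent.Lib_CN94.Abel
import Pool.Agent.Lib_CN94.Kap

/-!
# Piece CONEI: the cone limit for coefficients with zero row and column sums
-/

namespace CN94

open Filter Topology

private theorem coneI_hw (n : ℕ) : |hw n| ≤ 1 := by
  unfold hw
  split_ifs
  · rw [abs_of_pos (by norm_num)]; norm_num
  · rw [abs_one]

private theorem coneI_sum_mul {β : Type} {Φ c : β → ℝ} {M : ℝ} (hΦ : Summable Φ)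
    (hc : ∀ p, |c p| ≤ M) : Summable fun p => c p * Φ p := by
  refine Summable.of_norm_bounded (g := fun p => M * |Φ p|) (hΦ.abs.mul_left M) fun p => ?_
  rw [Real.norm_eq_abs, abs_mul]
  exact mul_le_mul_of_nonneg_right (hc p) (abs_nonneg _)

private theorem coneI_bdd {q : ℕ} [NeZero q] (g : ZMod q → ZMod q → ℝ) (x y : ZMod q) :
    |g x y| ≤ ∑ a, ∑ b, |g a b| :=
  (Finset.single_le_sum (f := fun b => |g x b|) (fun b _ => abs_nonneg _)
    (Finset.mem_univ y)).trans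
    (Finset.single_le_sum (f := fun a => ∑ b, |g a b|)
      (fun a _ => Finset.sum_nonneg fun b _ => abs_nonneg _) (Finset.mem_univ x))

private theorem coneI_shift1 {Φ : ℕ → ℕ → ℝ} (hΦ : Summable fun p : ℕ × ℕ => Φ p.1 p.2) (k : ℕ) :
    Summable fun p : ℕ × ℕ => Φ (p.1 + k) p.2 :=
  hΦ.comp_injective (i := fun p : ℕ × ℕ => (p.1 + k, p.2)) (by
    intro a b h
    have h1 := congrArg Prod.fst h
    have h2 := congrArg Prod.snd h
    exact Prod.ext (Nat.add_right_cancel h1) h2)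

private theorem coneI_swap {Φ : ℕ → ℕ → ℝ} (hΦ : Summable fun p : ℕ × ℕ => Φ p.1 p.2) :
    Summable fun p : ℕ × ℕ => Φ p.2 p.1 := hΦ.prod_symm

private theorem coneI_tswap (F : ℕ → ℕ → ℝ) :
    ∑' p : ℕ × ℕ, F p.1 p.2 = ∑' p : ℕ × ℕ, F p.2 p.1 :=
  ((Equiv.prodComm ℕ ℕ).tsum_eq (fun p : ℕ × ℕ => F p.1 p.2)).symm

private theorem coneI_tprod {F : ℕ → ℕ → ℝ} (hF : Summable fun p : ℕ × ℕ => F p.1 p.2) :
    ∑' p : ℕ × ℕ, F p.1 p.2 = ∑' y, ∑' x, F x y := by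
  rw [coneI_tswap]
  exact (coneI_swap hF).tsum_prod

private theorem coneI_sprod {F : ℕ → ℕ → ℝ} (hF : Summable fun p : ℕ × ℕ => F p.1 p.2) :
    Summable fun y => ∑' x, F x y := (coneI_swap hF).prod

private theorem coneI_abel {q : ℕ} [NeZero q] (g : ZMod q → ZMod q → ℝ) (w : ℕ → ℝ)
    (hw1 : ∀ n, |w n| ≤ 1) (Φ : ℕ → ℕ → ℝ) (hΦ : Summable fun p : ℕ × ℕ => Φ p.1 p.2) :
    ∑' p : ℕ × ℕ, hw p.1 * (w p.2 * g p.1 p.2 - w p.2 * g ((p.1 : ZMod q) - 1) p.2) *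
        Φ p.1 p.2 =
      -(∑' y : ℕ, w y * ((g 0 y + g (-1) y) / 2) * Φ 0 y) -
        ∑' p : ℕ × ℕ, w p.2 * g p.1 p.2 * (Φ (p.1 + 1) p.2 - Φ p.1 p.2) := by
  have hM := coneI_bdd g
  set M := ∑ a, ∑ b, |g a b| with hMdef
  have hwg : ∀ (x : ZMod q) (y : ℕ), |w y * g x y| ≤ M := by
    intro x y
    rw [abs_mul]
    calc |w y| * |g x y| ≤ 1 * M := mul_le_mul (hw1 y) (hM x y) (abs_nonneg _) zero_le_one
      _ = M := one_mul M
  have hS1 : Summable fun p : ℕ × ℕ =>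
      hw p.1 * (w p.2 * g p.1 p.2 - w p.2 * g ((p.1 : ZMod q) - 1) p.2) * Φ p.1 p.2 := by
    refine coneI_sum_mul (M := 2 * M) hΦ fun p => ?_
    rw [abs_mul]
    calc |hw p.1| * |w p.2 * g p.1 p.2 - w p.2 * g ((p.1 : ZMod q) - 1) p.2|
        ≤ 1 * (M + M) := mul_le_mul (coneI_hw _)
          ((abs_sub _ _).trans (add_le_add (hwg _ _) (hwg _ _))) (abs_nonneg _) zero_le_one
      _ = 2 * M := by ring
  have hS2 : Summable fun p : ℕ × ℕ => w p.2 * g p.1 p.2 * (Φ (p.1 + 1) p.2 - Φ p.1 p.2) :=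
    coneI_sum_mul (c := fun p : ℕ × ℕ => w p.2 * g p.1 p.2) ((coneI_shift1 hΦ 1).sub hΦ)
      (fun p => hwg _ _)
  have hΦ0 : Summable fun y : ℕ => Φ 0 y :=
    hΦ.comp_injective (i := fun y : ℕ => (0, y)) (fun a b h => congrArg Prod.snd h)
  have hS0 : Summable fun y : ℕ => w y * ((g 0 y + g (-1) y) / 2) * Φ 0 y := by
    refine coneI_sum_mul (c := fun y : ℕ => w y * ((g 0 y + g (-1) y) / 2)) (M := M) hΦ0
      (fun y => ?_)
    have h1 := hwg 0 y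
    have h2 := hwg (-1) y
    have h3 : w y * ((g 0 y + g (-1) y) / 2) = (w y * g 0 y + w y * g (-1) y) / 2 := by ring
    show |w y * ((g 0 y + g (-1) y) / 2)| ≤ M
    rw [h3, abs_le]
    rw [abs_le] at h1 h2
    constructor <;> linarith
  rw [coneI_tprod (F := fun x y => hw x * (w y * g x y - w y * g ((x : ZMod q) - 1) y) * Φ x y) hS1,
    coneI_tprod (F := fun x y => w y * g x y * (Φ (x + 1) y - Φ x y)) hS2, ← tsum_neg,
    ← Summable.tsum_sub hS0.neg (coneI_sprod (F := fun x y => w y * g x y * (Φ (x + 1) y - Φ x y))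
      hS2)]
  refine tsum_congr fun y => ?_
  have hy : Summable fun x : ℕ => Φ x y :=
    hΦ.comp_injective (i := fun x : ℕ => (x, y)) (fun a b h => congrArg Prod.fst h)
  rw [abel1 q (fun x => w y * g x y) (fun x => Φ x y) hy]
  congr 1
  ring

private theorem coneI_bound {q : ℕ} [NeZero q] (g : ZMod q → ZMod q → ℝ)
    (hg : ∀ y, ∑ x, g x y = 0) (D : ℕ → ℕ → ℝ) (hD : Summable fun p : ℕ × ℕ => D p.1 p.2) :
    |∑' p : ℕ × ℕ, g p.1 p.2 * (D (p.1 + 1) p.2 - D p.1 p.2)| ≤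
      (∑ a, ∑ b, |g a b|) *
        ∑' p : ℕ × ℕ, |D (p.1 + 2) p.2 - 2 * D (p.1 + 1) p.2 + D p.1 p.2| := by
  have hM := coneI_bdd g
  set M := ∑ a, ∑ b, |g a b| with hMdef
  have hS2 : Summable fun p : ℕ × ℕ => g p.1 p.2 * (D (p.1 + 1) p.2 - D p.1 p.2) :=
    coneI_sum_mul (c := fun p : ℕ × ℕ => g p.1 p.2) ((coneI_shift1 hD 1).sub hD)
      (fun p => hM _ _)
  have hS3 : Summable fun p : ℕ × ℕ => |D (p.1 + 2) p.2 - 2 * D (p.1 + 1) p.2 + D p.1 p.2| :=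
    (((coneI_shift1 hD 2).sub ((coneI_shift1 hD 1).mul_left 2)).add hD).abs
  rw [coneI_tprod (F := fun x y => g x y * (D (x + 1) y - D x y)) hS2,
    coneI_tprod (F := fun x y => |D (x + 2) y - 2 * D (x + 1) y + D x y|) hS3, ← tsum_mul_left]
  have hn : ‖∑' y : ℕ, ∑' x : ℕ, g x y * (D (x + 1) y - D x y)‖ ≤
      ∑' y : ℕ, ‖∑' x : ℕ, g x y * (D (x + 1) y - D x y)‖ :=
    norm_tsum_le_tsum_norm (coneI_sprod (F := fun x y => g x y * (D (x + 1) y - D x y)) hS2).norm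
  refine (le_of_eq (Real.norm_eq_abs _).symm).trans (hn.trans ?_)
  refine Summable.tsum_le_tsum (fun y => ?_)
    (coneI_sprod (F := fun x y => g x y * (D (x + 1) y - D x y)) hS2).norm
    ((coneI_sprod (F := fun x y => |D (x + 2) y - 2 * D (x + 1) y + D x y|) hS3).mul_left M)
  have hy : Summable fun x : ℕ => D x y :=
    hD.comp_injective (i := fun x : ℕ => (x, y)) (fun a b h => congrArg Prod.fst h)
  have hy1 : Summable fun x : ℕ => D (x + 1) y :=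
    hy.comp_injective (i := fun x : ℕ => x + 1) (fun a b h => Nat.add_right_cancel h)
  have hb := abel_bound q (fun x => g x y) (hg y) (fun x => D (x + 1) y - D x y) (hy1.sub hy)
  rw [Real.norm_eq_abs]
  refine hb.trans ?_
  have hpos : 0 ≤ ∑' x : ℕ, |D (x + 2) y - 2 * D (x + 1) y + D x y| :=
    tsum_nonneg fun _ => abs_nonneg _
  have he : ∑' n : ℕ, |D (n + 1 + 1) y - D (n + 1) y - (D (n + 1) y - D n y)| =
      ∑' x : ℕ, |D (x + 2) y - 2 * D (x + 1) y + D x y| := by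
    refine tsum_congr fun x => ?_
    congr 1
    ring
  rw [he]
  refine mul_le_mul_of_nonneg_right ?_ hpos
  rw [hMdef]
  refine Finset.sum_le_sum fun a _ => ?_
  exact Finset.single_le_sum (f := fun b => |g a b|) (fun b _ => abs_nonneg _)
    (Finset.mem_univ (y : ZMod q))

private theorem coneI_one {q : ℕ} [NeZero q] (h : ZMod q → ℝ) (hz : ∑ x, h x = 0) (ψ : ℕ → ℝ)
    (hψ : Summable ψ) {B c K t : ℝ} (hc : 0 < c) (ht : 0 < t) (hB0 : 0 ≤ B)
    (hB : ∀ n : ℕ, |ψ (n + 2) - 2 * ψ (n + 1) + ψ n| ≤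
      B * t * Real.exp (-(c * t * (n : ℝ) ^ 2)))
    (hK : ∑' n : ℕ, Real.exp (-(c * t * (n : ℝ) ^ 2)) ≤ K / Real.sqrt t) :
    |∑' n : ℕ, h n * (ψ (n + 1) - ψ n)| ≤ (∑ x, |h x|) * (B * K) * Real.sqrt t := by
  have hψ1 : Summable fun x : ℕ => ψ (x + 1) :=
    hψ.comp_injective (i := fun x : ℕ => x + 1) (fun a b h => Nat.add_right_cancel h)
  have hψ2 : Summable fun x : ℕ => ψ (x + 2) :=
    hψ.comp_injective (i := fun x : ℕ => x + 2) (fun a b h => Nat.add_right_cancel h)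
  have hb := abel_bound q h hz (fun x => ψ (x + 1) - ψ x) (hψ1.sub hψ)
  have he : ∑' n : ℕ, |ψ (n + 1 + 1) - ψ (n + 1) - (ψ (n + 1) - ψ n)| =
      ∑' x : ℕ, |ψ (x + 2) - 2 * ψ (x + 1) + ψ x| := by
    refine tsum_congr fun x => ?_
    congr 1
    ring
  rw [he] at hb
  have hs : Summable fun x : ℕ => |ψ (x + 2) - 2 * ψ (x + 1) + ψ x| :=
    ((hψ2.sub (hψ1.mul_left 2)).add hψ).abs
  have h1 : ∑' x : ℕ, |ψ (x + 2) - 2 * ψ (x + 1) + ψ x| ≤
      ∑' n : ℕ, B * t * Real.exp (-(c * t * (n : ℝ) ^ 2)) :=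
    hs.tsum_le_tsum hB ((gauss_summable c t hc ht).mul_left (B * t))
  rw [tsum_mul_left] at h1
  have hsq : 0 < Real.sqrt t := Real.sqrt_pos.2 ht
  have h2 : B * t * ∑' n : ℕ, Real.exp (-(c * t * (n : ℝ) ^ 2)) ≤ B * K * Real.sqrt t := by
    calc B * t * ∑' n : ℕ, Real.exp (-(c * t * (n : ℝ) ^ 2))
        ≤ B * t * (K / Real.sqrt t) := mul_le_mul_of_nonneg_left hK (by positivity)
      _ = B * (Real.sqrt t * Real.sqrt t) * (K / Real.sqrt t) := by rw [Real.mul_self_sqrt ht.le]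
      _ = B * K * Real.sqrt t := by field_simp
  have h3 : 0 ≤ ∑ x, |h x| := Finset.sum_nonneg fun _ _ => abs_nonneg _
  calc |∑' n : ℕ, h n * (ψ (n + 1) - ψ n)|
      ≤ (∑ x, |h x|) * ∑' x : ℕ, |ψ (x + 2) - 2 * ψ (x + 1) + ψ x| := hb
    _ ≤ (∑ x, |h x|) * (B * K * Real.sqrt t) := mul_le_mul_of_nonneg_left (h1.trans h2) h3
    _ = (∑ x, |h x|) * (B * K) * Real.sqrt t := by ring

/-- PROOF: write `φ x y = ex A T C t x y`.  Let `H x y = ∑_{a,b} G a b kap (x-a) kap (y-b)` on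
`(ZMod q)²`; it has zero mean in each variable, and
`G x y = H x y - H (x-1) y - H x (y-1) + H (x-1) (y-1)` (`prim_diff` in both variables, row and column
sums vanish).  For fixed `y : ℕ` put `h x = H x y - H x (y-1)`; `abel1` in `x`:
`∑'_x hw x G x y φ x y = -((h 0 + h (-1))/2) φ 0 y - ∑'_x h x (φ (x+1) y - φ x y)`.
Sum over `y` with weights `hw y` (exchange the sums in the second part, everything is dominated by
`ex_summable`), and use `abel1` in `y`: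
with `u y = (H 0 y + H (-1) y)/2`, `v x = (H x 0 + H x (-1))/2`,
`S = (u 0 + u (-1))/2 φ 0 0 + ∑'_y u y (φ 0 (y+1) - φ 0 y) + ∑'_x v x (φ (x+1) 0 - φ x 0)
     + ∑'_x ∑'_y H x y (φ (x+1) (y+1) - φ x (y+1) - φ (x+1) y + φ x y)`.
First term: `φ 0 0 = 1` and `(u 0 + u (-1))/2 = ∑ G a b saw a saw b` (`kap_saw` twice).
Second: `u` has mean zero, `abel_bound`: `≤ K ∑'_y |φ 0 (y+2) - 2 φ 0 (y+1) + φ 0 y|
≤ K' t ∑ exp (-(c t y²)) ≤ K'' √t → 0` (`diff_xx` for `ex_swap`, `gauss_sum`); third the same.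
Fourth: for each `y`, `x ↦ H x y` has mean zero: `abel_bound` in `x` gives
`≤ K ∑'_x |second difference in x of the difference in y| ≤ K' t √t ∑'_x exp (-(c t (x²+y²)))`
(`diff_xxy`), summing over `y`: `≤ K'' t √t / t → 0` (`gauss_sum2`). -/
theorem coneI (q : ℕ) [NeZero q] (G : ZMod q → ZMod q → ℝ) (hr : ∀ x, ∑ y, G x y = 0)
    (hc : ∀ y, ∑ x, G x y = 0) (A T C : ℝ) (hA : 0 < A) (hT : 0 < T) (hC : 0 < C) :
    Tendsto (fun t : ℝ => ∑' p : ℕ × ℕ,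
      hw p.1 * hw p.2 * G (p.1 : ZMod q) (p.2 : ZMod q) * ex A T C t p.1 p.2) (𝓝[>] 0)
      (𝓝 (∑ x, ∑ y, G x y * (saw q x * saw q y))) := by
  classical
  -- the primitives
  set G1 : ZMod q → ZMod q → ℝ := fun x y => prim q (fun a => G a y) x with hG1
  set u1 : ZMod q → ℝ := fun y => (G1 0 y + G1 (-1) y) / 2 with hu1
  set U : ZMod q → ℝ := prim q u1 with hU
  set H : ZMod q → ZMod q → ℝ := fun x y => prim q (fun b => G1 x b) y with hH
  have hG1x : ∀ y, ∑ x, G1 x y = 0 := fun y => prim_sum q (fun a => G a y)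
  have hG1y : ∀ x, ∑ y, G1 x y = 0 := by
    intro x
    show ∑ y, ∑ a, G a y * kap q (x - a) = 0
    rw [Finset.sum_comm]
    refine Finset.sum_eq_zero fun a _ => ?_
    rw [← Finset.sum_mul, hr a, zero_mul]
  have hHx : ∀ y, ∑ x, H x y = 0 := by
    intro y
    show ∑ x, ∑ b, G1 x b * kap q (y - b) = 0
    rw [Finset.sum_comm]
    refine Finset.sum_eq_zero fun b _ => ?_
    rw [← Finset.sum_mul, hG1x b, zero_mul]
  have hu1s : ∑ y, u1 y = 0 := by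
    show ∑ y, (G1 0 y + G1 (-1) y) / 2 = 0
    rw [← Finset.sum_div, Finset.sum_add_distrib, hG1y 0, hG1y (-1), add_zero, zero_div]
  have hUs : ∑ y, U y = 0 := prim_sum q u1
  set v : ZMod q → ℝ := fun x => (H x 0 + H x (-1)) / 2 with hv
  have hvs : ∑ x, v x = 0 := by
    show ∑ x, (H x 0 + H x (-1)) / 2 = 0
    rw [← Finset.sum_div, Finset.sum_add_distrib, hHx 0, hHx (-1), add_zero, zero_div]
  have hmain : (U 0 + U (-1)) / 2 = ∑ x, ∑ y, G x y * (saw q x * saw q y) := by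
    rw [hU, prim_saw q u1, Finset.sum_comm]
    refine Finset.sum_congr rfl fun b _ => ?_
    have h1 : u1 b = ∑ a, G a b * saw q a := prim_saw q (fun a => G a b)
    rw [h1, Finset.sum_mul]
    refine Finset.sum_congr rfl fun a _ => ?_
    ring
  -- the identity
  have hid : ∀ t : ℝ, 0 < t → ∑' p : ℕ × ℕ,
      hw p.1 * hw p.2 * G (p.1 : ZMod q) (p.2 : ZMod q) * ex A T C t p.1 p.2 =
      (∑ x, ∑ y, G x y * (saw q x * saw q y)) +
        ∑' y : ℕ, U y * (ex A T C t 0 ((y + 1 : ℕ) : ℝ) - ex A T C t 0 y) +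
        ∑' x : ℕ, v x * (ex A T C t ((x + 1 : ℕ) : ℝ) 0 - ex A T C t x 0) +
        ∑' p : ℕ × ℕ, H p.1 p.2 *
          ((ex A T C t ((p.1 + 1 : ℕ) : ℝ) ((p.2 + 1 : ℕ) : ℝ) - ex A T C t ((p.1 + 1 : ℕ) : ℝ) p.2)
            - (ex A T C t p.1 ((p.2 + 1 : ℕ) : ℝ) - ex A T C t p.1 p.2)) := by
    intro t ht
    set φ : ℕ → ℕ → ℝ := fun x y => ex A T C t x y with hφ
    have hφs : Summable fun p : ℕ × ℕ => φ p.1 p.2 := ex_summable A T C t hA hT hC ht
    have hφ0 : Summable fun y : ℕ => φ 0 y :=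
      hφs.comp_injective (i := fun y : ℕ => (0, y)) (fun a b h => congrArg Prod.snd h)
    have e1 : ∑' p : ℕ × ℕ,
        hw p.1 * hw p.2 * G (p.1 : ZMod q) (p.2 : ZMod q) * ex A T C t p.1 p.2 =
        ∑' p : ℕ × ℕ, hw p.1 * (hw p.2 * G1 p.1 p.2 - hw p.2 * G1 ((p.1 : ZMod q) - 1) p.2) *
          φ p.1 p.2 := by
      refine tsum_congr fun p => ?_
      have h1 : G1 p.1 p.2 - G1 ((p.1 : ZMod q) - 1) p.2 = G p.1 p.2 :=
        prim_diff q (fun a => G a p.2) (hc p.2) p.1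
      rw [← h1]
      show _ = hw p.1 * (hw p.2 * G1 p.1 p.2 - hw p.2 * G1 ((p.1 : ZMod q) - 1) p.2) *
          ex A T C t p.1 p.2
      ring
    rw [e1, coneI_abel G1 hw coneI_hw φ hφs]
    have e2 : ∑' y : ℕ, hw y * ((G1 0 y + G1 (-1) y) / 2) * φ 0 y =
        -((U 0 + U (-1)) / 2) * φ 0 0 - ∑' n : ℕ, U (n : ZMod q) * (φ 0 (n + 1) - φ 0 n) := by
      rw [← abel1 q U (fun y => φ 0 y) hφ0]
      refine tsum_congr fun y => ?_
      rw [hU, prim_diff q u1 hu1s]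
    rw [e2]
    have hφ1 : Summable fun p : ℕ × ℕ => φ (p.1 + 1) p.2 := coneI_shift1 hφs 1
    have hΦ' : Summable fun p : ℕ × ℕ => φ (p.2 + 1) p.1 - φ p.2 p.1 :=
      (coneI_swap (Φ := fun x y => φ (x + 1) y) hφ1).sub (coneI_swap hφs)
    have e3 : ∑' p : ℕ × ℕ, hw p.2 * G1 p.1 p.2 * (φ (p.1 + 1) p.2 - φ p.1 p.2) =
        -(∑' x : ℕ, 1 * ((H x 0 + H x (-1)) / 2) * (φ (x + 1) 0 - φ x 0)) -
        ∑' p : ℕ × ℕ, 1 * H p.2 p.1 *
          ((φ (p.2 + 1) (p.1 + 1) - φ p.2 (p.1 + 1)) - (φ (p.2 + 1) p.1 - φ p.2 p.1)) := by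
      rw [← coneI_abel (q := q) (fun y x => H x y) (fun _ => 1) (fun _ => by rw [abs_one])
        (fun y x => φ (x + 1) y - φ x y) hΦ',
        coneI_tswap (fun x y => hw y * G1 x y * (φ (x + 1) y - φ x y))]
      refine tsum_congr fun p => ?_
      have h1 : H p.2 p.1 - H p.2 ((p.1 : ZMod q) - 1) = G1 p.2 p.1 :=
        prim_diff q (fun b => G1 p.2 b) (hG1y p.2) p.1
      rw [← h1]
      ring
    rw [e3]
    have e4 : ∑' p : ℕ × ℕ, 1 * H p.2 p.1 *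
          ((φ (p.2 + 1) (p.1 + 1) - φ p.2 (p.1 + 1)) - (φ (p.2 + 1) p.1 - φ p.2 p.1)) =
        ∑' p : ℕ × ℕ, H p.1 p.2 *
          ((φ (p.1 + 1) (p.2 + 1) - φ (p.1 + 1) p.2) - (φ p.1 (p.2 + 1) - φ p.1 p.2)) := by
      rw [coneI_tswap (fun y x => 1 * H x y *
          ((φ (x + 1) (y + 1) - φ x (y + 1)) - (φ (x + 1) y - φ x y)))]
      refine tsum_congr fun p => ?_
      ring
    rw [e4]
    have e5 : φ 0 0 = 1 := by
      show ex A T C t ((0 : ℕ) : ℝ) ((0 : ℕ) : ℝ) = 1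
      unfold ex
      rw [Nat.cast_zero]
      simp
    rw [e5, hmain]
    have e6 : ∑' x : ℕ, 1 * ((H x 0 + H x (-1)) / 2) * (φ (x + 1) 0 - φ x 0) =
        ∑' x : ℕ, v x * (ex A T C t ((x + 1 : ℕ) : ℝ) 0 - ex A T C t x 0) := by
      refine tsum_congr fun x => ?_
      rw [one_mul]
      show _ * (ex A T C t ((x + 1 : ℕ) : ℝ) ((0 : ℕ) : ℝ) - ex A T C t x ((0 : ℕ) : ℝ)) = _
      rw [Nat.cast_zero]
    have e7 : ∑' n : ℕ, U (n : ZMod q) * (φ 0 (n + 1) - φ 0 n) =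
        ∑' y : ℕ, U y * (ex A T C t 0 ((y + 1 : ℕ) : ℝ) - ex A T C t 0 y) := by
      refine tsum_congr fun y => ?_
      show _ * (ex A T C t ((0 : ℕ) : ℝ) ((y + 1 : ℕ) : ℝ) - ex A T C t ((0 : ℕ) : ℝ) y) = _
      rw [Nat.cast_zero]
    rw [e6, e7]
    ring
  -- the constants
  obtain ⟨K1, c1, hK1, hc1, hb1⟩ := diff_xx C T A hC hT hA
  obtain ⟨K2, c2, hK2, hc2, hb2⟩ := diff_xx A T C hA hT hC
  obtain ⟨K3, c3, hK3, hc3, hb3⟩ := diff_xxy A T C hA hT hC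
  obtain ⟨g1, hg1, hs1⟩ := gauss_sum c1 hc1
  obtain ⟨g2, hg2, hs2⟩ := gauss_sum c2 hc2
  obtain ⟨g3, hg3, hs3⟩ := gauss_sum2 c3 hc3
  set Kt : ℝ := (∑ x, |U x|) * (K1 * g1) + (∑ x, |v x|) * (K2 * g2) +
    (∑ a, ∑ b, |H a b|) * (K3 * g3) with hKt
  have hest : ∀ t : ℝ, 0 < t → t ≤ 1 →
      ‖(∑' p : ℕ × ℕ, hw p.1 * hw p.2 * G (p.1 : ZMod q) (p.2 : ZMod q) * ex A T C t p.1 p.2) -
        ∑ x, ∑ y, G x y * (saw q x * saw q y)‖ ≤ Kt * Real.sqrt t := by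
    intro t ht ht1
    have hφs : Summable fun p : ℕ × ℕ => ex A T C t p.1 p.2 := ex_summable A T C t hA hT hC ht
    have hsq : 0 < Real.sqrt t := Real.sqrt_pos.2 ht
    -- first
    have b1 : |∑' y : ℕ, U y * (ex A T C t 0 ((y + 1 : ℕ) : ℝ) - ex A T C t 0 y)| ≤
        (∑ x, |U x|) * (K1 * g1) * Real.sqrt t := by
      refine coneI_one U hUs (fun y : ℕ => ex A T C t 0 y) ?_ hc1 ht hK1 (fun n => ?_)
        (hs1 t ht ht1)
      · have h1 := hφs.comp_injective (i := fun y : ℕ => (0, y))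
          (fun a b h => congrArg Prod.snd h)
        refine h1.congr fun y => ?_
        show ex A T C t ((0 : ℕ) : ℝ) y = _
        rw [Nat.cast_zero]
      · have h1 := hb1 t ht ht1 n 0 (Nat.cast_nonneg n) le_rfl
        rw [← ex_swap A T C, ← ex_swap A T C, ← ex_swap A T C] at h1
        push_cast
        refine h1.trans (le_of_eq ?_)
        congr 3
        ring
    have b2 : |∑' x : ℕ, v x * (ex A T C t ((x + 1 : ℕ) : ℝ) 0 - ex A T C t x 0)| ≤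
        (∑ x, |v x|) * (K2 * g2) * Real.sqrt t := by
      refine coneI_one v hvs (fun x : ℕ => ex A T C t x 0) ?_ hc2 ht hK2 (fun n => ?_)
        (hs2 t ht ht1)
      · have h1 := hφs.comp_injective (i := fun y : ℕ => (y, 0))
          (fun a b h => congrArg Prod.fst h)
        refine h1.congr fun y => ?_
        show ex A T C t y ((0 : ℕ) : ℝ) = _
        rw [Nat.cast_zero]
      · have h1 := hb2 t ht ht1 n 0 (Nat.cast_nonneg n) le_rfl
        push_cast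
        refine h1.trans (le_of_eq ?_)
        congr 3
        ring
    have hφy : Summable fun p : ℕ × ℕ => ex A T C t p.1 ((p.2 + 1 : ℕ) : ℝ) :=
      hφs.comp_injective (i := fun p : ℕ × ℕ => (p.1, p.2 + 1)) (by
        intro a b h
        have h1 := congrArg Prod.fst h
        have h2 := congrArg Prod.snd h
        exact Prod.ext h1 (Nat.add_right_cancel h2))
    have b3 : |∑' p : ℕ × ℕ, H p.1 p.2 *
          ((ex A T C t ((p.1 + 1 : ℕ) : ℝ) ((p.2 + 1 : ℕ) : ℝ) - ex A T C t ((p.1 + 1 : ℕ) : ℝ) p.2)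
            - (ex A T C t p.1 ((p.2 + 1 : ℕ) : ℝ) - ex A T C t p.1 p.2))| ≤
        (∑ a, ∑ b, |H a b|) * (K3 * g3) * Real.sqrt t := by
      have hD : Summable fun p : ℕ × ℕ =>
          ex A T C t p.1 ((p.2 + 1 : ℕ) : ℝ) - ex A T C t p.1 p.2 := hφy.sub hφs
      refine (coneI_bound H hHx
        (fun x y : ℕ => ex A T C t x ((y + 1 : ℕ) : ℝ) - ex A T C t x y) hD).trans ?_
      rw [mul_assoc]
      refine mul_le_mul_of_nonneg_left ?_
        (Finset.sum_nonneg fun _ _ => Finset.sum_nonneg fun _ _ => abs_nonneg _)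
      obtain ⟨hsum3, hle3⟩ := hs3 t ht ht1
      have h1 : ∀ p : ℕ × ℕ,
          |(ex A T C t ((p.1 + 2 : ℕ) : ℝ) ((p.2 + 1 : ℕ) : ℝ) - ex A T C t ((p.1 + 2 : ℕ) : ℝ) p.2)
            - 2 * (ex A T C t ((p.1 + 1 : ℕ) : ℝ) ((p.2 + 1 : ℕ) : ℝ) -
              ex A T C t ((p.1 + 1 : ℕ) : ℝ) p.2)
            + (ex A T C t p.1 ((p.2 + 1 : ℕ) : ℝ) - ex A T C t p.1 p.2)| ≤
          K3 * (t * Real.sqrt t) * Real.exp (-(c3 * t * ((p.1 : ℝ) ^ 2 + (p.2 : ℝ) ^ 2))) := by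
        intro p
        have h2 := hb3 t ht ht1 p.1 p.2 (Nat.cast_nonneg _) (Nat.cast_nonneg _)
        push_cast
        refine le_trans (le_of_eq ?_) h2
        congr 1
        ring
      have h3 := ((((coneI_shift1 (Φ := fun x y : ℕ =>
        ex A T C t x ((y + 1 : ℕ) : ℝ) - ex A T C t x y) hD 2).sub
        ((coneI_shift1 (Φ := fun x y : ℕ =>
        ex A T C t x ((y + 1 : ℕ) : ℝ) - ex A T C t x y) hD 1).mul_left 2)).add hD).abs).tsum_le_tsum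
        h1 (hsum3.mul_left (K3 * (t * Real.sqrt t)))
      refine h3.trans ?_
      rw [tsum_mul_left]
      calc K3 * (t * Real.sqrt t) *
            ∑' p : ℕ × ℕ, Real.exp (-(c3 * t * ((p.1 : ℝ) ^ 2 + (p.2 : ℝ) ^ 2)))
          ≤ K3 * (t * Real.sqrt t) * (g3 / t) := mul_le_mul_of_nonneg_left hle3 (by positivity)
        _ = K3 * g3 * Real.sqrt t := by field_simp
    rw [hid t ht, Real.norm_eq_abs]
    have e : ∀ a b c d : ℝ, a + b + c + d - a = b + c + d := by intros; ring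
    rw [e]
    refine (abs_add_le _ _).trans ?_
    rw [hKt, add_mul, add_mul]
    exact add_le_add ((abs_add_le _ _).trans (add_le_add b1 b2)) b3
  rw [tendsto_iff_norm_sub_tendsto_zero]
  have hlim : Tendsto (fun t : ℝ => Kt * Real.sqrt t) (𝓝[>] 0) (𝓝 0) := by
    have h1 : Tendsto (fun t : ℝ => Kt * Real.sqrt t) (𝓝 0) (𝓝 (Kt * Real.sqrt 0)) :=
      (continuous_const.mul Real.continuous_sqrt).tendsto 0
    rw [Real.sqrt_zero, mul_zero] at h1
    exact h1.mono_left nhdsWithin_le_nhds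
  refine squeeze_zero' (Eventually.of_forall fun t => norm_nonneg _) ?_ hlim
  have h1 : ∀ᶠ t : ℝ in 𝓝[>] 0, t ∈ Set.Ioc (0 : ℝ) 1 := Ioc_mem_nhdsGT zero_lt_one
  filter_upwards [h1] with t ht
  exact hest t ht.1 ht.2

end CN94
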