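import Pool.Agent.Lib_CN94.Abel
import Pool.Agent.Lib_CN94.Kap

/-!
# Piece EVENSUM: second order summation for even periodic coefficients of mean zero
-/

namespace CN94

theorem EvenSum_summable (q : ℕ) [NeZero q] (h : ZMod q → ℝ) (φ : ℕ → ℝ) (hφ : Summable φ) :
    Summable (fun n : ℕ => h (n : ZMod q) * φ n) := by
  refine Summable.of_norm_bounded ((hφ.norm).mul_left (∑ x, |h x|)) fun n => ?_
  rw [norm_mul]
  refine mul_le_mul_of_nonneg_right ?_ (norm_nonneg _)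
  exact Finset.single_le_sum (f := fun x => |h x|) (fun x _ => abs_nonneg _)
    (Finset.mem_univ (n : ZMod q))

theorem EvenSum_hw (q : ℕ) [NeZero q] (h : ZMod q → ℝ) (φ : ℕ → ℝ) (hφ : Summable φ) :
    ∑' n : ℕ, hw n * h (n : ZMod q) * φ n =
      ∑' n : ℕ, h (n : ZMod q) * φ n - 1 / 2 * h 0 * φ 0 := by
  have h1 := EvenSum_summable q h φ hφ
  have h2 : Summable (fun n : ℕ => hw n * h (n : ZMod q) * φ n) := by
    refine (summable_nat_add_iff 1).1 ?_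
    refine ((summable_nat_add_iff 1).2 h1).congr fun n => ?_
    unfold hw
    rw [if_neg (Nat.succ_ne_zero n)]
    ring
  rw [h2.tsum_eq_zero_add, h1.tsum_eq_zero_add]
  have h3 : ∀ n : ℕ, hw (n + 1) * h ((n + 1 : ℕ) : ZMod q) * φ (n + 1) =
      h ((n + 1 : ℕ) : ZMod q) * φ (n + 1) := by
    intro n
    unfold hw
    rw [if_neg (Nat.succ_ne_zero n)]
    ring
  rw [tsum_congr h3]
  have h4 : hw 0 = 1 / 2 := by unfold hw; rw [if_pos rfl]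
  rw [h4, Nat.cast_zero]
  ring

/-- PROOF: `h1 = prim m`, `h2 = prim h1`.  `m n = h1 n - h1 (n-1)`, and `(h1 0 + h1 (-1))/2 =
∑ m saw = 0`, so `abel1` gives `∑' hw m Ψ = -∑' h1 n ΔΨ n`, `ΔΨ n = Ψ (n+1) - Ψ n`.
Now `∑' h1 n ΔΨ n = ∑' hw n h1 n ΔΨ n + 1/2 h1 0 ΔΨ 0` and by `abel1` (for `h2`)
`∑' hw n h1 n ΔΨ n = -(h2 0 + h2 (-1))/2 ΔΨ 0 - ∑' h2 n Δ²Ψ n`.  As `h2 0 - h2 (-1) = h1 0`,
`∑' h1 n ΔΨ n = -h2 (-1) ΔΨ 0 - ∑' h2 n Δ²Ψ n`, and `h2 (-1) = -(q/2) ∑ m b` (`prim2`).  So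
`∑' hw m Ψ + (q/2) (∑ m b) ΔΨ 0 = ∑' h2 n Δ²Ψ n`, which is at most
`(∑ |h2|) ∑' |Δ³Ψ n|` in absolute value by `abel_bound` (`∑ h2 = 0`).  `K = ∑ |h2|`. -/
theorem even_sum (q : ℕ) [NeZero q] (m : ZMod q → ℝ) (hz : ∑ x, m x = 0)
    (hev : ∀ x, m (-x) = m x) :
    ∃ K : ℝ, 0 ≤ K ∧ ∀ Ψ : ℕ → ℝ, Summable Ψ →
      |∑' n : ℕ, hw n * m (n : ZMod q) * Ψ n + (q : ℝ) / 2 * (∑ a, m a * bb q a) * (Ψ 1 - Ψ 0)| ≤
        K * ∑' n : ℕ, |Ψ (n + 3) - 3 * Ψ (n + 2) + 3 * Ψ (n + 1) - Ψ n| := by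
  set h1 : ZMod q → ℝ := prim q m with hh1
  set h2 : ZMod q → ℝ := prim q h1 with hh2
  have z1 : ∑ x, h1 x = 0 := prim_sum q m
  have z2 : ∑ x, h2 x = 0 := prim_sum q h1
  have d1 : ∀ x, h1 x - h1 (x - 1) = m x := prim_diff q m hz
  have d2 : ∀ x, h2 x - h2 (x - 1) = h1 x := prim_diff q h1 z1
  have s1 : (h1 0 + h1 (-1)) / 2 = 0 := by
    rw [hh1, prim_saw, saw_even_sum q m hev]
  have s2 : h2 (-1) = -((q : ℝ) / 2) * ∑ a, m a * bb q a := prim2 q m hz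
  refine ⟨∑ x, |h2 x|, Finset.sum_nonneg fun x _ => abs_nonneg _, fun Ψ hΨ => ?_⟩
  have hΔ : Summable (fun n => Ψ (n + 1) - Ψ n) := ((summable_nat_add_iff 1).2 hΨ).sub hΨ
  have hΔ2 : Summable (fun n => (Ψ (n + 1 + 1) - Ψ (n + 1)) - (Ψ (n + 1) - Ψ n)) :=
    ((summable_nat_add_iff 1).2 hΔ).sub hΔ
  have a1 := abel1 q h1 Ψ hΨ
  rw [tsum_congr (fun n : ℕ => by rw [d1] :
    ∀ n : ℕ, hw n * (h1 (n : ZMod q) - h1 ((n : ZMod q) - 1)) * Ψ n =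
      hw n * m (n : ZMod q) * Ψ n), s1, neg_zero, zero_mul, zero_sub] at a1
  have a2 := abel1 q h2 (fun n => Ψ (n + 1) - Ψ n) hΔ
  rw [tsum_congr (fun n : ℕ => by rw [d2] :
    ∀ n : ℕ, hw n * (h2 (n : ZMod q) - h2 ((n : ZMod q) - 1)) * (Ψ (n + 1) - Ψ n) =
      hw n * h1 (n : ZMod q) * (Ψ (n + 1) - Ψ n)), EvenSum_hw q h1 _ hΔ] at a2
  have a3 := abel_bound q h2 z2 _ hΔ2
  have d20 := d2 0
  rw [zero_sub] at d20
  have a4 : ∑' n : ℕ, hw n * m (n : ZMod q) * Ψ n +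
      (q : ℝ) / 2 * (∑ a, m a * bb q a) * (Ψ 1 - Ψ 0) =
      ∑' n : ℕ, h2 (n : ZMod q) * ((Ψ (n + 1 + 1) - Ψ (n + 1)) - (Ψ (n + 1) - Ψ n)) := by
    rw [a1]
    have e1 : (q : ℝ) / 2 * (∑ a, m a * bb q a) = - h2 (-1) := by rw [s2]; ring
    rw [e1]
    simp only [zero_add] at a2
    have e2 : h1 0 = h2 0 - h2 (-1) := d20.symm
    rw [e2] at a2
    linarith
  rw [a4]
  refine a3.trans (le_of_eq ?_)
  congr 1
  refine tsum_congr fun n => ?_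
  congr 1
  show (Ψ (n + 3) - Ψ (n + 2)) - (Ψ (n + 2) - Ψ (n + 1)) -
    ((Ψ (n + 2) - Ψ (n + 1)) - (Ψ (n + 1) - Ψ n)) = _
  ring

end CN94
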