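import Pool.Agent.Lib_CN94.Gauss

/-!
# Piece RIEM: the only limit of a Riemann sum that is needed
-/

namespace CN94

open Filter Topology

private theorem exp_neg_bound (s : ℝ) (hs : 0 ≤ s) : |Real.exp (-s) - 1 + s| ≤ s ^ 2 / 2 := by
  have h1 : -s + 1 ≤ Real.exp (-s) := Real.add_one_le_exp (-s)
  have h2 : 1 + s + s ^ 2 / 2 ≤ Real.exp s := Real.quadratic_le_exp_of_nonneg hs
  have h3 : Real.exp (-s) ≤ 1 - s + s ^ 2 / 2 := by
    have h4 : Real.exp (-s) * Real.exp s = 1 := by rw [← Real.exp_add]; simp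
    have h5 : 0 < Real.exp (-s) := Real.exp_pos _
    have h6 : Real.exp (-s) * (1 + s + s ^ 2 / 2) ≤ 1 := by
      calc Real.exp (-s) * (1 + s + s ^ 2 / 2) ≤ Real.exp (-s) * Real.exp s :=
            mul_le_mul_of_nonneg_left h2 h5.le
        _ = 1 := h4
    have h7 : (0 : ℝ) < 1 + s + s ^ 2 / 2 := by positivity
    have h8 : (1 : ℝ) ≤ (1 - s + s ^ 2 / 2) * (1 + s + s ^ 2 / 2) := by
      nlinarith [sq_nonneg (s ^ 2)]
    exact le_of_mul_le_mul_right (h6.trans h8) h7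
  rw [abs_le]
  constructor
  · have : 0 ≤ s ^ 2 / 2 := by positivity
    linarith
  · linarith

/-- the Gaussian -/
private noncomputable def gg (A t : ℝ) (x : ℕ) : ℝ := Real.exp (-(A * t * (x : ℝ) ^ 2))

private theorem gg_pos (A t : ℝ) (x : ℕ) : 0 < gg A t x := Real.exp_pos _

private theorem gg_summable (A t : ℝ) (hA : 0 < A) (ht : 0 < t) : Summable (gg A t) :=
  gauss_summable A t hA ht

private theorem gg_bound (A t : ℝ) (hA : 0 < A) (ht : 0 < t) (ht1 : t ≤ 1) (x : ℕ) :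
    t * (((x : ℝ) + 1) ^ 2 * gg A t x) ≤ (2 + 4 / A) * gg (A / 2) t x := by
  have e : gg A t x = gg (A / 2) t x * gg (A / 2) t x := by
    unfold gg
    rw [← Real.exp_add]
    congr 1
    ring
  have hp : 0 < gg (A / 2) t x := gg_pos _ _ _
  have h1 : gg (A / 2) t x ≤ 1 := by
    unfold gg
    rw [Real.exp_le_one_iff]
    have : 0 ≤ A / 2 * t * (x : ℝ) ^ 2 := by positivity
    linarith
  have h2 : (A / 2 * t * (x : ℝ) ^ 2) * gg (A / 2) t x ≤ 1 := by
    have h3 := Real.add_one_le_exp (A / 2 * t * (x : ℝ) ^ 2)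
    have h4 : gg (A / 2) t x * Real.exp (A / 2 * t * (x : ℝ) ^ 2) = 1 := by
      unfold gg
      rw [← Real.exp_add]
      simp
    rw [← h4, mul_comm]
    apply mul_le_mul_of_nonneg_left _ hp.le
    linarith
  have h3 : t * (x : ℝ) ^ 2 * gg (A / 2) t x ≤ 2 / A := by
    rw [le_div_iff₀ hA]
    linarith
  have h4 : t * (((x : ℝ) + 1) ^ 2 * gg (A / 2) t x) ≤ 2 + 4 / A := by
    have h5 : ((x : ℝ) + 1) ^ 2 ≤ 2 * (x : ℝ) ^ 2 + 2 := by nlinarith [sq_nonneg ((x : ℝ) - 1)]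
    have h6 : t * (((x : ℝ) + 1) ^ 2 * gg (A / 2) t x) ≤
        t * ((2 * (x : ℝ) ^ 2 + 2) * gg (A / 2) t x) := by gcongr
    have h7 : t * gg (A / 2) t x ≤ 1 := by nlinarith
    have h8 : (4 : ℝ) / A = 2 * (2 / A) := by ring
    rw [h8]
    nlinarith
  rw [e]
  calc t * (((x : ℝ) + 1) ^ 2 * (gg (A / 2) t x * gg (A / 2) t x))
      = (t * (((x : ℝ) + 1) ^ 2 * gg (A / 2) t x)) * gg (A / 2) t x := by ring
    _ ≤ (2 + 4 / A) * gg (A / 2) t x := mul_le_mul_of_nonneg_right h4 hp.le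

private theorem gg2_summable (A t : ℝ) (hA : 0 < A) (ht : 0 < t) (ht1 : t ≤ 1) :
    Summable fun x : ℕ => ((x : ℝ) + 1) ^ 2 * gg A t x := by
  have h : Summable fun x : ℕ => t * (((x : ℝ) + 1) ^ 2 * gg A t x) :=
    Summable.of_nonneg_of_le (fun x => by have := gg_pos A t x; positivity)
      (gg_bound A t hA ht ht1) ((gg_summable (A / 2) t (by positivity) ht).mul_left _)
  exact (summable_mul_left_iff ht.ne').1 h

private theorem gg1_summable (A t : ℝ) (hA : 0 < A) (ht : 0 < t) (ht1 : t ≤ 1) :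
    Summable fun x : ℕ => (x : ℝ) * gg A t x := by
  refine Summable.of_nonneg_of_le (fun x => by have := gg_pos A t x; positivity) (fun x => ?_)
    (gg2_summable A t hA ht ht1)
  apply mul_le_mul_of_nonneg_right _ (gg_pos A t x).le
  have : (0 : ℝ) ≤ x := Nat.cast_nonneg x
  nlinarith

private theorem P_lim (A : ℝ) (hA : 0 < A) :
    Tendsto (fun t : ℝ => t * ∑' x : ℕ, gg A t x) (𝓝[>] 0) (𝓝 0) := by
  obtain ⟨K, hK, hb⟩ := gauss_sum A hA
  have h0 : Tendsto (fun t : ℝ => K * Real.sqrt t) (𝓝[>] 0) (𝓝 0) := by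
    have : Tendsto (fun t : ℝ => K * Real.sqrt t) (𝓝 0) (𝓝 (K * Real.sqrt 0)) :=
      (continuous_const.mul Real.continuous_sqrt).tendsto 0
    rw [Real.sqrt_zero, mul_zero] at this
    exact this.mono_left nhdsWithin_le_nhds
  refine tendsto_of_tendsto_of_tendsto_of_le_of_le' tendsto_const_nhds h0 ?_ ?_
  · filter_upwards [self_mem_nhdsWithin] with t ht
    exact mul_nonneg (le_of_lt ht) (tsum_nonneg fun x => (gg_pos A t x).le)
  · have h1 : ∀ᶠ t : ℝ in 𝓝[>] 0, t < 1 := nhdsWithin_le_nhds (Iio_mem_nhds one_pos)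
    filter_upwards [self_mem_nhdsWithin, h1] with t ht ht1
    have ht' : 0 < t := ht
    have := hb t ht' ht1.le
    have hs : 0 < Real.sqrt t := Real.sqrt_pos.2 ht'
    calc t * ∑' x : ℕ, gg A t x ≤ t * (K / Real.sqrt t) := mul_le_mul_of_nonneg_left this ht'.le
      _ = K * (t / Real.sqrt t) := by ring
      _ = K * Real.sqrt t := by rw [Real.div_sqrt]

private theorem Q_lim (A : ℝ) (hA : 0 < A) :
    Tendsto (fun t : ℝ => t ^ 2 * ∑' x : ℕ, ((x : ℝ) + 1) ^ 2 * gg A t x) (𝓝[>] 0) (𝓝 0) := by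
  have h0 : Tendsto (fun t : ℝ => (2 + 4 / A) * (t * ∑' x : ℕ, gg (A / 2) t x)) (𝓝[>] 0)
      (𝓝 ((2 + 4 / A) * 0)) := (P_lim (A / 2) (by positivity)).const_mul _
  rw [mul_zero] at h0
  refine tendsto_of_tendsto_of_tendsto_of_le_of_le' tendsto_const_nhds h0 ?_ ?_
  · filter_upwards [self_mem_nhdsWithin] with t ht
    exact mul_nonneg (sq_nonneg t) (tsum_nonneg fun x => by have := gg_pos A t x; positivity)
  · have h1 : ∀ᶠ t : ℝ in 𝓝[>] 0, t < 1 := nhdsWithin_le_nhds (Iio_mem_nhds one_pos)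
    filter_upwards [self_mem_nhdsWithin, h1] with t ht ht1
    have ht' : 0 < t := ht
    have h2 : t * ∑' x : ℕ, ((x : ℝ) + 1) ^ 2 * gg A t x ≤ (2 + 4 / A) * ∑' x : ℕ, gg (A / 2) t x := by
      rw [← tsum_mul_left, ← tsum_mul_left]
      exact Summable.tsum_le_tsum (gg_bound A t hA ht' ht1.le)
        ((gg2_summable A t hA ht' ht1.le).mul_left t)
        ((gg_summable (A / 2) t (by positivity) ht').mul_left _)
    calc t ^ 2 * ∑' x : ℕ, ((x : ℝ) + 1) ^ 2 * gg A t x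
        = t * (t * ∑' x : ℕ, ((x : ℝ) + 1) ^ 2 * gg A t x) := by ring
      _ ≤ t * ((2 + 4 / A) * ∑' x : ℕ, gg (A / 2) t x) := mul_le_mul_of_nonneg_left h2 ht'.le
      _ = (2 + 4 / A) * (t * ∑' x : ℕ, gg (A / 2) t x) := by ring

private theorem tele (A t : ℝ) (hA : 0 < A) (ht : 0 < t) (ht1 : t ≤ 1) :
    |2 * A * (t * ∑' x : ℕ, (x : ℝ) * gg A t x) + A * (t * ∑' x : ℕ, gg A t x) - 1| ≤
      2 * A ^ 2 * (t ^ 2 * ∑' x : ℕ, ((x : ℝ) + 1) ^ 2 * gg A t x) := by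
  have hs := gg_summable A t hA ht
  have hs1 := gg1_summable A t hA ht ht1
  have hs2 := gg2_summable A t hA ht ht1
  have hsS : Summable fun x : ℕ => gg A t (x + 1) := (summable_nat_add_iff 1).2 hs
  have e1 : ∑' x : ℕ, (gg A t x - gg A t (x + 1)) = 1 := by
    rw [hs.tsum_sub hsS, hs.tsum_eq_zero_add]
    simp [gg]
  have e2 : 2 * A * (t * ∑' x : ℕ, (x : ℝ) * gg A t x) + A * (t * ∑' x : ℕ, gg A t x) =
      ∑' x : ℕ, (2 * A * t * ((x : ℝ) * gg A t x) + A * t * gg A t x) := by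
    rw [(hs1.mul_left _).tsum_add (hs.mul_left _), tsum_mul_left, tsum_mul_left]
    ring
  have e3 : 2 * A ^ 2 * (t ^ 2 * ∑' x : ℕ, ((x : ℝ) + 1) ^ 2 * gg A t x) =
      ∑' x : ℕ, 2 * A ^ 2 * t ^ 2 * (((x : ℝ) + 1) ^ 2 * gg A t x) := by
    rw [tsum_mul_left]
    ring
  rw [e2, e3]
  suffices hk : |∑' x : ℕ, (2 * A * t * ((x : ℝ) * gg A t x) + A * t * gg A t x) -
      ∑' x : ℕ, (gg A t x - gg A t (x + 1))| ≤
      ∑' x : ℕ, 2 * A ^ 2 * t ^ 2 * (((x : ℝ) + 1) ^ 2 * gg A t x) by rwa [e1] at hk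
  rw [← ((hs1.mul_left _).add (hs.mul_left _)).tsum_sub (hs.sub hsS), ← Real.norm_eq_abs]
  refine tsum_of_norm_bounded (hs2.mul_left _).hasSum fun x => ?_
  rw [Real.norm_eq_abs]
  have e4 : gg A t (x + 1) = gg A t x * Real.exp (-(A * t * (2 * x + 1))) := by
    unfold gg
    rw [← Real.exp_add]
    congr 1
    push_cast
    ring
  have hp := gg_pos A t x
  have h5 := exp_neg_bound (A * t * (2 * x + 1)) (by positivity)
  have e5 : 2 * A * t * ((x : ℝ) * gg A t x) + A * t * gg A t x - (gg A t x - gg A t (x + 1)) =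
      gg A t x * (Real.exp (-(A * t * (2 * x + 1))) - 1 + A * t * (2 * x + 1)) := by
    rw [e4]; ring
  rw [e5, abs_mul, abs_of_pos hp]
  calc gg A t x * |Real.exp (-(A * t * (2 * x + 1))) - 1 + A * t * (2 * x + 1)|
      ≤ gg A t x * ((A * t * (2 * x + 1)) ^ 2 / 2) := mul_le_mul_of_nonneg_left h5 hp.le
    _ ≤ gg A t x * ((A * t * (2 * (x + 1))) ^ 2 / 2) := by gcongr; linarith
    _ = 2 * A ^ 2 * t ^ 2 * (((x : ℝ) + 1) ^ 2 * gg A t x) := by ring

private theorem main_est (A T C t : ℝ) (hA : 0 < A) (hT : 0 < T) (hC : 0 < C) (ht : 0 < t)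
    (ht1 : t ≤ 1) :
    |(∑' x : ℕ, hw x * (ex A T C t x 1 - ex A T C t x 0)) +
        (T * (t * ∑' x : ℕ, (x : ℝ) * gg A t x) + C * (t * ∑' x : ℕ, gg A t x))| ≤
      (T + C) ^ 2 / 2 * (t ^ 2 * ∑' x : ℕ, ((x : ℝ) + 1) ^ 2 * gg A t x) + C / 2 * t := by
  have hs := gg_summable A t hA ht
  have hs1 := gg1_summable A t hA ht ht1
  have hs2 := gg2_summable A t hA ht ht1
  have hb : ∀ x : ℕ, |hw x * (ex A T C t x 1 - ex A T C t x 0) +
      (T * t * ((x : ℝ) * gg A t x) + C * t * gg A t x)| ≤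
      (T + C) ^ 2 / 2 * t ^ 2 * (((x : ℝ) + 1) ^ 2 * gg A t x) + if x = 0 then C / 2 * t else 0 := by
    intro x
    have hp := gg_pos A t x
    have e1 : ex A T C t x 1 = gg A t x * Real.exp (-(t * (T * x + C))) := by
      unfold ex gg
      rw [← Real.exp_add]
      congr 1
      ring
    have e0 : ex A T C t x 0 = gg A t x := by
      unfold ex gg
      congr 1
      ring
    have h5 := exp_neg_bound (t * (T * x + C)) (by positivity)
    have h6 : gg A t x * ((t * (T * x + C)) ^ 2 / 2) ≤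
        (T + C) ^ 2 / 2 * t ^ 2 * (((x : ℝ) + 1) ^ 2 * gg A t x) := by
      have h7 : T * x + C ≤ (T + C) * (x + 1) := by
        have : (0 : ℝ) ≤ x := Nat.cast_nonneg x
        nlinarith [mul_nonneg hC.le this]
      calc gg A t x * ((t * (T * x + C)) ^ 2 / 2)
          ≤ gg A t x * ((t * ((T + C) * (x + 1))) ^ 2 / 2) := by gcongr
        _ = _ := by ring
    by_cases hx : x = 0
    · subst hx
      rw [e1, e0, if_pos rfl]
      have hg : gg A t 0 = 1 := by simp [gg]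
      have hh : hw 0 = 1 / 2 := by simp [hw]
      rw [hg] at h6 ⊢
      rw [hh]
      simp only [Nat.cast_zero, mul_zero, zero_add, one_mul, mul_one] at h5 h6 ⊢
      have e6 : 1 / 2 * (Real.exp (-(t * C)) - 1) + C * t =
          1 / 2 * (Real.exp (-(t * C)) - 1 + t * C) + C / 2 * t := by ring
      rw [e6]
      refine (abs_add_le _ _).trans ?_
      rw [abs_mul, abs_of_pos (show (0 : ℝ) < 1 / 2 by norm_num),
        abs_of_pos (show 0 < C / 2 * t by positivity)]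
      have h9 : 0 ≤ |Real.exp (-(t * C)) - 1 + t * C| := abs_nonneg _
      linarith
    · have hh : hw x = 1 := by simp [hw, hx]
      rw [e1, e0, hh, if_neg hx, add_zero]
      have e7 : 1 * (gg A t x * Real.exp (-(t * (T * x + C))) - gg A t x) +
          (T * t * ((x : ℝ) * gg A t x) + C * t * gg A t x) =
          gg A t x * (Real.exp (-(t * (T * x + C))) - 1 + t * (T * x + C)) := by ring
      rw [e7, abs_mul, abs_of_pos hp]
      exact (mul_le_mul_of_nonneg_left h5 hp.le).trans h6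
  have hd : HasSum (fun x : ℕ => if x = 0 then C / 2 * t else 0) (C / 2 * t) :=
    hasSum_ite_eq 0 _
  have hr : Summable fun x : ℕ => hw x * (ex A T C t x 1 - ex A T C t x 0) := by
    have h1 : Summable fun x : ℕ => hw x * (ex A T C t x 1 - ex A T C t x 0) +
      (T * t * ((x : ℝ) * gg A t x) + C * t * gg A t x) :=
      Summable.of_norm_bounded ((hs2.mul_left _).add hd.summable) hb
    have h2 := h1.sub ((hs1.mul_left (T * t)).add (hs.mul_left (C * t)))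
    simpa using h2
  have e2 : T * (t * ∑' x : ℕ, (x : ℝ) * gg A t x) + C * (t * ∑' x : ℕ, gg A t x) =
      ∑' x : ℕ, (T * t * ((x : ℝ) * gg A t x) + C * t * gg A t x) := by
    rw [(hs1.mul_left _).tsum_add (hs.mul_left _), tsum_mul_left, tsum_mul_left]
    ring
  have e3 : (T + C) ^ 2 / 2 * (t ^ 2 * ∑' x : ℕ, ((x : ℝ) + 1) ^ 2 * gg A t x) =
      ∑' x : ℕ, (T + C) ^ 2 / 2 * t ^ 2 * (((x : ℝ) + 1) ^ 2 * gg A t x) := by
    rw [tsum_mul_left]
    ring
  rw [e2, e3, ← hr.tsum_add ((hs1.mul_left _).add (hs.mul_left _)), ← Real.norm_eq_abs]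
  refine tsum_of_norm_bounded ((hs2.mul_left _).hasSum.add hd) fun x => ?_
  rw [Real.norm_eq_abs]
  exact hb x

/-- PROOF: let `g x = exp (-(t A x²))`.  All sums over `x : ℕ`, `0 < t ≤ 1`.
(1) Telescoping: `∑ (g x - g (x+1)) = 1`, and `g x - g (x+1) = g x (1 - exp (-(t A (2x+1))))`;
`|1 - exp (-s) - s| ≤ s²/2` for `s ≥ 0`.  Hence
`|1 - 2 A t ∑ x g x| ≤ A t ∑ g x + (A² t²/2) ∑ (2x+1)² g x`.
(2) `t ∑ g x → 0` and `t² ∑ (x+1)² g x → 0`: `gauss_sum`, and
`t (x+1)² g x ≤ 2 t g x + 2 t x² g x ≤ (2 + 4/A) exp (-(A t x²/2))` (`s exp (-s) ≤ 2 exp (-s/2)`);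
so both are `≤ K √t`.  Therefore `t ∑ x g x → 1/(2A)`.
(3) `ex A T C t x 1 - ex A T C t x 0 = g x (exp (-(t (T x + C))) - 1)`, and
`|exp (-s) - 1 + s| ≤ s²/2`: so the sum is `-T t ∑ x g x - C t ∑ g x + O(t² ∑ (x+1)² g x)`, which
tends to `-T/(2A)`; the half weight at `x = 0` changes the sum by `(1/2)(exp (-(t C)) - 1) → 0`. -/
theorem riem (A T C : ℝ) (hA : 0 < A) (hT : 0 < T) (hC : 0 < C) :
    Tendsto (fun t : ℝ => ∑' x : ℕ, hw x * (ex A T C t x 1 - ex A T C t x 0)) (𝓝[>] 0)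
      (𝓝 (-T / (2 * A))) := by
  have hP := P_lim A hA
  have hQ := Q_lim A hA
  have hid : Tendsto (fun t : ℝ => t) (𝓝[>] 0) (𝓝 0) := tendsto_id.mono_left nhdsWithin_le_nhds
  have h1 : ∀ᶠ t : ℝ in 𝓝[>] 0, t < 1 := nhdsWithin_le_nhds (Iio_mem_nhds one_pos)
  -- the two error terms
  have hE1 : Tendsto (fun t : ℝ => (∑' x : ℕ, hw x * (ex A T C t x 1 - ex A T C t x 0)) +
        (T * (t * ∑' x : ℕ, (x : ℝ) * gg A t x) + C * (t * ∑' x : ℕ, gg A t x))) (𝓝[>] 0) (𝓝 0) := by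
    have hb : Tendsto (fun t : ℝ => (T + C) ^ 2 / 2 *
        (t ^ 2 * ∑' x : ℕ, ((x : ℝ) + 1) ^ 2 * gg A t x) + C / 2 * t) (𝓝[>] 0) (𝓝 0) := by
      simpa using (hQ.const_mul ((T + C) ^ 2 / 2)).add (hid.const_mul (C / 2))
    refine squeeze_zero_norm' ?_ hb
    filter_upwards [self_mem_nhdsWithin, h1] with t ht ht1
    exact main_est A T C t hA hT hC ht ht1.le
  have hE2 : Tendsto (fun t : ℝ => 2 * A * (t * ∑' x : ℕ, (x : ℝ) * gg A t x) +
      A * (t * ∑' x : ℕ, gg A t x) - 1) (𝓝[>] 0) (𝓝 0) := by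
    have hb : Tendsto (fun t : ℝ => 2 * A ^ 2 *
        (t ^ 2 * ∑' x : ℕ, ((x : ℝ) + 1) ^ 2 * gg A t x)) (𝓝[>] 0) (𝓝 0) := by
      simpa using hQ.const_mul (2 * A ^ 2)
    refine squeeze_zero_norm' ?_ hb
    filter_upwards [self_mem_nhdsWithin, h1] with t ht ht1
    exact tele A t hA ht ht1.le
  have hF := ((hE1.sub (hE2.const_mul (T / (2 * A)))).sub (hP.const_mul (C - T / 2))).add
    (tendsto_const_nhds (x := -T / (2 * A)))
  simp only [mul_zero, sub_zero, zero_add] at hF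
  refine hF.congr fun t => ?_
  field_simp
  ring

end CN94
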