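import Pool.Agent.Lib_CN94.Gauss
import Pool.Agent.Lib_CN94.DiffB
import Pool.Agent.Lib_CN94.EvenSum
import Pool.Agent.Lib_CN94.Riem

/-!
# Piece CONEII: the cone limit for coefficients that depend on `y` only
-/

namespace CN94

open Filter Topology

private theorem coneII_hw (n : ℕ) : |hw n| ≤ 1 := by
  unfold hw
  split_ifs
  · rw [abs_of_pos (by norm_num)]; norm_num
  · rw [abs_one]

private theorem coneII_sum_mul {β : Type} {Φ c : β → ℝ} {M : ℝ} (hΦ : Summable Φ)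
    (hc : ∀ p, |c p| ≤ M) : Summable fun p => c p * Φ p := by
  refine Summable.of_norm_bounded (g := fun p => M * |Φ p|) (hΦ.abs.mul_left M) fun p => ?_
  rw [Real.norm_eq_abs, abs_mul]
  exact mul_le_mul_of_nonneg_right (hc p) (abs_nonneg _)

private theorem coneII_tprod {F : ℕ → ℕ → ℝ} (hF : Summable fun p : ℕ × ℕ => F p.1 p.2) :
    ∑' p : ℕ × ℕ, F p.1 p.2 = ∑' y, ∑' x, F x y := by
  rw [← (Equiv.prodComm ℕ ℕ).tsum_eq (fun p : ℕ × ℕ => F p.1 p.2)]
  exact Summable.tsum_prod (f := fun p : ℕ × ℕ => F p.2 p.1) hF.prod_symm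

private theorem coneII_sprod {F : ℕ → ℕ → ℝ} (hF : Summable fun p : ℕ × ℕ => F p.1 p.2) :
    Summable fun y => ∑' x, F x y :=
  Summable.prod (f := fun p : ℕ × ℕ => F p.2 p.1) hF.prod_symm

/-- PROOF: let `Ψ y = ∑'_x hw x ex A T C t x y` (summable in `y`).  The sum is `∑'_y hw y m y Ψ y`
(Fubini, `ex_summable`).  `even_sum`: it differs from `-(q/2)(∑ m b)(Ψ 1 - Ψ 0)` by at most
`K ∑'_y |Ψ (y+3) - 3 Ψ (y+2) + 3 Ψ (y+1) - Ψ y| ≤ K ∑'_{x,y} |third difference in y of ex|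
≤ K' t √t ∑' exp (-(c t (x²+y²))) ≤ K'' √t → 0` (`diff_xxx` with `ex_swap`, `gauss_sum2`), and
`Ψ 1 - Ψ 0 → -T/(2A)` (`riem`). -/
theorem coneII (q : ℕ) [NeZero q] (m : ZMod q → ℝ) (hz : ∑ y, m y = 0) (hev : ∀ y, m (-y) = m y)
    (A T C : ℝ) (hA : 0 < A) (hT : 0 < T) (hC : 0 < C) :
    Tendsto (fun t : ℝ => ∑' p : ℕ × ℕ,
      hw p.1 * hw p.2 * m (p.2 : ZMod q) * ex A T C t p.1 p.2) (𝓝[>] 0)
      (𝓝 ((q : ℝ) * (T / (4 * A)) * ∑ y, m y * bb q y)) := by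
  obtain ⟨K, hK, hes⟩ := even_sum q m hz hev
  obtain ⟨K3, c3, hK3, hc3, hb3⟩ := diff_xxx C T A hC hT hA
  obtain ⟨g3, hg3, hs3⟩ := gauss_sum2 c3 hc3
  set M : ℝ := ∑ a, |m a| with hM
  have hm : ∀ y : ZMod q, |m y| ≤ M := fun y =>
    Finset.single_le_sum (f := fun a => |m a|) (fun _ _ => abs_nonneg _) (Finset.mem_univ y)
  have hest : ∀ t : ℝ, 0 < t → t ≤ 1 →
      ‖(∑' p : ℕ × ℕ, hw p.1 * hw p.2 * m (p.2 : ZMod q) * ex A T C t p.1 p.2) +
        (q : ℝ) / 2 * (∑ a, m a * bb q a) *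
          ∑' x : ℕ, hw x * (ex A T C t x 1 - ex A T C t x 0)‖ ≤ K * (K3 * g3) * Real.sqrt t := by
    intro t ht ht1
    have hφs : Summable fun p : ℕ × ℕ => ex A T C t p.1 p.2 := ex_summable A T C t hA hT hC ht
    have hsq : 0 < Real.sqrt t := Real.sqrt_pos.2 ht
    have hw1 : Summable fun p : ℕ × ℕ => hw p.1 * ex A T C t p.1 p.2 :=
      coneII_sum_mul (c := fun p : ℕ × ℕ => hw p.1) hφs (fun p => coneII_hw _)
    have hrow : ∀ y : ℕ, Summable fun x : ℕ => hw x * ex A T C t x y := fun y =>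
      hw1.comp_injective (i := fun x : ℕ => (x, y)) (fun a b h => congrArg Prod.fst h)
    set Ψ : ℕ → ℝ := fun y => ∑' x : ℕ, hw x * ex A T C t x y with hΨ
    have hΨs : Summable Ψ := coneII_sprod (F := fun x y : ℕ => hw x * ex A T C t x y) hw1
    have e1 : ∑' p : ℕ × ℕ, hw p.1 * hw p.2 * m (p.2 : ZMod q) * ex A T C t p.1 p.2 =
        ∑' y : ℕ, hw y * m (y : ZMod q) * Ψ y := by
      have hS : Summable fun p : ℕ × ℕ =>
          hw p.1 * hw p.2 * m (p.2 : ZMod q) * ex A T C t p.1 p.2 := by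
        refine coneII_sum_mul (c := fun p : ℕ × ℕ => hw p.1 * hw p.2 * m (p.2 : ZMod q)) (M := M)
          hφs (fun p => ?_)
        show |hw p.1 * hw p.2 * m (p.2 : ZMod q)| ≤ M
        rw [abs_mul, abs_mul]
        calc |hw p.1| * |hw p.2| * |m (p.2 : ZMod q)| ≤ 1 * 1 * M :=
              mul_le_mul (mul_le_mul (coneII_hw _) (coneII_hw _) (abs_nonneg _) zero_le_one)
                (hm _) (abs_nonneg _) (by norm_num)
          _ = M := by ring
      rw [coneII_tprod (F := fun x y : ℕ =>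
        hw x * hw y * m (y : ZMod q) * ex A T C t x y) hS]
      refine tsum_congr fun y => ?_
      rw [hΨ, ← tsum_mul_left]
      refine tsum_congr fun x => ?_
      ring
    have e2 : ∑' x : ℕ, hw x * (ex A T C t x 1 - ex A T C t x 0) = Ψ 1 - Ψ 0 := by
      have h1 := (hrow 1).tsum_sub (hrow 0)
      rw [Nat.cast_one, Nat.cast_zero] at h1
      show _ = (∑' x : ℕ, hw x * ex A T C t x ((1 : ℕ) : ℝ)) -
        ∑' x : ℕ, hw x * ex A T C t x ((0 : ℕ) : ℝ)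
      rw [Nat.cast_one, Nat.cast_zero, ← h1]
      refine tsum_congr fun x => ?_
      ring
    rw [e1, e2]
    have hb := hes Ψ hΨs
    rw [Real.norm_eq_abs]
    refine hb.trans ?_
    rw [mul_assoc]
    refine mul_le_mul_of_nonneg_left ?_ hK
    obtain ⟨hsum3, hle3⟩ := hs3 t ht ht1
    have hsE : Summable fun p : ℕ × ℕ =>
        K3 * (t * Real.sqrt t) * Real.exp (-(c3 * t * ((p.1 : ℝ) ^ 2 + (p.2 : ℝ) ^ 2))) :=
      hsum3.mul_left _
    -- the third difference of `Ψ`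
    have h1 : ∀ n : ℕ, |Ψ (n + 3) - 3 * Ψ (n + 2) + 3 * Ψ (n + 1) - Ψ n| ≤
        ∑' x : ℕ, K3 * (t * Real.sqrt t) *
          Real.exp (-(c3 * t * ((x : ℝ) ^ 2 + (n : ℝ) ^ 2))) := by
      intro n
      have h2 : Ψ (n + 3) - 3 * Ψ (n + 2) + 3 * Ψ (n + 1) - Ψ n =
          ∑' x : ℕ, (hw x * ex A T C t x ((n + 3 : ℕ) : ℝ) -
            3 * (hw x * ex A T C t x ((n + 2 : ℕ) : ℝ)) +
            3 * (hw x * ex A T C t x ((n + 1 : ℕ) : ℝ)) - hw x * ex A T C t x n) := by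
        rw [(((hrow (n + 3)).sub ((hrow (n + 2)).mul_left 3)).add
            ((hrow (n + 1)).mul_left 3)).tsum_sub (hrow n),
          ((hrow (n + 3)).sub ((hrow (n + 2)).mul_left 3)).tsum_add ((hrow (n + 1)).mul_left 3),
          (hrow (n + 3)).tsum_sub ((hrow (n + 2)).mul_left 3), tsum_mul_left, tsum_mul_left]
      have hs2 : Summable fun x : ℕ => (hw x * ex A T C t x ((n + 3 : ℕ) : ℝ) -
            3 * (hw x * ex A T C t x ((n + 2 : ℕ) : ℝ)) +
            3 * (hw x * ex A T C t x ((n + 1 : ℕ) : ℝ)) - hw x * ex A T C t x n) :=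
        (((hrow (n + 3)).sub ((hrow (n + 2)).mul_left 3)).add
            ((hrow (n + 1)).mul_left 3)).sub (hrow n)
      rw [h2, ← Real.norm_eq_abs]
      refine (norm_tsum_le_tsum_norm hs2.norm).trans ?_
      have hsx : Summable fun x : ℕ => K3 * (t * Real.sqrt t) *
          Real.exp (-(c3 * t * ((x : ℝ) ^ 2 + (n : ℝ) ^ 2))) :=
        hsE.comp_injective (i := fun x : ℕ => (x, n)) (fun a b h => congrArg Prod.fst h)
      refine Summable.tsum_le_tsum (fun x => ?_) hs2.norm hsx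
      have h3 := hb3 t ht ht1 n x (Nat.cast_nonneg _) (Nat.cast_nonneg _)
      rw [← ex_swap A T C, ← ex_swap A T C, ← ex_swap A T C, ← ex_swap A T C] at h3
      have h4 : hw x * ex A T C t x ((n + 3 : ℕ) : ℝ) -
            3 * (hw x * ex A T C t x ((n + 2 : ℕ) : ℝ)) +
            3 * (hw x * ex A T C t x ((n + 1 : ℕ) : ℝ)) - hw x * ex A T C t x n =
          hw x * (ex A T C t x (n + 3) - 3 * ex A T C t x (n + 2) + 3 * ex A T C t x (n + 1)
            - ex A T C t x n) := by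
        push_cast
        ring
      rw [h4, Real.norm_eq_abs, abs_mul]
      calc |hw x| * |ex A T C t x (n + 3) - 3 * ex A T C t x (n + 2) + 3 * ex A T C t x (n + 1)
            - ex A T C t x n| ≤ 1 * (K3 * (t * Real.sqrt t) *
              Real.exp (-(c3 * t * ((n : ℝ) ^ 2 + (x : ℝ) ^ 2)))) :=
            mul_le_mul (coneII_hw x) h3 (abs_nonneg _) zero_le_one
        _ = K3 * (t * Real.sqrt t) *
              Real.exp (-(c3 * t * ((x : ℝ) ^ 2 + (n : ℝ) ^ 2))) := by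
            rw [one_mul, add_comm ((n : ℝ) ^ 2)]
    have hsx2 : Summable fun n : ℕ => ∑' x : ℕ, K3 * (t * Real.sqrt t) *
          Real.exp (-(c3 * t * ((x : ℝ) ^ 2 + (n : ℝ) ^ 2))) :=
      coneII_sprod (F := fun x y : ℕ => K3 * (t * Real.sqrt t) *
          Real.exp (-(c3 * t * ((x : ℝ) ^ 2 + (y : ℝ) ^ 2)))) hsE
    have hsl : Summable fun n : ℕ => |Ψ (n + 3) - 3 * Ψ (n + 2) + 3 * Ψ (n + 1) - Ψ n| :=
      Summable.of_nonneg_of_le (fun n => abs_nonneg _) h1 hsx2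
    have h5 := hsl.tsum_le_tsum h1 hsx2
    rw [← coneII_tprod (F := fun x y : ℕ => K3 * (t * Real.sqrt t) *
          Real.exp (-(c3 * t * ((x : ℝ) ^ 2 + (y : ℝ) ^ 2)))) hsE, tsum_mul_left] at h5
    refine h5.trans ?_
    calc K3 * (t * Real.sqrt t) *
          ∑' p : ℕ × ℕ, Real.exp (-(c3 * t * ((p.1 : ℝ) ^ 2 + (p.2 : ℝ) ^ 2)))
        ≤ K3 * (t * Real.sqrt t) * (g3 / t) := mul_le_mul_of_nonneg_left hle3 (by positivity)
      _ = K3 * g3 * Real.sqrt t := by field_simp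
  -- the limit
  have hlim : Tendsto (fun t : ℝ => K * (K3 * g3) * Real.sqrt t) (𝓝[>] 0) (𝓝 0) := by
    have h1 : Tendsto (fun t : ℝ => K * (K3 * g3) * Real.sqrt t) (𝓝 0)
        (𝓝 (K * (K3 * g3) * Real.sqrt 0)) :=
      (continuous_const.mul Real.continuous_sqrt).tendsto 0
    rw [Real.sqrt_zero, mul_zero] at h1
    exact h1.mono_left nhdsWithin_le_nhds
  have hev1 : ∀ᶠ t : ℝ in 𝓝[>] 0, t ∈ Set.Ioc (0 : ℝ) 1 := Ioc_mem_nhdsGT zero_lt_one
  have h0 : Tendsto (fun t : ℝ =>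
      (∑' p : ℕ × ℕ, hw p.1 * hw p.2 * m (p.2 : ZMod q) * ex A T C t p.1 p.2) +
        (q : ℝ) / 2 * (∑ a, m a * bb q a) *
          ∑' x : ℕ, hw x * (ex A T C t x 1 - ex A T C t x 0)) (𝓝[>] 0) (𝓝 0) := by
    refine squeeze_zero_norm' ?_ hlim
    filter_upwards [hev1] with t ht
    exact hest t ht.1 ht.2
  have h2 := h0.sub ((riem A T C hA hT hC).const_mul ((q : ℝ) / 2 * (∑ a, m a * bb q a)))
  have h3 : (0 : ℝ) - (q : ℝ) / 2 * (∑ a, m a * bb q a) * (-T / (2 * A)) =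
      (q : ℝ) * (T / (4 * A)) * ∑ y, m y * bb q y := by
    field_simp
    ring
  rw [h3] at h2
  refine h2.congr fun t => ?_
  ring

end CN94
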