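import Pool.Agent.Lib_CN94.Defs

/-!
# Piece SAW: identities for the sawtooth and `B₂`
-/

namespace CN94

/-- PROOF: `x = 0` is clear; for `x ≠ 0`, `(-x).val = q - x.val` (`ZMod.neg_val`). -/
theorem saw_neg (q : ℕ) [NeZero q] (x : ZMod q) : saw q (-x) = -saw q x := by
  have hq : (q : ℝ) ≠ 0 := Nat.cast_ne_zero.2 (NeZero.ne q)
  unfold saw
  by_cases hx : x = 0
  · simp [hx]
  · rw [if_neg (neg_ne_zero.2 hx), if_neg hx, ZMod.neg_val, if_neg hx,
      Nat.cast_sub (ZMod.val_le x)]
    field_simp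
    ring

/-- PROOF: same, `B₂(1 - u) = B₂(u)`. -/
theorem bb_neg (q : ℕ) [NeZero q] (x : ZMod q) : bb q (-x) = bb q x := by
  have hq : (q : ℝ) ≠ 0 := Nat.cast_ne_zero.2 (NeZero.ne q)
  unfold bb
  by_cases hx : x = 0
  · simp [hx]
  · rw [ZMod.neg_val, if_neg hx, Nat.cast_sub (ZMod.val_le x)]
    field_simp
    ring

private theorem bb_zero (q : ℕ) : bb q 0 = 1 / 6 := by
  unfold bb
  cases q with
  | zero => simp
  | succ q => simp [ZMod.val_zero]

private theorem saw_zero (q : ℕ) : saw q 0 = 0 := by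
  unfold saw
  simp

private theorem saw_id_aux (q : ℕ) [NeZero q] (x y : ZMod q) (hy : y ≠ 0) (h : y.val < x.val) :
    saw q x * saw q y = saw q (x - y) * saw q y + saw q x * saw q (y - x)
      + 1 / 2 * (bb q x + bb q y + bb q (x - y)) := by
  have hq : (q : ℝ) ≠ 0 := Nat.cast_ne_zero.2 (NeZero.ne q)
  have hx : x ≠ 0 := by
    rintro rfl
    rw [ZMod.val_zero] at h
    exact absurd h (Nat.not_lt_zero _)
  have hxy : x - y ≠ 0 := by
    intro h0
    rw [sub_eq_zero.1 h0] at h
    exact lt_irrefl _ h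
  have hv : (x - y).val = x.val - y.val := ZMod.val_sub h.le
  have e1 : saw q (y - x) = -saw q (x - y) := by rw [← saw_neg, neg_sub]
  rw [e1]
  unfold saw bb
  rw [if_neg hx, if_neg hy, if_neg hxy, hv, Nat.cast_sub h.le, sub_div]
  ring

/-- PROOF: put `u = x.val / q`, `v = y.val / q` in `[0,1)`.
* `x = 0`, `y ≠ 0`: left side `0`; right side `saw (-y) * saw y + 0 + 1/2 (1/6 + 2 B₂(v))
  = -(v - 1/2)^2 + 1/12 + v^2 - v + 1/6 = 0`. Same for `y = 0`, `x ≠ 0`.
* `x = y ≠ 0`: `(u - 1/2)^2 = 0 + 0 + 1/2 (2 B₂(u) + 1/6)`.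
* `0 < y.val < x.val`: `(x - y).val = x.val - y.val` (`ZMod.val_sub`), `(y - x) = -(x - y)`; so the
  right side is `(u - v - 1/2)(v - 1/2) - (u - 1/2)(u - v - 1/2) + 1/2 (B₂ u + B₂ v + B₂ (u - v))`,
  which is `(u - 1/2)(v - 1/2)` by `ring`.
* `0 < x.val < y.val`: use `saw_neg`, `bb_neg` and the previous case with `x, y` exchanged (the
  identity is symmetric). -/
theorem saw_id (q : ℕ) [NeZero q] (x y : ZMod q) (h : ¬ (x = 0 ∧ y = 0)) :
    saw q x * saw q y = saw q (x - y) * saw q y + saw q x * saw q (y - x)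
      + 1 / 2 * (bb q x + bb q y + bb q (x - y)) := by
  by_cases hx : x = 0
  · have hy : y ≠ 0 := fun hy => h ⟨hx, hy⟩
    subst hx
    rw [zero_sub, sub_zero, saw_neg, bb_neg, bb_zero, saw_zero]
    unfold saw bb
    rw [if_neg hy]
    ring
  · by_cases hy : y = 0
    · subst hy
      rw [zero_sub, sub_zero, saw_neg, bb_zero, saw_zero]
      unfold saw bb
      rw [if_neg hx]
      ring
    · rcases lt_trichotomy y.val x.val with hlt | heq | hlt
      · exact saw_id_aux q x y hy hlt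
      · have hxy : y = x := ZMod.val_injective q heq
        subst hxy
        rw [sub_self, saw_zero, bb_zero]
        unfold saw bb
        rw [if_neg hx]
        ring
      · have := saw_id_aux q y x hx hlt
        have e2 : bb q (x - y) = bb q (y - x) := by rw [← bb_neg, neg_sub]
        rw [e2]
        linarith

end CN94
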