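import Pool.Agent.Lib_CN94.ConeI
import Pool.Agent.Lib_CN94.ConeII
import Pool.Agent.Lib_CN94.Saw

/-!
# Piece CONELIM: the cone limit
-/

namespace CN94

open Filter Topology

private theorem coneLim_hw (n : ℕ) : |hw n| ≤ 1 := by
  unfold hw
  split_ifs
  · rw [abs_of_pos (by norm_num)]; norm_num
  · rw [abs_one]

private theorem coneLim_saw (q : ℕ) [NeZero q] : ∑ x : ZMod q, saw q x = 0 := by
  have h1 : ∑ x : ZMod q, saw q (-x) = ∑ x : ZMod q, saw q x :=
    Equiv.sum_comp (Equiv.neg (ZMod q)) (fun x => saw q x)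
  have h2 : ∑ x : ZMod q, saw q (-x) = -∑ x : ZMod q, saw q x := by
    rw [← Finset.sum_neg_distrib]
    exact Finset.sum_congr rfl fun x _ => saw_neg q x
  linarith

private theorem coneLim_summ (q : ℕ) [NeZero q] (g : ZMod q → ZMod q → ℝ) (A T C t : ℝ)
    (hA : 0 < A) (hT : 0 < T) (hC : 0 < C) (ht : 0 < t) :
    Summable fun p : ℕ × ℕ => hw p.1 * hw p.2 * g (p.1 : ZMod q) (p.2 : ZMod q) *
      ex A T C t p.1 p.2 := by
  have hΦ := ex_summable A T C t hA hT hC ht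
  refine Summable.of_norm_bounded (g := fun p : ℕ × ℕ => (∑ a, ∑ b, |g a b|) *
    |ex A T C t p.1 p.2|) (hΦ.abs.mul_left _) fun p => ?_
  rw [Real.norm_eq_abs, abs_mul]
  refine mul_le_mul_of_nonneg_right ?_ (abs_nonneg _)
  rw [abs_mul, abs_mul]
  have h1 : |g (p.1 : ZMod q) (p.2 : ZMod q)| ≤ ∑ a, ∑ b, |g a b| :=
    (Finset.single_le_sum (f := fun b => |g (p.1 : ZMod q) b|) (fun b _ => abs_nonneg _)
      (Finset.mem_univ (p.2 : ZMod q))).trans
      (Finset.single_le_sum (f := fun a => ∑ b, |g a b|)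
        (fun a _ => Finset.sum_nonneg fun b _ => abs_nonneg _) (Finset.mem_univ (p.1 : ZMod q)))
  have h2 : |hw p.1| * |hw p.2| ≤ 1 :=
    mul_le_one₀ (coneLim_hw _) (abs_nonneg _) (coneLim_hw _)
  calc |hw p.1| * |hw p.2| * |g (p.1 : ZMod q) (p.2 : ZMod q)|
      ≤ 1 * ∑ a, ∑ b, |g a b| := mul_le_mul h2 h1 (abs_nonneg _) zero_le_one
    _ = _ := one_mul _

/-- PROOF: put `m2 y = (1/q) ∑_x F x y`, `m1 x = (1/q) ∑_y F x y`, `G = F - m1 - m2`.  Because
`∑∑ F = 0`, `m1` and `m2` have mean zero and `G` has zero row and column sums; `m1, m2` are even.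
Add `coneI` for `G`, `coneII` for `m2` and `coneII` with `A, C` and `x, y` exchanged (`ex_swap`,
`Equiv.prodComm`) for `m1`.  The limits add up to `LF`:
`∑∑ G saw saw = ∑∑ F saw saw` (as `∑ saw = 0`, `saw` odd), and `q ∑_y m2 y bb y = ∑∑ F x y bb y`. -/
theorem cone_limit (q : ℕ) [NeZero q] (F : ZMod q → ZMod q → ℝ)
    (hev : ∀ x y, F (-x) (-y) = F x y) (hm : ∑ x, ∑ y, F x y = 0)
    (A T C : ℝ) (hA : 0 < A) (hT : 0 < T) (hC : 0 < C) :
    Tendsto (fun t : ℝ => ∑' p : ℕ × ℕ,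
      hw p.1 * hw p.2 * F (p.1 : ZMod q) (p.2 : ZMod q) * ex A T C t p.1 p.2) (𝓝[>] 0)
      (𝓝 (LF q F A T C)) := by
  classical
  have hq : (q : ℝ) ≠ 0 := Nat.cast_ne_zero.2 (NeZero.ne q)
  have hcard : (Fintype.card (ZMod q) : ℝ) = q := by rw [ZMod.card]
  obtain ⟨m1, hm1⟩ : ∃ m1 : ZMod q → ℝ, m1 = fun x => (1 / (q : ℝ)) * ∑ y, F x y := ⟨_, rfl⟩
  obtain ⟨m2, hm2⟩ : ∃ m2 : ZMod q → ℝ, m2 = fun y => (1 / (q : ℝ)) * ∑ x, F x y := ⟨_, rfl⟩
  have hm1q : ∀ x, (q : ℝ) * m1 x = ∑ y, F x y := by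
    intro x
    rw [hm1]
    field_simp
  have hm2q : ∀ y, (q : ℝ) * m2 y = ∑ x, F x y := by
    intro y
    rw [hm2]
    field_simp
  have hs1 : ∑ x, m1 x = 0 := by
    rw [hm1, ← Finset.mul_sum, hm, mul_zero]
  have hs2 : ∑ y, m2 y = 0 := by
    rw [hm2, ← Finset.mul_sum, Finset.sum_comm, hm, mul_zero]
  have he1 : ∀ x, m1 (-x) = m1 x := by
    intro x
    rw [hm1]
    show (1 / (q : ℝ)) * ∑ y, F (-x) y = (1 / (q : ℝ)) * ∑ y, F x y
    congr 1
    rw [← Equiv.sum_comp (Equiv.neg (ZMod q)) (fun y => F (-x) y)]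
    exact Finset.sum_congr rfl fun y _ => hev x y
  have he2 : ∀ y, m2 (-y) = m2 y := by
    intro y
    rw [hm2]
    show (1 / (q : ℝ)) * ∑ x, F x (-y) = (1 / (q : ℝ)) * ∑ x, F x y
    congr 1
    rw [← Equiv.sum_comp (Equiv.neg (ZMod q)) (fun x => F x (-y))]
    exact Finset.sum_congr rfl fun x _ => hev x y
  have hr : ∀ x, ∑ y, (F x y - m1 x - m2 y) = 0 := by
    intro x
    rw [Finset.sum_sub_distrib, Finset.sum_sub_distrib, hs2, ← hm1q x, Finset.sum_const,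
      Finset.card_univ, nsmul_eq_mul, hcard]
    ring
  have hc : ∀ y, ∑ x, (F x y - m1 x - m2 y) = 0 := by
    intro y
    rw [Finset.sum_sub_distrib, Finset.sum_sub_distrib, hs1, ← hm2q y, Finset.sum_const,
      Finset.card_univ, nsmul_eq_mul, hcard]
    ring
  have t1 := coneI q (fun x y => F x y - m1 x - m2 y) hr hc A T C hA hT hC
  have t2 := coneII q m2 hs2 he2 A T C hA hT hC
  have t3 := coneII q m1 hs1 he1 C T A hC hT hA
  have hlim : (∑ x, ∑ y, (F x y - m1 x - m2 y) * (saw q x * saw q y)) +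
      (q : ℝ) * (T / (4 * A)) * ∑ y, m2 y * bb q y +
      (q : ℝ) * (T / (4 * C)) * ∑ y, m1 y * bb q y = LF q F A T C := by
    have a1 : ∑ x, ∑ y, (F x y - m1 x - m2 y) * (saw q x * saw q y) =
        ∑ x, ∑ y, F x y * (saw q x * saw q y) := by
      have b1 : ∀ x, ∑ y, (F x y - m1 x - m2 y) * (saw q x * saw q y) =
          ∑ y, F x y * (saw q x * saw q y) - m1 x * saw q x * ∑ y, saw q y -
            saw q x * ∑ y, m2 y * saw q y := by
        intro x
        rw [Finset.mul_sum, Finset.mul_sum, ← Finset.sum_sub_distrib, ← Finset.sum_sub_distrib]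
        exact Finset.sum_congr rfl fun y _ => by ring
      rw [Finset.sum_congr rfl fun x _ => b1 x, Finset.sum_sub_distrib, Finset.sum_sub_distrib,
        coneLim_saw, ← Finset.sum_mul (f := fun x => saw q x), coneLim_saw]
      simp
    have a2 : (q : ℝ) * (T / (4 * A)) * ∑ y, m2 y * bb q y =
        ∑ x, ∑ y, F x y * (T / (4 * A) * bb q y) := by
      rw [Finset.sum_comm, Finset.mul_sum]
      refine Finset.sum_congr rfl fun y _ => ?_
      rw [← Finset.sum_mul, ← hm2q y]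
      ring
    have a3 : (q : ℝ) * (T / (4 * C)) * ∑ y, m1 y * bb q y =
        ∑ x, ∑ y, F x y * (T / (4 * C) * bb q x) := by
      rw [Finset.mul_sum]
      refine Finset.sum_congr rfl fun x _ => ?_
      rw [← Finset.sum_mul, ← hm1q x]
      ring
    rw [a1, a2, a3, LF, ← Finset.sum_add_distrib, ← Finset.sum_add_distrib]
    refine Finset.sum_congr rfl fun x _ => ?_
    rw [← Finset.sum_add_distrib, ← Finset.sum_add_distrib]
    exact Finset.sum_congr rfl fun y _ => by ring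
  rw [← hlim]
  refine ((t1.add t2).add t3).congr' ?_
  filter_upwards [self_mem_nhdsWithin] with t ht
  have ht' : 0 < t := ht
  have s1 := coneLim_summ q (fun x y => F x y - m1 x - m2 y) A T C t hA hT hC ht'
  have s2 := coneLim_summ q (fun _ y => m2 y) A T C t hA hT hC ht'
  have s3 := coneLim_summ q (fun x _ => m1 x) A T C t hA hT hC ht'
  have e3 : ∑' p : ℕ × ℕ, hw p.1 * hw p.2 * m1 (p.2 : ZMod q) * ex C T A t p.1 p.2 =
      ∑' p : ℕ × ℕ, hw p.1 * hw p.2 * m1 (p.1 : ZMod q) * ex A T C t p.1 p.2 := by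
    rw [← (Equiv.prodComm ℕ ℕ).tsum_eq
      (fun p : ℕ × ℕ => hw p.1 * hw p.2 * m1 (p.1 : ZMod q) * ex A T C t p.1 p.2)]
    refine tsum_congr fun p => ?_
    show hw p.1 * hw p.2 * m1 (p.2 : ZMod q) * ex C T A t p.1 p.2 =
      hw p.2 * hw p.1 * m1 (p.2 : ZMod q) * ex A T C t p.2 p.1
    rw [ex_swap A T C, mul_comm (hw p.1)]
  rw [e3, ← s1.tsum_add s2, ← (s1.add s2).tsum_add s3]
  exact tsum_congr fun p => by ring

end CN94
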