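import Mathlib
import Pool.Agent.Lib_MP_94ab8c.Defs
import Pool.Agent.Lib_MP_94ab8c.Quad

/-!
# MP_94ab8c_nt, the class number one part: definitions

`R e = ℤ[ω]`, `ω² = e + ω`, is the order of discriminant `4 e + 1` (library of helper73, namespace
`QP`).  `tr z = 2 re + im`, `norm z = re² + re im - e im²`, `star` is the conjugation.
-/

namespace CN94

open QP QuadraticAlgebra

/-- half weight at `0` -/
noncomputable def hw (n : ℕ) : ℝ := if n = 0 then 1 / 2 else 1

/-- the sawtooth `((x/q))` -/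
noncomputable def saw (q : ℕ) (x : ZMod q) : ℝ := if x = 0 then 0 else (x.val : ℝ) / q - 1 / 2

/-- the second Bernoulli polynomial of the fractional part, `B₂({x/q})` -/
noncomputable def bb (q : ℕ) (x : ZMod q) : ℝ := ((x.val : ℝ) / q) ^ 2 - (x.val : ℝ) / q + 1 / 6

/-- the regularised value of a cone with coefficients `F` and form `A x² + T x y + C y²` -/
noncomputable def LF (q : ℕ) [NeZero q] (F : ZMod q → ZMod q → ℝ) (A T C : ℝ) : ℝ :=
  ∑ x, ∑ y, F x y * (saw q x * saw q y + T / (4 * C) * bb q x + T / (4 * A) * bb q y)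

/-- the form `A x² + T x y + C y²` on `ZMod q` -/
def qf (q : ℕ) (A T C : ℤ) (x y : ZMod q) : ZMod q :=
  (A : ZMod q) * x ^ 2 + (T : ZMod q) * (x * y) + (C : ZMod q) * y ^ 2

/-- the regularised value for the coefficients `f (A x² + T x y + C y²)` -/
noncomputable def Lam (q : ℕ) [NeZero q] (f : ZMod q → ℝ) (A T C : ℤ) : ℝ :=
  LF q (fun x y => f (qf q A T C x y)) A T C

/-- `L(0, g)` for a function `g` on `ZMod M` with `g 0 = 0` and `∑ g = 0` -/
noncomputable def LL (M : ℕ) [NeZero M] (g : ZMod M → ℝ) : ℝ := -∑ x, g x * saw M x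

/-- the odd delta function `[x = h] - [x = -h]` -/
noncomputable def dl (q : ℕ) (h x : ZMod q) : ℝ := (if x = h then 1 else 0) - if x = -h then 1 else 0

section R

variable {e : ℤ}

/-- the pairing `v w' + v' w` -/
def pr (v w : R e) : ℤ := tr (v * star w)

/-- the determinant of two elements in the basis `1, ω` -/
def dt (v w : R e) : ℤ := v.re * w.im - v.im * w.re

/-- totally positive -/
def TP (z : R e) : Prop := 0 < norm z ∧ 0 < tr z

/-- a unimodular path from `1` to the totally positive unit `ε` inside the cone of totally positive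
elements -/
structure IsPath (ε : R e) (L : ℕ) (p : ℕ → R e) : Prop where
  zero : p 0 = 1
  tp : ∀ i ≤ L, TP (p i)
  det : ∀ i < L, dt (p i) (p (i + 1)) = 1
  last : p L = ε
  unit : norm ε = 1
  im : 0 < ε.im

/-- the points of the half open cones of the path with norm `n` -/
def cset (L : ℕ) (p : ℕ → R e) (n : ℤ) : Set (ℕ × ℕ × ℕ) :=
  {z | z.1 < L ∧ 1 ≤ z.2.1 ∧ norm ((z.2.1 : R e) * p z.1 + (z.2.2 : R e) * p (z.1 + 1)) = n}

/-- their number -/
noncomputable def cnt (L : ℕ) (p : ℕ → R e) (n : ℤ) : ℕ := Nat.card (cset L p n)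

/-- the half open sector from `1` to `ε` (for totally positive `β`) -/
def Sec (ε β : R e) : Prop := 0 ≤ β.im ∧ 0 < dt β ε

/-- principal ideals with a generator of norm `± n` -/
def Id (e n : ℤ) : Set (Ideal (R e)) := {I | ∃ β : R e, |norm β| = n ∧ I = Ideal.span {β}}

/-- ideals with a totally positive generator of norm `n` -/
def IdP (e n : ℤ) : Set (Ideal (R e)) := {I | ∃ β : R e, TP β ∧ norm β = n ∧ I = Ideal.span {β}}

/-- an element of norm `1` as a unit -/
def un (ε : R e) (h : norm ε = 1) : (R e)ˣ where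
  val := ε
  inv := star ε
  val_inv := by rw [QP.mul_star_self, h]; simp
  inv_val := by rw [mul_comm, QP.mul_star_self, h]; simp

/-- the value of the edge `v, w` -/
noncomputable def Lv (q : ℕ) [NeZero q] (f : ZMod q → ℝ) (v w : R e) : ℝ :=
  Lam q f (norm v) (pr v w) (norm w)

end R

/-- integral sawtooth `2 q ((x/q))` -/
def si (q : ℕ) (x : ZMod q) : ℤ := if x = 0 then 0 else 2 * (x.val : ℤ) - q

/-- `6 q² B₂({x/q})` -/
def bi (q : ℕ) (x : ZMod q) : ℤ := 6 * (x.val : ℤ) ^ 2 - 6 * (x.val : ℤ) * q + (q : ℤ) ^ 2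

/-- the weight of the final relation -/
def WW (q : ℕ) (k B m : ℤ) (x y : ZMod q) : ℤ :=
  6 * (si q x * si q y) - 6 * (si q x * si q ((k : ZMod q) * x + y)) + 2 * k * bi q x + B * bi q y
    + m * bi q ((k : ZMod q) * x + y)

/-- the relation modulo `r` attached to a character `χ` modulo `q` with values in `ZMod r` -/
def Rel (q r : ℕ) [NeZero q] (χ : ZMod q → ZMod r) (k B N m : ℤ) : Prop :=
  ∑ x : ZMod q, ∑ y : ZMod q, χ (qf q 1 B N x y) * ((WW q k B m x y : ℤ) : ZMod r) = 0

/-- the characters used: multiplicative, zero exactly on the non-units, odd, and with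
`∑ a χ(a) = 0` -/
structure GoodChar (q r : ℕ) [NeZero q] (χ : ZMod q → ZMod r) : Prop where
  one : χ 1 = 1
  mul : ∀ x y, χ (x * y) = χ x * χ y
  non : ∀ x, ¬ IsUnit x → χ x = 0
  odd : χ (-1) = -1
  sum : ∑ x : ZMod q, (x.val : ZMod r) * χ x = 0

end CN94
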