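import Pool.Agent.Lib_CN94.ExDefs

/-!
# Piece DIFFBA: bounds for the differences of the kernel

`Q = A x² + T x y + C y²`, `E = exp (-t Q)`, `a = ∂Q/∂x = 2 A x + T y`, `b = ∂Q/∂y = T x + 2 C y`:
* `∂E/∂x = -t a E`
* `∂²E/∂x² = (t² a² - 2 A t) E`
* `∂³E/∂x³ = (-t³ a³ + 6 A t² a) E`
* `∂³E/∂x²∂y = (2 T t² a - t³ a² b + 2 A t² b) E`.
With `M = 2 (A + T + C)`, `z = √t (x + y)`: `0 ≤ √t a, √t b ≤ M z`; with
`μ = min A (min C (T/2))`, `Q ≥ μ (x + y)²`, so `E ≤ exp (-μ z²)`.  So the first bound is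
`|∂²E/∂x²| ≤ t (M² z² + 2 A) exp (-μ z²)`, the others
`≤ t √t (M³ z³ + 6 A M z + 2 T M z) exp (-μ z²)`, and `(polynomial in z) exp (-μ z²)
≤ K exp (-(μ/2) z²)` (e.g. `z² ≤ (4/μ) exp (μ z²/4)`, `z ≤ 1 + z²`, ...), `z² ≥ t (x² + y²)`.
Differences: `|g (x+1) - g x| ≤ sup_{[x,x+1]} |g'|` (mean value theorem,
`Convex.norm_image_sub_le_of_norm_deriv_le` or `exists_deriv_eq_slope`), applied two or three times
(the derivative of a difference is the difference of the derivatives); the bound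
`exp (-(c t (x² + y²)))` is decreasing in `x, y ≥ 0`.
-/

namespace CN94

theorem DiffBA_d1 (A T C t x y : ℝ) : HasDerivAt (fun x => ex A T C t x y)
    (-(t * (2 * A * x + T * y)) * ex A T C t x y) x := by
  unfold ex
  have h1 : HasDerivAt (fun x : ℝ => A * x ^ 2) (A * (2 * x)) x := by
    have h := (hasDerivAt_pow 2 x).const_mul A
    simpa using h
  have h2 : HasDerivAt (fun x : ℝ => T * (x * y)) (T * y) x := by
    have h := ((hasDerivAt_id x).mul_const y).const_mul T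
    simpa using h
  have h3 : HasDerivAt (fun x : ℝ => -(t * (A * x ^ 2 + T * (x * y) + C * y ^ 2)))
      (-(t * (A * (2 * x) + T * y))) x := (((h1.add h2).add_const (C * y ^ 2)).const_mul t).neg
  exact h3.exp.congr_deriv (by ring)

theorem DiffBA_d2 (A T C t x y : ℝ) :
    HasDerivAt (fun x => -(t * (2 * A * x + T * y)) * ex A T C t x y)
      ((t ^ 2 * (2 * A * x + T * y) ^ 2 - 2 * A * t) * ex A T C t x y) x := by
  have h1 : HasDerivAt (fun x : ℝ => -(t * (2 * A * x + T * y))) (-(t * (2 * A))) x := by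
    have h := (((hasDerivAt_id x).const_mul (2 * A)).add_const (T * y)).const_mul t
    have h' : HasDerivAt (fun x : ℝ => t * (2 * A * x + T * y)) (t * (2 * A)) x := by
      simpa using h
    exact h'.neg
  exact (h1.mul (DiffBA_d1 A T C t x y)).congr_deriv (by ring)

theorem DiffBA_bd (A T C : ℝ) (hA : 0 < A) (hT : 0 < T) (hC : 0 < C) (t : ℝ) (ht : 0 < t)
    (x y z : ℝ) (hx : 0 ≤ x) (hy : 0 ≤ y) (hz : x ≤ z) :
    |(t ^ 2 * (2 * A * z + T * y) ^ 2 - 2 * A * t) * ex A T C t z y| ≤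
      (4 * (2 * A + T) ^ 2 / min A C + 2 * A) * t *
        Real.exp (-(min A C / 2 * t * (x ^ 2 + y ^ 2))) := by
  set μ := min A C with hμ
  have hμ0 : 0 < μ := lt_min hA hC
  have hμA : μ ≤ A := min_le_left _ _
  have hμC : μ ≤ C := min_le_right _ _
  have hz0 : 0 ≤ z := hx.trans hz
  set s := z ^ 2 + y ^ 2 with hs
  have hs0 : 0 ≤ s := by positivity
  have hE : ex A T C t z y ≤ Real.exp (-(μ * t * s)) := by
    unfold ex
    refine Real.exp_le_exp.2 (neg_le_neg ?_)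
    have h1 : μ * s ≤ A * z ^ 2 + T * (z * y) + C * y ^ 2 := by
      have q1 := mul_le_mul_of_nonneg_right hμA (sq_nonneg z)
      have q2 := mul_le_mul_of_nonneg_right hμC (sq_nonneg y)
      have q3 : 0 ≤ T * (z * y) := by positivity
      rw [hs]
      linarith
    have := mul_le_mul_of_nonneg_left h1 ht.le
    linarith
  have ha : (2 * A * z + T * y) ^ 2 ≤ 2 * (2 * A + T) ^ 2 * s := by
    have q1 : 2 * A * z + T * y ≤ (2 * A + T) * (z + y) := by
      have : 0 ≤ 2 * A * y + T * z := by positivity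
      linarith
    have q2 : (2 * A * z + T * y) ^ 2 ≤ ((2 * A + T) * (z + y)) ^ 2 :=
      pow_le_pow_left₀ (by positivity) q1 2
    have q3 : (z + y) ^ 2 ≤ 2 * s := by
      rw [hs]
      linarith [sq_nonneg (z - y), (by ring : (z + y) ^ 2 + (z - y) ^ 2 = 2 * (z ^ 2 + y ^ 2))]
    have q4 := mul_le_mul_of_nonneg_left q3 (sq_nonneg (2 * A + T))
    calc (2 * A * z + T * y) ^ 2 ≤ ((2 * A + T) * (z + y)) ^ 2 := q2
      _ = (2 * A + T) ^ 2 * (z + y) ^ 2 := by ring
      _ ≤ (2 * A + T) ^ 2 * (2 * s) := q4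
      _ = 2 * (2 * A + T) ^ 2 * s := by ring
  have hab : |t ^ 2 * (2 * A * z + T * y) ^ 2 - 2 * A * t| ≤
      t * (2 * (2 * A + T) ^ 2 * (t * s) + 2 * A) := by
    have q1 := mul_le_mul_of_nonneg_left ha (sq_nonneg t)
    have q2 : 0 ≤ t ^ 2 * (2 * A * z + T * y) ^ 2 := by positivity
    have q3 : 0 ≤ 2 * A * t := by positivity
    have q4 : 0 ≤ t * (2 * (2 * A + T) ^ 2 * (t * s)) := by positivity
    rw [abs_le]
    constructor <;> linarith
  have hexp : t * s * Real.exp (-(μ * t * s)) ≤ 2 / μ * Real.exp (-(μ / 2 * t * s)) := by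
    have q1 : μ / 2 * t * s ≤ Real.exp (μ / 2 * t * s) := by
      have := Real.add_one_le_exp (μ / 2 * t * s)
      linarith
    have q2 : Real.exp (-(μ * t * s)) =
        Real.exp (-(μ / 2 * t * s)) * Real.exp (-(μ / 2 * t * s)) := by
      rw [← Real.exp_add]
      congr 1
      ring
    have q3 : Real.exp (μ / 2 * t * s) * Real.exp (-(μ / 2 * t * s)) = 1 := by
      rw [← Real.exp_add, add_neg_cancel, Real.exp_zero]
    have q4 : 0 < Real.exp (-(μ / 2 * t * s)) := Real.exp_pos _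
    have q5 : μ / 2 * t * s * Real.exp (-(μ / 2 * t * s)) ≤ 1 := by
      rw [← q3]
      exact mul_le_mul_of_nonneg_right q1 q4.le
    rw [q2]
    calc t * s * (Real.exp (-(μ / 2 * t * s)) * Real.exp (-(μ / 2 * t * s)))
        = 2 / μ * (μ / 2 * t * s * Real.exp (-(μ / 2 * t * s))) * Real.exp (-(μ / 2 * t * s)) := by
          field_simp
      _ ≤ 2 / μ * 1 * Real.exp (-(μ / 2 * t * s)) := by gcongr
      _ = 2 / μ * Real.exp (-(μ / 2 * t * s)) := by ring
  have hexp2 : Real.exp (-(μ * t * s)) ≤ Real.exp (-(μ / 2 * t * s)) := by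
    refine Real.exp_le_exp.2 (neg_le_neg ?_)
    have : 0 ≤ μ * t * s := by positivity
    linarith
  have hmono : Real.exp (-(μ / 2 * t * s)) ≤ Real.exp (-(μ / 2 * t * (x ^ 2 + y ^ 2))) := by
    refine Real.exp_le_exp.2 (neg_le_neg (mul_le_mul_of_nonneg_left ?_ (by positivity)))
    rw [hs]
    have := pow_le_pow_left₀ hx hz 2
    linarith
  have hX : 0 < Real.exp (-(μ * t * s)) := Real.exp_pos _
  rw [abs_mul, abs_of_pos (ex_pos A T C t z y)]
  calc |t ^ 2 * (2 * A * z + T * y) ^ 2 - 2 * A * t| * ex A T C t z y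
      ≤ t * (2 * (2 * A + T) ^ 2 * (t * s) + 2 * A) * Real.exp (-(μ * t * s)) :=
        mul_le_mul hab hE (ex_pos A T C t z y).le (by positivity)
    _ = t * (2 * (2 * A + T) ^ 2 * (t * s * Real.exp (-(μ * t * s))) +
          2 * A * Real.exp (-(μ * t * s))) := by ring
    _ ≤ t * (2 * (2 * A + T) ^ 2 * (2 / μ * Real.exp (-(μ / 2 * t * s))) +
          2 * A * Real.exp (-(μ / 2 * t * s))) := by gcongr
    _ = (4 * (2 * A + T) ^ 2 / μ + 2 * A) * t * Real.exp (-(μ / 2 * t * s)) := by ring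
    _ ≤ (4 * (2 * A + T) ^ 2 / μ + 2 * A) * t *
          Real.exp (-(μ / 2 * t * (x ^ 2 + y ^ 2))) := by gcongr

theorem diff_xx (A T C : ℝ) (hA : 0 < A) (hT : 0 < T) (hC : 0 < C) :
    ∃ K c : ℝ, 0 ≤ K ∧ 0 < c ∧ ∀ t : ℝ, 0 < t → t ≤ 1 → ∀ x y : ℝ, 0 ≤ x → 0 ≤ y →
      |ex A T C t (x + 2) y - 2 * ex A T C t (x + 1) y + ex A T C t x y| ≤
        K * t * Real.exp (-(c * t * (x ^ 2 + y ^ 2))) := by
  have hμ : 0 < min A C := lt_min hA hC
  refine ⟨4 * (2 * A + T) ^ 2 / min A C + 2 * A, min A C / 2, by positivity, by positivity,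
    fun t ht _ x y hx hy => ?_⟩
  -- first application of the mean value theorem
  have h1 : ∀ x : ℝ, HasDerivAt (fun x => ex A T C t (x + 1) y - ex A T C t x y)
      (-(t * (2 * A * (x + 1) + T * y)) * ex A T C t (x + 1) y -
        -(t * (2 * A * x + T * y)) * ex A T C t x y) x := fun x =>
    ((DiffBA_d1 A T C t (x + 1) y).comp_add_const x 1).sub (DiffBA_d1 A T C t x y)
  obtain ⟨ξ, hξ, e1⟩ := exists_hasDerivAt_eq_slope _ _ (lt_add_one x)
    (fun z _ => (h1 z).continuousAt.continuousWithinAt) (fun z _ => h1 z)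
  -- second application
  obtain ⟨η, hη, e2⟩ := exists_hasDerivAt_eq_slope _ _ (lt_add_one ξ)
    (fun z _ => (DiffBA_d2 A T C t z y).continuousAt.continuousWithinAt)
    (fun z _ => DiffBA_d2 A T C t z y)
  have e3 : ex A T C t (x + 2) y - 2 * ex A T C t (x + 1) y + ex A T C t x y =
      (t ^ 2 * (2 * A * η + T * y) ^ 2 - 2 * A * t) * ex A T C t η y := by
    have e4 : x + 1 + 1 = x + 2 := by ring
    rw [add_sub_cancel_left, div_one] at e1 e2
    rw [e4] at e1
    rw [e2, e1]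
    ring
  rw [e3]
  exact DiffBA_bd A T C hA hT hC t ht x y η hx hy (by linarith [hξ.1, hη.1])

end CN94
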