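import Pool.Agent.Lib_CN94.Defs

/-!
# Piece DIVSUM: divisor sums as sums over pairs
-/

namespace CN94

/-- PROOF: the map `(m, k) ↦ (m+1)(k+1)` from `ℕ × ℕ`; the fibre over `n + 1` is
`(n+1).divisorsAntidiagonal` (`sigmaAntidiagonalEquivProd` or `Nat.sum_divisorsAntidiagonal`); all
sums are absolutely summable: the terms are at most `K exp (-(t (m+1)(k+1)))`. -/
theorem div_sum (a b f : ℕ → ℝ) (K : ℝ) (ha : ∀ n, |a n| ≤ K) (hb : ∀ n, |b n| ≤ K)
    (hf : ∀ n, |f n| ≤ K) (t : ℝ) (ht : 0 < t) :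
    (Summable fun z : ℕ × ℕ => a (z.1 + 1) * b (z.2 + 1) * f ((z.1 + 1) * (z.2 + 1)) *
      Real.exp (-(t * ((z.1 + 1) * (z.2 + 1))))) ∧
    (Summable fun n : ℕ => (∑ d ∈ (n + 1).divisors, a ((n + 1) / d) * b d) * f (n + 1) *
      Real.exp (-(t * (n + 1)))) ∧
    ∑' n : ℕ, (∑ d ∈ (n + 1).divisors, a ((n + 1) / d) * b d) * f (n + 1) *
        Real.exp (-(t * (n + 1))) =
      ∑' z : ℕ × ℕ, a (z.1 + 1) * b (z.2 + 1) * f ((z.1 + 1) * (z.2 + 1)) *
        Real.exp (-(t * ((z.1 + 1) * (z.2 + 1)))) := by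
  have hK : 0 ≤ K := (abs_nonneg _).trans (ha 0)
  obtain ⟨g, hg⟩ : ∃ g : ℕ × ℕ → ℝ, g = fun z : ℕ × ℕ => a (z.1 + 1) * b (z.2 + 1) *
      f ((z.1 + 1) * (z.2 + 1)) * Real.exp (-(t * ((z.1 + 1) * (z.2 + 1)))) := ⟨_, rfl⟩
  have hr : Summable fun n : ℕ => Real.exp (-t) ^ n :=
    summable_geometric_of_lt_one (Real.exp_pos _).le (Real.exp_lt_one_iff.2 (by linarith))
  have hr2 : Summable fun z : ℕ × ℕ => Real.exp (-t) ^ z.1 * Real.exp (-t) ^ z.2 :=
    hr.mul_of_nonneg hr (fun n => pow_nonneg (Real.exp_pos _).le _)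
      (fun n => pow_nonneg (Real.exp_pos _).le _)
  have hs : Summable g := by
    refine Summable.of_norm_bounded (hr2.mul_left (K * K * K)) fun z => ?_
    rw [hg]
    simp only [Real.norm_eq_abs, abs_mul]
    rw [abs_of_pos (Real.exp_pos _)]
    refine mul_le_mul (mul_le_mul (mul_le_mul (ha _) (hb _) (abs_nonneg _) hK) (hf _)
      (abs_nonneg _) (by positivity)) ?_ (Real.exp_pos _).le (by positivity)
    rw [← Real.exp_nat_mul, ← Real.exp_nat_mul, ← Real.exp_add]
    apply Real.exp_le_exp.2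
    have h1 : (0 : ℝ) ≤ z.1 := Nat.cast_nonneg _
    have h2 : (0 : ℝ) ≤ z.2 := Nat.cast_nonneg _
    nlinarith [mul_nonneg h1 h2, mul_nonneg ht.le (mul_nonneg h1 h2)]
  have key := hs.hasSum.tsum_fiberwise (fun z : ℕ × ℕ => (z.1 + 1) * (z.2 + 1) - 1)
  have hfib : ∀ n : ℕ, ∑' z : ((fun z : ℕ × ℕ => (z.1 + 1) * (z.2 + 1) - 1) ⁻¹' {n} :
      Set (ℕ × ℕ)), g z = (∑ d ∈ (n + 1).divisors, a ((n + 1) / d) * b d) * f (n + 1) *
      Real.exp (-(t * (n + 1))) := by
    intro n
    have hset : ((fun z : ℕ × ℕ => (z.1 + 1) * (z.2 + 1) - 1) ⁻¹' {n} : Set (ℕ × ℕ)) =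
        ((n + 1).divisors.image fun d => ((n + 1) / d - 1, d - 1) : Finset (ℕ × ℕ)) := by
      ext ⟨x, y⟩
      simp only [Set.mem_preimage, Set.mem_singleton_iff, Finset.coe_image, Set.mem_image,
        Finset.mem_coe, Nat.mem_divisors, Prod.mk.injEq]
      constructor
      · intro h
        have h1 : (x + 1) * (y + 1) = n + 1 := by
          have : 0 < (x + 1) * (y + 1) := by positivity
          omega
        refine ⟨y + 1, ⟨⟨x + 1, by rw [← h1]; ring⟩, by omega⟩, ?_, by omega⟩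
        rw [← h1, Nat.mul_div_cancel _ (Nat.succ_pos y)]
        omega
      · rintro ⟨d, ⟨⟨c, hc⟩, -⟩, h1, h2⟩
        have hd : 0 < d := by
          rcases Nat.eq_zero_or_pos d with h | h
          · subst h; simp at hc
          · exact h
        have hc0 : 0 < c := by
          rcases Nat.eq_zero_or_pos c with h | h
          · subst h; simp at hc
          · exact h
        rw [hc, Nat.mul_div_cancel_left _ hd] at h1
        have hx : x + 1 = c := by omega
        have hy : y + 1 = d := by omega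
        rw [hx, hy, mul_comm, ← hc]
        omega
    rw [hset, Finset.tsum_subtype' _ g, Finset.sum_image, Finset.sum_mul, Finset.sum_mul]
    · refine Finset.sum_congr rfl fun d hd => ?_
      obtain ⟨⟨c, hc⟩, -⟩ := Nat.mem_divisors.1 hd
      have hd : 0 < d := by
        rcases Nat.eq_zero_or_pos d with h | h
        · subst h; simp at hc
        · exact h
      have hc0 : 0 < c := by
        rcases Nat.eq_zero_or_pos c with h | h
        · subst h; simp at hc
        · exact h
      have e1 : (n + 1) / d = c := by rw [hc, Nat.mul_div_cancel_left _ hd]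
      have e2 : c - 1 + 1 = c := by omega
      have e3 : d - 1 + 1 = d := by omega
      have e4 : c * d = n + 1 := by rw [hc, mul_comm]
      have e5 : ((c - 1 : ℕ) : ℝ) + 1 = c := by exact_mod_cast e2
      have e6 : ((d - 1 : ℕ) : ℝ) + 1 = d := by exact_mod_cast e3
      have e7 : (c : ℝ) * d = n + 1 := by exact_mod_cast e4
      rw [hg]
      simp only [e1, e2, e3, e4, e5, e6, e7]
    · intro d hd d' hd' h
      obtain ⟨⟨c, hc⟩, -⟩ := Nat.mem_divisors.1 hd
      obtain ⟨⟨c', hc'⟩, -⟩ := Nat.mem_divisors.1 hd'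
      have h1 : 0 < d := by
        rcases Nat.eq_zero_or_pos d with h | h
        · subst h; simp at hc
        · exact h
      have h2 : 0 < d' := by
        rcases Nat.eq_zero_or_pos d' with h | h
        · subst h; simp at hc'
        · exact h
      have h3 : d - 1 = d' - 1 := (Prod.ext_iff.1 h).2
      omega
  rw [hg] at hs
  refine ⟨hs, ?_, ?_⟩
  · refine key.summable.congr fun n => ?_
    exact (hfib n)
  · rw [← hg, ← key.tsum_eq]
    exact tsum_congr fun n => (hfib n).symm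

end CN94
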