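import Pool.Agent.Lib_CN94.DltA
import Pool.Agent.Lib_CN94.Saw

/-!
# Piece DLTB: the odd delta functions times a Jacobi symbol
-/

namespace CN94

/-- sum of a product of a function modulo `m` and a function modulo `n` -/
private theorem Dlt_prod (m n : ℕ) [NeZero m] [NeZero n] [NeZero (m * n)] (hmn : m.Coprime n)
    (f : ZMod m → ℝ) (g : ZMod n → ℝ) :
    ∑ x : ZMod (m * n), f (x.val : ZMod m) * g (x.val : ZMod n) = (∑ x, f x) * ∑ x, g x := by
  have h1 : ∀ x : ZMod (m * n), ZMod.chineseRemainder hmn x =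
      ((x.val : ZMod m), (x.val : ZMod n)) := by
    intro x
    have h2 : ZMod.chineseRemainder hmn ((x.val : ℕ) : ZMod (m * n)) =
        ((x.val : ℕ) : ZMod m × ZMod n) := map_natCast _ _
    rw [ZMod.natCast_zmod_val] at h2
    rw [h2]
    rfl
  have h3 : ∑ x : ZMod (m * n), f (x.val : ZMod m) * g (x.val : ZMod n) =
      ∑ z : ZMod m × ZMod n, f z.1 * g z.2 := by
    refine Fintype.sum_equiv (ZMod.chineseRemainder hmn).toEquiv _ _ fun x => ?_
    show _ = f (ZMod.chineseRemainder hmn x).1 * g (ZMod.chineseRemainder hmn x).2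
    rw [h1]
  rw [h3, Fintype.sum_prod_type, Finset.sum_mul_sum]

private theorem Dlt_jac (D : ℕ) [NeZero D] (n : ℕ) :
    jacobiSym (n : ℤ) D = jacobiSym (((n : ZMod D).val : ℕ) : ℤ) D := by
  rw [jacobiSym.mod_left (n : ℤ) D, ZMod.val_natCast]
  push_cast
  rfl

variable (q : ℕ) [NeZero q]

/-- `g` times a Jacobi symbol, as a function on `ZMod (q * D)` -/
noncomputable def dlJ (D : ℕ) (h : ZMod q) (x : ZMod (q * D)) : ℝ :=
  dl q h (x.val : ZMod q) * (jacobiSym x.val D : ℝ)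

private theorem Dlt_int (D : ℕ) [NeZero D] (h : ZMod q) (z : ℤ) :
    dlJ q D h ((z : ℤ) : ZMod (q * D)) = dl q h (z : ZMod q) * (jacobiSym z D : ℝ) := by
  haveI : NeZero (q * D) := ⟨mul_ne_zero (NeZero.ne q) (NeZero.ne D)⟩
  unfold dlJ
  have h1 : (((z : ZMod (q * D)).val : ℕ) : ℤ) = z % ((q * D : ℕ) : ℤ) := ZMod.val_intCast z
  have h2 : (((z : ZMod (q * D)).val : ℕ) : ZMod q) = (z : ZMod q) := by
    have h3 : (((((z : ZMod (q * D)).val : ℕ) : ℤ)) : ZMod q) = (z : ZMod q) := by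
      rw [h1, ZMod.intCast_eq_intCast_iff]
      have h4 : z % ((q * D : ℕ) : ℤ) ≡ z [ZMOD ((q * D : ℕ) : ℤ)] := Int.mod_modEq _ _
      exact h4.of_dvd (by push_cast; exact dvd_mul_right _ _)
    rw [← h3]
    push_cast
    rfl
  have h5 : jacobiSym (((z : ZMod (q * D)).val : ℕ) : ℤ) D = jacobiSym z D := by
    rw [h1, jacobiSym.mod_left, jacobiSym.mod_left z]
    congr 1
    push_cast
    exact Int.emod_emod_of_dvd z (dvd_mul_left _ _)
  rw [h2, h5]

/-- PROOF: `(n : ZMod (q D)).val = n % (q D)`; both factors are periodic. -/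
theorem dlJ_nat (D : ℕ) [NeZero D] (h : ZMod q) (n : ℕ) :
    dlJ q D h ((n : ℕ) : ZMod (q * D)) = dl q h (n : ZMod q) * (jacobiSym n D : ℝ) := by
  have h1 := Dlt_int q D h (n : ℤ)
  rw [Int.cast_natCast, Int.cast_natCast] at h1
  exact h1

theorem dlJ_zero (D : ℕ) [NeZero D] (hq : 1 < q) (u : (ZMod q)ˣ) : dlJ q D u 0 = 0 := by
  unfold dlJ
  rw [ZMod.val_zero, Nat.cast_zero, dl_zero q hq u, zero_mul]

/-- mean zero.
PROOF: for fixed residue `b` modulo `q`, the numbers `x ≡ b mod q`, `0 ≤ x < q D`, are `b + q j`,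
`j < D`, and run through all residues modulo `D` because `q` is prime to `D`; and
`∑_{x mod D} jacobiSym x D = 0` by hypothesis. -/
theorem dlJ_sum (D : ℕ) [NeZero D] [NeZero (q * D)] (h : ZMod q) (hqD : q.Coprime D)
    (hD : ∑ x : ZMod D, (jacobiSym x.val D : ℝ) = 0) : ∑ x, dlJ q D h x = 0 := by
  have h1 := Dlt_prod q D hqD (dl q h) (fun x => (jacobiSym x.val D : ℝ))
  rw [hD, mul_zero] at h1
  rw [← h1]
  refine Finset.sum_congr rfl fun x _ => ?_
  unfold dlJ
  rw [Dlt_jac D x.val]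

/-- `L(0)` of an even function is zero.
PROOF: if `jacobiSym (-1) D = -1` then `dlJ` is even (`dl` is odd), and `saw` is odd. -/
theorem LL_even (D : ℕ) [NeZero D] [NeZero (q * D)] (h : ZMod q) (hD : jacobiSym (-1) D = -1) :
    LL (q * D) (dlJ q D h) = 0 := by
  have h1 : ∀ x : ZMod (q * D), dlJ q D h (-x) = dlJ q D h x := by
    intro x
    have e1 : x = (((x.val : ℕ) : ℤ) : ZMod (q * D)) := by
      rw [Int.cast_natCast, ZMod.natCast_zmod_val]
    have e2 : -x = ((-((x.val : ℕ) : ℤ) : ℤ) : ZMod (q * D)) := by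
      rw [Int.cast_neg, ← e1]
    rw [e2, Dlt_int]
    conv_rhs => rw [e1]
    rw [Dlt_int, Int.cast_neg, dl_neg]
    have e3 : jacobiSym (-((x.val : ℕ) : ℤ)) D = - jacobiSym ((x.val : ℕ) : ℤ) D := by
      rw [neg_eq_neg_one_mul, jacobiSym.mul_left, hD, neg_one_mul]
    rw [e3]
    push_cast
    ring
  have h2 : ∑ x, dlJ q D h x * saw (q * D) x = - ∑ x, dlJ q D h x * saw (q * D) x := by
    conv_lhs => rw [← Equiv.sum_comp (Equiv.neg (ZMod (q * D)))]
    rw [← Finset.sum_neg_distrib]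
    refine Finset.sum_congr rfl fun x _ => ?_
    rw [Equiv.neg_apply, h1, saw_neg, mul_neg]
  unfold LL
  linarith

/-- PROOF: `D` is not a square, so there is `a` prime to `D` with `jacobiSym a D = -1`
(for `D = q1`: a non-residue; for `D = q1 q2`: `a ≡` non-residue mod `q1`, `a ≡ 1 mod q2`), and
multiplication by `a` permutes `ZMod D`. -/
theorem jacobi_sum_prime (D : ℕ) [NeZero D] (hD : D.Prime) (h2 : D ≠ 2) :
    ∑ x : ZMod D, (jacobiSym x.val D : ℝ) = 0 := by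
  haveI : Fact D.Prime := ⟨hD⟩
  have h1 : ∑ x : ZMod D, quadraticChar (ZMod D) x = 0 := by
    apply quadraticChar_sum_zero
    rw [ZMod.ringChar_zmod_n]
    exact h2
  have h3 : ∑ x : ZMod D, jacobiSym x.val D = 0 := by
    rw [← h1]
    refine Finset.sum_congr rfl fun x _ => ?_
    rw [← jacobiSym.legendreSym.to_jacobiSym]
    unfold legendreSym
    rw [Int.cast_natCast, ZMod.natCast_zmod_val]
  exact_mod_cast h3

theorem jacobi_sum_mul (q1 q2 : ℕ) [NeZero (q1 * q2)] (h1 : q1.Prime) (h2 : q2.Prime)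
    (h12 : q1 ≠ q2) (h1' : q1 ≠ 2) (h2' : q2 ≠ 2) :
    ∑ x : ZMod (q1 * q2), (jacobiSym x.val (q1 * q2) : ℝ) = 0 := by
  haveI : NeZero q1 := ⟨h1.ne_zero⟩
  haveI : NeZero q2 := ⟨h2.ne_zero⟩
  have h3 := Dlt_prod q1 q2 ((Nat.coprime_primes h1 h2).2 h12)
    (fun x => (jacobiSym x.val q1 : ℝ)) (fun x => (jacobiSym x.val q2 : ℝ))
  rw [jacobi_sum_prime q1 h1 h1', zero_mul] at h3
  rw [← h3]
  refine Finset.sum_congr rfl fun x _ => ?_
  rw [jacobiSym.mul_right, Dlt_jac q1 x.val, Dlt_jac q2 x.val]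
  push_cast
  rfl

end CN94
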