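import Pool.Agent.Lib_CN94.Defs

/-!
# Piece DLTA: the odd delta functions
-/

namespace CN94

variable (q : ℕ) [NeZero q]

theorem dl_neg (h x : ZMod q) : dl q h (-x) = -dl q h x := by
  unfold dl
  have e1 : (-x = h) ↔ (x = -h) := neg_eq_iff_eq_neg
  have e2 : (-x = -h) ↔ (x = h) := neg_inj
  rw [if_congr e1 rfl rfl, if_congr e2 rfl rfl]
  ring

theorem dl_neg' (h x : ZMod q) : dl q (-h) x = -dl q h x := by
  unfold dl
  rw [neg_neg]
  ring

theorem dl_zero (hq : 1 < q) (u : (ZMod q)ˣ) : dl q u 0 = 0 := by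
  have : Fact (1 < q) := ⟨hq⟩
  unfold dl
  rw [if_neg, if_neg, sub_zero]
  · intro h
    have h1 : (u : ZMod q) = 0 := by
      rw [← neg_neg (u : ZMod q), ← h, neg_zero]
    exact u.ne_zero h1
  · intro h
    exact u.ne_zero h.symm

/-- PROOF: `dl_neg`, the sum is its own negative. -/
theorem dl_sum (h : ZMod q) : ∑ x, dl q h x = 0 := by
  unfold dl
  rw [Finset.sum_sub_distrib, Finset.sum_ite_eq' Finset.univ h (fun _ => (1 : ℝ)),
    Finset.sum_ite_eq' Finset.univ (-h) (fun _ => (1 : ℝ))]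
  simp

private theorem dlta_unit (v g : (ZMod q)ˣ) :
    dl q g v = (if g = v then 1 else 0) - if g = -v then 1 else 0 := by
  unfold dl
  have e1 : ((v : ZMod q) = g) ↔ (g = v) := by
    rw [Units.val_inj]
    exact eq_comm
  have e2 : ((v : ZMod q) = -g) ↔ (g = -v) := by
    rw [← Units.val_neg, Units.val_inj]
    constructor
    · intro h
      rw [h, neg_neg]
    · intro h
      rw [h, neg_neg]
  rw [if_congr e1 rfl rfl, if_congr e2 rfl rfl]

private theorem dlta_shift (u v : (ZMod q)ˣ) (k : ZMod q) :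
    dl q ((v⁻¹ * u : (ZMod q)ˣ) : ZMod q) k = dl q u ((v : ZMod q) * k) := by
  unfold dl
  have e1 : (k = ((v⁻¹ * u : (ZMod q)ˣ) : ZMod q)) ↔ ((v : ZMod q) * k = u) := by
    constructor
    · intro h
      rw [h, Units.val_mul, Units.mul_inv_cancel_left]
    · intro h
      rw [Units.val_mul, ← h, Units.inv_mul_cancel_left]
  have e2 : (k = -((v⁻¹ * u : (ZMod q)ˣ) : ZMod q)) ↔ ((v : ZMod q) * k = -u) := by
    constructor
    · intro h
      rw [h, Units.val_mul, mul_neg, Units.mul_inv_cancel_left]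
    · intro h
      rw [Units.val_mul, ← mul_neg, ← h, Units.inv_mul_cancel_left]
  rw [if_congr e1 rfl rfl, if_congr e2 rfl rfl]

/-- PROOF: if `m` is not a unit both sides are `0`.  If `m` is a unit only `g = m` and `g = -m`
contribute to the right side (`m ≠ -m` because `q > 2` and `m` is a unit): it is
`1/2 (dl (m⁻¹ u) k - dl (-m⁻¹ u) k) = dl (m⁻¹ u) k` (`dl_neg'`), and `k = ± m⁻¹ u` iff
`m k = ± u`. -/
theorem dl_mul (hq : 2 < q) (u : (ZMod q)ˣ) (m k : ZMod q) :
    dl q u (m * k) = 1 / 2 * ∑ g : (ZMod q)ˣ, dl q g m * dl q ((g⁻¹ * u : (ZMod q)ˣ) : ZMod q) k := by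
  have _ := hq
  by_cases hm : IsUnit m
  · obtain ⟨v, rfl⟩ := hm
    have h1 : ∀ g : (ZMod q)ˣ, dl q g v * dl q ((g⁻¹ * u : (ZMod q)ˣ) : ZMod q) k =
        (if g = v then dl q ((g⁻¹ * u : (ZMod q)ˣ) : ZMod q) k else 0) -
          if g = -v then dl q ((g⁻¹ * u : (ZMod q)ˣ) : ZMod q) k else 0 := by
      intro g
      rw [dlta_unit, sub_mul, ite_mul, ite_mul, one_mul, zero_mul]
    rw [Finset.sum_congr rfl fun g _ => h1 g, Finset.sum_sub_distrib, Finset.sum_ite_eq',
      Finset.sum_ite_eq', if_pos (Finset.mem_univ _), if_pos (Finset.mem_univ _)]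
    have h2 : (((-v)⁻¹ * u : (ZMod q)ˣ) : ZMod q) = -((v⁻¹ * u : (ZMod q)ˣ) : ZMod q) := by
      rw [inv_neg, neg_mul, Units.val_neg]
    rw [h2, dl_neg', dlta_shift]
    ring
  · have h1 : dl q u (m * k) = 0 := by
      unfold dl
      rw [if_neg, if_neg, sub_zero]
      · intro h
        apply hm
        exact isUnit_of_mul_isUnit_left (y := k) (by rw [h]; exact u.isUnit.neg)
      · intro h
        apply hm
        exact isUnit_of_mul_isUnit_left (y := k) (by rw [h]; exact u.isUnit)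
    rw [h1, Finset.sum_eq_zero, mul_zero]
    intro g _
    have h2 : dl q g m = 0 := by
      unfold dl
      rw [if_neg, if_neg, sub_zero]
      · intro h
        apply hm
        rw [h]
        exact g.isUnit.neg
      · intro h
        apply hm
        rw [h]
        exact g.isUnit
    rw [h2, zero_mul]

end CN94
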