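import Pool.Agent.Lib_CN94.Saw

/-!
# Piece LAMID: the cocycle identities for `Lam` (forms)
-/

namespace CN94

variable (q : ℕ) [NeZero q] (f : ZMod q → ℝ)

theorem Lam_eq (A T C : ℤ) : Lam q f A T C = ∑ x : ZMod q, ∑ y : ZMod q,
    f (qf q A T C x y) * (saw q x * saw q y + (T : ℝ) / (4 * (C : ℝ)) * bb q x
      + (T : ℝ) / (4 * (A : ℝ)) * bb q y) := rfl

/-- PROOF: exchange `x` and `y` in the double sum (`Finset.sum_comm`). -/
theorem Lam_symm (A T C : ℤ) : Lam q f A T C = Lam q f C T A := by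
  rw [Lam_eq, Lam_eq, Finset.sum_comm]
  refine Finset.sum_congr rfl fun y _ => Finset.sum_congr rfl fun x _ => ?_
  have h1 : qf q A T C x y = qf q C T A y x := by unfold qf; ring
  rw [h1]
  ring

/-- PROOF: substitute `y → -y` (`Equiv.neg`), use `saw_neg`, `bb_neg`:
`qf A (-T) C x y = qf A T C x (-y)` and `s(x) s(y) + (-T)/(4C) b(x) + (-T)/(4A) b(y)` becomes the
negative of the weight. -/
theorem Lam_neg (A T C : ℤ) : Lam q f A (-T) C = -Lam q f A T C := by
  rw [Lam_eq, Lam_eq, ← Finset.sum_neg_distrib]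
  refine Finset.sum_congr rfl fun x _ => ?_
  rw [← Finset.sum_neg_distrib, ← Equiv.sum_comp (Equiv.neg (ZMod q))]
  refine Finset.sum_congr rfl fun y _ => ?_
  have h1 : qf q A (-T) C x (-y) = qf q A T C x y := by unfold qf; push_cast; ring
  rw [Equiv.neg_apply, h1, saw_neg, bb_neg]
  push_cast
  ring

/-- the cocycle identity.
PROOF: in `Lam A (T+2A) S` (with `S = A + T + C`) substitute `(x, y) → (x - y, y)`, in
`Lam S (T+2C) C` substitute `(x, y) → (x, y - x)`; in both cases the form becomes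
`A x² + T x y + C y²`:
`A (x-y)² + (T+2A)(x-y) y + S y² = A x² + T x y + C y²`,
`S x² + (T+2C) x (y-x) + C (y-x)² = A x² + T x y + C y²`.
The sum of the two weights is
`s(x-y) s(y) + s(x) s(y-x) + ((T+2A)+(T+2C))/(4S) b(x-y) + (T+2A)/(4A) b(y) + (T+2C)/(4C) b(x)`
(`b(y-x) = b(x-y)`), and `((T+2A)+(T+2C))/(4S) = 1/2`, `(T+2A)/(4A) = T/(4A) + 1/2`, etc.
By `saw_id` this is the weight of `Lam A T C`, except at `(x,y) = (0,0)`, where the coefficient
`f (qf ..) = f 0` is `0`. -/
theorem Lam_add (hf : f 0 = 0) (A T C : ℤ) (hA : A ≠ 0) (hC : C ≠ 0) (hS : A + T + C ≠ 0) :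
    Lam q f A T C = Lam q f A (T + 2 * A) (A + T + C) + Lam q f (A + T + C) (T + 2 * C) C := by
  have h1 : Lam q f A (T + 2 * A) (A + T + C) = ∑ x : ZMod q, ∑ y : ZMod q,
      f (qf q A T C x y) * (saw q (x - y) * saw q y
        + ((T : ℝ) + 2 * A) / (4 * ((A : ℝ) + T + C)) * bb q (x - y)
        + ((T : ℝ) + 2 * A) / (4 * A) * bb q y) := by
    rw [Lam_eq, Finset.sum_comm]
    conv_rhs => rw [Finset.sum_comm]
    refine Finset.sum_congr rfl fun y _ => ?_
    rw [← Equiv.sum_comp (Equiv.subRight y)]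
    refine Finset.sum_congr rfl fun x _ => ?_
    have h2 : qf q A (T + 2 * A) (A + T + C) (x - y) y = qf q A T C x y := by
      unfold qf; push_cast; ring
    rw [Equiv.subRight_apply, h2]
    push_cast
    rfl
  have h3 : Lam q f (A + T + C) (T + 2 * C) C = ∑ x : ZMod q, ∑ y : ZMod q,
      f (qf q A T C x y) * (saw q x * saw q (y - x)
        + ((T : ℝ) + 2 * C) / (4 * C) * bb q x
        + ((T : ℝ) + 2 * C) / (4 * ((A : ℝ) + T + C)) * bb q (y - x)) := by
    rw [Lam_eq]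
    refine Finset.sum_congr rfl fun x _ => ?_
    rw [← Equiv.sum_comp (Equiv.subRight x)]
    refine Finset.sum_congr rfl fun y _ => ?_
    have h2 : qf q (A + T + C) (T + 2 * C) C x (y - x) = qf q A T C x y := by
      unfold qf; push_cast; ring
    rw [Equiv.subRight_apply, h2]
    push_cast
    rfl
  rw [h1, h3, ← Finset.sum_add_distrib, Lam_eq]
  refine Finset.sum_congr rfl fun x _ => ?_
  rw [← Finset.sum_add_distrib]
  refine Finset.sum_congr rfl fun y _ => ?_
  by_cases h0 : x = 0 ∧ y = 0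
  · have h4 : qf q A T C x y = 0 := by
      rw [h0.1, h0.2]; unfold qf; ring
    rw [h4, hf]
    ring
  · have h5 : bb q (y - x) = bb q (x - y) := by rw [← bb_neg, neg_sub]
    have hA' : (A : ℝ) ≠ 0 := by exact_mod_cast hA
    have hC' : (C : ℝ) ≠ 0 := by exact_mod_cast hC
    have hS' : (A : ℝ) + T + C ≠ 0 := by exact_mod_cast hS
    rw [saw_id q x y h0, h5, ← mul_add]
    congr 1
    have e1 : ((T : ℝ) + 2 * A) / (4 * ((A : ℝ) + T + C)) + ((T : ℝ) + 2 * C) /
        (4 * ((A : ℝ) + T + C)) = 1 / 2 := by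
      field_simp
      ring
    have e2 : ((T : ℝ) + 2 * A) / (4 * A) = T / (4 * A) + 1 / 2 := by
      field_simp
      ring
    have e3 : ((T : ℝ) + 2 * C) / (4 * C) = T / (4 * C) + 1 / 2 := by
      field_simp
      ring
    have e4 : ((T : ℝ) + 2 * A) / (4 * ((A : ℝ) + T + C)) = 1 / 2 - ((T : ℝ) + 2 * C) /
        (4 * ((A : ℝ) + T + C)) := by linarith
    rw [e2, e3, e4]
    ring

end CN94
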