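import Pool.Agent.Lib_CN94.Basic
import Pool.Agent.Lib_CN94.LamId

/-!
# Piece ELEMID: the cocycle identities for pairs of elements of `R e`

`Lv q f v w = Lam q f (norm v) (pr v w) (norm w)`.  The lemmas of `Basic.lean` (`pr_symm`,
`pr_neg_right`, `pr_star`, `pr_mul`, `norm_add'`, ...) reduce everything to `LamId.lean`.
-/

namespace CN94

open QP QuadraticAlgebra

variable {e : ℤ} (q : ℕ) [NeZero q] (f : ZMod q → ℝ)

theorem Lv_symm (v w : R e) : Lv q f v w = Lv q f w v := by
  unfold Lv
  rw [Lam_symm, pr_symm]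

theorem Lv_neg_right (v w : R e) : Lv q f v (-w) = -Lv q f v w := by
  unfold Lv
  rw [pr_neg_right, norm_neg', Lam_neg]

theorem Lv_neg_left (v w : R e) : Lv q f (-v) w = -Lv q f v w := by
  rw [Lv_symm, Lv_neg_right, Lv_symm]

theorem Lv_star (v w : R e) : Lv q f (star v) (star w) = Lv q f v w := by
  have h : ∀ z : R e, norm (star z) = norm z := fun z => by
    simp only [norm_eq, re_star, im_star]; ring
  unfold Lv
  rw [pr_star, h, h]

theorem Lv_unit (ε v w : R e) (hε : norm ε = 1) : Lv q f (ε * v) (ε * w) = Lv q f v w := by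
  unfold Lv
  rw [pr_mul, map_mul, map_mul, hε, one_mul, one_mul, one_mul]

/-- PROOF: `Lam_add` with `A = norm v`, `T = pr v w`, `C = norm w`; `norm (v + w) = A + T + C`
(`norm_add'`), `pr v (v + w) = T + 2 A`, `pr (v + w) w = T + 2 C`; the norms are non-zero by
`QP.norm_ne_zero`. -/
theorem Lv_add (hsq : ¬ IsSquare (4 * e + 1)) (hf : f 0 = 0) (v w : R e) (hv : v ≠ 0) (hw : w ≠ 0)
    (hvw : v + w ≠ 0) : Lv q f v w = Lv q f v (v + w) + Lv q f (v + w) w := by
  have hA : norm v ≠ 0 := QP.norm_ne_zero hsq hv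
  have hC : norm w ≠ 0 := QP.norm_ne_zero hsq hw
  have hS : norm v + pr v w + norm w ≠ 0 := by
    rw [← norm_add']
    exact QP.norm_ne_zero hsq hvw
  have h1 : pr v (v + w) = pr v w + 2 * norm v := by rw [pr_add_right, pr_self]; ring
  have h2 : pr (v + w) w = pr v w + 2 * norm w := by rw [pr_add_left, pr_self]
  unfold Lv
  rw [h1, h2, norm_add']
  exact Lam_add q f hf _ _ _ hA hC hS

private theorem dt_add_mul (v u : R e) (j : ℕ) : dt (v + (j : R e) * u) u = dt v u := by
  simp only [dt, re_add, im_add, re_mul, im_mul, re_natCast, im_natCast]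
  ring

private theorem add_mul_ne_zero (v u : R e) (h : dt v u ≠ 0) (j : ℕ) : v + (j : R e) * u ≠ 0 := by
  intro h0
  apply h
  rw [← dt_add_mul v u j, h0]
  simp [dt]

/-- telescoping along a run.
PROOF: induction on `J` with `Lv_add` for the pair `v + j u, u`; all `v + j u` and `u` are non-zero
because `dt v u ≠ 0` (`dt (v + j u) u = dt v u`). -/
theorem Lv_run (hsq : ¬ IsSquare (4 * e + 1)) (hf : f 0 = 0) (v u : R e) (h : dt v u ≠ 0) (J : ℕ) :
    ∑ j ∈ Finset.range J, Lv q f (v + (j : R e) * u) (v + ((j + 1 : ℕ) : R e) * u) =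
      Lv q f v u - Lv q f (v + (J : R e) * u) u := by
  have hu : u ≠ 0 := by
    intro h0
    apply h
    rw [h0]
    simp [dt]
  induction J with
  | zero => simp
  | succ J ih =>
    have h1 := Lv_add q f hsq hf (v + (J : R e) * u) u (add_mul_ne_zero v u h J) hu (by
      have := add_mul_ne_zero v u h (J + 1)
      intro h0
      apply this
      rw [← h0]
      push_cast
      ring)
    have h2 : v + (J : R e) * u + u = v + ((J + 1 : ℕ) : R e) * u := by
      push_cast
      ring
    rw [h2] at h1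
    rw [Finset.sum_range_succ, ih]
    linarith

end CN94
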