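import Pool.Agent.Lib_CN94.Defs

/-!
# The exponential kernel
-/

namespace CN94

/-- `exp (-t (A x² + T x y + C y²))` -/
noncomputable def ex (A T C t x y : ℝ) : ℝ := Real.exp (-(t * (A * x ^ 2 + T * (x * y) + C * y ^ 2)))

theorem ex_pos (A T C t x y : ℝ) : 0 < ex A T C t x y := Real.exp_pos _

theorem ex_swap (A T C t x y : ℝ) : ex A T C t x y = ex C T A t y x := by
  unfold ex; congr 1; ring

end CN94
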