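import Pool.Agent.Lib_CN94.PathDefs

/-!
# Piece FAMDAT: the data of the two families
-/

namespace CN94

open QP QuadraticAlgebra

theorem FamDat_nine {q1 q2 e c η t B m : ℤ} (hη : η ^ 2 = 1) (ht : t ^ 2 = 1)
    (h1 : q1 * c ^ 2 = 9 * q2 + 4 * η) (hD : 4 * e + 1 = q1 * q2)
    (hB : 3 * B = t * η * q1 * c + 2) (hm : 3 * m = 2 + t * c) (hodd : B % 2 = 1)
    (hq : 3 ≤ q1) : ∃ N, Dat e 3 B N (-η * q1) m := by
  obtain ⟨b, hb⟩ : ∃ b, B = 2 * b + 1 := ⟨B / 2, by omega⟩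
  have h4 : 4 * (b ^ 2 + b - e) = B ^ 2 - (4 * e + 1) := by rw [hb]; ring
  set N := b ^ 2 + b - e with hN
  have h9 : 4 * (9 * N) = 4 * (3 * B - 1 + η * q1) := by
    linear_combination 9 * h4 - 9 * hD + (3 * B + (t * η * q1 * c + 2) - 4) * hB +
      q1 ^ 2 * c ^ 2 * η ^ 2 * ht + q1 ^ 2 * c ^ 2 * hη + q1 * h1
  have h9' : 9 * N = 3 * B - 1 + η * q1 := by linarith
  refine ⟨N, le_rfl, by linear_combination h9', ?_, by linear_combination -h4, ?_⟩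
  · have h3 : 3 * (-η * q1 * m) = 3 * (B - 2 * 3 * N) := by
      linear_combination (-η * q1) * hm + 2 * h9' + hB
    linarith
  · have hη' : η = 1 ∨ η = -1 := by
      have h0 : (η - 1) * (η + 1) = 0 := by linear_combination hη
      rcases mul_eq_zero.1 h0 with h | h
      · left; linarith
      · right; linarith
    rcases hη' with h | h
    · rw [h]
      have : (-1 : ℤ) * q1 = -q1 := by ring
      rw [this, abs_neg, abs_of_nonneg (by linarith)]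
      exact hq
    · rw [h]
      have : -(-1 : ℤ) * q1 = q1 := by ring
      rw [this, abs_of_nonneg (by linarith)]
      exact hq

/-- PROOF.  Write `q1 c² = 9 q2 + 4 η`, `η = ±1`, so `9 D = (q1 c)² - 4 η q1` with `D = q1 q2 = 4e+1`.
`c` is odd (`9 q2 + 4 η` is odd), `c ≥ 5` (`c = 1`: `q1 = 9 q2 + 4 η > q2`; `c = 3`:
`9 q1 = 9 q2 + 4 η` is impossible modulo `9`), `3 ∤ q1 c`.  Put `a = -η q1`, `τ = ± q1 c` with the sign
such that `τ ≡ 1 mod 3`, `B = (τ + 2)/3`, `N = (B² - D)/4`, `m = (2 - τ/a)/3`.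
`B` is odd since `τ` is odd, and `D ≡ 1 mod 4`, so `N` is an integer.  `9 N = τ + 1 - a` because
`36 N = 9 B² - 9 D = (τ+2)² - τ² - 4 a` (`9 D = τ² + 4 a`).  `τ/a = ± c =: c'`, `a c' = τ ≡ 1 mod 3`
and `a ≡ -1 mod 3` (from `9 D = τ² + 4 a`), so `c' ≡ 2 mod 3` and `3 m = 2 - c'` has an integer
solution; `3 a m = 2 a - τ = 3 (B - 6 N)` as `3 B - 18 N = τ + 2 - 2 (τ + 1 - a) = 2 a - τ`.
`|2 - 3 m| = c ≥ 5` gives `m ≤ -1` or `m ≥ 3`. -/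
theorem fam9_dat {q1 q2 : ℕ} {e : ℤ} (h : Setting q1 q2) (he : 4 * e + 1 = q1 * q2) {c : ℤ}
    (hc : 0 < c) (hκ : (q1 : ℤ) * c ^ 2 = 9 * q2 + 4 ∨ (q1 : ℤ) * c ^ 2 = 9 * q2 - 4) :
    ∃ B N a m : ℤ, (a = q1 ∨ a = -q1) ∧ Dat e 3 B N a m ∧ (m ≤ -1 ∨ 2 ≤ m) := by
  obtain ⟨η, hη, hη', h1⟩ : ∃ η : ℤ, (η = 1 ∨ η = -1) ∧ η ^ 2 = 1 ∧
      (q1 : ℤ) * c ^ 2 = 9 * q2 + 4 * η := by
    rcases hκ with h1 | h1
    · exact ⟨1, Or.inl rfl, by norm_num, by rw [h1]; ring⟩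
    · exact ⟨-1, Or.inr rfl, by norm_num, by rw [h1]; ring⟩
  have hlt : (q1 : ℤ) < q2 := by exact_mod_cast h.lt
  have m1 : (q1 : ℤ) % 4 = 3 := by exact_mod_cast h.mod1
  have m2 : (q2 : ℤ) % 4 = 3 := by exact_mod_cast h.mod2
  have q1pos : (0 : ℤ) ≤ q1 := Int.natCast_nonneg _
  generalize (q1 : ℤ) = p1 at *
  generalize (q2 : ℤ) = p2 at *
  have hq3 : 3 ≤ p1 := by omega
  -- `c` is odd
  have hcodd : c % 2 = 1 := by
    by_contra h0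
    obtain ⟨d, hd⟩ : ∃ d, c = 2 * d := ⟨c / 2, by omega⟩
    have h2 : 4 * (p1 * d ^ 2) = 9 * p2 + 4 * η := by rw [← h1, hd]; ring
    omega
  -- `c ≠ 1`
  have hc1 : c ≠ 1 := by
    intro h0
    rw [h0] at h1
    omega
  -- `3 ∤ c`
  have hc3 : c % 3 ≠ 0 := by
    intro h0
    obtain ⟨d, hd⟩ : ∃ d, c = 3 * d := ⟨c / 3, by omega⟩
    have h2 : 9 * (p1 * d ^ 2) = 9 * p2 + 4 * η := by rw [← h1, hd]; ring
    omega
  have hc5 : 5 ≤ c := by omega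
  have hoddp : p1 % 2 = 1 := by omega
  have hfin : ∀ t B m : ℤ, (t = 1 ∨ t = -1) → 3 * B = t * η * p1 * c + 2 → 3 * m = 2 + t * c →
      ∃ B N a m : ℤ, (a = p1 ∨ a = -p1) ∧ Dat e 3 B N a m ∧ (m ≤ -1 ∨ 2 ≤ m) := by
    intro t B m ht hB hm
    have ht' : t ^ 2 = 1 := by rcases ht with h | h <;> rw [h] <;> norm_num
    have hBodd : B % 2 = 1 := by
      obtain ⟨x, hx⟩ : ∃ x, c = 2 * x + 1 := ⟨c / 2, by omega⟩
      obtain ⟨y, hy⟩ : ∃ y, p1 = 2 * y + 1 := ⟨p1 / 2, by omega⟩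
      have h2 : p1 * c = 2 * (2 * (x * y) + x + y) + 1 := by rw [hx, hy]; ring
      generalize 2 * (x * y) + x + y = w at h2
      have h3 : t * η * p1 * c = t * η * (p1 * c) := by ring
      rw [h3, h2] at hB
      rcases ht with h | h <;> rcases hη with h' | h' <;> rw [h, h'] at hB <;> omega
    obtain ⟨N, hN⟩ := FamDat_nine hη' ht' h1 he hB hm hBodd hq3
    refine ⟨B, N, -η * p1, m, ?_, hN, ?_⟩
    · rcases hη with h' | h'
      · right; rw [h']; ring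
      · left; rw [h']; ring
    · rcases ht with h | h <;> rw [h] at hm <;> omega
  rcases (by omega : c % 3 = 1 ∨ c % 3 = 2) with h3 | h3
  · obtain ⟨u, hu⟩ : ∃ u, c = 3 * u + 1 := ⟨c / 3, by omega⟩
    have h2 : 3 * (p1 * (3 * u ^ 2 + 2 * u)) + p1 = 9 * p2 + 4 * η := by rw [← h1, hu]; ring
    obtain ⟨v, hv⟩ : ∃ v, p1 = 3 * v + η := by
      generalize p1 * (3 * u ^ 2 + 2 * u) = w at h2
      exact ⟨(p1 - η) / 3, by omega⟩
    refine hfin 1 (η * (3 * u * v + v) + u + 1) (u + 1) (Or.inl rfl) ?_ ?_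
    · rw [hu, hv]
      linear_combination (-(3 * u + 1)) * hη'
    · rw [hu]; ring
  · obtain ⟨u, hu⟩ : ∃ u, c = 3 * u + 2 := ⟨c / 3, by omega⟩
    have h2 : 3 * (p1 * (3 * u ^ 2 + 4 * u)) + 4 * p1 = 9 * p2 + 4 * η := by rw [← h1, hu]; ring
    obtain ⟨v, hv⟩ : ∃ v, p1 = 3 * v + η := by
      generalize p1 * (3 * u ^ 2 + 4 * u) = w at h2
      exact ⟨(p1 - η) / 3, by omega⟩
    refine hfin (-1) (-(η * (3 * u * v + 2 * v)) - u) (-u) (Or.inr rfl) ?_ ?_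
    · rw [hu, hv]
      linear_combination (3 * u + 2) * hη'
    · rw [hu]; ring

/-- PROOF.  `4 D = (q1 c)² + q1`.  `c ≥ 5`: `c = 1` gives `4 q2 = q1 + 1`, so `q2 < q1`.
`B = (1 - q1 c)/2`: `q1 c ≡ 3 mod 4`, so `B` is an odd integer; `N = (B² - D)/4`; `a = q1`,
`m = (c + 1)/2 ≥ 3`.  `16 N = 4 B² - 4 D = (1 - q1 c)² - (q1 c)² - q1 = 1 - 2 q1 c - q1 = 4 B - 1 - a`,
and `2 a m = q1 (c + 1)`, `2 (B - 8 N) = 2 B - 16 N = 1 - q1 c - (1 - 2 q1 c - q1) = q1 c + q1`. -/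
theorem fam4_dat {q1 q2 : ℕ} {e : ℤ} (h : Setting q1 q2) (he : 4 * e + 1 = q1 * q2) {c : ℤ}
    (hc : 0 < c) (hc4 : c % 4 = 1) (hκ : (q1 : ℤ) * c ^ 2 = 4 * q2 - 1) :
    ∃ B N m : ℤ, Dat e 4 B N q1 m ∧ 2 ≤ m := by
  have hlt : (q1 : ℤ) < q2 := by exact_mod_cast h.lt
  have m1 : (q1 : ℤ) % 4 = 3 := by exact_mod_cast h.mod1
  have q1pos : (0 : ℤ) ≤ q1 := Int.natCast_nonneg _
  generalize (q1 : ℤ) = p1 at *
  generalize (q2 : ℤ) = p2 at *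
  have hc1 : c ≠ 1 := by
    intro h0
    rw [h0] at hκ
    omega
  obtain ⟨r, hr⟩ : ∃ r, c = 4 * r + 1 := ⟨c / 4, by omega⟩
  obtain ⟨p, hp⟩ : ∃ p, p1 = 4 * p + 3 := ⟨p1 / 4, by omega⟩
  set s := 4 * p * r + p + 3 * r with hs
  have h2B : 2 * (-(2 * s + 1)) = 1 - p1 * c := by rw [hs, hp, hr]; ring
  have h2m : 2 * (2 * r + 1) = c + 1 := by rw [hr]; ring
  have h4N : 4 * (s ^ 2 + s - e) = (-(2 * s + 1)) ^ 2 - (4 * e + 1) := by ring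
  generalize 2 * r + 1 = m at *
  generalize -(2 * s + 1) = B at *
  generalize s ^ 2 + s - e = N at *
  have h16 : 16 * N = 4 * B - 1 - p1 := by
    linear_combination 4 * h4N - 4 * he + (2 * B + (1 - p1 * c) - 2) * h2B + p1 * hκ
  refine ⟨B, N, m, ⟨by norm_num, by linear_combination h16, ?_, by linear_combination -h4N, ?_⟩, ?_⟩
  · have h3 : 2 * (p1 * m) = 2 * (B - 2 * 4 * N) := by
      linear_combination p1 * h2m + h16 + h2B
    linarith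
  · rw [abs_of_nonneg q1pos]
    omega
  · omega

end CN94
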