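import Pool.Agent.Lib_MP_94ab8c.CondInt

/-!
# Piece INERT: condition (1) makes the small primes inert
-/

namespace CN94

open QP

/-- PROOF: suppose `b² = q1 q2` in `ZMod p`.  `p ∤ q1 q2`: `p ≠ q1`, and `p = q2` is impossible
because `q2 ^ 2 > q1 q2 > 25600`.  So `b ≠ 0`; let `m0 = b / q1` in `ZMod p`: `q1 m0² = q2`, `m0 ≠ 0`.
Let `m ∈ (0, 2p)` be odd with `m ≡ m0 mod p` (one of `m0.val`, `m0.val + p`), and
`m_j = m + 2 p j`, `j = 0, 1, 2`: odd, `0 < m_j < 6 p ≤ 78`, `4 m_j² ≤ 4 · 77² = 23716 < q1 q2`.  By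
`CondInt`, `|q1 m_j² - q2| = 4 n_j` with `n_j = 1` or prime; `p` divides `n_j` (`p` odd), so `n_j = p`.
Hence `q1 m_j² - q2 = ± 4 p` for three different `m_j > 0`; two of them have the same sign and give
`m_i = m_j`, a contradiction. -/
theorem inert_of_cond {q1 q2 : ℕ} (h : Setting q1 q2) (hc : CondInt q1 q2)
    (hbig : 25600 < q1 * q2) {p : ℕ} (hp : p.Prime) (hp13 : p ≤ 13) (h2 : p ≠ 2) (hp1 : p ≠ q1) :
    ¬ IsSquare (((q1 * q2 : ℕ) : ZMod p)) := by
  haveI := Fact.mk hp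
  rintro ⟨b, hb⟩
  have hodd : p % 2 = 1 := by
    rcases hp.eq_two_or_odd with h' | h'
    · exact absurd h' h2
    · exact h'
  have hq1 : (q1 : ZMod p) ≠ 0 := by
    rw [Ne, ZMod.natCast_eq_zero_iff]
    intro hd
    exact hp1 ((Nat.prime_dvd_prime_iff_eq hp h.prime1).1 hd)
  have hq2 : (q2 : ZMod p) ≠ 0 := by
    rw [Ne, ZMod.natCast_eq_zero_iff]
    intro hd
    have e := (Nat.prime_dvd_prime_iff_eq hp h.prime2).1 hd
    have hlt := h.lt
    have h3 : q1 * q2 ≤ 13 * 13 := Nat.mul_le_mul (by omega) (by omega)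
    omega
  push_cast at hb
  obtain ⟨m0, hm0⟩ : ∃ m0 : ZMod p, (q1 : ZMod p) * m0 ^ 2 = q2 := by
    refine ⟨b / q1, ?_⟩
    have e : (q1 : ZMod p) * (b / q1) ^ 2 = b * b / q1 := by field_simp
    rw [e, ← hb, mul_div_cancel_left₀ _ hq1]
  have hm0' : m0 ≠ 0 := by
    rintro rfl
    apply hq2
    rw [← hm0]
    simp
  have key : ∀ M : ℤ, 0 < M → M < 78 → M % 2 = 1 → (M : ZMod p) = m0 →
      (q1 : ℤ) * M ^ 2 - q2 = 4 * p ∨ (q1 : ℤ) * M ^ 2 - q2 = -(4 * p) := by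
    intro M hM0 hM78 hMo hMc
    have h5 : M ^ 2 ≤ 77 ^ 2 := pow_le_pow_left₀ hM0.le (by omega) 2
    have h6 : (25600 : ℤ) < q1 * q2 := by exact_mod_cast hbig
    obtain ⟨n, hn, hn2⟩ := hc M hM0 hMo (by omega)
    have h7 : (p : ℤ) ∣ (q1 : ℤ) * M ^ 2 - q2 := by
      rw [← CharP.intCast_eq_zero_iff (ZMod p) p]
      push_cast
      rw [hMc, hm0, sub_self]
    have h8 : p ∣ 4 * n := by
      rw [← hn]
      exact Int.natCast_dvd.1 h7
    have h9 : p ∣ n := by
      rcases hp.dvd_mul.1 h8 with h' | h'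
      · exfalso
        have h10 : p ∣ 2 ^ 2 := h'
        exact h2 ((Nat.prime_dvd_prime_iff_eq hp Nat.prime_two).1 (hp.dvd_of_dvd_pow h10))
      · exact h'
    have h10 : n = p := by
      rcases hn2 with h' | h'
      · exfalso
        rw [h'] at h9
        exact hp.one_lt.ne' (Nat.dvd_one.1 h9)
      · exact ((Nat.prime_dvd_prime_iff_eq hp h').1 h9).symm
    rw [h10] at hn
    rcases Int.natAbs_eq ((q1 : ℤ) * M ^ 2 - q2) with h' | h'
    · left
      rw [hn] at h'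
      push_cast at h'
      exact h'
    · right
      rw [hn] at h'
      push_cast at h'
      exact h'
  obtain ⟨m, hm1, hm2, hmo, hmc⟩ : ∃ m : ℤ, 0 < m ∧ m < 2 * p ∧ m % 2 = 1 ∧
      (m : ZMod p) = m0 := by
    have hv0 : m0.val ≠ 0 := fun h' => hm0' ((ZMod.val_eq_zero m0).1 h')
    have hvp : m0.val < p := ZMod.val_lt m0
    have hvc : ((m0.val : ℕ) : ZMod p) = m0 := ZMod.natCast_zmod_val m0
    rcases Nat.mod_two_eq_zero_or_one m0.val with h' | h'
    · refine ⟨(m0.val : ℤ) + p, by omega, by omega, by omega, ?_⟩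
      push_cast
      rw [hvc]
      simp
    · refine ⟨(m0.val : ℤ), by omega, by omega, by omega, ?_⟩
      push_cast
      exact hvc
  have hp0 : 0 < p := hp.pos
  have k0 := key m hm1 (by omega) hmo hmc
  have k1 := key (m + 2 * p) (by omega) (by omega) (by omega) (by push_cast; rw [hmc]; simp)
  have k2 := key (m + 4 * p) (by omega) (by omega) (by omega) (by push_cast; rw [hmc]; simp)
  have hq1p : (0 : ℤ) < q1 := by exact_mod_cast h.prime1.pos
  have hpz : (0 : ℤ) < p := by exact_mod_cast hp0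
  have s1 : (q1 : ℤ) * m ^ 2 < q1 * (m + 2 * p) ^ 2 :=
    mul_lt_mul_of_pos_left (by nlinarith) hq1p
  have s2 : (q1 : ℤ) * (m + 2 * p) ^ 2 < q1 * (m + 4 * p) ^ 2 :=
    mul_lt_mul_of_pos_left (by nlinarith) hq1p
  rcases k0 with k0 | k0 <;> rcases k1 with k1 | k1 <;> rcases k2 with k2 | k2 <;> linarith

end CN94
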