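import Pool.Agent.Lib_CN94.KTree

/-!
# The kernel evaluates the search tree for `k = 4`
-/

namespace CN94.K

set_option maxRecDepth 100000 in
theorem tree4_true : tree4 = true := by decide +kernel

end CN94.K
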