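import Pool.Agent.Lib_CN94.KCls
import Pool.Agent.Lib_CN94.KCheck3
import Pool.Agent.Lib_CN94.KCheck4

/-!
# No data satisfy all relations
-/

namespace CN94.K

theorem beq_mod {r a b c b' m' : ℕ} (h : tz r a b c b' m' = true) :
    tz r (Nat.mod a r) (Nat.mod b r) (Nat.mod c r) b' m' = true := by
  have h1 : Nat.beq ((a + (b' * b + m' * c)) % r) 0 = true := h
  rw [Nat.beq_eq] at h1
  show Nat.beq ((a % r + (b' * (b % r) + m' * (c % r))) % r) 0 = true
  rw [Nat.beq_eq, ← h1]
  simp [Nat.add_mod, Nat.mul_mod]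

/-- coprimality with the conductors -/
theorem cop {M q q1 : ℕ} (h1 : q1.Prime) (hM : ¬ q1 ∣ M) (hq : q ∣ M ^ 4) : q.Coprime q1 :=
  Nat.Coprime.coprime_dvd_left hq
    (Nat.Coprime.pow_left 4 ((Nat.Prime.coprime_iff_not_dvd h1).2 hM).symm)

theorem pd {p : ℕ} (hp : p.Prime) (h : p ∣ 30030) :
    p = 2 ∨ p = 3 ∨ p = 5 ∨ p = 7 ∨ p = 11 ∨ p = 13 := by
  have h1 : (30030 : ℕ) = 2 * (3 * (5 * (7 * (11 * 13)))) := by norm_num
  rw [h1, hp.dvd_mul, hp.dvd_mul, hp.dvd_mul, hp.dvd_mul, hp.dvd_mul,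
    Nat.prime_dvd_prime_iff_eq hp (by norm_num), Nat.prime_dvd_prime_iff_eq hp (by norm_num),
    Nat.prime_dvd_prime_iff_eq hp (by norm_num), Nat.prime_dvd_prime_iff_eq hp (by norm_num),
    Nat.prime_dvd_prime_iff_eq hp (by norm_num), Nat.prime_dvd_prime_iff_eq hp (by norm_num)] at h
  exact h

theorem ndv {p M : ℕ} (hp : p.Prime) (hM : M ∣ 30030)
    (h : ∀ x ∈ ({2, 3, 5, 7, 11, 13} : Finset ℕ), x ∣ M → x ≠ p) : ¬ p ∣ M := by
  intro hd
  have h1 := pd hp (hd.trans hM)
  have h2 : p ∈ ({2, 3, 5, 7, 11, 13} : Finset ℕ) := by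
    simp only [Finset.mem_insert, Finset.mem_singleton]
    exact h1
  exact h p h2 hd rfl

theorem nr {r q1 q2 : ℕ} (hr : r.Prime) (h1 : q1.Prime) (h2 : q2.Prime) (hr2 : r ≠ 2)
    (hr1 : r ≠ q1) (hrq : r ≠ q2) : ¬ r ∣ 2 * (q1 * q2) := by
  rw [hr.dvd_mul, hr.dvd_mul, Nat.prime_dvd_prime_iff_eq hr Nat.prime_two,
    Nat.prime_dvd_prime_iff_eq hr h1, Nat.prime_dvd_prime_iff_eq hr h2]
  tauto

/-- the relations in the form in which they are used -/
def Rels (q1 q2 : ℕ) (k B N m : ℤ) : Prop :=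
  ∀ (q : ℕ) [NeZero q], 2 < q → q.Coprime (q1 * q2) → ∀ (r : ℕ) [Fact r.Prime],
    ¬ r ∣ 2 * (q1 * q2) → ∀ χ : ZMod q → ZMod r, GoodChar q r χ → Rel q r χ k B N m

theorem Rels.get {q1 q2 : ℕ} {k B N m : ℤ} (h : Rels q1 q2 k B N m) (h1 : q1.Prime)
    (h2 : q2.Prime) (h13 : 13 < q2) (M : ℕ) (hM : M ∣ 30030)
    (hM1 : ∀ x ∈ ({2, 3, 5, 7, 11, 13} : Finset ℕ), x ∣ M → x ≠ q1)
    (q : ℕ) [NeZero q] (hq : 2 < q) (hqM : q ∣ M ^ 4) (r : ℕ) [hr : Fact r.Prime] (hr2 : r ≠ 2)
    (hr13 : r ≤ 13) (hr1 : r ≠ q1) {χ : ZMod q → ZMod r} (hχ : GoodChar q r χ) :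
    Rel q r χ k B N m := by
  refine h q hq ?_ r (nr hr.out h1 h2 hr2 hr1 (by omega)) χ hχ
  refine Nat.Coprime.mul_right (cop h1 (ndv h1 hM hM1) hqM) (cop h2 (ndv h2 hM ?_) hqM)
  intro x hx _
  simp only [Finset.mem_insert, Finset.mem_singleton] at hx
  omega

instance : Fact (Nat.Prime 5) := ⟨by norm_num⟩
instance : Fact (Nat.Prime 7) := ⟨by norm_num⟩
instance : Fact (Nat.Prime 13) := ⟨by norm_num⟩

theorem b9_b3 {B : ℤ} {b9 b3 : ℕ} (h9 : (B : ZMod 9) = (b9 : ZMod 9))
    (h3 : (B : ZMod 3) = (b3 : ZMod 3)) (hb3 : b3 < 3) : b9 % 3 = b3 := by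
  have h1 : (9 : ℤ) ∣ B - b9 := by
    apply (ZMod.intCast_zmod_eq_zero_iff_dvd (B - b9) 9).1
    push_cast; rw [h9]; ring
  have h2 : (3 : ℤ) ∣ B - b3 := by
    apply (ZMod.intCast_zmod_eq_zero_iff_dvd (B - b3) 3).1
    push_cast; rw [h3]; ring
  omega

theorem no_data3 {B N a m : ℤ} {q1 q2 : ℕ} (hN : 3 ^ 2 * N = 3 * B - 1 - a)
    (ham : a * m = B - 2 * 3 * N) (hBo : B % 2 = 1) (hNo : N % 2 = 1) (h1 : q1.Prime)
    (h2 : q2.Prime) (h1' : q1 % 4 = 3) (h13 : 13 < q2) (ha : a = q1 ∨ a = -q1)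
    (hin : ∀ p : ℕ, p.Prime → p ≤ 13 → p ≠ 2 → p ≠ q1 →
      ¬ IsSquare (((B ^ 2 - 4 * N : ℤ)) : ZMod p))
    (hrel : Rels q1 q2 3 B N m) : False := by
  have hq3 : q1 ≠ 3 := by rintro rfl; omega
  have hq2 : q1 ≠ 2 := by omega
  have hq5 : q1 ≠ 5 := by omega
  have hq13 : q1 ≠ 13 := by omega
  -- the classes
  obtain ⟨u, hu, v, hv, hE16, hE4, hB16, hN16⟩ := exE hBo hNo
  obtain ⟨b13, hb13, j13, hj13, hO13⟩ := exO (ns13 _ (hin 13 (by norm_num) le_rfl (by norm_num)
    hq13.symm))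
  obtain ⟨b5, hb5, j5, hj5, hO5⟩ := exO (ns5 _ (hin 5 (by norm_num) (by norm_num) (by norm_num)
    hq5.symm))
  obtain ⟨b9, hb9, j9, hj9, hO9⟩ := exO (ns9 _ (hin 3 (by norm_num) (by norm_num) (by norm_num)
    hq3.symm))
  have d13 := hO13.div hj13
  have d5 := hO5.div hj5
  have d9 := hO9.div hj9
  have M5 := m5_3 hN ham hO5
  have M13 := m13_3 hN ham hO13
  have base : ∀ x ∈ ({2, 3, 5, 7, 11, 13} : Finset ℕ), x ∣ 390 → x ≠ q1 := by
    intro x hx hd
    simp only [Finset.mem_insert, Finset.mem_singleton] at hx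
    rcases hx with rfl | rfl | rfl | rfl | rfl | rfl
    · exact hq2.symm
    · exact hq3.symm
    · exact hq5.symm
    · norm_num at hd
    · norm_num at hd
    · exact hq13.symm
  have get := @Rels.get q1 q2 3 B N m hrel h1 h2 h13 390 (by norm_num) base
  have T208a := t208a_3 hE16 hO13 (get (16 * 13) (by norm_num) (by norm_num) 5 (by norm_num)
    (by norm_num) hq5.symm good208a) d5.1.symm M5
  have T208b := t208b_3 hE16 hO13 (get (16 * 13) (by norm_num) (by norm_num) 5 (by norm_num)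
    (by norm_num) hq5.symm good208b) d5.1.symm M5
  have T208c := t208c_3 hE16 hO13 (get (16 * 13) (by norm_num) (by norm_num) 5 (by norm_num)
    (by norm_num) hq5.symm good208c) d5.1.symm M5
  have T144a := t144a_3 hE16 hO9 (get (16 * 9) (by norm_num) (by norm_num) 13 (by norm_num)
    (by norm_num) hq13.symm good144a) d13.1.symm M13
  have T144b := t144b_3 hE16 hO9 (get (16 * 9) (by norm_num) (by norm_num) 13 (by norm_num)
    (by norm_num) hq13.symm good144b) d13.1.symm M13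
  have h := tree3_true
  simp only [tree3, fc_eq, al_iff, im_iff, an_iff] at h
  have key := h u hu v hv b13 hb13 j13 hj13 b5 hb5 j5 hj5 (beq_mod T208a) T208b T208c
  clear h
  by_cases hq7 : q1 = 7
  · -- `q1 = 7`
    have ha7 : a = -7 := by
      rcases ha with h | h
      · rw [hq7] at h; omega
      · rw [hq7] at h; exact h
    obtain ⟨b11, hb11, j11, hj11, hO11⟩ := exO (ns11 _ (hin 11 (by norm_num) (by norm_num)
      (by norm_num) (by omega)))
    have d11 := hO11.div hj11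
    have base11 : ∀ x ∈ ({2, 3, 5, 7, 11, 13} : Finset ℕ), x ∣ 286 → x ≠ q1 := by
      intro x hx hd
      rintro rfl
      rw [hq7] at hd
      norm_num at hd
    have get11 := @Rels.get q1 q2 3 B N m hrel h1 h2 h13 286 (by norm_num) base11
    have T143a := t143a_3 hO11 hO13 (get11 (11 * 13) (by norm_num) (by norm_num) 5 (by norm_num)
      (by norm_num) hq5.symm good143a) d5.1.symm M5
    have T176a := t176a_3 hE16 hO11 (get11 (16 * 11) (by norm_num) (by norm_num) 5 (by norm_num)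
      (by norm_num) hq5.symm good176a) d5.1.symm M5
    have c1 : c16 6 u v = true := c16_of hN hB16 hN16 (by rw [ha7]; norm_num)
    have c2 : co 13 11 (lk 0x25678b j13) b13 2 = true :=
      co_of hN d13.1 d13.2 (by decide) (by rw [ha7]; decide) (by norm_num)
    have c3 : co 5 3 (lk 0x23 j5) b5 3 = true :=
      co_of hN d5.1 d5.2 (by decide) (by rw [ha7]; decide) (by norm_num)
    have c4 : co 9 7 (lk 0x147 j9) b9 1 = true :=
      co_of hN d9.1 d9.2 (by decide) (by rw [ha7]; decide) (by norm_num)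
    have c5 : co 11 9 (lk 0x13459 j11) b11 6 = true :=
      co_of hN d11.1 d11.2 (by decide) (by rw [ha7]; decide) (by norm_num)
    exact absurd (key.1 c1 c2 c3 b9 hb9 j9 hj9 c4 T144a T144b b11 hb11 j11 hj11 c5 T143a T176a)
      (by decide)
  · obtain ⟨b7, hb7, j7, hj7, hO7⟩ := exO (ns7 _ (hin 7 (by norm_num) (by norm_num)
      (by norm_num) (Ne.symm hq7)))
    obtain ⟨b3, hb3, j3, hj3, hO3⟩ := exO (ns3 _ (hin 3 (by norm_num) (by norm_num) (by norm_num)
      hq3.symm))
    obtain rfl : j3 = 0 := by omega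
    have d7 := hO7.div hj7
    have d3 := hO3.div hj3
    have M7 := m7_3 hN ham hO7
    have hO3' : CO 3 1 0x1 B N b3 := by
      have : 1 * b3 + 0 = b3 := by omega
      rwa [this] at hO3
    have hb39 : b9 = Nat.add b3 (Nat.mul 3 (b9 / 3)) := by
      have := b9_b3 d9.1 d3.1 hb3
      show b9 = b3 + 3 * (b9 / 3)
      omega
    have base7 : ∀ x ∈ ({2, 3, 5, 7, 11, 13} : Finset ℕ), x ∣ 2730 → x ≠ q1 := by
      intro x hx hd
      simp only [Finset.mem_insert, Finset.mem_singleton] at hx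
      rcases hx with rfl | rfl | rfl | rfl | rfl | rfl
      · exact hq2.symm
      · exact hq3.symm
      · exact hq5.symm
      · exact Ne.symm hq7
      · norm_num at hd
      · exact hq13.symm
    have get7 := @Rels.get q1 q2 3 B N m hrel h1 h2 h13 2730 (by norm_num) base7
    have T112a := t112a_3 hE16 hO7 (get7 (16 * 7) (by norm_num) (by norm_num) 13 (by norm_num)
      (by norm_num) hq13.symm good112a) d13.1.symm M13
    have T140a := t140a_3 hE4 hO5 hO7 (get7 (4 * 5 * 7) (by norm_num) (by norm_num) 13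
      (by norm_num) (by norm_num) hq13.symm good140a) d13.1.symm M13
    have T105a := t105a_3 hO3' hO5 hO7 (get7 (3 * 5 * 7) (by norm_num) (by norm_num) 13
      (by norm_num) (by norm_num) hq13.symm good105a) d13.1.symm M13
    have T117a := t117a_3 hO9 hO13 (get7 (9 * 13) (by norm_num) (by norm_num) 7 (by norm_num)
      (by norm_num) (Ne.symm hq7) good117a) d7.1.symm M7
    have hw : b9 / 3 < 3 := by omega
    have key2 := key.2 b7 hb7 j7 hj7 T112a T140a b3 hb3 T105a (b9 / 3) hw j9 hj9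
    rw [← hb39] at key2
    have key3 := key2 T117a T144a T144b
    by_cases hq11 : q1 = 11
    · have ha11 : a = 11 := by
        rcases ha with h | h
        · rw [hq11] at h; exact h
        · rw [hq11] at h; omega
      have c1 : c16 4 u v = true := c16_of hN hB16 hN16 (by rw [ha11]; norm_num)
      have c2 : co 13 11 (lk 0x25678b j13) b13 8 = true :=
        co_of hN d13.1 d13.2 (by decide) (by rw [ha11]; decide) (by norm_num)
      have c3 : co 5 3 (lk 0x23 j5) b5 1 = true :=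
        co_of hN d5.1 d5.2 (by decide) (by rw [ha11]; decide) (by norm_num)
      have c4 : co 9 7 (lk 0x147 j9) b9 1 = true :=
        co_of hN d9.1 d9.2 (by decide) (by rw [ha11]; decide) (by norm_num)
      have c5 : co 7 5 (lk 0x124 j7) b7 5 = true :=
        co_of hN d7.1 d7.2 (by decide) (by rw [ha11]; decide) (by norm_num)
      exact absurd (key3.1 c1 c2 c3 c5 c4) (by decide)
    · obtain ⟨b11, hb11, j11, hj11, hO11⟩ := exO (ns11 _ (hin 11 (by norm_num) (by norm_num)
        (by norm_num) (Ne.symm hq11)))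
      have d11 := hO11.div hj11
      have base11 : ∀ x ∈ ({2, 3, 5, 7, 11, 13} : Finset ℕ), x ∣ 286 → x ≠ q1 := by
        intro x hx hd
        simp only [Finset.mem_insert, Finset.mem_singleton] at hx
        rcases hx with rfl | rfl | rfl | rfl | rfl | rfl
        · exact hq2.symm
        · exact hq3.symm
        · exact hq5.symm
        · norm_num at hd
        · exact Ne.symm hq11
        · exact hq13.symm
      have get11 := @Rels.get q1 q2 3 B N m hrel h1 h2 h13 286 (by norm_num) base11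
      have T143a := t143a_3 hO11 hO13 (get11 (11 * 13) (by norm_num) (by norm_num) 5 (by norm_num)
        (by norm_num) hq5.symm good143a) d5.1.symm M5
      have T143xa := t143xa_3 hO11 hO13 (get11 (11 * 13) (by norm_num) (by norm_num) 7
        (by norm_num) (by norm_num) (Ne.symm hq7) good143xa) d7.1.symm M7
      have T176a := t176a_3 hE16 hO11 (get11 (16 * 11) (by norm_num) (by norm_num) 5 (by norm_num)
        (by norm_num) hq5.symm good176a) d5.1.symm M5
      exact absurd (key3.2 b11 hb11 j11 hj11 T143a T143xa T176a) (by decide)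

theorem no_data4 {B N a m : ℤ} {q1 q2 : ℕ} (hN : 4 ^ 2 * N = 4 * B - 1 - a)
    (ham : a * m = B - 2 * 4 * N) (hBo : B % 2 = 1) (hNo : N % 2 = 1) (h1 : q1.Prime)
    (h2 : q2.Prime) (h1' : 13 < q1) (h13 : 13 < q2)
    (hin : ∀ p : ℕ, p.Prime → p ≤ 13 → p ≠ 2 → p ≠ q1 →
      ¬ IsSquare (((B ^ 2 - 4 * N : ℤ)) : ZMod p))
    (hrel : Rels q1 q2 4 B N m) : False := by
  obtain ⟨u, hu, v, hv, hE16, hE4, hB16, hN16⟩ := exE hBo hNo
  obtain ⟨b13, hb13, j13, hj13, hO13⟩ := exO (ns13 _ (hin 13 (by norm_num) le_rfl (by norm_num)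
    (by omega)))
  obtain ⟨b5, hb5, j5, hj5, hO5⟩ := exO (ns5 _ (hin 5 (by norm_num) (by norm_num) (by norm_num)
    (by omega)))
  obtain ⟨b9, hb9, j9, hj9, hO9⟩ := exO (ns9 _ (hin 3 (by norm_num) (by norm_num) (by norm_num)
    (by omega)))
  obtain ⟨b7, hb7, j7, hj7, hO7⟩ := exO (ns7 _ (hin 7 (by norm_num) (by norm_num)
    (by norm_num) (by omega)))
  obtain ⟨b3, hb3, j3, hj3, hO3⟩ := exO (ns3 _ (hin 3 (by norm_num) (by norm_num) (by norm_num)
    (by omega)))
  obtain rfl : j3 = 0 := by omega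
  have d13 := hO13.div hj13
  have d5 := hO5.div hj5
  have d9 := hO9.div hj9
  have d7 := hO7.div hj7
  have d3 := hO3.div hj3
  have M5 := m5_4 hN ham hO5
  have M7 := m7_4 hN ham hO7
  have M13 := m13_4 hN ham hO13
  have hO3' : CO 3 1 0x1 B N b3 := by
    have : 1 * b3 + 0 = b3 := by omega
    rwa [this] at hO3
  have hb39 : b9 = Nat.add b3 (Nat.mul 3 (b9 / 3)) := by
    have := b9_b3 d9.1 d3.1 hb3
    show b9 = b3 + 3 * (b9 / 3)
    omega
  have base : ∀ x ∈ ({2, 3, 5, 7, 11, 13} : Finset ℕ), x ∣ 2730 → x ≠ q1 := by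
    intro x hx hd
    simp only [Finset.mem_insert, Finset.mem_singleton] at hx
    omega
  have get := @Rels.get q1 q2 4 B N m hrel h1 h2 h13 2730 (by norm_num) base
  have T208a := t208a_4 hE16 hO13 (get (16 * 13) (by norm_num) (by norm_num) 5 (by norm_num)
    (by norm_num) (by omega) good208a) d5.1.symm M5
  have T208b := t208b_4 hE16 hO13 (get (16 * 13) (by norm_num) (by norm_num) 5 (by norm_num)
    (by norm_num) (by omega) good208b) d5.1.symm M5
  have T208c := t208c_4 hE16 hO13 (get (16 * 13) (by norm_num) (by norm_num) 5 (by norm_num)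
    (by norm_num) (by omega) good208c) d5.1.symm M5
  have T144a := t144a_4 hE16 hO9 (get (16 * 9) (by norm_num) (by norm_num) 13 (by norm_num)
    (by norm_num) (by omega) good144a) d13.1.symm M13
  have T144b := t144b_4 hE16 hO9 (get (16 * 9) (by norm_num) (by norm_num) 13 (by norm_num)
    (by norm_num) (by omega) good144b) d13.1.symm M13
  have T112a := t112a_4 hE16 hO7 (get (16 * 7) (by norm_num) (by norm_num) 13 (by norm_num)
    (by norm_num) (by omega) good112a) d13.1.symm M13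
  have T140a := t140a_4 hE4 hO5 hO7 (get (4 * 5 * 7) (by norm_num) (by norm_num) 13
    (by norm_num) (by norm_num) (by omega) good140a) d13.1.symm M13
  have T105a := t105a_4 hO3' hO5 hO7 (get (3 * 5 * 7) (by norm_num) (by norm_num) 13
    (by norm_num) (by norm_num) (by omega) good105a) d13.1.symm M13
  have T117a := t117a_4 hO9 hO13 (get (9 * 13) (by norm_num) (by norm_num) 7 (by norm_num)
    (by norm_num) (by omega) good117a) d7.1.symm M7
  have T315a := t315a_4 hO9 hO5 hO7 (get (9 * 5 * 7) (by norm_num) (by norm_num) 13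
    (by norm_num) (by norm_num) (by omega) good315a) d13.1.symm M13
  have hw : b9 / 3 < 3 := by omega
  have h := tree4_true
  simp only [tree4, fc_eq, al_iff, im_iff, an_iff] at h
  have key := h u hu v hv b13 hb13 j13 hj13 b5 hb5 j5 hj5 (beq_mod T208a) T208b T208c
  have key2 := key b7 hb7 j7 hj7 T112a T140a b3 hb3 T105a (b9 / 3) hw j9 hj9
  rw [← hb39] at key2
  exact absurd (key2 T117a T144a T144b T315a) (by decide)

end CN94.K
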