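import Pool.Agent.Lib_MP_94ab8c.CondInt

/-!
# Piece SMALL94: the small discriminants
-/

namespace CN94

open QP

/-- small primes -/
def pl94 : List ℕ := [2, 3, 5, 7, 11, 13, 17, 19, 23, 29, 31, 37, 41, 43, 47, 53, 59]

/-- a proper factor among the small primes -/
def comp94 (n : ℕ) : Bool := pl94.any fun p => n % p == 0 && n != p

/-- `m` is a witness against the condition -/
def wit94 (q1 q2 m : ℕ) : Bool :=
  decide (4 * m ^ 2 < q1 * q2) &&
    ((q1 * m ^ 2 - q2 + (q2 - q1 * m ^ 2)) % 4 != 0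
      || comp94 ((q1 * m ^ 2 - q2 + (q2 - q1 * m ^ 2)) / 4))

/-- the pair `(q1, q2)` is harmless -/
def one94 (q1 q2 : ℕ) : Bool :=
  q1 % 4 != 3 || q2 % 4 != 3 || q1 * q2 % 8 != 5 || !decide (q1 < q2) || !decide (q1 * q2 ≤ 25600)
    || comp94 q1 || comp94 q2 || q1 * q2 == 133 || q1 * q2 == 341 || q1 * q2 == 917
    || wit94 q1 q2 1 || wit94 q1 q2 3

/-- all pairs -/
def all94 : Bool :=
  (List.range 160).all fun q1 => q1 % 4 != 3 || (List.range 161).all fun c =>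
    ((q1 * c ^ 2 + 4) % 9 != 0 || one94 q1 ((q1 * c ^ 2 + 4) / 9)) &&
    ((q1 * c ^ 2 + 5) % 9 != 0 || one94 q1 ((q1 * c ^ 2 - 4) / 9))

theorem all94_true : all94 = true := by decide +kernel

theorem comp94_spec {n : ℕ} (h : comp94 n = true) : n ≠ 1 ∧ ¬ n.Prime := by
  unfold comp94 at h
  rw [List.any_eq_true] at h
  obtain ⟨p, hp, h2⟩ := h
  rw [Bool.and_eq_true, beq_iff_eq, bne_iff_ne] at h2
  have hp2 : 2 ≤ p := by
    have : ∀ p ∈ pl94, 2 ≤ p := by decide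
    exact this p hp
  have hd : p ∣ n := Nat.dvd_of_mod_eq_zero h2.1
  constructor
  · rintro rfl
    have := Nat.dvd_one.1 hd
    omega
  · intro hn
    rcases (Nat.dvd_prime hn).1 hd with h3 | h3
    · omega
    · exact h2.2 h3.symm

theorem wit94_spec {q1 q2 m : ℕ} (hm : m = 1 ∨ m = 3) (h : wit94 q1 q2 m = true) :
    ¬ CondInt q1 q2 := by
  intro hc
  unfold wit94 at h
  rw [Bool.and_eq_true, decide_eq_true_iff, Bool.or_eq_true, bne_iff_ne] at h
  obtain ⟨h1, h2⟩ := h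
  obtain ⟨n, hn, hn2⟩ := hc (m : ℤ) (by omega) (by omega) (by exact_mod_cast h1)
  have hk : ((q1 : ℤ) * (m : ℤ) ^ 2 - q2).natAbs = q1 * m ^ 2 - q2 + (q2 - q1 * m ^ 2) := by
    have e : (q1 : ℤ) * (m : ℤ) ^ 2 = ((q1 * m ^ 2 : ℕ) : ℤ) := by push_cast; ring
    rw [e]
    omega
  rw [hk] at hn
  rw [hn] at h2
  rcases h2 with h2 | h2
  · omega
  · rw [Nat.mul_div_cancel_left _ (by norm_num)] at h2
    have := comp94_spec h2
    tauto

theorem one94_spec {q1 q2 : ℕ} (h : Setting q1 q2) (hD : q1 * q2 ≤ 25600)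
    (hx : q1 * q2 ≠ 133 ∧ q1 * q2 ≠ 341 ∧ q1 * q2 ≠ 917) (ho : one94 q1 q2 = true) :
    ¬ CondInt q1 q2 := by
  unfold one94 at ho
  simp only [Bool.or_eq_true, bne_iff_ne, beq_iff_eq, Bool.not_eq_true', decide_eq_false_iff_not]
    at ho
  have h1 := h.mod1
  have h2 := h.mod2
  have h3 := h.mod8
  have h4 := h.lt
  rcases ho with ((((((((((( ho | ho) | ho) | ho) | ho) | ho) | ho) | ho) | ho) | ho) | ho) | ho)
  · exact absurd h1 ho
  · exact absurd h2 ho
  · exact absurd h3 ho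
  · exact absurd h4 ho
  · exact absurd hD ho
  · exact absurd h.prime1 (comp94_spec ho).2
  · exact absurd h.prime2 (comp94_spec ho).2
  · exact absurd ho hx.1
  · exact absurd ho hx.2.1
  · exact absurd ho hx.2.2
  · exact wit94_spec (Or.inl rfl) ho
  · exact wit94_spec (Or.inr rfl) ho

/-- PROOF: `q1² c² = 9 q1 q2 ± 4 q1` and `q1² < q1 q2 ≤ 25600`, so `q1 < 160` and `q1 c ≤ 482`; `q1 ≥ 7`,
`q1 ≡ 3 mod 4`; `c` odd.  Finite check (all solutions of the setting with `q1 q2 ≤ 25600`, with an odd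
`m`, `4 m² < q1 q2`, for which `(q1 m² - q2)/4` is composite):
(7,19) (7,131) (11,31) excluded; (7,1307): m=1, 325; (7,1867): m=1, 465; (7,2707): m=1, 675;
(7,3491): m=1, 871; (11,647): m=1, 159; (19,103): m=1, 21; (19,1319): m=1, 325; (23,739): m=3, 133;
(47,131): m=1, 21. -/
theorem small9 {q1 q2 : ℕ} (h : Setting q1 q2) (hD : q1 * q2 ≤ 25600) (hF : Family9 q1 q2) :
    ¬ CondInt q1 q2 := by
  obtain ⟨hx, c, hc0, hc⟩ := hF
  lift c to ℕ using hc0.le
  refine one94_spec h hD hx ?_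
  have h1 := h.mod1
  have h4 := h.lt
  have hq : q1 < 160 := by
    by_contra hcon
    push Not at hcon
    have : 160 * 161 ≤ q1 * q2 := Nat.mul_le_mul hcon (by omega)
    omega
  have hq3 : 3 ≤ q1 := by omega
  have hc' : q1 * c ^ 2 = 9 * q2 + 4 ∨ q1 * c ^ 2 + 4 = 9 * q2 := by
    rcases hc with hc | hc
    · left; exact_mod_cast hc
    · right
      have : (q1 : ℤ) * (c : ℤ) ^ 2 + 4 = 9 * q2 := by rw [hc]; ring
      exact_mod_cast this
  have hcb : c < 161 := by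
    by_contra hcon
    push Not at hcon
    have e1 : q1 * c ^ 2 ≤ 9 * q2 + 4 := by omega
    have e2 : q1 * (q1 * c ^ 2) ≤ q1 * (9 * q2 + 4) := Nat.mul_le_mul_left _ e1
    have e3 : q1 * (9 * q2 + 4) ≤ 9 * 25600 + 4 * 160 := by nlinarith
    have e4 : (3 * 161) ^ 2 ≤ q1 * (q1 * c ^ 2) := by
      have : (3 * 161) ^ 2 ≤ (q1 * c) ^ 2 := Nat.pow_le_pow_left (Nat.mul_le_mul hq3 hcon) 2
      calc (3 * 161) ^ 2 ≤ (q1 * c) ^ 2 := this
        _ = q1 * (q1 * c ^ 2) := by ring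
    omega
  have hall := all94_true
  unfold all94 at hall
  rw [List.all_eq_true] at hall
  have hall1 := hall q1 (List.mem_range.2 hq)
  rw [Bool.or_eq_true, bne_iff_ne] at hall1
  rcases hall1 with hall1 | hall1
  · exact absurd h1 hall1
  rw [List.all_eq_true] at hall1
  have hall2 := hall1 c (List.mem_range.2 hcb)
  rw [Bool.and_eq_true, Bool.or_eq_true, Bool.or_eq_true, bne_iff_ne, bne_iff_ne] at hall2
  rcases hc' with hc' | hc'
  · have e : (q1 * c ^ 2 - 4) / 9 = q2 := by omega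
    rw [e] at hall2
    rcases hall2.2 with h5 | h5
    · omega
    · exact h5
  · have e : (q1 * c ^ 2 + 4) / 9 = q2 := by omega
    rw [e] at hall2
    rcases hall2.1 with h5 | h5
    · omega
    · exact h5

/-- PROOF: `c ≥ 5` (`c = 1` gives `q2 < q1`), `q1 > 4 c + 5 ≥ 25`,
`(q1 c)² = 4 q1 q2 - q1 ≤ 102400`: `c = 5`, `25 < q1 ≤ 64` (`c ≥ 9` gives `q1 ≥ 42`, `q1 c ≥ 378`).
`4 q2 = 25 q1 + 1`, `q1 ≡ q2 ≡ 3 mod 4`: `q1 = 35, 51` only, not prime. -/
theorem small4 {q1 q2 : ℕ} (h : Setting q1 q2) (hD : q1 * q2 ≤ 25600) (hF : Family4 q1 q2) :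
    False := by
  obtain ⟨c, hc0, hc4, hcq, hc, -, -⟩ := hF
  lift c to ℕ using hc0.le
  have h1 := h.mod1
  have h2 := h.mod2
  have h4 := h.lt
  have hc' : q1 * c ^ 2 + 1 = 4 * q2 := by
    have : (q1 : ℤ) * (c : ℤ) ^ 2 + 1 = 4 * q2 := by rw [hc]; ring
    exact_mod_cast this
  have hcq' : 4 * c + 5 < q1 := by exact_mod_cast hcq
  have hc4' : c % 4 = 1 := by omega
  have hc1 : c ≠ 1 := by
    rintro rfl
    omega
  have hc5 : 5 ≤ c := by omega
  have hb : q1 * c < 321 := by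
    by_contra hcon
    push Not at hcon
    have e1 : 321 ^ 2 ≤ (q1 * c) ^ 2 := Nat.pow_le_pow_left hcon 2
    have e2 : (q1 * c) ^ 2 + q1 = 4 * (q1 * q2) := by
      calc (q1 * c) ^ 2 + q1 = q1 * (q1 * c ^ 2 + 1) := by ring
        _ = 4 * (q1 * q2) := by rw [hc']; ring
    omega
  have hc9 : c < 9 := by
    by_contra hcon
    push Not at hcon
    have : 42 * 9 ≤ q1 * c := Nat.mul_le_mul (by omega) hcon
    omega
  have hc55 : c = 5 := by omega
  subst hc55
  have hq : q1 ≤ 64 := by omega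
  have hq2 : 25 * q1 + 1 = 4 * q2 := by omega
  have h35 : q1 = 35 ∨ q1 = 51 := by omega
  have hp := h.prime1
  rcases h35 with h35 | h35
  · rw [h35] at hp
    exact absurd hp (by norm_num)
  · rw [h35] at hp
    exact absurd hp (by norm_num)

end CN94
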