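import Pool.Agent.Lib_CN94.RelMod
import Pool.Agent.Lib_CN94.FamDat
import Pool.Agent.Lib_CN94.Inert
import Pool.Agent.Lib_CN94.Small94
import Pool.Agent.Lib_CN94.KFinal

/-!
# The two families have no member with condition (1) and class number one
-/

namespace CN94

open QP QuadraticAlgebra

variable {q1 q2 : ℕ} {e : ℤ}

theorem odd_BN (h : Setting q1 q2) (he : 4 * e + 1 = q1 * q2) {B N : ℤ}
    (hd : B ^ 2 - 4 * N = 4 * e + 1) : B % 2 = 1 ∧ N % 2 = 1 := by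
  have h8 : ((q1 : ℤ) * q2) % 8 = 5 := by exact_mod_cast h.mod8
  rw [he] at hd
  have hB : B % 2 = 1 := by
    rcases Int.emod_two_eq_zero_or_one B with h0 | h0
    · exfalso
      obtain ⟨b, hb⟩ : ∃ b, B = 2 * b := ⟨B / 2, by omega⟩
      have : B ^ 2 = 4 * b ^ 2 := by rw [hb]; ring
      omega
    · exact h0
  refine ⟨hB, ?_⟩
  obtain ⟨b, hb⟩ : ∃ b, B = 2 * b + 1 := ⟨B / 2, by omega⟩
  have h1 : B ^ 2 = 4 * (b * (b + 1)) + 1 := by rw [hb]; ring
  have h2 : (b * (b + 1)) % 2 = 0 := by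
    rcases Int.emod_two_eq_zero_or_one b with h0 | h0
    · rw [Int.mul_emod, h0]; simp
    · have : (b + 1) % 2 = 0 := by omega
      rw [Int.mul_emod, this]; simp
  generalize hz : b * (b + 1) = z at h1 h2
  generalize B ^ 2 = w at h1 hd
  omega

theorem inert_BN (h : Setting q1 q2) (he : 4 * e + 1 = q1 * q2) (hc : CondInt q1 q2)
    (hbig : 25600 < q1 * q2) {B N : ℤ} (hd : B ^ 2 - 4 * N = 4 * e + 1) (p : ℕ) (hp : p.Prime)
    (hp13 : p ≤ 13) (hp2 : p ≠ 2) (hp1 : p ≠ q1) :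
    ¬ IsSquare (((B ^ 2 - 4 * N : ℤ)) : ZMod p) := by
  have h1 := inert_of_cond h hc hbig hp hp13 hp2 hp1
  rw [hd, he]
  push_cast at h1 ⊢
  exact h1

theorem q2_big (h : Setting q1 q2) (hbig : 25600 < q1 * q2) : 13 < q2 := by
  have := h.lt
  by_contra hcon
  have h1 : q1 * q2 ≤ 13 * 13 := Nat.mul_le_mul (by omega) (by omega)
  omega

theorem rels_of (h : Setting q1 q2) (he : 4 * e + 1 = q1 * q2) [IsPrincipalIdealRing (R e)]
    {k B N a m : ℤ} (hd : Dat e k B N a m)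
    (hc : (0 < a ∧ (m ≤ -1 ∨ 2 ≤ m)) ∨ (a < 0 ∧ (m ≤ -1 ∨ 1 ≤ m))) :
    K.Rels q1 q2 k B N m := fun q _ hq hco r _ hr χ hχ =>
  rel_mod h he (not_sq h he) k B N a m hd hc q hq hco r hr χ hχ

theorem family9_false (h : Setting q1 q2) (he : 4 * e + 1 = q1 * q2)
    [IsPrincipalIdealRing (R e)] (hc : CondInt q1 q2) (hF : Family9 q1 q2) : False := by
  rcases Nat.lt_or_ge 25600 (q1 * q2) with hbig | hsmall
  · obtain ⟨_, c, hc0, hκ⟩ := hF
    obtain ⟨B, N, a, m, ha, hd, hm⟩ := fam9_dat h he hc0 hκ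
    have hq := h.prime1.pos
    have hcond : (0 < a ∧ (m ≤ -1 ∨ 2 ≤ m)) ∨ (a < 0 ∧ (m ≤ -1 ∨ 1 ≤ m)) := by
      rcases ha with h' | h'
      · left
        exact ⟨by omega, hm⟩
      · right
        exact ⟨by omega, by omega⟩
    obtain ⟨hB, hN⟩ := odd_BN h he hd.disc
    exact K.no_data3 hd.hN hd.ham hB hN h.prime1 h.prime2 h.mod1 (q2_big h hbig) ha
      (inert_BN h he hc hbig hd.disc) (rels_of h he hd hcond)
  · exact small9 h hsmall hF hc

theorem family4_false (h : Setting q1 q2) (he : 4 * e + 1 = q1 * q2)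
    [IsPrincipalIdealRing (R e)] (hc : CondInt q1 q2) (hF : Family4 q1 q2) : False := by
  rcases Nat.lt_or_ge 25600 (q1 * q2) with hbig | hsmall
  · obtain ⟨c, hc0, hc4, hcq, hκ, _, _⟩ := hF
    obtain ⟨B, N, m, hd, hm⟩ := fam4_dat h he hc0 hc4 hκ
    have hq := h.prime1.pos
    have hcond : (0 < (q1 : ℤ) ∧ (m ≤ -1 ∨ 2 ≤ m)) ∨ ((q1 : ℤ) < 0 ∧ (m ≤ -1 ∨ 1 ≤ m)) :=
      Or.inl ⟨by omega, Or.inr hm⟩
    obtain ⟨hB, hN⟩ := odd_BN h he hd.disc
    have hc5 : 5 ≤ c := by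
      by_contra hcon
      obtain rfl : c = 1 := by omega
      have := h.lt
      omega
    exact K.no_data4 hd.hN hd.ham hB hN h.prime1 h.prime2 (by omega) (q2_big h hbig)
      (inert_BN h he hc hbig hd.disc) (rels_of h he hd hcond)
  · exact small4 h hsmall hF

end CN94
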