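import Pool.Agent.Lib_CN94.ExDefs

/-!
# Piece GAUSS: Gaussian sums
-/

namespace CN94

/-- PROOF: `exp (-(c t n²)) ≤ exp (-(c t n))` for `n ≥ 1`: geometric series. -/
theorem gauss_summable (c t : ℝ) (hc : 0 < c) (ht : 0 < t) :
    Summable fun n : ℕ => Real.exp (-(c * t * (n : ℝ) ^ 2)) := by
  have hct : 0 < c * t := mul_pos hc ht
  have h1 : Summable fun n : ℕ => Real.exp (-(c * t)) ^ n :=
    summable_geometric_of_lt_one (Real.exp_pos _).le (Real.exp_lt_one_iff.2 (by linarith))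
  refine Summable.of_nonneg_of_le (fun n => (Real.exp_pos _).le) (fun n => ?_) h1
  rw [← Real.exp_nat_mul]
  apply Real.exp_le_exp.2
  have h2 : (n : ℝ) ≤ (n : ℝ) ^ 2 := by
    rcases Nat.eq_zero_or_pos n with h | h
    · subst h; simp
    · have : (1 : ℝ) ≤ n := by exact_mod_cast h
      nlinarith
  nlinarith

/-- PROOF: let `M = ⌈1/√t⌉ ≥ 1`, `M ≤ 2/√t`.  Write `n = a M + b`, `b < M`: `t n² ≥ t M² a² ≥ a² ≥ a`,
so the term is at most `exp (-(c a))`; summing, the total is at most `M ∑_a exp (-c a)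
= M / (1 - exp (-c))` (e.g. bound all partial sums over `range (M * A)` with
`Finset.sum_range` blocks, `Summable.tsum_le_of_sum_le`, or compare with the summable function on
`ℕ × Fin M` via `Nat.divModEquiv`). -/
theorem gauss_sum (c : ℝ) (hc : 0 < c) : ∃ K : ℝ, 0 ≤ K ∧ ∀ t : ℝ, 0 < t → t ≤ 1 →
    ∑' n : ℕ, Real.exp (-(c * t * (n : ℝ) ^ 2)) ≤ K / Real.sqrt t := by
  refine ⟨Real.exp c * ((1 + 2 * c) / (2 * c)), by positivity, fun t ht ht1 => ?_⟩
  obtain ⟨s, hs⟩ : ∃ s, s = Real.sqrt t := ⟨_, rfl⟩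
  have hs0 : 0 < s := by rw [hs]; exact Real.sqrt_pos.2 ht
  have hs1 : s ≤ 1 := by
    rw [hs]
    exact Real.sqrt_le_one.2 ht1
  have hst : s ^ 2 = t := by rw [hs]; exact Real.sq_sqrt ht.le
  have hy : 0 < 2 * c * s := by positivity
  have hr1 : Real.exp (-(2 * c * s)) < 1 := Real.exp_lt_one_iff.2 (by linarith)
  have h1 : Summable fun n : ℕ => Real.exp c * Real.exp (-(2 * c * s)) ^ n :=
    (summable_geometric_of_lt_one (Real.exp_pos _).le hr1).mul_left _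
  have h2 : ∑' n : ℕ, Real.exp (-(c * t * (n : ℝ) ^ 2)) ≤
      ∑' n : ℕ, Real.exp c * Real.exp (-(2 * c * s)) ^ n := by
    refine (gauss_summable c t hc ht).tsum_le_tsum (fun n => ?_) h1
    rw [← Real.exp_nat_mul, ← Real.exp_add]
    apply Real.exp_le_exp.2
    rw [← hst]
    nlinarith [mul_nonneg hc.le (sq_nonneg ((n : ℝ) * s - 1))]
  refine h2.trans ?_
  rw [tsum_mul_left, tsum_geometric_of_lt_one (Real.exp_pos _).le hr1, ← hs, mul_div_assoc]
  refine mul_le_mul_of_nonneg_left ?_ (Real.exp_pos _).le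
  have h3 : 2 * c * s + 1 ≤ Real.exp (2 * c * s) := Real.add_one_le_exp _
  have h4 : Real.exp (-(2 * c * s)) ≤ 1 / (2 * c * s + 1) := by
    rw [Real.exp_neg, ← one_div]
    exact one_div_le_one_div_of_le (by linarith) h3
  have h5 : 2 * c * s / (2 * c * s + 1) ≤ 1 - Real.exp (-(2 * c * s)) := by
    have : 2 * c * s / (2 * c * s + 1) = 1 - 1 / (2 * c * s + 1) := by
      field_simp
      ring
    linarith
  have h6 : 0 < 2 * c * s / (2 * c * s + 1) := by positivity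
  calc (1 - Real.exp (-(2 * c * s)))⁻¹ ≤ (2 * c * s / (2 * c * s + 1))⁻¹ :=
        inv_anti₀ h6 h5
    _ = (2 * c * s + 1) / (2 * c * s) := inv_div _ _
    _ ≤ (1 + 2 * c) / (2 * c * s) := by
        refine div_le_div_of_nonneg_right ?_ hy.le
        nlinarith
    _ = (1 + 2 * c) / (2 * c) / s := by rw [div_div]

/-- PROOF: `exp (-(c t (x² + y²)))` is a product; `tsum` of a product
(`Summable.tsum_mul_tsum`, `Summable.mul_of_nonneg`). -/
theorem gauss_sum2 (c : ℝ) (hc : 0 < c) : ∃ K : ℝ, 0 ≤ K ∧ ∀ t : ℝ, 0 < t → t ≤ 1 →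
    (Summable fun p : ℕ × ℕ => Real.exp (-(c * t * ((p.1 : ℝ) ^ 2 + (p.2 : ℝ) ^ 2)))) ∧
    ∑' p : ℕ × ℕ, Real.exp (-(c * t * ((p.1 : ℝ) ^ 2 + (p.2 : ℝ) ^ 2))) ≤ K / t := by
  obtain ⟨K, hK, h⟩ := gauss_sum c hc
  refine ⟨K ^ 2, by positivity, fun t ht ht1 => ?_⟩
  have h1 := gauss_summable c t hc ht
  have h2 : (fun p : ℕ × ℕ => Real.exp (-(c * t * ((p.1 : ℝ) ^ 2 + (p.2 : ℝ) ^ 2)))) =
      fun p : ℕ × ℕ => Real.exp (-(c * t * (p.1 : ℝ) ^ 2)) *
        Real.exp (-(c * t * (p.2 : ℝ) ^ 2)) := by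
    funext p
    rw [← Real.exp_add]
    congr 1
    ring
  have h3 : Summable fun p : ℕ × ℕ => Real.exp (-(c * t * (p.1 : ℝ) ^ 2)) *
        Real.exp (-(c * t * (p.2 : ℝ) ^ 2)) :=
    h1.mul_of_nonneg h1 (fun n => (Real.exp_pos _).le) (fun n => (Real.exp_pos _).le)
  rw [h2]
  refine ⟨h3, ?_⟩
  rw [← h1.tsum_mul_tsum h1 h3]
  have h4 := h t ht ht1
  have h5 : 0 ≤ ∑' n : ℕ, Real.exp (-(c * t * (n : ℝ) ^ 2)) :=
    tsum_nonneg fun n => (Real.exp_pos _).le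
  calc (∑' n : ℕ, Real.exp (-(c * t * (n : ℝ) ^ 2))) * ∑' n : ℕ, Real.exp (-(c * t * (n : ℝ) ^ 2))
      ≤ (K / Real.sqrt t) * (K / Real.sqrt t) := mul_le_mul h4 h4 h5 (by positivity)
    _ = K ^ 2 / t := by
        rw [div_mul_div_comm, Real.mul_self_sqrt ht.le, sq]

/-- PROOF: `A x² + T x y + C y² ≥ c (x² + y²)` with `c = min A C` on the quadrant; compare. -/
theorem ex_summable (A T C t : ℝ) (hA : 0 < A) (hT : 0 < T) (hC : 0 < C) (ht : 0 < t) :
    Summable fun p : ℕ × ℕ => ex A T C t p.1 p.2 := by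
  obtain ⟨c, hcdef⟩ : ∃ c, c = min A C := ⟨_, rfl⟩
  have hc : 0 < c := by rw [hcdef]; exact lt_min hA hC
  have hcA : c ≤ A := by rw [hcdef]; exact min_le_left _ _
  have hcC : c ≤ C := by rw [hcdef]; exact min_le_right _ _
  have h1 := gauss_summable c t hc ht
  have h3 : Summable fun p : ℕ × ℕ => Real.exp (-(c * t * (p.1 : ℝ) ^ 2)) *
        Real.exp (-(c * t * (p.2 : ℝ) ^ 2)) :=
    h1.mul_of_nonneg h1 (fun n => (Real.exp_pos _).le) (fun n => (Real.exp_pos _).le)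
  refine Summable.of_nonneg_of_le (fun p => ?_) (fun p => ?_) h3
  · unfold ex
    positivity
  · unfold ex
    rw [← Real.exp_add]
    apply Real.exp_le_exp.2
    have hx : (0 : ℝ) ≤ p.1 := Nat.cast_nonneg _
    have hy : (0 : ℝ) ≤ p.2 := Nat.cast_nonneg _
    have h5 := mul_nonneg hx hy
    have h6 : c * (p.1 : ℝ) ^ 2 ≤ A * (p.1 : ℝ) ^ 2 := mul_le_mul_of_nonneg_right hcA (sq_nonneg _)
    have h7 : c * (p.2 : ℝ) ^ 2 ≤ C * (p.2 : ℝ) ^ 2 := mul_le_mul_of_nonneg_right hcC (sq_nonneg _)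
    have h8 : 0 ≤ T * (p.1 * p.2) := mul_nonneg hT.le h5
    nlinarith

end CN94
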