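import Pool.Agent.Lib_CN94.Defs
import Pool.Agent.Lib_CN94.Saw

/-!
# Piece HFORM: the explicit weight
-/

namespace CN94

theorem hform_subst (q : ℕ) [NeZero q] (G : ZMod q → ZMod q → ℝ) (k : ZMod q) :
    ∑ α, ∑ β, G α β = ∑ x, ∑ y, G (k * x + y) (-x) := by
  rw [Finset.sum_comm, ← Equiv.sum_comp (Equiv.neg (ZMod q))]
  refine Finset.sum_congr rfl fun x _ => ?_
  rw [← Equiv.sum_comp (Equiv.addLeft (k * x))]
  rfl

theorem hform_si (q : ℕ) [NeZero q] (x : ZMod q) : (si q x : ℝ) = 2 * q * saw q x := by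
  have hq : (q : ℝ) ≠ 0 := Nat.cast_ne_zero.2 (NeZero.ne q)
  unfold si saw
  by_cases h : x = 0
  · simp [h]
  · rw [if_neg h, if_neg h]
    push_cast
    field_simp

theorem hform_bi (q : ℕ) [NeZero q] (x : ZMod q) : (bi q x : ℝ) = 6 * (q : ℝ) ^ 2 * bb q x := by
  have hq : (q : ℝ) ≠ 0 := Nat.cast_ne_zero.2 (NeZero.ne q)
  unfold bi bb
  push_cast
  field_simp

theorem hform_qf (q : ℕ) (k B N a : ℤ) (hN : k ^ 2 * N = k * B - 1 - a) (x y : ZMod q) :
    qf q N (2 * k * N - B) (-a) ((k : ZMod q) * x + y) (-x) = qf q 1 B N x y := by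
  have h : (k : ZMod q) ^ 2 * N = k * B - 1 - a := by exact_mod_cast congrArg (Int.cast) hN
  unfold qf
  push_cast
  linear_combination (-x ^ 2) * h

/-- PROOF: `Lam 1 B N = ∑ f(x² + Bxy + Ny²) (s(x) s(y) + B/(4N) b(x) + B/4 b(y))` (`s = saw`,
`b = bb`).  In `Lam N T' (-a)`, `T' = 2 k N - B`, with summation variables `(α, β)` substitute
`α = y + k x`, `β = -x` (a bijection of `(ZMod q)²`): because of `k² N = k B - 1 - a`
`N α² + T' α β - a β² = x² + B x y + N y²`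
and the weight becomes `-s(kx+y) s(x) + T'/(4 (-a)) b(kx+y) + T'/(4N) b(x)`.
The sum of the two weights is
`s(x) s(y) - s(x) s(kx+y) + (B + T')/(4N) b(x) + B/4 b(y) - T'/(4a) b(kx+y)`,
`(B + T')/(4N) = k/2` and `-T'/(4a) = m/4` because `a m = B - 2 k N`.
Finally `2 q saw x = si x` and `6 q² bb x = bi x` (as reals), so `24 q²` times the weight is
`6 si si - 6 si si + 2 k bi x + B bi y + m bi (kx+y) = WW`. -/
theorem H_form (q : ℕ) [NeZero q] (f : ZMod q → ℝ) (k B N a m : ℤ)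
    (hN : k ^ 2 * N = k * B - 1 - a) (ham : a * m = B - 2 * k * N) (ha : a ≠ 0) (hN0 : N ≠ 0) :
    24 * (q : ℝ) ^ 2 * (Lam q f 1 B N + Lam q f N (2 * k * N - B) (-a)) =
      ∑ x : ZMod q, ∑ y : ZMod q, f (qf q 1 B N x y) * (WW q k B m x y : ℝ) := by
  have ha' : (a : ℝ) ≠ 0 := Int.cast_ne_zero.2 ha
  have hN' : (N : ℝ) ≠ 0 := Int.cast_ne_zero.2 hN0
  have ham' : (a : ℝ) * m = B - 2 * k * N := by exact_mod_cast ham
  have hsub : Lam q f N (2 * k * N - B) (-a) = ∑ x : ZMod q, ∑ y : ZMod q,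
      f (qf q 1 B N x y) * (-(saw q x * saw q ((k : ZMod q) * x + y)) +
        ((2 * k * N - B : ℤ) : ℝ) / (4 * ((-a : ℤ) : ℝ)) * bb q ((k : ZMod q) * x + y) +
        ((2 * k * N - B : ℤ) : ℝ) / (4 * (N : ℝ)) * bb q x) := by
    unfold Lam LF
    rw [hform_subst q _ (k : ZMod q)]
    refine Finset.sum_congr rfl fun x _ => ?_
    refine Finset.sum_congr rfl fun y _ => ?_
    simp only
    rw [hform_qf q k B N a hN, saw_neg, bb_neg]
    ring
  rw [hsub]
  unfold Lam LF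
  rw [← Finset.sum_add_distrib, Finset.mul_sum]
  refine Finset.sum_congr rfl fun x _ => ?_
  rw [← Finset.sum_add_distrib, Finset.mul_sum]
  refine Finset.sum_congr rfl fun y _ => ?_
  unfold WW
  push_cast
  simp only [hform_si, hform_bi]
  have e1 : ((2 * k * N - B : ℝ)) / (4 * -(a : ℝ)) = m / 4 := by
    rw [div_eq_div_iff (by
      intro h
      apply ha'
      linarith) (by norm_num)]
    linear_combination (4 : ℝ) * ham'
  have e2 : ((2 * k * N - B : ℝ)) / (4 * (N : ℝ)) = k / 2 - B / (4 * N) := by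
    field_simp
    ring
  rw [e1, e2]
  ring

end CN94
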