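import Pool.Agent.Lib_CN94.Phi
import Pool.Agent.Lib_CN94.Abel
import Pool.Agent.Lib_CN94.Kap

/-!
# Piece HYPER: the hyperbola limit
-/

namespace CN94

open Filter Topology

/-- PROOF: `∑_{m,k} e^{-t(m+1)(k+1)} < ∞` (e.g. `(m+1)(k+1) ≥ (m+k+1)`... compare with
`e^{-t m} e^{-t k}`). -/
theorem hyper_summable (t : ℝ) (ht : 0 < t) :
    Summable fun p : ℕ × ℕ => Real.exp (-(t * ((p.1 + 1) * (p.2 + 1)))) := by
  have h1 : Summable fun n : ℕ => Real.exp (n * -t) :=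
    Real.summable_exp_nat_mul_iff.2 (neg_lt_zero.2 ht)
  have h2 : Summable fun p : ℕ × ℕ => Real.exp (p.1 * -t) * Real.exp (p.2 * -t) :=
    h1.mul_of_nonneg h1 (fun _ => (Real.exp_pos _).le) (fun _ => (Real.exp_pos _).le)
  refine Summable.of_nonneg_of_le (fun _ => (Real.exp_pos _).le) (fun p => ?_) h2
  rw [← Real.exp_add]
  apply Real.exp_le_exp.2
  have h3 : (0 : ℝ) ≤ p.1 := Nat.cast_nonneg _
  have h4 : (0 : ℝ) ≤ p.2 := Nat.cast_nonneg _
  have h5 : 0 ≤ t * ((p.1 : ℝ) * p.2) := by positivity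
  nlinarith

private theorem hyper_exp {t : ℝ} (ht : 0 < t) :
    ∑' n : ℕ, Real.exp (-((n + 1 : ℕ) * t)) ≤ 1 / t ∧
      Summable fun n : ℕ => Real.exp (-((n + 1 : ℕ) * t)) := by
  have h0 : 0 < Real.exp (-t) := Real.exp_pos _
  have h1 : Real.exp (-t) < 1 := Real.exp_lt_one_iff.2 (by linarith)
  have h2 : ∀ n : ℕ, Real.exp (-((n + 1 : ℕ) * t)) = Real.exp (-t) * Real.exp (-t) ^ n := by
    intro n
    rw [← Real.exp_nat_mul, ← Real.exp_add]
    congr 1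
    push_cast
    ring
  have h3 := hasSum_geometric_of_lt_one h0.le h1
  have h4 := h3.mul_left (Real.exp (-t))
  constructor
  · simp only [h2]
    rw [h4.tsum_eq, ← div_eq_mul_inv, div_le_div_iff₀ (by linarith) ht, one_mul]
    have h5 := Real.add_one_le_exp t
    have h6 : Real.exp (-t) * Real.exp t = 1 := by
      rw [← Real.exp_add]
      simp
    nlinarith
  · simp only [h2]
    exact h4.summable

private theorem hyper_bdd {M : ℕ} [NeZero M] (g : ZMod M → ℝ) (x : ZMod M) :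
    |g x| ≤ ∑ y, |g y| :=
  Finset.single_le_sum (f := fun y => |g y|) (fun _ _ => abs_nonneg _) (Finset.mem_univ x)

/-- PROOF: let `φ = phi M2 g2`.  The sum is `∑'_{m ≥ 0} g1 (m+1) φ ((m+1) t)` (Fubini,
`hyper_summable`).  Put `Φ 0 = LL M2 g2` and `Φ n = φ (n t)` for `n ≥ 1`; as `g1 0 = 0` the sum is
`∑' hw n g1 n Φ n`.  With `h = prim M1 g1` (`g1 n = h n - h (n-1)`), `abel1` gives
`-((h 0 + h (-1))/2) Φ 0 - ∑' h n ΔΦ n = (-∑ g1 saw) LL M2 g2 - ∑' h n ΔΦ n`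
(`prim_saw`), and `|∑' h n ΔΦ n| ≤ K ∑' |Δ²Φ n|` (`abel_bound`, `prim_sum`), where
`∑_{n ≥ 1} |Δ²Φ n| ≤ K t² ∑ e^{-nt} ≤ K t² / (1 - e^{-t}) → 0` (`phi_diff2`) and
`|Φ 2 - 2 Φ 1 + Φ 0| → |L - 2 L + L| = 0` (`phi_tendsto`). -/
theorem hyper_limit (M1 M2 : ℕ) [NeZero M1] [NeZero M2] (g1 : ZMod M1 → ℝ) (g2 : ZMod M2 → ℝ)
    (h1 : g1 0 = 0) (h2 : g2 0 = 0) (z1 : ∑ x, g1 x = 0) (z2 : ∑ x, g2 x = 0) :
    Tendsto (fun t : ℝ => ∑' p : ℕ × ℕ, g1 ((p.1 + 1 : ℕ) : ZMod M1) *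
      g2 ((p.2 + 1 : ℕ) : ZMod M2) * Real.exp (-(t * ((p.1 + 1) * (p.2 + 1))))) (𝓝[>] 0)
      (𝓝 (LL M1 g1 * LL M2 g2)) := by
  obtain ⟨K, hK0, hK⟩ := phi_diff2 M2 g2 h2 z2
  obtain ⟨K', hK'0, hK'⟩ := phi_bound M2 g2 h2 z2
  have hφ := phi_tendsto M2 g2 h2 z2
  set φ : ℝ → ℝ := phi M2 g2 with hφdef
  set L2 : ℝ := LL M2 g2 with hL2
  set h : ZMod M1 → ℝ := prim M1 g1 with hh
  set H : ℝ := ∑ x, |h x| with hH
  set C1 : ℝ := ∑ x, |g1 x| with hC1
  set C2 : ℝ := ∑ x, |g2 x| with hC2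
  have hH0 : 0 ≤ H := Finset.sum_nonneg fun _ _ => abs_nonneg _
  have hC10 : 0 ≤ C1 := Finset.sum_nonneg fun _ _ => abs_nonneg _
  have key : ∀ t : ℝ, 0 < t → |(∑' p : ℕ × ℕ, g1 ((p.1 + 1 : ℕ) : ZMod M1) *
      g2 ((p.2 + 1 : ℕ) : ZMod M2) * Real.exp (-(t * ((p.1 + 1) * (p.2 + 1))))) -
        LL M1 g1 * L2| ≤ H * (|φ (2 * t) - 2 * φ t + L2| + K * t) := by
    intro t ht
    obtain ⟨e1, e2⟩ := hyper_exp ht
    have hF : Summable fun p : ℕ × ℕ => g1 ((p.1 + 1 : ℕ) : ZMod M1) *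
        g2 ((p.2 + 1 : ℕ) : ZMod M2) * Real.exp (-(t * ((p.1 + 1) * (p.2 + 1)))) := by
      refine Summable.of_norm_bounded ((hyper_summable t ht).mul_left (C1 * C2)) fun p => ?_
      rw [norm_mul, norm_mul, Real.norm_eq_abs, Real.norm_eq_abs, Real.norm_eq_abs,
        abs_of_pos (Real.exp_pos _)]
      exact mul_le_mul_of_nonneg_right (mul_le_mul (hyper_bdd g1 _) (hyper_bdd g2 _)
        (abs_nonneg _) hC10) (Real.exp_pos _).le
    set Φ : ℕ → ℝ := fun n => if n = 0 then L2 else φ (n * t) with hΦ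
    have hΦ0 : Φ 0 = L2 := by simp [hΦ]
    have hΦs : ∀ n : ℕ, Φ (n + 1) = φ ((n + 1 : ℕ) * t) := fun n => by simp [hΦ]
    have hΦb : ∀ n : ℕ, |Φ (n + 1)| ≤ K' * Real.exp (-((n + 1 : ℕ) * t)) := fun n => by
      rw [hΦs]
      exact hK' _ (by positivity)
    have hΦsum : Summable Φ := by
      rw [← summable_nat_add_iff 1]
      refine Summable.of_norm_bounded (e2.mul_left K') fun n => ?_
      rw [Real.norm_eq_abs]
      exact hΦb n
    have hdiff : ∀ x, h x - h (x - 1) = g1 x := fun x => prim_diff M1 g1 z1 x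
    have hfs : Summable fun n : ℕ => hw n * (h (n : ZMod M1) - h ((n : ZMod M1) - 1)) * Φ n := by
      rw [← summable_nat_add_iff 1]
      refine Summable.of_norm_bounded (e2.mul_left (C1 * K')) fun n => ?_
      rw [hdiff, norm_mul, norm_mul, Real.norm_eq_abs, Real.norm_eq_abs, Real.norm_eq_abs]
      have h3 : |hw (n + 1)| = 1 := by simp [hw]
      rw [h3, one_mul, mul_assoc]
      exact mul_le_mul (hyper_bdd g1 _) (hΦb n) (abs_nonneg _) hC10
    have hsum : (∑' p : ℕ × ℕ, g1 ((p.1 + 1 : ℕ) : ZMod M1) *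
        g2 ((p.2 + 1 : ℕ) : ZMod M2) * Real.exp (-(t * ((p.1 + 1) * (p.2 + 1))))) =
        ∑' n : ℕ, hw n * (h (n : ZMod M1) - h ((n : ZMod M1) - 1)) * Φ n := by
      rw [hF.tsum_prod, hfs.tsum_eq_zero_add, Nat.cast_zero, hdiff, h1, mul_zero, zero_mul,
        zero_add]
      refine tsum_congr fun m => ?_
      have h3 : hw (m + 1) = 1 := by simp [hw]
      rw [hdiff, h3, one_mul, hΦs, hφdef, phi, ← tsum_mul_left]
      refine tsum_congr fun k => ?_
      rw [mul_assoc]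
      congr 3
      push_cast
      ring
    rw [hsum, abel1 M1 h Φ hΦsum]
    have hsaw : (h 0 + h (-1)) / 2 = - LL M1 g1 := by
      rw [hh, prim_saw, LL, neg_neg]
    rw [hsaw, hΦ0]
    have hψ : Summable fun n : ℕ => Φ (n + 1) - Φ n :=
      ((summable_nat_add_iff 1).2 hΦsum).sub hΦsum
    have hab := abel_bound M1 h (prim_sum M1 g1) (fun n => Φ (n + 1) - Φ n) hψ
    have hcalc : - -LL M1 g1 * L2 - ∑' n : ℕ, h (n : ZMod M1) * (Φ (n + 1) - Φ n)
        - LL M1 g1 * L2 = - ∑' n : ℕ, h (n : ZMod M1) * (Φ (n + 1) - Φ n) := by ring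
    rw [hcalc, abs_neg]
    refine hab.trans (mul_le_mul_of_nonneg_left ?_ hH0)
    -- second differences
    have hd : ∀ n : ℕ, |Φ (n + 1 + 1 + 1) - Φ (n + 1 + 1) - (Φ (n + 1 + 1) - Φ (n + 1))| ≤
        K * t ^ 2 * Real.exp (-((n + 1 : ℕ) * t)) := by
      intro n
      rw [hΦs, hΦs, hΦs]
      have h3 := hK t ht (n + 1) (Nat.succ_le_succ (Nat.zero_le _))
      have e3 : φ ((n + 1 + 1 + 1 : ℕ) * t) - φ ((n + 1 + 1 : ℕ) * t)
          - (φ ((n + 1 + 1 : ℕ) * t) - φ ((n + 1 : ℕ) * t)) =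
          φ (((n + 1 : ℕ) + 2) * t) - 2 * φ (((n + 1 : ℕ) + 1) * t) + φ ((n + 1 : ℕ) * t) := by
        have e4 : (((n + 1 + 1 + 1 : ℕ) : ℝ)) = ((n + 1 : ℕ) : ℝ) + 2 := by
          push_cast
          ring
        have e5 : (((n + 1 + 1 : ℕ) : ℝ)) = ((n + 1 : ℕ) : ℝ) + 1 := by
          push_cast
          ring
        rw [e4, e5]
        ring
      rw [e3]
      exact h3
    have hds : Summable fun n : ℕ =>
        |Φ (n + 1 + 1) - Φ (n + 1) - (Φ (n + 1) - Φ n)| := by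
      rw [← summable_nat_add_iff 1]
      exact Summable.of_nonneg_of_le (fun _ => abs_nonneg _) hd (e2.mul_left (K * t ^ 2))
    rw [hds.tsum_eq_zero_add]
    refine add_le_add ?_ ?_
    · apply le_of_eq
      congr 1
      rw [hΦ0, zero_add, hΦs 0, hΦs 1]
      push_cast
      rw [one_mul]
      ring
    · refine ((((summable_nat_add_iff 1).2 hds).tsum_le_tsum hd (e2.mul_left _)).trans ?_)
      rw [tsum_mul_left]
      calc K * t ^ 2 * ∑' n : ℕ, Real.exp (-((n + 1 : ℕ) * t)) ≤ K * t ^ 2 * (1 / t) :=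
            mul_le_mul_of_nonneg_left e1 (by positivity)
        _ = K * t := by
            field_simp
  rw [tendsto_iff_norm_sub_tendsto_zero]
  have hlim : Tendsto (fun t : ℝ => H * (|φ (2 * t) - 2 * φ t + L2| + K * t)) (𝓝[>] 0) (𝓝 0) := by
    have h3 : Tendsto (fun t : ℝ => 2 * t) (𝓝[>] 0) (𝓝[>] 0) := by
      refine tendsto_nhdsWithin_iff.2 ⟨?_, ?_⟩
      · have : Tendsto (fun t : ℝ => 2 * t) (𝓝 0) (𝓝 (2 * 0)) :=
          (continuous_const.mul continuous_id).tendsto 0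
        rw [mul_zero] at this
        exact this.mono_left nhdsWithin_le_nhds
      · filter_upwards [self_mem_nhdsWithin] with t ht
        have : (0 : ℝ) < t := ht
        show (0 : ℝ) < 2 * t
        positivity
    have h4 : Tendsto (fun t : ℝ => K * t) (𝓝[>] 0) (𝓝 0) := by
      have : Tendsto (fun t : ℝ => K * t) (𝓝 0) (𝓝 (K * 0)) :=
        (continuous_const.mul continuous_id).tendsto 0
      rw [mul_zero] at this
      exact this.mono_left nhdsWithin_le_nhds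
    have h5 := ((((hφ.comp h3).sub (hφ.const_mul 2)).add_const L2).abs.add h4).const_mul H
    have h6 : H * (|L2 - 2 * L2 + L2| + 0) = 0 := by
      have : L2 - 2 * L2 + L2 = 0 := by ring
      rw [this, abs_zero]
      ring
    rw [h6] at h5
    exact h5
  refine squeeze_zero' (Filter.Eventually.of_forall fun _ => norm_nonneg _) ?_ hlim
  filter_upwards [self_mem_nhdsWithin] with t ht
  rw [Real.norm_eq_abs]
  exact key t ht

end CN94
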