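import Pool.Agent.Lib_CN94.IdRec

/-!
# Piece IDSUM: the number of ideals of norm `n`
-/

namespace CN94

open QP QuadraticAlgebra

variable {q1 q2 : ℕ} {e : ℤ}

/-- the Jacobi symbol as an arithmetic function -/
def jac (N : ℕ) (hN : N ≠ 1) (hN0 : N ≠ 0) : ArithmeticFunction ℤ where
  toFun := fun d => jacobiSym d N
  map_zero' := by
    have : NeZero N := ⟨hN0⟩
    rw [Nat.cast_zero]
    exact jacobiSym.zero_left (by omega)

theorem jac_mult (N : ℕ) (hN : N ≠ 1) (hN0 : N ≠ 0) : (jac N hN hN0).IsMultiplicative := by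
  refine ⟨?_, ?_⟩
  · show jacobiSym ((1 : ℕ) : ℤ) N = 1
    rw [Nat.cast_one]
    exact jacobiSym.one_left N
  · intro m n _
    show jacobiSym ((m * n : ℕ) : ℤ) N = jacobiSym m N * jacobiSym n N
    rw [Nat.cast_mul]
    exact jacobiSym.mul_left _ _ _

theorem div_sum_pow (N : ℕ) (hN : N ≠ 1) (hN0 : N ≠ 0) {p : ℕ} (hp : p.Prime) (k m : ℕ)
    (hpm : ¬ p ∣ m) :
    ∑ d ∈ (p ^ k * m).divisors, jacobiSym d N =
      (∑ i ∈ Finset.range (k + 1), jacobiSym p N ^ i) * ∑ d ∈ m.divisors, jacobiSym d N := by
  have h1 : ((jac N hN hN0) * (ArithmeticFunction.zeta : ArithmeticFunction ℤ)).IsMultiplicative :=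
    (jac_mult N hN hN0).mul ArithmeticFunction.isMultiplicative_zeta.natCast
  have h2 : ∀ n : ℕ, ((jac N hN hN0) * (ArithmeticFunction.zeta : ArithmeticFunction ℤ)) n =
      ∑ d ∈ n.divisors, jacobiSym d N := fun n => ArithmeticFunction.coe_mul_zeta_apply
  have hc : (p ^ k).Coprime m := Nat.Coprime.pow_left _ ((Nat.Prime.coprime_iff_not_dvd hp).2 hpm)
  have h3 := h1.map_mul_of_coprime hc
  rw [h2, h2, h2] at h3
  rw [h3, Nat.sum_divisors_prime_pow hp]
  congr 1
  refine Finset.sum_congr rfl fun i _ => ?_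
  rw [Nat.cast_pow, jacobiSym.pow_left]

/-- PROOF: `jacobiSym p (q1 q2)` is `-1`, `1` or `0`, and it is `0` iff `p = q1` or `p = q2`
(`jacobiSym.eq_zero_iff_not_coprime`).  With `χ d = jacobiSym d (q1 q2)` (completely
multiplicative) the divisor sum over `p^k m`, `p ∤ m`, is `(∑_{i ≤ k} χ p ^ i)` times the divisor sum
over `m` (`Nat.Coprime.sum_divisors_mul...`, or `ArithmeticFunction` multiplicativity, or the
bijection of divisors), and `∑_{i ≤ k} χ p ^ i` is `[k even]`, `k + 1`, `1` in the three cases.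
Strong induction on `n` with `p = n.minFac`, `k` the multiplicity, `m = n / p^k < n`
(`Nat.exists_eq_pow_mul_and_not_dvd`); `n = 1`: `card_id_one`. -/
theorem card_id (h : Setting q1 q2) (he : 4 * e + 1 = q1 * q2) [IsPrincipalIdealRing (R e)]
    (n : ℕ) (hn : 0 < n) :
    (Nat.card (Id e n) : ℤ) = ∑ d ∈ n.divisors, jacobiSym d (q1 * q2) := by
  have hq1 := h.prime1
  have hq2 := h.prime2
  have hN0 : q1 * q2 ≠ 0 := mul_ne_zero hq1.ne_zero hq2.ne_zero
  have hN1 : q1 * q2 ≠ 1 := by
    intro h1
    exact hq1.one_lt.ne' (Nat.eq_one_of_mul_eq_one_right h1)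
  have key : ∀ n : ℕ, 0 < n →
      (Nat.card (Id e n) : ℤ) = ∑ d ∈ n.divisors, jacobiSym d (q1 * q2) := by
    intro n
    refine Nat.recOnPrimePow (motive := fun n => 0 < n →
      (Nat.card (Id e n) : ℤ) = ∑ d ∈ n.divisors, jacobiSym d (q1 * q2)) ?_ ?_ ?_ n
    · intro h0
      exact absurd h0 (lt_irrefl 0)
    · intro _
      rw [Nat.divisors_one, Finset.sum_singleton, Nat.cast_one, card_id_one, jacobiSym.one_left]
      rfl
    · intro m p k hp hpm hk ih h0
      have hm : 0 < m := by
        rcases Nat.eq_zero_or_pos m with h1 | h1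
        · subst h1; simp at hpm
        · exact h1
      rw [div_sum_pow (q1 * q2) hN1 hN0 hp k m hpm, ← ih hm]
      have hcast : ((p ^ k * m : ℕ) : ℤ) = ((p : ℤ) ^ k * m) := by push_cast; ring
      rcases jacobiSym.trichotomy (p : ℤ) (q1 * q2) with hJ | hJ | hJ
      · have h1 : p = q1 ∨ p = q2 := by
          have : NeZero (q1 * q2) := ⟨hN0⟩
          have h2 := (jacobiSym.eq_zero_iff_not_coprime).1 hJ
          rw [Int.gcd_natCast_natCast] at h2
          have h3 : ¬ p.Coprime (q1 * q2) := h2
          rw [Nat.Prime.coprime_iff_not_dvd hp, not_not] at h3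
          rcases (Nat.Prime.dvd_mul hp).1 h3 with h4 | h4
          · exact Or.inl ((Nat.prime_dvd_prime_iff_eq hp hq1).1 h4)
          · exact Or.inr ((Nat.prime_dvd_prime_iff_eq hp hq2).1 h4)
        have h2 := card_ramified h he h1 k m hm hpm
        rw [hcast, h2, hJ, Finset.sum_range_succ']
        simp
      · have h2 := card_split h he hp hJ k m hm hpm
        rw [hcast, h2, hJ]
        simp
      · have h2 := card_inert h he hp hJ k m hm hpm
        rw [hcast, h2, hJ]
        have h3 : ∀ k : ℕ, ∑ i ∈ Finset.range (k + 1), (-1 : ℤ) ^ i = if Even k then 1 else 0 := by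
          intro k
          induction k with
          | zero => simp
          | succ k ih =>
            rw [Finset.sum_range_succ, ih]
            by_cases hk : Even k
            · have : ¬ Even (k + 1) := by simpa [Nat.even_add_one] using hk
              rw [if_pos hk, if_neg this, pow_succ, hk.neg_one_pow]
              ring
            · have h4 : Even (k + 1) := by simpa [Nat.even_add_one] using hk
              rw [if_neg hk, if_pos h4, h4.neg_one_pow]
              ring
        rw [h3]
        split_ifs <;> simp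
  exact key n hn

end CN94
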