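import Pool.Agent.Lib_CN94.Basic

/-!
# Piece PLU: totally positive elements, order by slopes
-/

namespace CN94

open QP QuadraticAlgebra

variable {e : ℤ}

theorem plu_key (hpos : 0 < 4 * e + 1) {a b : R e} (ha : TP a) (hb : TP b) :
    |(4 * e + 1) * (a.im * b.im)| < tr a * tr b := by
  have h1 := four_norm a
  have h2 := four_norm b
  have h3 := ha.1
  have h4 := hb.1
  have h5 := ha.2
  have h6 := hb.2
  apply abs_lt_of_sq_lt_sq _ (mul_pos h5 h6).le
  have e1 : ((4 * e + 1) * (a.im * b.im)) ^ 2 =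
      ((4 * e + 1) * a.im ^ 2) * ((4 * e + 1) * b.im ^ 2) := by ring
  rw [e1, mul_pow]
  have h7 : (4 * e + 1) * a.im ^ 2 < tr a ^ 2 := by linarith
  have h8 : (4 * e + 1) * b.im ^ 2 < tr b ^ 2 := by linarith
  exact mul_lt_mul'' h7 h8 (by positivity) (by positivity)

/-- PROOF: `4 norm z = tr z ^ 2 - (4e+1) im ^ 2 > 0` and `tr > 0` give `√(4e+1) |im| < tr`; in integers:
`(4e+1)² (im a im b)² < (tr a tr b)²`, so `|(4e+1) im a im b| < tr a tr b` (both `tr > 0`), and
`2 pr a b = tr a tr b - (4e+1) im a im b` (`pr_eq`, or `QP.tr_mul`). -/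
theorem pr_pos (hpos : 0 < 4 * e + 1) {a b : R e} (ha : TP a) (hb : TP b) : 0 < pr a b := by
  have h1 := plu_key hpos ha hb
  have h2 : 2 * pr a b = tr a * tr b - (4 * e + 1) * (a.im * b.im) := by
    simp only [pr_eq, tr]; ring
  have h3 := abs_lt.1 h1
  linarith [h3.2]

/-- PROOF: `norm (a b) = norm a norm b`, `2 tr (a b) = tr a tr b + (4e+1) im a im b > 0` as in
`pr_pos`. -/
theorem TP.mul (hpos : 0 < 4 * e + 1) {a b : R e} (ha : TP a) (hb : TP b) : TP (a * b) := by
  have h1 := plu_key hpos ha hb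
  have h2 := tr_mul a b
  have h3 := abs_lt.1 h1
  refine ⟨?_, by linarith [h3.1]⟩
  rw [map_mul]
  exact mul_pos ha.1 hb.1

/-- PROOF: `norm (a + b) = norm a + pr a b + norm b` (`norm_add'`, `pr_pos`). -/
theorem TP.add (hpos : 0 < 4 * e + 1) {a b : R e} (ha : TP a) (hb : TP b) : TP (a + b) := by
  refine ⟨?_, ?_⟩
  · rw [norm_add']
    have := pr_pos hpos ha hb
    linarith [ha.1, hb.1]
  · have h1 : tr (a + b) = tr a + tr b := by simp only [tr, re_add, im_add]; ring
    rw [h1]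
    linarith [ha.2, hb.2]

/-- PROOF: `pr_pos`, `norm_combo`; the trace is additive; for `y = 0` direct. -/
theorem TP.combo (hpos : 0 < 4 * e + 1) {a b : R e} (ha : TP a) (hb : TP b) (x y : ℕ) (hx : 1 ≤ x) :
    TP ((x : R e) * a + (y : R e) * b) := by
  have hx' : (1 : ℤ) ≤ (x : ℤ) := by exact_mod_cast hx
  have hy' : (0 : ℤ) ≤ (y : ℤ) := Int.natCast_nonneg _
  have h0 : ((x : R e) * a + (y : R e) * b) = (((x : ℤ) : R e) * a + ((y : ℤ) : R e) * b) := by
    push_cast
    rfl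
  rw [h0]
  refine ⟨?_, ?_⟩
  · rw [norm_combo]
    have h1 := pr_pos hpos ha hb
    have h2 : 0 < norm a * (x : ℤ) ^ 2 := mul_pos ha.1 (by positivity)
    have h3 : 0 ≤ pr a b * ((x : ℤ) * (y : ℤ)) := mul_nonneg h1.le (by positivity)
    have h4 : 0 ≤ norm b * (y : ℤ) ^ 2 := mul_nonneg hb.1.le (by positivity)
    linarith
  · have h1 : tr (((x : ℤ) : R e) * a + ((y : ℤ) : R e) * b) = x * tr a + y * tr b := by
      simp only [tr, re_add, im_add, re_mul, im_mul, re_intCast, im_intCast, Int.cast_id]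
      ring
    rw [h1]
    have h2 : 0 < (x : ℤ) * tr a := mul_pos (by linarith) ha.2
    have h3 : 0 ≤ (y : ℤ) * tr b := mul_nonneg hy' hb.2.le
    linarith

theorem TP.star {a : R e} (ha : TP a) : TP (star a) := by
  refine ⟨?_, ?_⟩
  · rw [QuadraticAlgebra.norm_star]
    exact ha.1
  · rw [tr_star]
    exact ha.2

theorem TP.one : TP (1 : R e) := by
  refine ⟨?_, ?_⟩
  · rw [map_one]
    exact one_pos
  · simp [tr]

/-- PROOF: if `norm a > 0` then `tr a ≠ 0` or `im = 0 = tr`... : `4 norm a = tr² - (4e+1) im² > 0`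
forces `tr a ≠ 0`; take the sign. -/
theorem TP_or_neg (hpos : 0 < 4 * e + 1) {a : R e} (ha : 0 < norm a) : TP a ∨ TP (-a) := by
  have h1 := four_norm a
  have h2 : 0 ≤ (4 * e + 1) * a.im ^ 2 := by positivity
  have h3 : tr a ≠ 0 := by
    intro h
    rw [h] at h1
    linarith
  rcases lt_or_gt_of_ne h3 with h | h
  · right
    refine ⟨?_, ?_⟩
    · rw [norm_neg']
      exact ha
    · rw [tr_neg]
      linarith
  · exact Or.inl ⟨ha, h⟩

/-- PROOF: `ring` after `norm_eq`, `pr_eq`, `dt`. -/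
theorem plucker (a b c : R e) :
    2 * norm b * dt a c = dt a b * pr b c + pr a b * dt b c := by
  simp only [norm_eq, pr_eq, dt]
  ring

/-- PROOF: `plucker` and `pr_pos`. -/
theorem dt_trans_lt (hpos : 0 < 4 * e + 1) {a b c : R e} (ha : TP a) (hb : TP b) (hc : TP c)
    (h1 : 0 < dt a b) (h2 : 0 ≤ dt b c) : 0 < dt a c := by
  have h := plucker a b c
  have h3 := pr_pos hpos ha hb
  have h4 := pr_pos hpos hb hc
  have h5 : 0 < dt a b * pr b c := mul_pos h1 h4
  have h6 : 0 ≤ pr a b * dt b c := mul_nonneg h3.le h2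
  have h7 : 0 < 2 * norm b * dt a c := by linarith
  exact pos_of_mul_pos_right h7 (by linarith [hb.1])

theorem dt_trans_lt' (hpos : 0 < 4 * e + 1) {a b c : R e} (ha : TP a) (hb : TP b) (hc : TP c)
    (h1 : 0 ≤ dt a b) (h2 : 0 < dt b c) : 0 < dt a c := by
  have h := plucker a b c
  have h3 := pr_pos hpos ha hb
  have h4 := pr_pos hpos hb hc
  have h5 : 0 ≤ dt a b * pr b c := mul_nonneg h1 h4.le
  have h6 : 0 < pr a b * dt b c := mul_pos h3 h2
  have h7 : 0 < 2 * norm b * dt a c := by linarith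
  exact pos_of_mul_pos_right h7 (by linarith [hb.1])

theorem dt_trans_le (hpos : 0 < 4 * e + 1) {a b c : R e} (ha : TP a) (hb : TP b) (hc : TP c)
    (h1 : 0 ≤ dt a b) (h2 : 0 ≤ dt b c) : 0 ≤ dt a c := by
  have h := plucker a b c
  have h3 := pr_pos hpos ha hb
  have h4 := pr_pos hpos hb hc
  have h5 : 0 ≤ dt a b * pr b c := mul_nonneg h1 h4.le
  have h6 : 0 ≤ pr a b * dt b c := mul_nonneg h3.le h2
  have h7 : 0 ≤ 2 * norm b * dt a c := by linarith
  exact nonneg_of_mul_nonneg_right h7 (by linarith [hb.1])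

end CN94
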