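import Pool.Agent.Lib_CN94.IdPosA
import Pool.Agent.Lib_CN94.IdSum
import Pool.Agent.Lib_CN94.Plu

/-!
# Piece IDPOSB: ideals with a totally positive generator
-/

namespace CN94

open QP QuadraticAlgebra

variable {q1 q2 : ℕ} {e : ℤ}

/-- divisor sums over `p^k m` -/
private theorem idposb_div {p m k : ℕ} (hp : p.Prime) (hm : ¬ p ∣ m) (f : ℕ → ℤ) :
    ∑ d ∈ (p ^ k * m).divisors, f d =
      ∑ i ∈ Finset.range (k + 1), ∑ d ∈ m.divisors, f (p ^ i * d) := by
  have hc : (p ^ k).Coprime m := Nat.Coprime.pow_left k ((hp.coprime_iff_not_dvd).2 hm)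
  have h1 : (p ^ k * m).divisors =
      ((p ^ k).divisors ×ˢ m.divisors).image (fun x : ℕ × ℕ => x.1 * x.2) := by
    rw [Nat.divisors_mul]
    rfl
  rw [h1, Finset.sum_image hc.mul_injOn_divisors, Finset.sum_product,
    Nat.divisors_prime_pow hp, Finset.sum_map]
  rfl

/-- the sign of the norm in general -/
private theorem idposb_sign (h : Setting q1 q2) (he : 4 * e + 1 = q1 * q2)
    [IsPrincipalIdealRing (R e)] {m : ℕ} (hm : ¬ q1 ∣ m) (hm0 : 0 < m) (k : ℕ) :
    ∀ β : R e, |norm β| = ((q1 ^ k * m : ℕ) : ℤ) →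
      norm β = jacobiSym q1 q2 ^ k * jacobiSym m q1 * ((q1 ^ k * m : ℕ) : ℤ) := by
  have hsq := not_sq h he
  have hdom : IsDomain (R e) := isDomain hsq
  have hs2 : jacobiSym (q1 : ℤ) q2 ^ 2 = 1 := by
    apply jacobiSym.sq_one
    rw [Int.gcd_eq_natAbs, Int.natAbs_natCast, Int.natAbs_natCast]
    exact (Nat.coprime_primes h.prime1 h.prime2).2 h.lt.ne
  obtain ⟨s, hs⟩ : ∃ s : ℤ, s = jacobiSym (q1 : ℤ) q2 := ⟨_, rfl⟩
  rw [← hs] at hs2
  have hq0 : (q1 : ℤ) ≠ 0 := by exact_mod_cast h.prime1.ne_zero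
  have hsn : s.natAbs = 1 := by
    have h1 := congrArg Int.natAbs hs2
    rw [Int.natAbs_pow] at h1
    exact (Nat.pow_eq_one.1 h1).resolve_right two_ne_zero
  obtain ⟨u, hu1, hu2⟩ := exists_u h he
  rw [← hs] at hu1 ⊢
  have hup : Prime u := irreducible_iff_prime.1
    (norm_prime_irreducible u (by
      rw [hu1, Int.natAbs_mul, Int.natAbs_natCast, hsn, one_mul]
      exact h.prime1))
  induction k with
  | zero =>
    intro β hβ
    rw [pow_zero, one_mul] at hβ
    rw [pow_zero, pow_zero, one_mul, one_mul]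
    exact sign_norm h he β m hβ hm hm0
  | succ k ih =>
    intro β hβ
    have hqn : (q1 : ℤ) ∣ norm β := by
      rw [← dvd_abs, hβ]
      exact Int.natCast_dvd_natCast.2 (by rw [pow_succ, mul_assoc, mul_comm q1 m, ← mul_assoc]; exact dvd_mul_left _ _)
    have h1 : u ∣ ((q1 : ℤ) : R e) := by
      have h2 : u * star u = ((s * q1 : ℤ) : R e) := by rw [mul_star_self, hu1]
      refine ⟨star u * ((s : ℤ) : R e), ?_⟩
      rw [← mul_assoc, h2, ← Int.cast_mul]
      congr 1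
      linear_combination (-(q1 : ℤ)) * hs2
    have h3 : u ∣ β * star β := by
      rw [mul_star_self]
      obtain ⟨w, hw⟩ := hqn
      rw [hw, Int.cast_mul]
      exact Dvd.dvd.mul_right h1 _
    have h4 : u ∣ β := by
      rcases hup.dvd_or_dvd h3 with h5 | h5
      · exact h5
      · obtain ⟨w, hw⟩ := h5
        have h6 : β = star w * star u := by
          rw [← star_mul, ← hw, star_star]
        rw [h6]
        exact Dvd.dvd.mul_left hu2 _
    obtain ⟨γ, rfl⟩ := h4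
    have h5 : norm (u * γ) = s * q1 * norm γ := by rw [map_mul, hu1]
    have h6 : |norm γ| = ((q1 ^ k * m : ℕ) : ℤ) := by
      have h7 : |norm (u * γ)| = (q1 : ℤ) * |norm γ| := by
        rw [h5, abs_mul, abs_mul, Int.abs_eq_natAbs s, hsn, Nat.abs_cast]
        push_cast
        ring
      rw [hβ] at h7
      have h8 : ((q1 ^ (k + 1) * m : ℕ) : ℤ) = (q1 : ℤ) * ((q1 ^ k * m : ℕ) : ℤ) := by
        push_cast
        ring
      rw [h8] at h7
      exact (mul_left_cancel₀ hq0 h7).symm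
    rw [h5, ih γ h6]
    push_cast
    ring

/-- PROOF.  Write `n = q1^k m`, `q1 ∤ m`, `r = card (Id e m) = ∑_{d ∣ m} χ_D(d)` (`card_id`).
With `u` from `exists_u`, `γ ↦ u^k γ` maps generators of norm `± m` to generators of norm `± n` and
every `β` with `norm β = ± n` is of this form (`u ∣ β` if `q1 ∣ norm β`: `u` is prime and divides
`β star β`, and `u ∣ star u`).  `norm (u^k γ) = s^k jacobiSym m q1 * n` with `s = jacobiSym q1 q2`
(`sign_norm`), and an element of positive norm is totally positive up to sign (`TP_or_neg`).  So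
`IdP e n = Id e n` if `s^k jacobiSym m q1 = 1` and `IdP e n = ∅` if it is `-1`, while
`card (Id e n) = r`.  Hence `2 card (IdP e n) = r + s^k jacobiSym m q1 r`.
The right side: `∑_{d ∣ n} χ_D(d) = card (Id e n) = r`, and in
`∑_{d ∣ n} jacobiSym (n/d) q1 jacobiSym d q2` only the `d = q1^k d'`, `d' ∣ m` contribute:
`jacobiSym (m/d') q1 * s^k * jacobiSym d' q2`, and `jacobiSym (m/d') q1 = jacobiSym m q1 *
jacobiSym d' q1` (values `±1`, `q1 ∤ m`), `jacobiSym d' q1 * jacobiSym d' q2 = χ_D d'`. -/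
theorem card_idP (h : Setting q1 q2) (he : 4 * e + 1 = q1 * q2) [IsPrincipalIdealRing (R e)]
    (n : ℕ) (hn : 0 < n) :
    2 * (Nat.card (IdP e n) : ℤ) = ∑ d ∈ n.divisors,
      (jacobiSym d (q1 * q2) + jacobiSym ((n / d : ℕ) : ℤ) q1 * jacobiSym d q2) := by
  have hp1 := h.prime1
  have hp2 := h.prime2
  have hz1 : NeZero q1 := ⟨hp1.ne_zero⟩
  have hz2 : NeZero q2 := ⟨hp2.ne_zero⟩
  have hD : 0 < 4 * e + 1 := by
    rw [he]
    exact_mod_cast Nat.mul_pos hp1.pos hp2.pos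
  obtain ⟨k, m, hm, hnm⟩ := Nat.exists_eq_pow_mul_and_not_dvd hn.ne' q1 hp1.ne_one
  have hm0 : 0 < m := by
    rcases Nat.eq_zero_or_pos m with h0 | h0
    · rw [h0] at hm; exact absurd (dvd_zero _) hm
    · exact h0
  have hsign := idposb_sign h he hm hm0 k
  rw [← hnm] at hsign
  -- the signs
  have hs2 : jacobiSym (q1 : ℤ) q2 ^ 2 = 1 := by
    apply jacobiSym.sq_one
    rw [Int.gcd_eq_natAbs, Int.natAbs_natCast, Int.natAbs_natCast]
    exact (Nat.coprime_primes hp1 hp2).2 h.lt.ne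
  have hcop : ∀ d : ℕ, ¬ q1 ∣ d → jacobiSym (d : ℤ) q1 ^ 2 = 1 := by
    intro d hd
    apply jacobiSym.sq_one
    rw [Int.gcd_eq_natAbs, Int.natAbs_natCast, Int.natAbs_natCast]
    exact (hp1.coprime_iff_not_dvd.2 hd).symm
  have hzero : ∀ d : ℕ, q1 ∣ d → jacobiSym (d : ℤ) q1 = 0 := by
    intro d hd
    rw [jacobiSym.eq_zero_iff_not_coprime, Int.gcd_eq_natAbs, Int.natAbs_natCast,
      Int.natAbs_natCast]
    intro h1
    exact hp1.coprime_iff_not_dvd.1 (Nat.Coprime.symm h1) hd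
  obtain ⟨σ, hσ⟩ : ∃ σ : ℤ, σ = jacobiSym (q1 : ℤ) q2 ^ k * jacobiSym (m : ℤ) q1 := ⟨_, rfl⟩
  rw [← hσ] at hsign
  have hσ2 : σ = 1 ∨ σ = -1 := by
    have h1 : σ ^ 2 = 1 := by
      rw [hσ, mul_pow, hcop m hm, ← pow_mul, mul_comm k 2, pow_mul, hs2, one_pow, one_mul]
    rcases (mul_eq_zero.1 (show (σ - 1) * (σ + 1) = 0 by linear_combination h1)) with h2 | h2
    · left; linarith
    · right; linarith
  have hIdP : (Nat.card (IdP e n) : ℤ) * 2 = (1 + σ) * (Nat.card (Id e n) : ℤ) := by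
    have hn' : (0 : ℤ) < (n : ℤ) := by exact_mod_cast hn
    rcases hσ2 with h1 | h1
    · have h2 : IdP e (n : ℤ) = Id e (n : ℤ) := by
        ext I
        constructor
        · rintro ⟨β, -, hβ, rfl⟩
          exact ⟨β, by rw [hβ, abs_of_pos hn'], rfl⟩
        · rintro ⟨β, hβ, rfl⟩
          have h3 : norm β = n := by rw [hsign β hβ, h1, one_mul]
          rcases TP_or_neg hD (a := β) (by rw [h3]; exact hn') with h4 | h4
          · exact ⟨β, h4, h3, rfl⟩
          · exact ⟨-β, h4, by rw [norm_neg', h3], (Ideal.span_singleton_neg β).symm⟩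
      rw [h2, h1]
      ring
    · have h2 : IdP e (n : ℤ) = ∅ := by
        rw [Set.eq_empty_iff_forall_notMem]
        rintro I ⟨β, -, hβ, rfl⟩
        have h3 := hsign β (by rw [hβ, abs_of_pos hn'])
        rw [hβ, h1] at h3
        linarith
      rw [h2, h1]
      simp
  rw [mul_comm, hIdP, card_id h he n hn, add_mul, one_mul, Finset.sum_add_distrib]
  congr 1
  have hχ : ∀ d : ℕ, jacobiSym (d : ℤ) (q1 * q2) = jacobiSym (d : ℤ) q1 * jacobiSym (d : ℤ) q2 :=
    fun d => jacobiSym.mul_right _ _ _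
  have hA : ∑ d ∈ n.divisors, jacobiSym (d : ℤ) (q1 * q2) =
      ∑ d ∈ m.divisors, jacobiSym (d : ℤ) (q1 * q2) := by
    rw [hnm, idposb_div hp1 hm, Finset.sum_eq_single 0]
    · simp
    · intro i _ hi0
      refine Finset.sum_eq_zero fun d _ => ?_
      rw [hχ, hzero _ (Dvd.dvd.mul_right (dvd_pow_self q1 hi0) d), zero_mul]
    · intro h0
      exact absurd (Finset.mem_range.2 (Nat.succ_pos k)) h0
  have hB : ∑ d ∈ n.divisors, jacobiSym ((n / d : ℕ) : ℤ) q1 * jacobiSym (d : ℤ) q2 =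
      ∑ d ∈ m.divisors, σ * jacobiSym (d : ℤ) (q1 * q2) := by
    rw [hnm, idposb_div hp1 hm (fun d => jacobiSym ((q1 ^ k * m / d : ℕ) : ℤ) q1 *
      jacobiSym (d : ℤ) q2), Finset.sum_eq_single k]
    · refine Finset.sum_congr rfl fun d hd => ?_
      have hdm := Nat.dvd_of_mem_divisors hd
      have hd1 : ¬ q1 ∣ d := fun h0 => hm (h0.trans hdm)
      have h3 : q1 ^ k * m / (q1 ^ k * d) = m / d :=
        Nat.mul_div_mul_left m d (pow_pos hp1.pos k)
      have h4 : jacobiSym (m : ℤ) q1 = jacobiSym ((m / d : ℕ) : ℤ) q1 * jacobiSym (d : ℤ) q1 := by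
        rw [← jacobiSym.mul_left, ← Nat.cast_mul, Nat.div_mul_cancel hdm]
      have h5 := hcop d hd1
      rw [h3, hσ, hχ, h4, Nat.cast_mul, Nat.cast_pow, jacobiSym.mul_left, jacobiSym.pow_left]
      linear_combination (-(jacobiSym (q1 : ℤ) q2 ^ k * jacobiSym ((m / d : ℕ) : ℤ) q1 *
        jacobiSym (d : ℤ) q2)) * h5
    · intro i hi hik
      refine Finset.sum_eq_zero fun d hd => ?_
      have hdm := Nat.dvd_of_mem_divisors hd
      have hd0 : 0 < d := Nat.pos_of_mem_divisors hd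
      have hik' : i < k := lt_of_le_of_ne (Nat.lt_succ_iff.1 (Finset.mem_range.1 hi)) hik
      have h3 : q1 ^ k * m / (q1 ^ i * d) = q1 ^ (k - i) * (m / d) := by
        apply Nat.div_eq_of_eq_mul_left (Nat.mul_pos (pow_pos hp1.pos i) hd0)
        have h4 : q1 ^ k = q1 ^ (k - i) * q1 ^ i := by
          rw [← pow_add, Nat.sub_add_cancel hik'.le]
        have h5 : m / d * d = m := Nat.div_mul_cancel hdm
        calc q1 ^ k * m = q1 ^ (k - i) * q1 ^ i * (m / d * d) := by rw [h5, h4]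
          _ = _ := by ring
      rw [h3, hzero _ (Dvd.dvd.mul_right (dvd_pow_self q1 (by omega)) _), zero_mul]
    · intro h0
      exact absurd (Finset.mem_range.2 (Nat.lt_succ_self k)) h0
  rw [hA, hB, Finset.mul_sum]

end CN94
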