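import Pool.Agent.Lib_CN94.Defs
import Pool.Agent.Lib_MP_94ab8c.CondInt

/-!
# Piece IDPOSA: the sign of the norm
-/

namespace CN94

open QP QuadraticAlgebra

variable {q1 q2 : ℕ} {e : ℤ}

/-- the sign, for any prime `p ≡ 3 mod 4` dividing the discriminant -/
theorem idposa_sign {p : ℕ} (hp : p.Prime) (hp4 : p % 4 = 3) (hD : (p : ℤ) ∣ 4 * e + 1) (β : R e)
    (n : ℕ) (hβ : |norm β| = n) (hn : ¬ p ∣ n) : norm β = jacobiSym n p * n := by
  have hpZ : Prime (p : ℤ) := Nat.prime_iff_prime_int.1 hp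
  have hodd : Odd p := by
    rw [Nat.odd_iff]; omega
  have hc2 : Int.gcd 2 p = 1 := by
    rw [Int.gcd_eq_natAbs]
    simpa using (Nat.coprime_two_left).2 hodd
  have hdvdN : ¬ (p : ℤ) ∣ norm β := by
    intro h
    rw [← dvd_abs, hβ] at h
    exact hn (Int.natCast_dvd_natCast.1 h)
  have hgcd : Int.gcd (tr β) p = 1 := by
    rw [Int.gcd_comm, Int.gcd_eq_natAbs, Int.natAbs_natCast]
    rw [← Nat.coprime_iff_gcd_eq_one, hp.coprime_iff_not_dvd]
    intro h
    have h1 : (p : ℤ) ∣ tr β := Int.natCast_dvd.2 h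
    have h2 : (p : ℤ) ∣ 4 * norm β := by
      rw [four_norm]
      exact dvd_sub (dvd_pow h1 two_ne_zero) (hD.mul_right _)
    rcases hpZ.dvd_or_dvd h2 with h3 | h3
    · have h4 : p ∣ 4 := by exact_mod_cast h3
      have h5 : p ≤ 4 := Nat.le_of_dvd (by norm_num) h4
      have h6 : p = 3 := by omega
      rw [h6] at h4
      omega
    · exact hdvdN h3
  have h1 : jacobiSym (4 * norm β) p = 1 := by
    have h2 : (4 * norm β) % (p : ℤ) = (tr β ^ 2) % (p : ℤ) := by
      have : 4 * norm β ≡ tr β ^ 2 [ZMOD p] := by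
        rw [Int.modEq_iff_dvd, four_norm]
        have e1 : tr β ^ 2 - (tr β ^ 2 - (4 * e + 1) * β.im ^ 2) = (4 * e + 1) * β.im ^ 2 := by ring
        rw [e1]
        exact hD.mul_right _
      exact this
    rw [jacobiSym.mod_left' h2]
    exact jacobiSym.sq_one' hgcd
  have h2 : jacobiSym (norm β) p = 1 := by
    rw [jacobiSym.mul_left] at h1
    have h3 : jacobiSym 4 p = 1 := by
      have := jacobiSym.sq_one' (a := 2) (b := p) hc2
      norm_num at this
      exact this
    rw [h3, one_mul] at h1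
    exact h1
  rcases abs_eq (Int.natCast_nonneg n) |>.1 hβ with h | h
  · rw [h] at h2 ⊢
    rw [h2, one_mul]
  · rw [h, jacobiSym.neg _ hodd, ZMod.χ₄_nat_three_mod_four hp4] at h2
    rw [h]
    have h3 : jacobiSym n p = -1 := by linarith
    rw [h3]
    ring

/-- the sign of the norm is determined by the absolute value.
PROOF: `4 norm β = tr² - D im²`, so `4 norm β ≡ tr² mod q1`, `norm β = s n`, `s = ±1`:
`jacobiSym (s n) q1 = 1`; `jacobiSym (-1) q1 = -1` as `q1 ≡ 3 mod 4`.  So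
`s = jacobiSym n q1`. -/
theorem sign_norm (h : Setting q1 q2) (he : 4 * e + 1 = q1 * q2) (β : R e) (n : ℕ)
    (hβ : |norm β| = n) (hn : ¬ q1 ∣ n) (hn0 : 0 < n) : norm β = jacobiSym n q1 * n := by
  exact idposa_sign h.prime1 h.mod1 (by rw [he]; exact dvd_mul_right _ _) β n hβ hn

/-- an element of norm `± q1`.
PROOF: `√D` (`re = -1, im = 2`, norm `-D`) and `QP.exists_factor`; the sign: `4 s q1 = tr² - D im²`,
modulo `q2`: `jacobiSym (s q1) q2 = 1` and `jacobiSym (-1) q2 = -1`. -/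
theorem exists_u (h : Setting q1 q2) (he : 4 * e + 1 = q1 * q2) [IsPrincipalIdealRing (R e)] :
    ∃ u : R e, norm u = jacobiSym q1 q2 * q1 ∧ u ∣ star u := by
  have hsq := not_sq h he
  have hdom : IsDomain (R e) := isDomain hsq
  have hp1 := h.prime1
  have hm1 := h.mod1
  have hlt := h.lt
  obtain ⟨δ, hδ⟩ : ∃ δ : R e, δ = ⟨-1, 2⟩ := ⟨_, rfl⟩
  have hδn : norm δ = -(q1 * q2 : ℤ) := by
    have h1 := four_norm δ
    rw [he, hδ] at h1
    simp only [tr] at h1
    rw [hδ]
    linarith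
  have hδs : star δ = -δ := by
    apply ext'
    · rw [tr_star, tr_neg, hδ]
      simp [tr]
    · rw [im_star, im_neg]
  have h1 : (q1 : ℤ) ∣ norm δ := by
    rw [hδn]
    exact (dvd_mul_right _ _).neg_right
  have h2 : ¬ (q1 : R e) ∣ δ := by
    rintro ⟨x, hx⟩
    have h3 := congrArg QuadraticAlgebra.im hx
    rw [hδ] at h3
    simp only [im_mul, im_natCast, re_natCast] at h3
    have h4 : (q1 : ℤ) ∣ 2 := ⟨x.im, by rw [h3]; ring⟩
    have h5 : q1 ∣ 2 := by exact_mod_cast h4
    have h6 := Nat.le_of_dvd (by norm_num) h5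
    omega
  obtain ⟨β, γ, hβγ, hβn⟩ := exists_factor hsq hp1 h1 h2
  refine ⟨β, ?_, ?_⟩
  · refine idposa_sign h.prime2 h.mod2 (by rw [he]; exact dvd_mul_left _ _) β q1 ?_ ?_
    · rw [Int.abs_eq_natAbs, hβn]
    · intro h3
      have := Nat.le_of_dvd hp1.pos h3
      omega
  · have hβp : Prime β := irreducible_iff_prime.1
      (norm_prime_irreducible β (by rw [hβn]; exact hp1))
    have h3 : β ∣ star β * star γ := by
      rw [mul_comm, ← star_mul, ← hβγ, hδs]
      exact (Dvd.intro γ hβγ.symm).neg_right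
    rcases hβp.dvd_or_dvd h3 with h4 | h4
    · exact h4
    · exfalso
      obtain ⟨w, hw⟩ := h4
      have h5 : norm γ = norm β * norm w := by
        rw [← map_mul, ← hw, QuadraticAlgebra.norm_star]
      have h6 : norm δ = norm β * norm γ := by rw [hβγ, map_mul]
      rw [hδn, h5] at h6
      have h7 := congrArg Int.natAbs h6
      rw [Int.natAbs_neg, Int.natAbs_mul, Int.natAbs_mul, Int.natAbs_mul, hβn, Int.natAbs_natCast,
        Int.natAbs_natCast] at h7
      have h8 : q2 = q1 * (norm w).natAbs := Nat.eq_of_mul_eq_mul_left hp1.pos h7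
      have h9 : q1 ∣ q2 := ⟨_, h8⟩
      rw [Nat.prime_dvd_prime_iff_eq hp1 h.prime2] at h9
      omega

end CN94
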