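import Pool.Agent.Lib_CN94.Defs
import Pool.Agent.Lib_MP_94ab8c.CondInt

/-!
# Piece IDRECB: the number of principal ideals of norm `p^k m`

`R e` is a principal ideal domain, `4 e + 1 = q1 q2` (setting of the problem).  `Id e n` is the set of
the ideals with a generator of norm `± n`.
-/

namespace CN94

open QP QuadraticAlgebra

variable {q1 q2 : ℕ} {e : ℤ}

private theorem exists_root (h : Setting q1 q2) {p : ℕ} (hp : p.Prime)
    (hJ : jacobiSym p (q1 * q2) = 1) : p ≠ 2 ∧ ¬ (p : ℤ) ∣ q1 * q2 ∧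
      ∃ b : ℤ, (b - 1) % 2 = 0 ∧ (p : ℤ) ∣ b ^ 2 - q1 * q2 := by
  have hmod := h.mod8
  have hodd : Odd (q1 * q2) := by
    rw [Nat.odd_iff]
    omega
  have hp2 : p ≠ 2 := by
    intro hp2
    rw [hp2] at hJ
    have h1 := jacobiSym.at_two hodd
    rw [ZMod.χ₈_nat_mod_eight, hmod] at h1
    have h2 : ZMod.χ₈ ((5 : ℕ) : ZMod 8) = -1 := by decide
    rw [h2] at h1
    rw [Nat.cast_ofNat, h1] at hJ
    norm_num at hJ
  have hpo : Odd p := hp.odd_of_ne_two hp2
  have : Fact p.Prime := ⟨hp⟩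
  have h1 : jacobiSym ((q1 * q2 : ℕ) : ℤ) p = 1 := by
    rw [jacobiSym.quadratic_reciprocity_one_mod_four (by omega) hpo]
    exact hJ
  rw [← jacobiSym.legendreSym.to_jacobiSym] at h1
  have h0 : (((q1 * q2 : ℕ) : ℤ) : ZMod p) ≠ 0 := by
    intro h0
    rw [(legendreSym.eq_zero_iff p _).mpr h0] at h1
    norm_num at h1
  have hsq := (legendreSym.eq_one_iff p h0).mp h1
  have hnd : ¬ (p : ℤ) ∣ q1 * q2 := by
    intro hd
    apply h0
    rw [ZMod.intCast_zmod_eq_zero_iff_dvd]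
    push_cast
    exact hd
  refine ⟨hp2, hnd, ?_⟩
  obtain ⟨r, hr⟩ := hsq
  have h2 : (p : ℤ) ∣ (r.val : ℤ) ^ 2 - q1 * q2 := by
    rw [← ZMod.intCast_zmod_eq_zero_iff_dvd]
    push_cast
    push_cast at hr
    rw [hr, ZMod.natCast_zmod_val]
    ring
  rcases Int.emod_two_eq_zero_or_one ((r.val : ℤ) - 1) with h3 | h3
  · exact ⟨r.val, h3, h2⟩
  · refine ⟨(r.val : ℤ) + p, ?_, ?_⟩
    · have := Nat.odd_iff.mp hpo
      omega
    · have : ((r.val : ℤ) + p) ^ 2 - q1 * q2 =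
          ((r.val : ℤ) ^ 2 - q1 * q2) + p * (2 * r.val + p) := by ring
      rw [this]
      exact dvd_add h2 (dvd_mul_right _ _)

private theorem add_star (z : R e) : z + star z = ((tr z : ℤ) : R e) := by
  ext
  · simp only [tr, re_add, re_star, re_intCast, Int.cast_id]
    ring
  · simp only [im_add, im_star, im_intCast]
    ring

private theorem exists_pi (h : Setting q1 q2) (he : 4 * e + 1 = q1 * q2)
    [IsPrincipalIdealRing (R e)] {p : ℕ} (hp : p.Prime) (hJ : jacobiSym p (q1 * q2) = 1) :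
    ∃ π : R e, (norm π).natAbs = p ∧ ¬ π ∣ star π := by
  have hns := not_sq h he
  obtain ⟨hp2, hnd, b, hb, hpb⟩ := exists_root h hp hJ
  have hpP : Prime (p : ℤ) := Nat.prime_iff_prime_int.mp hp
  have hp4 : ¬ (p : ℤ) ∣ 4 := by
    intro h4
    have h5 : (p : ℤ) ∣ 2 ^ 2 := by
      norm_num
      exact h4
    have h6 := hpP.dvd_of_dvd_pow h5
    have h7 : p ∣ 2 := by exact_mod_cast h6
    exact hp2 ((Nat.prime_dvd_prime_iff_eq hp Nat.prime_two).mp h7)
  obtain ⟨δ, hδ1, hδ2⟩ := exists_mk (e := e) b 1 hb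
  have h1 : (p : ℤ) ∣ norm δ := by
    have h2 := four_norm δ
    rw [hδ1, hδ2, he, one_pow, mul_one] at h2
    have h3 : (p : ℤ) ∣ 4 * norm δ := by
      rw [h2]
      exact hpb
    exact (hpP.dvd_or_dvd h3).resolve_left hp4
  have h2 : ¬ (p : R e) ∣ δ := by
    rintro ⟨w, hw⟩
    have h3 : δ.im = p * w.im := by
      rw [hw]
      simp
    rw [hδ2] at h3
    exact hpP.not_dvd_one ⟨_, h3⟩
  obtain ⟨π, γ, _, hπ⟩ := exists_factor hns hp h1 h2
  refine ⟨π, hπ, ?_⟩
  rintro ⟨c, hc⟩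
  have hdn : (p : ℤ) ∣ norm π := by
    rw [← Int.natAbs_dvd_natAbs, hπ]
    simp
  have h3 : ((tr π : ℤ) : R e) = π * (1 + c) := by
    rw [← add_star, hc]
    ring
  have h4 : (tr π) ^ 2 = norm π * norm (1 + c) := by
    have := congrArg QuadraticAlgebra.norm h3
    rw [map_mul, QuadraticAlgebra.norm_intCast] at this
    exact this
  have h5 : (p : ℤ) ∣ tr π := by
    refine hpP.dvd_of_dvd_pow (n := 2) ?_
    rw [h4]
    exact hdn.mul_right _
  have h6 := four_norm π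
  rw [he] at h6
  have h7 : (p : ℤ) ∣ π.im := by
    have h8 : (p : ℤ) ∣ (q1 * q2) * π.im ^ 2 := by
      have h9 : ((q1 : ℤ) * q2) * π.im ^ 2 = tr π ^ 2 - 4 * norm π := by linarith
      rw [h9]
      exact dvd_sub (dvd_pow h5 two_ne_zero) (hdn.mul_left _)
    exact hpP.dvd_of_dvd_pow ((hpP.dvd_or_dvd h8).resolve_left hnd)
  obtain ⟨x, hx⟩ := h5
  obtain ⟨y, hy⟩ := h7
  rw [hx, hy] at h6
  have h8 : (p : ℤ) * p ∣ 4 * norm π := ⟨x ^ 2 - q1 * q2 * y ^ 2, by rw [h6]; ring⟩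
  have hp0 : (p : ℤ) ≠ 0 := hpP.ne_zero
  rcases Int.natAbs_eq (norm π) with h9 | h9
  · rw [hπ] at h9
    rw [h9, mul_comm 4 (p : ℤ)] at h8
    exact hp4 ((mul_dvd_mul_iff_left hp0).mp h8)
  · rw [hπ] at h9
    rw [h9, mul_neg, dvd_neg, mul_comm 4 (p : ℤ)] at h8
    exact hp4 ((mul_dvd_mul_iff_left hp0).mp h8)

private theorem abs_norm_pi {π : R e} {p : ℕ} (hπ : (norm π).natAbs = p) : |norm π| = p := by
  rw [Int.abs_eq_natAbs, hπ]

private theorem abs_norm_star {π : R e} : |norm (star π)| = |norm π| := by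
  rw [QuadraticAlgebra.norm_star]

/-- decomposition of the elements of norm `± p^k m` -/
private theorem decomp {p : ℕ} (hp : p.Prime) {π : R e} (hπ : (norm π).natAbs = p)
    (hpi : Prime π) (m : ℤ) (k : ℕ) : ∀ β : R e, |norm β| = p ^ k * m →
      ∃ i ≤ k, ∃ γ : R e, |norm γ| = m ∧ β = π ^ i * star π ^ (k - i) * γ := by
  have hp0 : (p : ℤ) ≠ 0 := by exact_mod_cast hp.ne_zero
  induction k with
  | zero =>
    intro β hβ
    rw [pow_zero, one_mul] at hβ
    exact ⟨0, le_rfl, β, hβ, by simp⟩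
  | succ k ih =>
    intro β hβ
    have h1 : π ∣ β * star β := by
      rw [mul_star_self]
      have h2 : (p : ℤ) ∣ norm β := by
        rw [← dvd_abs, hβ, pow_succ]
        exact ((dvd_mul_left _ _).mul_right _)
      have h3 : norm π ∣ norm β := by
        rcases Int.natAbs_eq (norm π) with h9 | h9
        · rw [h9, hπ]
          exact h2
        · rw [h9, hπ, neg_dvd]
          exact h2
      obtain ⟨c, hc⟩ := h3
      rw [hc]
      push_cast
      rw [← mul_star_self, mul_assoc]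
      exact dvd_mul_right _ _
    have hred : ∀ ρ γ : R e, |norm ρ| = p → β = ρ * γ → |norm γ| = p ^ k * m := by
      intro ρ γ hρ hβγ
      rw [hβγ, map_mul, abs_mul, hρ, pow_succ] at hβ
      have h4 : (p : ℤ) * |norm γ| = p * (p ^ k * m) := by
        rw [hβ]
        ring
      exact mul_left_cancel₀ hp0 h4
    rcases hpi.dvd_or_dvd h1 with h2 | h2
    · obtain ⟨γ, hγ⟩ := h2
      obtain ⟨i, hi, γ', hγ', e'⟩ := ih γ (hred π γ (abs_norm_pi hπ) hγ)
      refine ⟨i + 1, by omega, γ', hγ', ?_⟩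
      rw [hγ, e', Nat.add_sub_add_right, pow_succ]
      ring
    · obtain ⟨c, hc⟩ := h2
      have hβ' : β = star π * star c := by
        have := congrArg star hc
        rw [star_star, star_mul, mul_comm] at this
        exact this
      obtain ⟨i, hi, γ', hγ', e'⟩ := ih (star c)
        (hred (star π) (star c) (abs_norm_star.trans (abs_norm_pi hπ)) hβ')
      refine ⟨i, by omega, γ', hγ', ?_⟩
      rw [hβ', e', Nat.succ_sub hi, pow_succ]
      ring

/-- `p` split.
PROOF: `p` is odd (`jacobiSym 2 (q1 q2) = -1` as `q1 q2 ≡ 5 mod 8`), `jacobiSym (q1 q2) p = 1`, so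
`b² ≡ D mod p` with `b` odd; `δ = (b + √D)/2` (`tr δ = b`, `im δ = 1`) has norm divisible by `p` and
is not divisible by `p`; `QP.exists_factor` gives `π` with `norm π = ± p`, it is prime.  `π` does not
divide `π' = star π`: otherwise `π ∣ tr π`, so `p ∣ (tr π)²`, `p ∣ tr π`, and
`± 4 p = (tr π)² - D (im π)²` gives `p ∣ im π` and `p² ∣ 4 p`.  Every `β` with
`norm β = ± p^k m`, `p ∤ m`, is `π^i π'^j γ` with `π, π' ∤ γ`, and then `p ∤ norm γ` (`p = ± π π'`
divides `γ γ'` would give `π ∣ γ` or `π ∣ γ'`, i.e. `π' ∣ γ`), `i + j = k`, `norm γ = ± m`.  So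
`(i, (γ)) ↦ (π^i π'^(k-i) γ)` is a bijection `Fin (k+1) × Id e m ≃ Id e (p^k m)`; injectivity: `i`
is the multiplicity of the prime `π`. -/
theorem card_split (h : Setting q1 q2) (he : 4 * e + 1 = q1 * q2) [IsPrincipalIdealRing (R e)]
    {p : ℕ} (hp : p.Prime) (hJ : jacobiSym p (q1 * q2) = 1) (k m : ℕ) (hm : 0 < m)
    (hpm : ¬ p ∣ m) :
    Nat.card (Id e (p ^ k * m)) = (k + 1) * Nat.card (Id e m) := by
  have hns := not_sq h he
  have : IsDomain (R e) := isDomain hns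
  obtain ⟨π, hπ, hnd⟩ := exists_pi h he hp hJ
  have hpi : Prime π := irreducible_iff_prime.1 (norm_prime_irreducible π (by rw [hπ]; exact hp))
  have hπ' : (norm (star π)).natAbs = p := by rw [QuadraticAlgebra.norm_star, hπ]
  have hpi' : Prime (star π) :=
    irreducible_iff_prime.1 (norm_prime_irreducible _ (by rw [hπ']; exact hp))
  have hpow : ∀ i ≤ k, |norm (π ^ i * star π ^ (k - i))| = (p : ℤ) ^ k := by
    intro i hi
    rw [map_mul, map_pow, map_pow, abs_mul, abs_pow, abs_pow, abs_norm_pi hπ, abs_norm_pi hπ',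
      ← pow_add]
    congr 1
    omega
  have hnot : ∀ β : R e, |norm β| = m → ¬ π ∣ β := by
    rintro β hβ ⟨c, hc⟩
    apply hpm
    have h1 : (p : ℤ) ∣ m := by
      rw [← hβ, hc, map_mul, abs_mul, abs_norm_pi hπ]
      exact dvd_mul_right _ _
    exact_mod_cast h1
  have hmul : ∀ i ≤ k, ∀ j ≤ k, ∀ β γ : R e, |norm β| = m →
      Associated (π ^ i * star π ^ (k - i) * β) (π ^ j * star π ^ (k - j) * γ) → j ≤ i := by
    intro i hi j hj β γ hβ ha
    by_contra hij
    push Not at hij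
    have h1 : π ^ (i + 1) ∣ π ^ i * star π ^ (k - i) * β := by
      refine (dvd_trans ?_ ha.symm.dvd)
      exact (((pow_dvd_pow π hij).mul_right _).mul_right _)
    rw [pow_succ, mul_assoc] at h1
    have h2 : π ∣ star π ^ (k - i) * β :=
      (mul_dvd_mul_iff_left (pow_ne_zero i hpi.ne_zero)).mp h1
    rcases hpi.dvd_or_dvd h2 with h3 | h3
    · exact hnd (hpi.dvd_of_dvd_pow h3)
    · exact hnot β hβ h3
  let F : Fin (k + 1) × Id e m → Id e (p ^ k * m) := fun x =>
    ⟨Ideal.span {π ^ x.1.1 * star π ^ (k - x.1.1)} * x.2.1, by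
      obtain ⟨β, hβ, hI⟩ := x.2.2
      refine ⟨π ^ x.1.1 * star π ^ (k - x.1.1) * β, ?_, ?_⟩
      · rw [map_mul, abs_mul, hβ, hpow _ (Nat.lt_succ_iff.mp x.1.2)]
      · rw [hI, Ideal.span_singleton_mul_span_singleton]⟩
  have hF : Function.Bijective F := by
    constructor
    · rintro ⟨i, I, β, hβ, rfl⟩ ⟨j, J, γ, hγ, rfl⟩ hxy
      have h1 : Ideal.span {π ^ i.1 * star π ^ (k - i.1)} * Ideal.span {β} =
          Ideal.span {π ^ j.1 * star π ^ (k - j.1)} * Ideal.span {γ} := congrArg Subtype.val hxy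
      rw [Ideal.span_singleton_mul_span_singleton, Ideal.span_singleton_mul_span_singleton,
        Ideal.span_singleton_eq_span_singleton] at h1
      have hij : i = j := Fin.ext (le_antisymm
        (hmul j.1 (Nat.lt_succ_iff.mp j.2) i.1 (Nat.lt_succ_iff.mp i.2) γ β hγ h1.symm)
        (hmul i.1 (Nat.lt_succ_iff.mp i.2) j.1 (Nat.lt_succ_iff.mp j.2) β γ hβ h1))
      subst hij
      have h2 : Associated β γ := h1.of_mul_left (Associated.refl _)
        (mul_ne_zero (pow_ne_zero _ hpi.ne_zero) (pow_ne_zero _ hpi'.ne_zero))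
      refine Prod.ext rfl (Subtype.ext ?_)
      exact Ideal.span_singleton_eq_span_singleton.mpr h2
    · rintro ⟨I, β, hβ, rfl⟩
      obtain ⟨i, hi, γ, hγ, e'⟩ := decomp hp hπ hpi m k β hβ
      refine ⟨(⟨i, Nat.lt_succ_iff.mpr hi⟩, ⟨Ideal.span {γ}, γ, hγ, rfl⟩), Subtype.ext ?_⟩
      show Ideal.span {π ^ i * star π ^ (k - i)} * Ideal.span {γ} = Ideal.span {β}
      rw [Ideal.span_singleton_mul_span_singleton, e']
  rw [← Nat.card_congr (Equiv.ofBijective F hF), Nat.card_prod, Nat.card_fin]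

end CN94
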