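import Pool.Agent.Lib_CN94.Defs
import Pool.Agent.Lib_MP_94ab8c.CondInt

/-!
# Piece IDRECC: the number of principal ideals of norm `p^k m`

`R e` is a principal ideal domain, `4 e + 1 = q1 q2` (setting of the problem).  `Id e n` is the set of
the ideals with a generator of norm `± n`.
-/

namespace CN94

open QP QuadraticAlgebra

variable {q1 q2 : ℕ} {e : ℤ}

private theorem idrc_pi (h : Setting q1 q2) (he : 4 * e + 1 = q1 * q2)
    [IsPrincipalIdealRing (R e)] {p : ℕ} (hp : p = q1 ∨ p = q2) :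
    ∃ π : R e, |norm π| = p ∧ ∀ β : R e, (p : ℤ) ∣ norm β → π ∣ β := by
  have hsq : ¬ IsSquare (4 * e + 1) := not_sq h he
  have hD : IsDomain (R e) := isDomain hsq
  have hpp : p.Prime := by
    rcases hp with rfl | rfl
    · exact h.prime1
    · exact h.prime2
  have hpD : (p : ℤ) ∣ 4 * e + 1 := by
    rw [he]
    rcases hp with rfl | rfl
    · exact dvd_mul_right _ _
    · exact dvd_mul_left _ _
  have hpi : Prime (p : ℤ) := Nat.prime_iff_prime_int.1 hpp
  let δ : R e := ⟨-1, 2⟩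
  have hδn : norm δ = -(4 * e + 1) := by
    rw [norm_def]
    simp only [δ]
    ring
  have hδ1 : (p : ℤ) ∣ norm δ := by
    rw [hδn]
    exact hpD.neg_right
  have hδ2 : ¬ (p : R e) ∣ δ := by
    rintro ⟨z, hz⟩
    have h1 := congrArg QuadraticAlgebra.re hz
    rw [re_mul, re_natCast, im_natCast] at h1
    have h2 : (p : ℤ) ∣ 1 := ⟨-z.re, by
      have h3 : (-1 : ℤ) = (p : ℤ) * z.re := by
        simpa [δ] using h1
      linarith⟩
    exact hpi.not_isUnit (isUnit_of_dvd_one h2)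
  obtain ⟨π, γ, -, hπn⟩ := exists_factor hsq hpp hδ1 hδ2
  have hπp : Prime π := irreducible_iff_prime.1
    (norm_prime_irreducible π (by rw [hπn]; exact hpp))
  have habs : |norm π| = p := by
    rw [Int.abs_eq_natAbs, hπn]
  have hpn : (p : ℤ) ∣ norm π := by
    rw [← habs]
    exact (abs_dvd _ _).2 dvd_rfl
  have htr : (p : ℤ) ∣ tr π := by
    have h1 := four_norm π
    have h2 : tr π ^ 2 = 4 * norm π + (4 * e + 1) * π.im ^ 2 := by linarith
    apply hpi.dvd_of_dvd_pow (n := 2)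
    rw [h2]
    exact dvd_add (hpn.mul_left _) (hpD.mul_right _)
  have hπdp : ∀ c : ℤ, (p : ℤ) ∣ c → π ∣ (c : R e) := by
    rintro c ⟨d, rfl⟩
    have h1 : π ∣ ((norm π : ℤ) : R e) := ⟨star π, (mul_star_self π).symm⟩
    have h2 : π ∣ ((|norm π| : ℤ) : R e) := by
      rcases abs_choice (norm π) with h3 | h3
      · rw [h3]; exact h1
      · rw [h3, Int.cast_neg]; exact h1.neg_right
    rw [habs] at h2
    rw [Int.cast_mul]
    exact h2.mul_right _
  have hstar : π ∣ star π := by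
    have h1 : star π = ((tr π : ℤ) : R e) - π := by
      ext
      · simp only [re_star, re_sub, re_intCast, tr]
        simp
        ring
      · simp only [im_star, im_sub, im_intCast]
        simp
    rw [h1]
    exact dvd_sub (hπdp _ htr) dvd_rfl
  refine ⟨π, habs, fun β hβ => ?_⟩
  have h1 : π ∣ β * star β := by
    rw [mul_star_self]
    exact hπdp _ hβ
  rcases hπp.dvd_or_dvd h1 with h2 | h2
  · exact h2
  · obtain ⟨c, hc⟩ := h2
    have h3 := congrArg star hc
    rw [star_star, star_mul, mul_comm] at h3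
    rw [h3]
    exact hstar.mul_right _

private theorem idrc_pow {p : ℕ} (hp : 0 < p) {π : R e} (hπ : |norm π| = p)
    (hdvd : ∀ β : R e, (p : ℤ) ∣ norm β → π ∣ β) (k : ℕ) : ∀ (m : ℕ) (β : R e),
    |norm β| = (p : ℤ) ^ k * m → ∃ γ : R e, β = π ^ k * γ ∧ |norm γ| = m := by
  induction k with
  | zero =>
    intro m β hβ
    exact ⟨β, by rw [pow_zero, one_mul], by rw [hβ, pow_zero, one_mul]⟩
  | succ k ih =>
    intro m β hβ
    have h1 : (p : ℤ) ∣ norm β := by
      rw [← dvd_abs, hβ, pow_succ', mul_assoc]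
      exact dvd_mul_right _ _
    obtain ⟨β', rfl⟩ := hdvd β h1
    have h2 : |norm β'| = (p : ℤ) ^ k * m := by
      rw [map_mul, abs_mul, hπ, pow_succ', mul_assoc] at hβ
      exact mul_left_cancel₀ (by exact_mod_cast hp.ne') hβ
    obtain ⟨γ, rfl, hγ⟩ := ih m β' h2
    exact ⟨γ, by rw [pow_succ', mul_assoc], hγ⟩

/-- `p` ramified, i.e. `p = q1` or `p = q2`.
PROOF: `δ = √D` (`re = -1, im = 2`) has norm `-D` divisible by `p` and is not divisible by `p`;
`QP.exists_factor` gives `π`, `norm π = ± p`, prime; `± 4 p = (tr π)² - D (im π)²` shows `p ∣ tr π`,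
so `π ∣ star π` (`star π = tr π - π`).  Hence every `β` with `norm β = ± p^k m` is `π^k γ` with
`norm γ = ± m`; bijection `Id e m ≃ Id e (p^k m)`, `(γ) ↦ (π^k γ)`. -/
theorem card_ramified (h : Setting q1 q2) (he : 4 * e + 1 = q1 * q2) [IsPrincipalIdealRing (R e)]
    {p : ℕ} (hp : p = q1 ∨ p = q2) (k m : ℕ) (hm : 0 < m) (hpm : ¬ p ∣ m) :
    Nat.card (Id e (p ^ k * m)) = Nat.card (Id e m) := by
  have hsq : ¬ IsSquare (4 * e + 1) := not_sq h he
  have hD : IsDomain (R e) := isDomain hsq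
  have hpp : 0 < p := by
    rcases hp with rfl | rfl
    · exact h.prime1.pos
    · exact h.prime2.pos
  obtain ⟨π, hπ, hdvd⟩ := idrc_pi h he hp
  have hπ0 : π ≠ 0 := by
    rintro rfl
    have h0 : norm (0 : R e) = 0 := by simp [norm_def]
    rw [h0, abs_zero] at hπ
    exact hpp.ne (by exact_mod_cast hπ)
  symm
  refine Nat.card_congr (Equiv.ofBijective
    (fun I : Id e m => (⟨Ideal.span {π ^ k} * I.1, ?_⟩ : Id e (p ^ k * m))) ⟨?_, ?_⟩)
  · obtain ⟨γ, hγ, hI⟩ := I.2
    refine ⟨π ^ k * γ, ?_, ?_⟩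
    · rw [map_mul, map_pow, abs_mul, abs_pow, hπ, hγ]
    · rw [hI, Ideal.span_singleton_mul_span_singleton]
  · intro I J hIJ
    have h1 := congrArg Subtype.val hIJ
    exact Subtype.ext (Ideal.span_singleton_mul_right_injective (pow_ne_zero k hπ0) h1)
  · rintro ⟨J, β, hβ, rfl⟩
    obtain ⟨γ, rfl, hγ⟩ := idrc_pow hpp hπ hdvd k m β hβ
    refine ⟨⟨Ideal.span {γ}, γ, hγ, rfl⟩, Subtype.ext ?_⟩
    exact Ideal.span_singleton_mul_span_singleton _ _

end CN94
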