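import Pool.Agent.Lib_CN94.IdRecA
import Pool.Agent.Lib_CN94.IdRecB
import Pool.Agent.Lib_CN94.IdRecC

/-!
# The number of principal ideals of norm `p^k m` (collects the three pieces)
-/
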