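import Pool.Agent.Lib_CN94.Defs
import Pool.Agent.Lib_MP_94ab8c.CondInt

/-!
# Piece IDRECA: the number of principal ideals of norm `p^k m`

`R e` is a principal ideal domain, `4 e + 1 = q1 q2` (setting of the problem).  `Id e n` is the set of
the ideals with a generator of norm `± n`.
-/

namespace CN94

open QP QuadraticAlgebra

variable {q1 q2 : ℕ} {e : ℤ}

/-- PROOF: `I = (β)`, `|norm β| = 1` iff `β` is a unit iff `I = ⊤`. -/
theorem card_id_one : Nat.card (Id e 1) = 1 := by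
  have h1 : Id e 1 = {⊤} := by
    ext I
    constructor
    · rintro ⟨β, hβ, rfl⟩
      rw [Set.mem_singleton_iff, Ideal.span_singleton_eq_top, isUnit_iff_norm_isUnit,
        Int.isUnit_iff_natAbs_eq]
      rw [Int.abs_eq_natAbs] at hβ
      exact_mod_cast hβ
    · intro h
      rw [Set.mem_singleton_iff] at h
      refine ⟨1, by simp, ?_⟩
      rw [h, Ideal.span_singleton_one]
  rw [h1]
  simp

theorem idreca_no_norm (h : Setting q1 q2) (he : 4 * e + 1 = q1 * q2)
    {p : ℕ} (hp : p.Prime) (hJ : jacobiSym p (q1 * q2) = -1) (β : R e) :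
    (norm β).natAbs ≠ p := by
  intro hβ
  have h4 := four_norm β
  rw [he] at h4
  obtain ⟨t, ht⟩ : ∃ t, t = tr β := ⟨_, rfl⟩
  obtain ⟨u, hu⟩ : ∃ u, u = β.im := ⟨_, rfl⟩
  rw [← ht, ← hu] at h4
  have hn : norm β = p ∨ norm β = -p := by omega
  have hpar := tr_parity β
  rw [← ht, ← hu] at hpar
  have hm8 : ((q1 : ℤ) * q2) % 8 = 5 := by
    have := h.mod8
    exact_mod_cast this
  obtain ⟨D, hD⟩ : ∃ D : ℤ, D = (q1 : ℤ) * q2 := ⟨_, rfl⟩
  rw [← hD] at h4 hm8
  rcases hp.eq_two_or_odd with h2 | h2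
  · subst h2
    have h8 : (t ^ 2 - D * u ^ 2) = 8 ∨ (t ^ 2 - D * u ^ 2) = -8 := by
      rcases hn with hn | hn
      · left; rw [← h4, hn]; norm_num
      · right; rw [← h4, hn]; norm_num
    rcases Int.emod_two_eq_zero_or_one u with hu2 | hu2
    · have ht2 : t % 2 = 0 := by omega
      obtain ⟨u', hu'⟩ := Int.dvd_of_emod_eq_zero hu2
      obtain ⟨t', ht'⟩ := Int.dvd_of_emod_eq_zero ht2
      have h9 : t' ^ 2 - D * u' ^ 2 = 2 ∨ t' ^ 2 - D * u' ^ 2 = -2 := by
        rw [ht', hu'] at h8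
        rcases h8 with h8 | h8
        · left; nlinarith
        · right; nlinarith
      obtain ⟨D', hD'⟩ : ∃ D', D = 4 * D' + 1 := ⟨D / 4, by omega⟩
      have h10 : (t' ^ 2 - u' ^ 2) % 4 = 2 := by
        have : t' ^ 2 - D * u' ^ 2 = (t' ^ 2 - u' ^ 2) - 4 * (D' * u' ^ 2) := by
          rw [hD']; ring
        rw [this] at h9
        omega
      have e1 : t' ^ 2 % 4 = 0 ∨ t' ^ 2 % 4 = 1 := by
        rcases Int.emod_two_eq_zero_or_one t' with h | h
        · left
          obtain ⟨k, hk⟩ := Int.dvd_of_emod_eq_zero h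
          rw [hk, mul_pow]
          omega
        · right
          obtain ⟨k, hk⟩ : ∃ k, t' = 2 * k + 1 := ⟨t' / 2, by omega⟩
          have : t' ^ 2 = 4 * (k ^ 2 + k) + 1 := by rw [hk]; ring
          omega
      have e2 : u' ^ 2 % 4 = 0 ∨ u' ^ 2 % 4 = 1 := by
        rcases Int.emod_two_eq_zero_or_one u' with h | h
        · left
          obtain ⟨k, hk⟩ := Int.dvd_of_emod_eq_zero h
          rw [hk, mul_pow]
          omega
        · right
          obtain ⟨k, hk⟩ : ∃ k, u' = 2 * k + 1 := ⟨u' / 2, by omega⟩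
          have : u' ^ 2 = 4 * (k ^ 2 + k) + 1 := by rw [hk]; ring
          omega
      omega
    · have ht2 : t % 2 = 1 := by omega
      have sq8 : ∀ x : ℤ, x % 2 = 1 → ∃ k, x ^ 2 = 8 * k + 1 := by
        intro x hx
        obtain ⟨k, hk⟩ : ∃ k, x = 2 * k + 1 := ⟨x / 2, by omega⟩
        obtain ⟨l, hl⟩ : ∃ l, k * (k + 1) = 2 * l := by
          have := Int.even_mul_succ_self k
          obtain ⟨l, hl⟩ := this
          exact ⟨l, by rw [hl]; ring⟩
        exact ⟨l, by rw [hk]; linear_combination 4 * hl⟩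
      obtain ⟨a, ha⟩ := sq8 t ht2
      obtain ⟨b, hb⟩ := sq8 u hu2
      obtain ⟨D', hD'⟩ : ∃ D', D = 8 * D' + 5 := ⟨D / 8, by omega⟩
      have : t ^ 2 - D * u ^ 2 = 8 * (a - 8 * D' * b - D' - 5 * b) - 4 := by
        rw [ha, hb, hD']; ring
      omega
  · -- `p` odd
    have hp1 : Fact p.Prime := ⟨hp⟩
    have hp0 : (p : ℤ) ≠ 0 := by exact_mod_cast hp.ne_zero
    have hpP : Prime (p : ℤ) := Nat.prime_iff_prime_int.1 hp
    have h5 : (p : ℤ) ∣ t ^ 2 - D * u ^ 2 := by
      rw [← h4]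
      rcases hn with hn | hn
      · rw [hn]; exact dvd_mul_left _ _
      · rw [hn, mul_neg]; exact (dvd_mul_left _ _).neg_right
    have hpu : ¬ (p : ℤ) ∣ u := by
      intro hpu
      have h6 : (p : ℤ) ∣ t := by
        have : (p : ℤ) ∣ t ^ 2 := by
          have h7 : (p : ℤ) ∣ D * u ^ 2 := (hpu.pow two_ne_zero).mul_left _
          have := dvd_add h5 h7
          rwa [sub_add_cancel] at this
        exact hpP.dvd_of_dvd_pow this
      obtain ⟨a, ha⟩ := h6
      obtain ⟨b, hb⟩ := hpu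
      have h7 : (p : ℤ) * (p * (a ^ 2 - D * b ^ 2)) = p * 4 ∨
          (p : ℤ) * (p * (a ^ 2 - D * b ^ 2)) = p * (-4) := by
        rw [ha, hb] at h4
        rcases hn with hn | hn
        · left; rw [hn] at h4; linear_combination -h4
        · right; rw [hn] at h4; linear_combination -h4
      have h8 : (p : ℤ) ∣ 4 := by
        rcases h7 with h7 | h7
        · exact ⟨_, (mul_left_cancel₀ hp0 h7).symm⟩
        · have := mul_left_cancel₀ hp0 h7
          exact ⟨-(a ^ 2 - D * b ^ 2), by linarith⟩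
      have h9 : p ∣ 4 := by exact_mod_cast h8
      have h10 : p ∣ 2 := hp.dvd_of_dvd_pow (show p ∣ 2 ^ 2 by exact h9)
      have := Nat.le_of_dvd two_pos h10
      have := hp.two_le
      omega
    -- `D` is a square modulo `p`
    have h6 : IsSquare ((D : ℤ) : ZMod p) := by
      have h7 : ((t ^ 2 - D * u ^ 2 : ℤ) : ZMod p) = 0 := (ZMod.intCast_zmod_eq_zero_iff_dvd _ _).2 h5
      have hu0 : ((u : ℤ) : ZMod p) ≠ 0 := fun h0 =>
        hpu ((ZMod.intCast_zmod_eq_zero_iff_dvd _ _).1 h0)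
      refine ⟨(t : ZMod p) / (u : ZMod p), ?_⟩
      push_cast at h7
      field_simp
      linear_combination -h7
    have h7 : jacobiSym (((q1 * q2 : ℕ) : ℤ)) p = -1 := by
      have h8 := jacobiSym.quadratic_reciprocity_one_mod_four (a := q1 * q2) (b := p)
        (by have := h.mod8; omega) (Nat.odd_iff.2 h2)
      rw [h8]
      exact hJ
    have h8 : jacobiSym (((q1 * q2 : ℕ) : ℤ)) p = legendreSym p ((q1 * q2 : ℕ) : ℤ) :=
      (jacobiSym.legendreSym.to_jacobiSym p _).symm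
    rw [h8, legendreSym.eq_neg_one_iff] at h7
    apply h7
    rw [hD] at h6
    push_cast at h6 ⊢
    exact h6

/-- `p` inert: every `β` with `p ∣ norm β` is divisible by `p`.
PROOF: otherwise `QP.exists_factor` gives `β'` with `norm β' = ± p`, so
`± 4 p = t² - D u²` (`QP.four_norm`, `D = q1 q2`).  If `p = 2`: `D ≡ 5 mod 8`; `t, u` odd gives
`t² - D u² ≡ 4 mod 8`, `t, u` even gives `± 2 = t'² - D u'²`, impossible modulo `4`.  If `p` is odd:
if `p ∣ u` then `p ∣ t` and `p² ∣ 4 p`, impossible; so `D` is a square modulo `p`, hence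
`jacobiSym D p ≠ -1`, but `jacobiSym p (q1 q2) = jacobiSym (q1 q2) p` (`D ≡ 1 mod 4`,
`jacobiSym.quadratic_reciprocity_one_mod_four`), contradiction. -/
theorem inert_dvd (h : Setting q1 q2) (he : 4 * e + 1 = q1 * q2) [IsPrincipalIdealRing (R e)]
    {p : ℕ} (hp : p.Prime) (hJ : jacobiSym p (q1 * q2) = -1) (β : R e) (hβ : (p : ℤ) ∣ norm β) :
    ((p : ℤ) : R e) ∣ β := by
  by_contra hcon
  have hcon' : ¬ (p : R e) ∣ β := by
    intro h1
    apply hcon
    rwa [Int.cast_natCast]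
  obtain ⟨β', γ, -, hN⟩ := exists_factor (not_sq h he) hp hβ hcon'
  exact idreca_no_norm h he hp hJ β' hN

theorem idreca_norm_p (p : ℕ) (γ : R e) : norm ((p : R e) * γ) = (p : ℤ) ^ 2 * norm γ := by
  rw [map_mul, QuadraticAlgebra.norm_natCast]

theorem idreca_step (h : Setting q1 q2) (he : 4 * e + 1 = q1 * q2) [IsPrincipalIdealRing (R e)]
    {p : ℕ} (hp : p.Prime) (hJ : jacobiSym p (q1 * q2) = -1) (n : ℤ) :
    Nat.card (Id e ((p : ℤ) ^ 2 * n)) = Nat.card (Id e n) := by
  have hD : IsDomain (R e) := isDomain (not_sq h he)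
  have hp0 : (p : ℤ) ≠ 0 := by exact_mod_cast hp.ne_zero
  have hpR : (p : R e) ≠ 0 := by
    intro h0
    have := QuadraticAlgebra.norm_natCast (a := e) (b := 1) p
    rw [h0] at this
    exact hp0 (by simpa using this.symm)
  have hmem : ∀ I : Id e n, Ideal.span {(p : R e)} * (I : Ideal (R e)) ∈ Id e ((p : ℤ) ^ 2 * n) := by
    rintro ⟨I, γ, hγ, rfl⟩
    refine ⟨(p : R e) * γ, ?_, ?_⟩
    · rw [idreca_norm_p, abs_mul, hγ, abs_of_nonneg (by positivity)]
    · rw [Ideal.span_singleton_mul_span_singleton]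
  symm
  refine Nat.card_congr (Equiv.ofBijective
    (fun I : Id e n => (⟨_, hmem I⟩ : Id e ((p : ℤ) ^ 2 * n))) ⟨?_, ?_⟩)
  · intro I J hIJ
    have h1 := congrArg Subtype.val hIJ
    exact Subtype.ext ((Ideal.span_singleton_mul_right_inj hpR).1 h1)
  · rintro ⟨I, β, hβ, rfl⟩
    have h1 : (p : ℤ) ∣ norm β := by
      rw [← dvd_abs, hβ]
      exact (dvd_pow_self _ two_ne_zero).mul_right _
    obtain ⟨γ, hγ⟩ := inert_dvd h he hp hJ β h1
    rw [Int.cast_natCast] at hγ
    have h2 : |norm γ| = n := by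
      rw [hγ, idreca_norm_p, abs_mul, abs_of_nonneg (by positivity)] at hβ
      exact mul_left_cancel₀ (pow_ne_zero 2 hp0) hβ
    refine ⟨⟨Ideal.span {γ}, γ, h2, rfl⟩, ?_⟩
    apply Subtype.ext
    show Ideal.span {(p : R e)} * Ideal.span {γ} = Ideal.span {β}
    rw [Ideal.span_singleton_mul_span_singleton, hγ]

/-- PROOF: `β ↦ p^(k/2) β` gives a bijection (repeated `inert_dvd`: `norm β = ± p^k m` forces `k`
even and `p^(k/2) ∣ β`, as `p ∤ m`). -/
theorem card_inert (h : Setting q1 q2) (he : 4 * e + 1 = q1 * q2) [IsPrincipalIdealRing (R e)]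
    {p : ℕ} (hp : p.Prime) (hJ : jacobiSym p (q1 * q2) = -1) (k m : ℕ) (hm : 0 < m)
    (hpm : ¬ p ∣ m) :
    Nat.card (Id e (p ^ k * m)) = if Even k then Nat.card (Id e m) else 0 := by
  have hp0 : (p : ℤ) ≠ 0 := by exact_mod_cast hp.ne_zero
  induction k using Nat.twoStepInduction with
  | zero =>
    rw [if_pos (by decide), pow_zero, one_mul]
  | one =>
    rw [if_neg (by decide), pow_one]
    have h1 : Id e ((p : ℤ) * m) = ∅ := by
      ext I
      simp only [Set.mem_empty_iff_false, iff_false]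
      rintro ⟨β, hβ, rfl⟩
      have h1 : (p : ℤ) ∣ norm β := by
        rw [← dvd_abs, hβ]
        exact dvd_mul_right _ _
      obtain ⟨γ, hγ⟩ := inert_dvd h he hp hJ β h1
      rw [Int.cast_natCast] at hγ
      rw [hγ, idreca_norm_p, abs_mul, abs_of_nonneg (by positivity), sq, mul_assoc] at hβ
      have h2 := mul_left_cancel₀ hp0 hβ
      apply hpm
      have h3 : (p : ℤ) ∣ m := ⟨_, h2.symm⟩
      exact_mod_cast h3
    rw [h1]
    simp
  | more k ih _ =>
    have h1 : ((p : ℤ) ^ (k + 2) * m) = (p : ℤ) ^ 2 * ((p : ℤ) ^ k * m) := by ring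
    rw [h1, idreca_step h he hp hJ, ih]
    congr 1
    simp [Nat.even_add]

end CN94
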