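import Mathlib.Data.Nat.Basic

/-!
# Programs for the kernel

Everything is written with the binary functions `Nat.add`, `Nat.mul`, ... (which the kernel
evaluates with big numbers) and with `Nat.rec`.  A table of natural numbers `g l < 2 ^ w`, `l < n`,
is stored as the single number `∑ g l * 2 ^ (w * l)`.
-/

namespace CN94.K

/-- `∑_{i<n} f i` -/
def sm (n : ℕ) (f : ℕ → ℕ) : ℕ :=
  Nat.rec (motive := fun _ => ℕ) 0 (fun i acc => Nat.add acc (f i)) n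

/-- `f x`, evaluates `x` first -/
def fc {α : Type} (x : ℕ) (f : ℕ → α) : α :=
  Nat.rec (motive := fun _ => α) (f 0) (fun i _ => f (Nat.succ i)) x

/-- `∑_{i<n} f i * 2 ^ (w i)` -/
def pk (w n : ℕ) (f : ℕ → ℕ) : ℕ :=
  Nat.rec (motive := fun _ => ℕ) 0
    (fun i acc => Nat.add acc (Nat.shiftLeft (f i) (Nat.mul w i))) n

/-- look up in a table with digits of four bits -/
def lk (t i : ℕ) : ℕ := Nat.land (Nat.shiftRight t (Nat.mul 4 i)) 15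

/-- look up in a table with digits of 48 bits -/
def dg (T i : ℕ) : ℕ := Nat.land (Nat.shiftRight T (Nat.mul 48 i)) 281474976710655

/-- `∀ i < n, p i` -/
noncomputable def al (n : ℕ) (p : ℕ → Bool) : Bool :=
  Nat.rec (motive := fun _ => Bool) true
    (fun i acc => Bool.rec (motive := fun _ => Bool) false acc (p i)) n

/-- `p → t` -/
noncomputable def im (p t : Bool) : Bool := Bool.rec (motive := fun _ => Bool) true t p

/-- `p ∧ t` -/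
noncomputable def an (p t : Bool) : Bool := Bool.rec (motive := fun _ => Bool) false t p

/-- even modulus `q = 2 h`, row -/
def rowe (w q h t c y : ℕ) : ℕ :=
  pk w h fun v => lk t (Nat.mod (Nat.add c (Nat.mul (Nat.add (Nat.mul 2 v) 1) (Nat.mul y y))) q)

/-- even modulus `q = 2 h`: the digit with index `h u + v` is the table value at
`x² + (2 u + 1) x y + (2 v + 1) y²` -/
def ue (w q h t x y : ℕ) : ℕ :=
  pk (Nat.mul w h) h fun u =>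
    fc (Nat.mod (Nat.add (Nat.mul x x) (Nat.mul (Nat.add (Nat.mul 2 u) 1) (Nat.mul x y))) q)
      fun c => rowe w q h t c y

/-- odd modulus, row -/
def rowo (w q nd Es t c y : ℕ) : ℕ :=
  pk w nd fun j => lk t (Nat.mod (Nat.add (Nat.mul c c) (Nat.mul (lk Es j) (Nat.mul y y))) q)

/-- odd modulus: the digit with index `nd b + j` is the table value at `(2 x + b y)² + E_j y²` -/
def uo (w q nd Es t x y : ℕ) : ℕ :=
  pk (Nat.mul w nd) q fun b =>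
    fc (Nat.mod (Nat.add (Nat.mul 2 x) (Nat.mul b y)) q) fun c => rowo w q nd Es t c y

/-- product of two moduli -/
def up (qa qb : ℕ) (ua ub : ℕ → ℕ → ℕ) (x y : ℕ) : ℕ :=
  Nat.mul (fc (Nat.mod x qa) fun x' => fc (Nat.mod y qa) fun y' => ua x' y')
    (fc (Nat.mod x qb) fun x' => fc (Nat.mod y qb) fun y' => ub x' y')

/-- substitution `y = z - k x`; `kk = -k` modulo `q` -/
def sh (q kk : ℕ) (u : ℕ → ℕ → ℕ) (x z : ℕ) : ℕ :=
  fc (Nat.mod (Nat.add z (Nat.mul kk x)) q) fun y => u x y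

/-- the sawtooth at `x1 e1 + x2 e2` -/
def sw (q r e1 e2 x1 x2 : ℕ) : ℕ :=
  Nat.rec (motive := fun _ => ℕ) 0
    (fun i _ => Nat.mod (Nat.add (Nat.mul 2 (Nat.succ i)) (Nat.mul (Nat.sub r 1) q)) r)
    (Nat.mod (Nat.add (Nat.mul x1 e1) (Nat.mul x2 e2)) q)

/-- the Bernoulli polynomial at `x1 e1 + x2 e2` -/
def bw (q r e1 e2 x1 x2 : ℕ) : ℕ :=
  fc (Nat.mod (Nat.add (Nat.mul x1 e1) (Nat.mul x2 e2)) q) fun x =>
    Nat.mod (Nat.add (Nat.mul 6 (Nat.mul x x))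
      (Nat.add (Nat.mul (Nat.mul 6 (Nat.sub r 1)) (Nat.mul x q)) (Nat.mul q q))) r

/-- `∑ s(x) s(y) u(x,y)` -/
def TA (q1 q2 : ℕ) (s u1 u2 : ℕ → ℕ → ℕ) : ℕ :=
  sm q1 fun x1 => sm q1 fun y1 => Nat.mul (u1 x1 y1)
    (sm q2 fun x2 => Nat.mul (s x1 x2) (sm q2 fun y2 => Nat.mul (s y1 y2) (u2 x2 y2)))

/-- `∑ b(y) u(x,y)` -/
def TB (q1 q2 : ℕ) (b u1 u2 : ℕ → ℕ → ℕ) : ℕ :=
  sm q1 fun y1 => Nat.mul (sm q1 fun x1 => u1 x1 y1)
    (sm q2 fun y2 => Nat.mul (b y1 y2) (sm q2 fun x2 => u2 x2 y2))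

/-- `∑ b(x) u(x,y)` -/
def TX (q1 q2 : ℕ) (b u1 u2 : ℕ → ℕ → ℕ) : ℕ :=
  sm q1 fun x1 => Nat.mul (sm q1 fun y1 => u1 x1 y1)
    (sm q2 fun x2 => Nat.mul (b x1 x2) (sm q2 fun y2 => u2 x2 y2))

/-- the table of `S0` -/
def T0 (q1 q2 r k kk1 kk2 : ℕ) (s b u1 u2 : ℕ → ℕ → ℕ) : ℕ :=
  Nat.add (Nat.mul 6 (TA q1 q2 s u1 u2))
    (Nat.add (Nat.mul (Nat.mul 6 (Nat.sub r 1)) (TA q1 q2 s (sh q1 kk1 u1) (sh q2 kk2 u2)))
      (Nat.mul (Nat.mul 2 k) (TX q1 q2 b u1 u2)))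

/-- the table of `S2` -/
def T2 (q1 q2 kk1 kk2 : ℕ) (b u1 u2 : ℕ → ℕ → ℕ) : ℕ :=
  TB q1 q2 b (sh q1 kk1 u1) (sh q2 kk2 u2)

/-- `S0 + b S1 + m S2` is `0` modulo `r` -/
def tz (r S0 S1 S2 b m : ℕ) : Bool :=
  Nat.beq (Nat.mod (Nat.add S0 (Nat.add (Nat.mul b S1) (Nat.mul m S2))) r) 0

/-- the test `S0 + b S1 + m S2 = 0` modulo `r` at the index `l` -/
def ts (r S0 S1 S2 l b m : ℕ) : Bool := tz r (dg S0 l) (dg S1 l) (dg S2 l) b m

/-- `3 b + c = 9 n` modulo `16` for `b = 2 u + 1`, `n = 2 v + 1` -/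
def c16 (c u v : ℕ) : Bool :=
  Nat.beq (Nat.mod (Nat.add (Nat.mul 3 (Nat.add (Nat.mul 2 u) 1)) c) 16)
    (Nat.mod (Nat.mul 9 (Nat.add (Nat.mul 2 v) 1)) 16)

/-- `(3 b - 2)² + 9 E = c` modulo `p` (`c2 = -2` modulo `p`) -/
def co (p c2 E b c : ℕ) : Bool :=
  Nat.beq (Nat.mod (Nat.add (Nat.mul (Nat.add (Nat.mul 3 b) c2) (Nat.add (Nat.mul 3 b) c2))
    (Nat.mul 9 E)) p) c

end CN94.K
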