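import Mathlib
import Pool.Agent.Lib_CN94.KDefs

/-!
# Semantics of the programs
-/

namespace CN94.K

open Finset

theorem sm_eq (n : ℕ) (f : ℕ → ℕ) : sm n f = ∑ i ∈ range n, f i := by
  induction n with
  | zero => rfl
  | succ n ih =>
    rw [sum_range_succ, ← ih]
    rfl

theorem fc_eq {α : Type} (x : ℕ) (f : ℕ → α) : fc x f = f x := by
  cases x <;> rfl

theorem pk_eq (w n : ℕ) (f : ℕ → ℕ) : pk w n f = ∑ i ∈ range n, f i * 2 ^ (w * i) := by
  induction n with
  | zero => rfl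
  | succ n ih =>
    rw [sum_range_succ, ← ih, ← Nat.shiftLeft_eq]
    rfl

theorem al_iff (n : ℕ) (p : ℕ → Bool) : al n p = true ↔ ∀ i < n, p i = true := by
  induction n with
  | zero => simp [al]
  | succ n ih =>
    have h : al (n + 1) p = Bool.rec (motive := fun _ => Bool) false (al n p) (p n) := rfl
    rw [h]
    constructor
    · intro hh i hi
      cases hp : p n with
      | false => rw [hp] at hh; exact absurd hh (by simp)
      | true =>
        rw [hp] at hh
        rcases Nat.lt_succ_iff_lt_or_eq.1 hi with h1 | h1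
        · exact ih.1 hh i h1
        · rw [h1, hp]
    · intro hh
      rw [hh n (Nat.lt_succ_self n)]
      exact ih.2 fun i hi => hh i (Nat.lt_succ_of_lt hi)

theorem im_iff (p t : Bool) : im p t = true ↔ (p = true → t = true) := by
  cases p <;> simp [im]

theorem an_iff (p t : Bool) : an p t = true ↔ (p = true ∧ t = true) := by
  cases p <;> simp [an]

theorem lk_eq (t i : ℕ) : lk t i = t / 2 ^ (4 * i) % 16 := by
  have h : lk t i = (t >>> (4 * i)) &&& (2 ^ 4 - 1) := rfl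
  rw [h, Nat.and_two_pow_sub_one_eq_mod, Nat.shiftRight_eq_div_pow]

theorem lk_lt (t i : ℕ) : lk t i < 16 := by
  rw [lk_eq]; exact Nat.mod_lt _ (by norm_num)

theorem dg_eq (T i : ℕ) : dg T i = T / 2 ^ (48 * i) % 2 ^ 48 := by
  have h : dg T i = (T >>> (48 * i)) &&& (2 ^ 48 - 1) := rfl
  rw [h, Nat.and_two_pow_sub_one_eq_mod, Nat.shiftRight_eq_div_pow]

/-- `T` represents the table `g` of length `n` with stride `w` -/
def Rp (w n T : ℕ) (g : ℕ → ℕ) : Prop := T = ∑ l ∈ range n, g l * 2 ^ (w * l)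

theorem Rp.congr {w n T : ℕ} {g g' : ℕ → ℕ} (h : Rp w n T g) (hg : ∀ l < n, g l = g' l) :
    Rp w n T g' := by
  rw [Rp, h]
  exact sum_congr rfl fun l hl => by rw [hg l (mem_range.1 hl)]

theorem Rp.add {w n T T' : ℕ} {g g' : ℕ → ℕ} (h : Rp w n T g) (h' : Rp w n T' g') :
    Rp w n (T + T') (fun l => g l + g' l) := by
  rw [Rp, h, h', ← sum_add_distrib]
  exact sum_congr rfl fun l _ => by ring

theorem Rp.cmul {w n T : ℕ} {g : ℕ → ℕ} (c : ℕ) (h : Rp w n T g) :
    Rp w n (c * T) (fun l => c * g l) := by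
  rw [Rp, h, mul_sum]
  exact sum_congr rfl fun l _ => by ring

theorem Rp.sum {w n m : ℕ} {T : ℕ → ℕ} {g : ℕ → ℕ → ℕ} (h : ∀ x < m, Rp w n (T x) (g x)) :
    Rp w n (∑ x ∈ range m, T x) (fun l => ∑ x ∈ range m, g x l) := by
  rw [Rp, sum_congr rfl fun x hx => h x (mem_range.1 hx), sum_comm]
  exact sum_congr rfl fun l _ => by rw [sum_mul]

theorem sum_split {M : Type*} [AddCommMonoid M] (n1 n2 : ℕ) (F : ℕ → ℕ → M) :
    ∑ l ∈ range (n1 * n2), F (l / n2) (l % n2) = ∑ a ∈ range n1, ∑ b ∈ range n2, F a b := by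
  rcases Nat.eq_zero_or_pos n2 with h0 | h0
  · subst h0; simp
  rw [← sum_product']
  refine sum_nbij' (fun l => (l / n2, l % n2)) (fun p => n2 * p.1 + p.2) ?_ ?_ ?_ ?_ ?_
  · intro l hl
    rw [mem_range] at hl
    rw [mem_product, mem_range, mem_range]
    exact ⟨Nat.div_lt_of_lt_mul (by rwa [mul_comm]), Nat.mod_lt _ h0⟩
  · intro p hp
    rw [mem_product, mem_range, mem_range] at hp
    rw [mem_range]
    calc n2 * p.1 + p.2 < n2 * p.1 + n2 := by omega
      _ = n2 * (p.1 + 1) := by ring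
      _ ≤ n2 * n1 := Nat.mul_le_mul le_rfl hp.1
      _ = n1 * n2 := mul_comm _ _
  · intro l _
    exact Nat.div_add_mod l n2
  · intro p hp
    rw [mem_product, mem_range, mem_range] at hp
    have h3 : (n2 * p.1 + p.2) / n2 = p.1 := by
      rw [Nat.mul_add_div h0, Nat.div_eq_of_lt hp.2, add_zero]
    have h4 : (n2 * p.1 + p.2) % n2 = p.2 := by
      rw [Nat.mul_add_mod, Nat.mod_eq_of_lt hp.2]
    ext
    · exact h3
    · exact h4
  · intro l _
    rfl

theorem pow_split (w n2 l : ℕ) : 2 ^ (w * l) = 2 ^ (w * n2 * (l / n2)) * 2 ^ (w * (l % n2)) := by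
  have h5 : w * l = w * n2 * (l / n2) + w * (l % n2) := by
    conv_lhs => rw [← Nat.div_add_mod l n2]
    ring
  rw [h5, pow_add]

theorem Rp.nest {w n1 n2 : ℕ} {f : ℕ → ℕ} {g : ℕ → ℕ → ℕ} (h : ∀ u < n1, Rp w n2 (f u) (g u)) :
    Rp w (n1 * n2) (pk (w * n2) n1 f) (fun l => g (l / n2) (l % n2)) := by
  rw [Rp, pk_eq]
  have h1 : ∀ l, g (l / n2) (l % n2) * 2 ^ (w * l) =
      (fun a b => g a b * (2 ^ (w * n2 * a) * 2 ^ (w * b))) (l / n2) (l % n2) := by
    intro l
    simp only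
    rw [pow_split w n2 l]
  simp only [h1]
  rw [sum_split n1 n2 (fun a b => g a b * (2 ^ (w * n2 * a) * 2 ^ (w * b)))]
  refine sum_congr rfl fun u hu => ?_
  rw [h u (mem_range.1 hu), sum_mul]
  exact sum_congr rfl fun v _ => by ring

theorem Rp.mul {w n1 n2 T1 T2 : ℕ} {g1 g2 : ℕ → ℕ} (h1 : Rp (w * n2) n1 T1 g1)
    (h2 : Rp w n2 T2 g2) : Rp w (n1 * n2) (T1 * T2) (fun l => g1 (l / n2) * g2 (l % n2)) := by
  rw [Rp, h1, h2]
  have h3 : ∀ l, g1 (l / n2) * g2 (l % n2) * 2 ^ (w * l) =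
      (fun a b => g1 a * g2 b * (2 ^ (w * n2 * a) * 2 ^ (w * b))) (l / n2) (l % n2) := by
    intro l
    simp only
    rw [pow_split w n2 l]
  simp only [h3]
  rw [sum_split n1 n2 (fun a b => g1 a * g2 b * (2 ^ (w * n2 * a) * 2 ^ (w * b))), sum_mul_sum]
  exact sum_congr rfl fun a _ => sum_congr rfl fun b _ => by ring

theorem Rp.dg {n T : ℕ} {g : ℕ → ℕ} (h : Rp 48 n T g) (hg : ∀ l < n, g l < 2 ^ 48) {l : ℕ}
    (hl : l < n) : dg T l = g l := by
  rw [dg_eq, h]
  clear h T
  induction n with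
  | zero => omega
  | succ n ih =>
    rw [sum_range_succ]
    rcases Nat.lt_succ_iff_lt_or_eq.1 hl with h1 | h1
    · have h2 : g n * 2 ^ (48 * n) = 2 ^ (48 * l) * (2 ^ 48 * (g n * 2 ^ (48 * (n - l - 1)))) := by
        have : 48 * n = 48 * l + (48 + 48 * (n - l - 1)) := by omega
        rw [this, pow_add, pow_add]
        ring
      rw [h2, Nat.add_mul_div_left _ _ (by positivity), Nat.add_mul_mod_self_left]
      exact ih (fun l hl => hg l (by omega)) h1
    · subst h1
      have h3 : ∀ m : ℕ, (∀ l < m, g l < 2 ^ 48) →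
          ∑ i ∈ range m, g i * 2 ^ (48 * i) < 2 ^ (48 * m) := by
        intro m
        induction m with
        | zero => intro _; simp
        | succ m ihm =>
          intro hm
          rw [sum_range_succ]
          have h4 := ihm fun l hl => hm l (by omega)
          have h5 : g m + 1 ≤ 2 ^ 48 := hm m (by omega)
          calc ∑ i ∈ range m, g i * 2 ^ (48 * i) + g m * 2 ^ (48 * m)
              < 2 ^ (48 * m) + g m * 2 ^ (48 * m) := by omega
            _ = (g m + 1) * 2 ^ (48 * m) := by ring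
            _ ≤ 2 ^ 48 * 2 ^ (48 * m) := Nat.mul_le_mul h5 le_rfl
            _ = 2 ^ (48 * (m + 1)) := by rw [← pow_add]; congr 1; ring
      rw [Nat.add_mul_div_right _ _ (by positivity),
        Nat.div_eq_of_lt (h3 l fun i hi => hg i (by omega)), zero_add]
      exact Nat.mod_eq_of_lt (hg l (by omega))

theorem rowe_rp (w q h t c y : ℕ) : Rp w h (rowe w q h t c y)
    (fun v => lk t ((c + (2 * v + 1) * (y * y)) % q)) := pk_eq _ _ _

/-- the digits of `ue` -/
def cE (q h t i x y : ℕ) : ℕ :=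
  lk t ((x * x + (2 * (i / h) + 1) * (x * y) + (2 * (i % h) + 1) * (y * y)) % q)

/-- the digits of `uo` -/
def cO (q nd Es t i x y : ℕ) : ℕ :=
  lk t (((2 * x + i / nd * y) * (2 * x + i / nd * y) + lk Es (i % nd) * (y * y)) % q)

theorem ue_rp (w q h t x y : ℕ) : Rp w (h * h) (ue w q h t x y) (fun i => cE q h t i x y) := by
  have h1 : ∀ u < h, Rp w h (fc (Nat.mod (Nat.add (Nat.mul x x)
      (Nat.mul (Nat.add (Nat.mul 2 u) 1) (Nat.mul x y))) q) fun c => rowe w q h t c y)
      (fun v => lk t ((x * x + (2 * u + 1) * (x * y) + (2 * v + 1) * (y * y)) % q)) := by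
    intro u _
    rw [fc_eq]
    refine (rowe_rp w q h t _ y).congr fun v _ => ?_
    show lk t (((x * x + (2 * u + 1) * (x * y)) % q + (2 * v + 1) * (y * y)) % q) = _
    rw [Nat.mod_add_mod]
  exact Rp.nest h1

theorem rowo_rp (w q nd Es t c y : ℕ) : Rp w nd (rowo w q nd Es t c y)
    (fun j => lk t ((c * c + lk Es j * (y * y)) % q)) := pk_eq _ _ _

theorem uo_rp (w q nd Es t x y : ℕ) :
    Rp w (q * nd) (uo w q nd Es t x y) (fun i => cO q nd Es t i x y) := by
  have h1 : ∀ b < q, Rp w nd (fc (Nat.mod (Nat.add (Nat.mul 2 x) (Nat.mul b y)) q)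
      fun c => rowo w q nd Es t c y)
      (fun j => lk t (((2 * x + b * y) * (2 * x + b * y) + lk Es j * (y * y)) % q)) := by
    intro b _
    rw [fc_eq]
    refine (rowo_rp w q nd Es t _ y).congr fun j _ => ?_
    show lk t (((2 * x + b * y) % q * ((2 * x + b * y) % q) + lk Es j * (y * y)) % q) = _
    congr 1
    rw [Nat.add_mod, ← Nat.mul_mod, ← Nat.add_mod]
  exact Rp.nest h1

theorem cE_le (q h t i x y : ℕ) : cE q h t i x y ≤ 16 := (lk_lt _ _).le

theorem cO_le (q nd Es t i x y : ℕ) : cO q nd Es t i x y ≤ 16 := (lk_lt _ _).le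

attribute [irreducible] Rp

end CN94.K
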