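import Pool.Agent.Lib_CN94.KRelT

/-!
# Characters from tables
-/

namespace CN94.K

open Finset

/-- the function on `ZMod q` given by a table -/
def tc (q r t : ℕ) (x : ZMod q) : ZMod r := ((lk t x.val : ℕ) : ZMod r)

/-- multiplicative and zero on the non-units -/
structure FC (q r : ℕ) (χ : ZMod q → ZMod r) : Prop where
  one : χ 1 = 1
  mul : ∀ x y, χ (x * y) = χ x * χ y
  non : ∀ x, ¬ IsUnit x → χ x = 0

/-- the check for a table -/
def fck (q r t : ℕ) : Bool :=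
  (lk t 1 % r == 1) &&
  ((List.range q).all fun x => (List.range q).all fun y =>
    lk t (x * y % q) % r == (lk t x * lk t y) % r) &&
  ((List.range q).all fun x => (Nat.gcd x q == 1) || (lk t x % r == 0))

theorem fc_of_check {q r t : ℕ} [NeZero q] (hq : 1 < q) (h : fck q r t = true) :
    FC q r (tc q r t) := by
  simp only [fck, Bool.and_eq_true, List.all_eq_true, List.mem_range, beq_iff_eq,
    Bool.or_eq_true] at h
  obtain ⟨⟨h1, h2⟩, h3⟩ := h
  have key : ∀ a b : ℕ, a % r = b % r → (a : ZMod r) = (b : ZMod r) := fun a b hab =>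
    (ZMod.natCast_eq_natCast_iff a b r).2 hab
  refine ⟨?_, ?_, ?_⟩
  · haveI : Fact (1 < q) := ⟨hq⟩
    rw [tc, ZMod.val_one]
    rcases Nat.lt_or_ge 1 r with hr | hr
    · have := key (lk t 1) 1 (by rw [h1, Nat.mod_eq_of_lt hr])
      rw [this, Nat.cast_one]
    · interval_cases r
      · simp only [Nat.mod_zero] at h1
        rw [h1]; simp
      · exact Subsingleton.elim _ _
  · intro x y
    rw [tc, tc, tc, ← Nat.cast_mul, ZMod.val_mul]
    exact key _ _ (h2 x.val (ZMod.val_lt x) y.val (ZMod.val_lt y))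
  · intro x hx
    rcases h3 x.val (ZMod.val_lt x) with h4 | h4
    · exfalso
      apply hx
      have h5 := (ZMod.isUnit_iff_coprime x.val q).2 h4
      rwa [ZMod.natCast_zmod_val] at h5
    · rw [tc]
      exact (ZMod.natCast_eq_zero_iff _ _).2 (Nat.dvd_of_mod_eq_zero h4)

theorem FC.pc {q1 q2 r : ℕ} [NeZero (q1 * q2)] {χ1 : ZMod q1 → ZMod r} {χ2 : ZMod q2 → ZMod r}
    (h1 : FC q1 r χ1) (h2 : FC q2 r χ2) : FC (q1 * q2) r (pc q1 q2 r χ1 χ2) := by
  refine ⟨?_, ?_, ?_⟩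
  · rw [K.pc, map_one, map_one, h1.one, h2.one, mul_one]
  · intro x y
    rw [K.pc, K.pc, K.pc, map_mul, map_mul, h1.mul, h2.mul]
    ring
  · intro x hx
    by_contra hne
    apply hx
    rw [K.pc] at hne
    have h3 : IsUnit (ZMod.castHom (dvd_mul_right q1 q2) (ZMod q1) x) := by
      by_contra h
      exact hne (by rw [h1.non _ h, zero_mul])
    have h4 : IsUnit (ZMod.castHom (dvd_mul_left q2 q1) (ZMod q2) x) := by
      by_contra h
      exact hne (by rw [h2.non _ h, mul_zero])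
    rw [← ZMod.natCast_zmod_val x] at h3 h4 ⊢
    rw [map_natCast] at h3 h4
    rw [ZMod.isUnit_iff_coprime] at h3 h4 ⊢
    exact Nat.Coprime.mul_right h3 h4

theorem FC.four_ne {q r : ℕ} [Fact r.Prime] {χ : ZMod q → ZMod r} (h : FC q r χ)
    (hq : Nat.Coprime 4 q) : χ 4 ≠ 0 := by
  intro h0
  have h1 : IsUnit ((4 : ℕ) : ZMod q) := (ZMod.isUnit_iff_coprime 4 q).2 hq
  obtain ⟨u, hu⟩ := h1
  have h2 : (4 : ZMod q) * ((u⁻¹ : (ZMod q)ˣ) : ZMod q) = 1 := by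
    have : (4 : ZMod q) = (u : ZMod q) := by rw [hu]; norm_num
    rw [this, Units.mul_inv]
  have h3 := h.mul 4 ((u⁻¹ : (ZMod q)ˣ) : ZMod q)
  rw [h2, h.one, h0, zero_mul] at h3
  exact one_ne_zero h3

/-- the sum of the values `x χ x` -/
theorem sum_check {q r : ℕ} [NeZero q] (χ : ZMod q → ZMod r) (f : ℕ → ℕ)
    (hf : ∀ x : ℕ, (f x : ZMod r) = χ (x : ZMod q))
    (h : Nat.beq (Nat.mod (sm q fun x => Nat.mul x (f x)) r) 0 = true) :
    ∑ x : ZMod q, (x.val : ZMod r) * χ x = 0 := by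
  rw [Nat.beq_eq, sm_eq] at h
  have h1 : ((∑ x ∈ range q, x * f x : ℕ) : ZMod r) = 0 :=
    (ZMod.natCast_eq_zero_iff _ _).2 (Nat.dvd_of_mod_eq_zero h)
  rw [← sum_zmod q (fun x => x * f x), Nat.cast_sum] at h1
  rw [← h1]
  refine sum_congr rfl fun x _ => ?_
  rw [Nat.cast_mul, hf, ZMod.natCast_zmod_val]

theorem tc_nat {q r t : ℕ} (x : ℕ) : tc q r t (x : ZMod q) = ((lk t (x % q) : ℕ) : ZMod r) := by
  rw [tc, ZMod.val_natCast]

theorem pc_nat {q1 q2 r : ℕ} {χ1 : ZMod q1 → ZMod r} {χ2 : ZMod q2 → ZMod r} (x : ℕ) :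
    pc q1 q2 r χ1 χ2 (x : ZMod (q1 * q2)) = χ1 (x : ZMod q1) * χ2 (x : ZMod q2) := by
  rw [pc, map_natCast, map_natCast]

/-- good characters from the checks -/
theorem good_of {q r : ℕ} [NeZero q] {χ : ZMod q → ZMod r} (h : FC q r χ) (f : ℕ → ℕ)
    (hf : ∀ x : ℕ, (f x : ZMod r) = χ (x : ZMod q)) (hr : 0 < r)
    (hodd : Nat.beq (Nat.mod (f (q - 1)) r) (r - 1) = true)
    (hs : Nat.beq (Nat.mod (sm q fun x => Nat.mul x (f x)) r) 0 = true) : GoodChar q r χ := by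
  refine ⟨h.one, h.mul, h.non, ?_, sum_check χ f hf hs⟩
  have hq : 0 < q := Nat.pos_of_ne_zero (NeZero.ne q)
  have h1 : (-1 : ZMod q) = ((q - 1 : ℕ) : ZMod q) := (sub_one_cast hq).symm
  rw [h1, ← hf, ← sub_one_cast hr]
  rw [Nat.beq_eq] at hodd
  have h2 : f (q - 1) % r = (r - 1) % r := by
    rw [Nat.mod_eq_of_lt (show r - 1 < r by omega)]; exact hodd
  exact (ZMod.natCast_eq_natCast_iff _ _ r).2 h2

/-! ### the coefficients -/

theorem ue_UR {q h r t i : ℕ} {B N : ℤ}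
    (hB : (B : ZMod q) = ((2 * (i / h) + 1 : ℕ) : ZMod q))
    (hN : (N : ZMod q) = ((2 * (i % h) + 1 : ℕ) : ZMod q)) :
    UR q r (tc q r t) (cE q h t i) 1 B N := by
  intro x y
  rw [cE]
  have h1 : qf q 1 B N (x : ZMod q) (y : ZMod q) =
      ((x * x + (2 * (i / h) + 1) * (x * y) + (2 * (i % h) + 1) * (y * y) : ℕ) : ZMod q) := by
    rw [qf, hB, hN]
    push_cast
    ring
  rw [h1, tc_nat, one_mul]

theorem uo_UR {q nd Es r t i : ℕ} {B N : ℤ} (hF : FC q r (tc q r t))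
    (hB : (B : ZMod q) = ((i / nd : ℕ) : ZMod q))
    (hD : ((B ^ 2 - 4 * N : ℤ) : ZMod q) = -((lk Es (i % nd) : ℕ) : ZMod q)) :
    UR q r (tc q r t) (cO q nd Es t i) (tc q r t 4) B N := by
  intro x y
  rw [cO, ← hF.mul]
  have h1 : (4 : ZMod q) * qf q 1 B N (x : ZMod q) (y : ZMod q) =
      (((2 * x + i / nd * y) * (2 * x + i / nd * y) + lk Es (i % nd) * (y * y) : ℕ) : ZMod q) := by
    rw [qf]
    push_cast at hD ⊢
    rw [hB] at hD ⊢
    linear_combination (-(y : ZMod q) ^ 2) * hD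
  rw [h1, tc_nat]

/-- the digits of `up` -/
def cP (qa qb nb : ℕ) (ca cb : ℕ → ℕ → ℕ → ℕ) (i x y : ℕ) : ℕ :=
  ca (i / nb) (x % qa) (y % qa) * cb (i % nb) (x % qb) (y % qb)

theorem up_rp {qa qb w na nb : ℕ} {ua ub : ℕ → ℕ → ℕ} {ca cb : ℕ → ℕ → ℕ → ℕ}
    (ha : ∀ x y, Rp (w * nb) na (ua x y) (fun i => ca i x y))
    (hb : ∀ x y, Rp w nb (ub x y) (fun i => cb i x y)) (x y : ℕ) :
    Rp w (na * nb) (up qa qb ua ub x y) (fun i => cP qa qb nb ca cb i x y) := by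
  have h : up qa qb ua ub x y = ua (x % qa) (y % qa) * ub (x % qb) (y % qb) := by
    simp only [up, fc_eq]; rfl
  rw [h]
  exact Rp.mul (ha _ _) (hb _ _)

theorem up_UR {qa qb r nb i ia ib : ℕ} {χa : ZMod qa → ZMod r} {χb : ZMod qb → ZMod r}
    {ca cb : ℕ → ℕ → ℕ → ℕ} {κa κb : ZMod r} {B N : ℤ} (hia : i / nb = ia) (hib : i % nb = ib)
    (ha : UR qa r χa (ca ia) κa B N) (hb : UR qb r χb (cb ib) κb B N) :
    UR (qa * qb) r (pc qa qb r χa χb) (cP qa qb nb ca cb i) (κa * κb) B N := by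
  intro x y
  rw [cP, hia, hib]
  have h1 : ∀ x : ℕ, ((x % qa : ℕ) : ZMod qa) = (x : ZMod qa) := fun x => ZMod.natCast_mod x qa
  have h2 : ∀ x : ℕ, ((x % qb : ℕ) : ZMod qb) = (x : ZMod qb) := fun x => ZMod.natCast_mod x qb
  rw [Nat.cast_mul, ha, hb, pc, qf_cast, qf_cast, map_natCast, map_natCast, map_natCast,
    map_natCast, h1, h1, h2, h2]
  ring

end CN94.K
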