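import Pool.Agent.Lib_CN94.KInst

/-!
# Classes and the value of `m`
-/

namespace CN94.K

/-! ### existence of the classes -/

theorem exO {p nd Es : ℕ} [NeZero p] {B N : ℤ}
    (h : ∃ j < nd, ((B ^ 2 - 4 * N : ℤ) : ZMod p) = -((lk Es j : ℕ) : ZMod p)) :
    ∃ b < p, ∃ j < nd, CO p nd Es B N (nd * b + j) := by
  obtain ⟨j, hj, hD⟩ := h
  have hb : ((B : ZMod p)).val < p := ZMod.val_lt _
  refine ⟨(B : ZMod p).val, hb, j, hj, ?_, ?_, ?_⟩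
  · calc nd * (B : ZMod p).val + j < nd * (B : ZMod p).val + nd := by omega
      _ = nd * ((B : ZMod p).val + 1) := by ring
      _ ≤ nd * p := Nat.mul_le_mul le_rfl hb
      _ = p * nd := mul_comm _ _
  · rw [Nat.mul_add_div (by omega), Nat.div_eq_of_lt hj, add_zero, ZMod.natCast_zmod_val]
  · rw [Nat.mul_add_mod, Nat.mod_eq_of_lt hj]
    exact hD

theorem ns5 : ∀ d : ZMod 5, ¬ IsSquare d → ∃ j < 2, d = -((lk 0x23 j : ℕ) : ZMod 5) := by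
  decide +kernel

theorem ns7 : ∀ d : ZMod 7, ¬ IsSquare d → ∃ j < 3, d = -((lk 0x124 j : ℕ) : ZMod 7) := by
  decide +kernel

theorem ns11 : ∀ d : ZMod 11, ¬ IsSquare d → ∃ j < 5, d = -((lk 0x13459 j : ℕ) : ZMod 11) := by
  decide +kernel

theorem ns13 : ∀ d : ZMod 13, ¬ IsSquare d → ∃ j < 6, d = -((lk 0x25678b j : ℕ) : ZMod 13) := by
  decide +kernel

theorem ns3 : ∀ d : ZMod 3, ¬ IsSquare d → ∃ j < 1, d = -((lk 0x1 j : ℕ) : ZMod 3) := by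
  decide +kernel

theorem ns9 (D : ℤ) (h : ¬ IsSquare ((D : ℤ) : ZMod 3)) :
    ∃ j < 3, (D : ZMod 9) = -((lk 0x147 j : ℕ) : ZMod 9) := by
  have key : ∀ d : ZMod 9, ¬ IsSquare (ZMod.castHom (show 3 ∣ 9 by norm_num) (ZMod 3) d) →
      ∃ j < 3, d = -((lk 0x147 j : ℕ) : ZMod 9) := by decide +kernel
  apply key
  rwa [map_intCast]

theorem CO.div {p nd Es b j : ℕ} {B N : ℤ} (hj : j < nd) (h : CO p nd Es B N (nd * b + j)) :
    (B : ZMod p) = (b : ZMod p) ∧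
      ((B ^ 2 - 4 * N : ℤ) : ZMod p) = -((lk Es j : ℕ) : ZMod p) := by
  have h1 := h.2.1
  have h2 := h.2.2
  rw [Nat.mul_add_div (by omega), Nat.div_eq_of_lt hj, add_zero] at h1
  rw [Nat.mul_add_mod, Nat.mod_eq_of_lt hj] at h2
  exact ⟨h1, h2⟩

theorem exE {B N : ℤ} (hB : B % 2 = 1) (hN : N % 2 = 1) :
    ∃ u < 8, ∃ v < 8, CE 16 8 B N (8 * u + v) ∧ CE 4 2 B N (2 * (u % 2) + v % 2) ∧
      (16 : ℤ) ∣ B - (2 * u + 1) ∧ (16 : ℤ) ∣ N - (2 * v + 1) := by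
  obtain ⟨u, hu⟩ : ∃ u : ℕ, (u : ℤ) = (B % 16) / 2 := ⟨((B % 16) / 2).toNat, by omega⟩
  obtain ⟨v, hv⟩ : ∃ v : ℕ, (v : ℤ) = (N % 16) / 2 := ⟨((N % 16) / 2).toNat, by omega⟩
  have hu8 : u < 8 := by omega
  have hv8 : v < 8 := by omega
  have hBu : (16 : ℤ) ∣ B - (2 * u + 1) := by omega
  have hNv : (16 : ℤ) ∣ N - (2 * v + 1) := by omega
  have hB16 : (B : ZMod 16) = ((2 * u + 1 : ℕ) : ZMod 16) := by
    have h := (ZMod.intCast_zmod_eq_zero_iff_dvd (B - (2 * u + 1)) 16).2 hBu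
    push_cast at h ⊢
    exact sub_eq_zero.1 h
  have hN16 : (N : ZMod 16) = ((2 * v + 1 : ℕ) : ZMod 16) := by
    have h := (ZMod.intCast_zmod_eq_zero_iff_dvd (N - (2 * v + 1)) 16).2 hNv
    push_cast at h ⊢
    exact sub_eq_zero.1 h
  have hB4 : (B : ZMod 4) = ((2 * (u % 2) + 1 : ℕ) : ZMod 4) := by
    have hd : (4 : ℤ) ∣ B - (2 * (u % 2 : ℕ) + 1) := by omega
    have h := (ZMod.intCast_zmod_eq_zero_iff_dvd (B - (2 * (u % 2 : ℕ) + 1)) 4).2 hd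
    push_cast at h ⊢
    exact sub_eq_zero.1 h
  have hN4 : (N : ZMod 4) = ((2 * (v % 2) + 1 : ℕ) : ZMod 4) := by
    have hd : (4 : ℤ) ∣ N - (2 * (v % 2 : ℕ) + 1) := by omega
    have h := (ZMod.intCast_zmod_eq_zero_iff_dvd (N - (2 * (v % 2 : ℕ) + 1)) 4).2 hd
    push_cast at h ⊢
    exact sub_eq_zero.1 h
  refine ⟨u, hu8, v, hv8, ⟨by omega, ?_, ?_⟩, ⟨by omega, ?_, ?_⟩, hBu, hNv⟩
  · have : (8 * u + v) / 8 = u := by omega
    rw [this]; exact hB16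
  · have : (8 * u + v) % 8 = v := by omega
    rw [this]; exact hN16
  · have : (2 * (u % 2) + v % 2) / 2 = u % 2 := by omega
    rw [this]; exact hB4
  · have : (2 * (u % 2) + v % 2) % 2 = v % 2 := by omega
    rw [this]; exact hN4

/-! ### the values of `m` -/

theorem mtab {p nd Es t : ℕ} (k : ℤ)
    (hdec : ∀ i < p * nd, ∀ ν μ : ZMod p, 4 * ν = ((i / nd : ℕ) : ZMod p) ^ 2 +
      ((lk Es (i % nd) : ℕ) : ZMod p) →
      ((k : ZMod p) * ((i / nd : ℕ) : ZMod p) - 1 - (k : ZMod p) ^ 2 * ν) * μ =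
        ((i / nd : ℕ) : ZMod p) - 2 * k * ν → ((lk t i : ℕ) : ZMod p) = μ)
    {B N a m : ℤ} (hN : k ^ 2 * N = k * B - 1 - a) (ham : a * m = B - 2 * k * N) {i : ℕ}
    (h : CO p nd Es B N i) : ((lk t i : ℕ) : ZMod p) = (m : ZMod p) := by
  refine hdec i h.1 (N : ZMod p) (m : ZMod p) ?_ ?_
  · have h2 := h.2.2
    have h1 := h.2.1
    push_cast at h2
    rw [← h1]
    linear_combination -h2
  · have h1 := h.2.1
    rw [← h1]
    have h3 := congrArg (fun z : ℤ => (z : ZMod p)) hN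
    have h4 := congrArg (fun z : ℤ => (z : ZMod p)) ham
    push_cast at h3 h4
    linear_combination h4 - (m : ZMod p) * h3

theorem m5_3 {B N a m : ℤ} (hN : 3 ^ 2 * N = 3 * B - 1 - a) (ham : a * m = B - 2 * 3 * N) {i : ℕ}
    (h : CO 5 2 0x23 B N i) : ((lk mt5_3 i : ℕ) : ZMod 5) = (m : ZMod 5) :=
  mtab 3 (by decide +kernel) hN ham h

theorem m7_3 {B N a m : ℤ} (hN : 3 ^ 2 * N = 3 * B - 1 - a) (ham : a * m = B - 2 * 3 * N) {i : ℕ}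
    (h : CO 7 3 0x124 B N i) : ((lk mt7_3 i : ℕ) : ZMod 7) = (m : ZMod 7) :=
  mtab 3 (by decide +kernel) hN ham h

theorem m13_3 {B N a m : ℤ} (hN : 3 ^ 2 * N = 3 * B - 1 - a) (ham : a * m = B - 2 * 3 * N) {i : ℕ}
    (h : CO 13 6 0x25678b B N i) : ((lk mt13_3 i : ℕ) : ZMod 13) = (m : ZMod 13) :=
  mtab 3 (by decide +kernel) hN ham h

theorem m5_4 {B N a m : ℤ} (hN : 4 ^ 2 * N = 4 * B - 1 - a) (ham : a * m = B - 2 * 4 * N) {i : ℕ}
    (h : CO 5 2 0x23 B N i) : ((lk mt5_4 i : ℕ) : ZMod 5) = (m : ZMod 5) :=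
  mtab 4 (by decide +kernel) hN ham h

theorem m7_4 {B N a m : ℤ} (hN : 4 ^ 2 * N = 4 * B - 1 - a) (ham : a * m = B - 2 * 4 * N) {i : ℕ}
    (h : CO 7 3 0x124 B N i) : ((lk mt7_4 i : ℕ) : ZMod 7) = (m : ZMod 7) :=
  mtab 4 (by decide +kernel) hN ham h

theorem m13_4 {B N a m : ℤ} (hN : 4 ^ 2 * N = 4 * B - 1 - a) (ham : a * m = B - 2 * 4 * N) {i : ℕ}
    (h : CO 13 6 0x25678b B N i) : ((lk mt13_4 i : ℕ) : ZMod 13) = (m : ZMod 13) :=
  mtab 4 (by decide +kernel) hN ham h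

/-! ### the conditions for a fixed value of `a` -/

theorem co_of {p c2 E b c : ℕ} {B N a : ℤ} (hN : 3 ^ 2 * N = 3 * B - 1 - a)
    (hB : (B : ZMod p) = (b : ZMod p)) (hD : ((B ^ 2 - 4 * N : ℤ) : ZMod p) = -(E : ZMod p))
    (hc2 : (c2 : ZMod p) = -2) (hc : (c : ZMod p) = ((-4 * a : ℤ) : ZMod p)) (hlt : c < p) :
    co p c2 E b c = true := by
  have h1 : (((3 * b + c2) * (3 * b + c2) + 9 * E : ℕ) : ZMod p) = (c : ZMod p) := by
    rw [hc]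
    have h3 := congrArg (fun z : ℤ => (z : ZMod p)) hN
    push_cast at h3 hD ⊢
    rw [hc2, ← hB]
    linear_combination 9 * hD + 4 * h3
  have h2 := (ZMod.natCast_eq_natCast_iff _ _ p).1 h1
  have h3 : ((3 * b + c2) * (3 * b + c2) + 9 * E) % p = c := by
    have := h2
    rw [Nat.ModEq, Nat.mod_eq_of_lt hlt] at this
    exact this
  show Nat.beq (((3 * b + c2) * (3 * b + c2) + 9 * E) % p) c = true
  rw [Nat.beq_eq]
  exact h3

theorem c16_of {c u v : ℕ} {B N a : ℤ} (hN : 3 ^ 2 * N = 3 * B - 1 - a)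
    (hB : (16 : ℤ) ∣ B - (2 * u + 1)) (hNv : (16 : ℤ) ∣ N - (2 * v + 1))
    (hc : (16 : ℤ) ∣ c + 1 + a) : c16 c u v = true := by
  show Nat.beq ((3 * (2 * u + 1) + c) % 16) ((9 * (2 * v + 1)) % 16) = true
  rw [Nat.beq_eq]
  omega

end CN94.K
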