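import Pool.Agent.Lib_CN94.KTab
import Pool.Agent.Lib_CN94.Defs

/-!
# Chinese remainder theorem for the sums
-/

namespace CN94.K

open Finset

/-- the idempotents for coprime `q1`, `q2` -/
structure Sp (q1 q2 e1 e2 : ℕ) : Prop where
  p1 : 1 < q1
  p2 : 1 < q2
  e11 : e1 % q1 = 1
  e12 : e1 % q2 = 0
  e21 : e2 % q1 = 0
  e22 : e2 % q2 = 1

theorem Sp.co {q1 q2 e1 e2 : ℕ} (h : Sp q1 q2 e1 e2) : Nat.Coprime q1 q2 := by
  have h1 : Nat.gcd q1 q2 ∣ e1 := (Nat.gcd_dvd_right q1 q2).trans (Nat.dvd_of_mod_eq_zero h.e12)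
  have h2 : Nat.gcd q1 q2 ∣ q1 := Nat.gcd_dvd_left _ _
  have h3 : Nat.gcd q1 q2 ∣ e1 % q1 := (Nat.dvd_mod_iff h2).2 h1
  rw [h.e11] at h3
  exact Nat.dvd_one.1 h3

theorem Sp.val1 {q1 q2 e1 e2 : ℕ} (h : Sp q1 q2 e1 e2) (a b : ℕ) :
    (a * e1 + b * e2) % (q1 * q2) % q1 = a % q1 := by
  rw [Nat.mod_mul_right_mod, Nat.add_mod, Nat.mul_mod, h.e11, Nat.mul_mod b, h.e21]
  simp

theorem Sp.val2 {q1 q2 e1 e2 : ℕ} (h : Sp q1 q2 e1 e2) (a b : ℕ) :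
    (a * e1 + b * e2) % (q1 * q2) % q2 = b % q2 := by
  rw [Nat.mod_mul_left_mod, Nat.add_mod, Nat.mul_mod, h.e12, Nat.mul_mod b, h.e22]
  simp

theorem Sp.inj {q1 q2 e1 e2 : ℕ} (h : Sp q1 q2 e1 e2) {x y : ℕ} (hx : x < q1 * q2)
    (hy : y < q1 * q2) (h1 : x % q1 = y % q1) (h2 : x % q2 = y % q2) : x = y := by
  have h3 : x ≡ y [MOD q1 * q2] := (Nat.modEq_and_modEq_iff_modEq_mul h.co).1 ⟨h1, h2⟩
  exact Nat.ModEq.eq_of_lt_of_lt h3 hx hy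

theorem Sp.crt {q1 q2 e1 e2 : ℕ} (h : Sp q1 q2 e1 e2) {x : ℕ} (hx : x < q1 * q2) :
    (x % q1 * e1 + x % q2 * e2) % (q1 * q2) = x := by
  have hp1 := h.p1
  have hp2 := h.p2
  refine h.inj (Nat.mod_lt _ (by positivity)) hx ?_ ?_
  · rw [h.val1, Nat.mod_mod]
  · rw [h.val2, Nat.mod_mod]

theorem sum_zmod {M : Type*} [AddCommMonoid M] (q : ℕ) [NeZero q] (f : ℕ → M) :
    ∑ x : ZMod q, f x.val = ∑ x ∈ range q, f x := by
  refine sum_nbij' (fun x => x.val) (fun n => (n : ZMod q)) ?_ ?_ ?_ ?_ ?_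
  · intro x _; exact mem_range.2 (ZMod.val_lt x)
  · intro x _; exact mem_univ _
  · intro x _; exact ZMod.natCast_zmod_val x
  · intro x hx; exact ZMod.val_cast_of_lt (mem_range.1 hx)
  · intro x _; rfl

theorem Sp.sum {M : Type*} [AddCommMonoid M] {q1 q2 e1 e2 : ℕ} (h : Sp q1 q2 e1 e2)
    [NeZero (q1 * q2)] (F : ℕ → ℕ → M) :
    ∑ x1 ∈ range q1, ∑ x2 ∈ range q2, F x1 x2 =
      ∑ x : ZMod (q1 * q2), F (x.val % q1) (x.val % q2) := by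
  have hp1 := h.p1
  have hp2 := h.p2
  rw [sum_zmod (q1 * q2) (fun x => F (x % q1) (x % q2)), ← sum_product']
  symm
  refine sum_nbij' (fun x => (x % q1, x % q2)) (fun p => (p.1 * e1 + p.2 * e2) % (q1 * q2))
    ?_ ?_ ?_ ?_ ?_
  · intro x _
    rw [mem_product, mem_range, mem_range]
    exact ⟨Nat.mod_lt _ (by omega), Nat.mod_lt _ (by omega)⟩
  · intro p _
    exact mem_range.2 (Nat.mod_lt _ (by positivity))
  · intro x hx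
    exact h.crt (mem_range.1 hx)
  · intro p hp
    rw [mem_product, mem_range, mem_range] at hp
    ext
    · exact (h.val1 _ _).trans (Nat.mod_eq_of_lt hp.1)
    · exact (h.val2 _ _).trans (Nat.mod_eq_of_lt hp.2)
  · intro x _
    rfl

theorem gs_eq {q1 q2 e1 e2 : ℕ} (h : Sp q1 q2 e1 e2) [NeZero (q1 * q2)] (c1 c2 : ℕ → ℕ → ℕ)
    (F : ℕ → ℕ → ℕ → ℕ → ℕ) :
    gs q1 q2 c1 c2 F = ∑ x : ZMod (q1 * q2), ∑ y : ZMod (q1 * q2),
      c1 (x.val % q1) (y.val % q1) * c2 (x.val % q2) (y.val % q2) *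
        F (x.val % q1) (x.val % q2) (y.val % q1) (y.val % q2) := by
  rw [gs]
  have h1 : ∀ x1, ∑ y1 ∈ range q1, ∑ x2 ∈ range q2, ∑ y2 ∈ range q2,
      c1 x1 y1 * c2 x2 y2 * F x1 x2 y1 y2 = ∑ x2 ∈ range q2, ∑ y : ZMod (q1 * q2),
        c1 x1 (y.val % q1) * c2 x2 (y.val % q2) * F x1 x2 (y.val % q1) (y.val % q2) := by
    intro x1
    rw [sum_comm]
    exact sum_congr rfl fun x2 _ => h.sum fun y1 y2 => c1 x1 y1 * c2 x2 y2 * F x1 x2 y1 y2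
  rw [sum_congr rfl fun x1 _ => h1 x1]
  exact h.sum fun x1 x2 => ∑ y : ZMod (q1 * q2),
    c1 x1 (y.val % q1) * c2 x2 (y.val % q2) * F x1 x2 (y.val % q1) (y.val % q2)

theorem sw_eq (q r e1 e2 x1 x2 : ℕ) : sw q r e1 e2 x1 x2 =
    if (x1 * e1 + x2 * e2) % q = 0 then 0 else (2 * ((x1 * e1 + x2 * e2) % q) + (r - 1) * q) % r := by
  have h : sw q r e1 e2 x1 x2 = Nat.rec (motive := fun _ => ℕ) 0
      (fun i _ => (2 * (i + 1) + (r - 1) * q) % r) ((x1 * e1 + x2 * e2) % q) := rfl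
  rw [h]
  cases (x1 * e1 + x2 * e2) % q with
  | zero => rfl
  | succ n => simp

theorem bw_eq (q r e1 e2 x1 x2 : ℕ) : bw q r e1 e2 x1 x2 =
    (6 * (((x1 * e1 + x2 * e2) % q) * ((x1 * e1 + x2 * e2) % q)) +
      (6 * (r - 1) * (((x1 * e1 + x2 * e2) % q) * q) + q * q)) % r := by
  rw [bw, fc_eq]; rfl

theorem sw_le {q r e1 e2 : ℕ} (hr : 0 < r) (hr' : r ≤ 16) (x1 x2 : ℕ) :
    sw q r e1 e2 x1 x2 ≤ 16 := by
  rw [sw_eq]
  split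
  · omega
  · exact (Nat.mod_lt _ hr).le.trans hr'

theorem bw_le {q r e1 e2 : ℕ} (hr : 0 < r) (hr' : r ≤ 16) (x1 x2 : ℕ) :
    bw q r e1 e2 x1 x2 ≤ 16 := by
  rw [bw_eq]
  exact (Nat.mod_lt _ hr).le.trans hr'

theorem sub_one_cast {r : ℕ} (hr : 0 < r) : ((r - 1 : ℕ) : ZMod r) = -1 := by
  have h : ((r - 1 + 1 : ℕ) : ZMod r) = 0 := by
    rw [Nat.sub_add_cancel hr]; exact ZMod.natCast_self r
  rw [Nat.cast_add, Nat.cast_one] at h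
  exact eq_neg_of_add_eq_zero_left h

theorem sw_spec {q1 q2 e1 e2 : ℕ} (h : Sp q1 q2 e1 e2) [NeZero (q1 * q2)] {r : ℕ} (hr : 0 < r)
    (x : ZMod (q1 * q2)) :
    ((sw (q1 * q2) r e1 e2 (x.val % q1) (x.val % q2) : ℕ) : ZMod r) =
      ((si (q1 * q2) x : ℤ) : ZMod r) := by
  rw [sw_eq, h.crt (ZMod.val_lt x), si]
  by_cases hx : x = 0
  · simp [hx]
  · have hx' : x.val ≠ 0 := by rwa [ne_eq, ZMod.val_eq_zero]
    rw [if_neg hx', if_neg hx, ZMod.natCast_mod]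
    push_cast
    rw [sub_one_cast hr]
    ring

theorem bw_spec {q1 q2 e1 e2 : ℕ} (h : Sp q1 q2 e1 e2) [NeZero (q1 * q2)] {r : ℕ} (hr : 0 < r)
    (x : ZMod (q1 * q2)) :
    ((bw (q1 * q2) r e1 e2 (x.val % q1) (x.val % q2) : ℕ) : ZMod r) =
      ((bi (q1 * q2) x : ℤ) : ZMod r) := by
  rw [bw_eq, h.crt (ZMod.val_lt x), bi, ZMod.natCast_mod]
  push_cast
  rw [sub_one_cast hr]
  ring

end CN94.K
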