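import Pool.Agent.Lib_CN94.KDefs

/-!
# The tables of the relations

For every conductor `q = q1 q2` (`q1` may be a product of two prime powers), `u...` is the table for
`q1`, `v...` the table for `q2`.
-/

namespace CN94.K

/-! ### conductor 208, values modulo 5 -/

def s208 (x y : ℕ) : ℕ := sw 208 5 65 144 x y
def b208 (x y : ℕ) : ℕ := bw 208 5 65 144 x y
def tv208a : ℕ := 0x4341332241210
def v208a (x y : ℕ) : ℕ := uo 48 13 6 0x25678b tv208a x y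
def tu208a : ℕ := 0x1030204040203010
def u208a (x y : ℕ) : ℕ := ue 3744 16 8 tu208a x y
def S1_208a : ℕ := TB 16 13 b208 u208a v208a
def S0_208a_3 : ℕ := T0 16 13 5 3 13 10 s208 b208 u208a v208a
def S2_208a_3 : ℕ := T2 16 13 13 10 b208 u208a v208a
def S0_208a_4 : ℕ := T0 16 13 5 4 12 9 s208 b208 u208a v208a
def S2_208a_4 : ℕ := T2 16 13 12 9 b208 u208a v208a
def tv208b : ℕ := 0x4341332241210
def v208b (x y : ℕ) : ℕ := uo 48 13 6 0x25678b tv208b x y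
def tu208b : ℕ := 0x1020304040302010
def u208b (x y : ℕ) : ℕ := ue 3744 16 8 tu208b x y
def S1_208b : ℕ := TB 16 13 b208 u208b v208b
def S0_208b_3 : ℕ := T0 16 13 5 3 13 10 s208 b208 u208b v208b
def S2_208b_3 : ℕ := T2 16 13 13 10 b208 u208b v208b
def S0_208b_4 : ℕ := T0 16 13 5 4 12 9 s208 b208 u208b v208b
def S2_208b_4 : ℕ := T2 16 13 12 9 b208 u208b v208b
def tv208c : ℕ := 0x1411444411410
def v208c (x y : ℕ) : ℕ := uo 48 13 6 0x25678b tv208c x y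
def tu208c : ℕ := 0x4030304010202010
def u208c (x y : ℕ) : ℕ := ue 3744 16 8 tu208c x y
def S1_208c : ℕ := TB 16 13 b208 u208c v208c
def S0_208c_3 : ℕ := T0 16 13 5 3 13 10 s208 b208 u208c v208c
def S2_208c_3 : ℕ := T2 16 13 13 10 b208 u208c v208c
def S0_208c_4 : ℕ := T0 16 13 5 4 12 9 s208 b208 u208c v208c
def S2_208c_4 : ℕ := T2 16 13 12 9 b208 u208c v208c

/-! ### conductor 144, values modulo 13 -/

def s144 (x y : ℕ) : ℕ := sw 144 13 81 64 x y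
def b144 (x y : ℕ) : ℕ := bw 144 13 81 64 x y
def tv144a : ℕ := 0xc30490a10
def v144a (x y : ℕ) : ℕ := uo 48 9 3 0x147 tv144a x y
def tu144a : ℕ := 0x108050c0c0508010
def u144a (x y : ℕ) : ℕ := ue 1296 16 8 tu144a x y
def S1_144a : ℕ := TB 16 9 b144 u144a v144a
def S0_144a_3 : ℕ := T0 16 9 13 3 13 6 s144 b144 u144a v144a
def S2_144a_3 : ℕ := T2 16 9 13 6 b144 u144a v144a
def S0_144a_4 : ℕ := T0 16 9 13 4 12 5 s144 b144 u144a v144a
def S2_144a_4 : ℕ := T2 16 9 12 5 b144 u144a v144a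
def tv144b : ℕ := 0x190330910
def v144b (x y : ℕ) : ℕ := uo 48 9 3 0x147 tv144b x y
def tu144b : ℕ := 0xc08080c010505010
def u144b (x y : ℕ) : ℕ := ue 1296 16 8 tu144b x y
def S1_144b : ℕ := TB 16 9 b144 u144b v144b
def S0_144b_3 : ℕ := T0 16 9 13 3 13 6 s144 b144 u144b v144b
def S2_144b_3 : ℕ := T2 16 9 13 6 b144 u144b v144b
def S0_144b_4 : ℕ := T0 16 9 13 4 12 5 s144 b144 u144b v144b
def S2_144b_4 : ℕ := T2 16 9 12 5 b144 u144b v144b

/-! ### conductor 112, values modulo 13 -/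

def s112 (x y : ℕ) : ℕ := sw 112 13 49 64 x y
def b112 (x y : ℕ) : ℕ := bw 112 13 49 64 x y
def tv112a : ℕ := 0xc43a910
def v112a (x y : ℕ) : ℕ := uo 48 7 3 0x124 tv112a x y
def tu112a : ℕ := 0x105080c0c0805010
def u112a (x y : ℕ) : ℕ := ue 1008 16 8 tu112a x y
def S1_112a : ℕ := TB 16 7 b112 u112a v112a
def S0_112a_3 : ℕ := T0 16 7 13 3 13 4 s112 b112 u112a v112a
def S2_112a_3 : ℕ := T2 16 7 13 4 b112 u112a v112a
def S0_112a_4 : ℕ := T0 16 7 13 4 12 3 s112 b112 u112a v112a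
def S2_112a_4 : ℕ := T2 16 7 12 3 b112 u112a v112a

/-! ### conductor 117, values modulo 7 -/

def s117 (x y : ℕ) : ℕ := sw 117 7 91 27 x y
def b117 (x y : ℕ) : ℕ := bw 117 7 91 27 x y
def tv117a : ℕ := 0x1224144142210
def v117a (x y : ℕ) : ℕ := uo 48 13 6 0x25678b tv117a x y
def tu117a : ℕ := 0x620340510
def u117a (x y : ℕ) : ℕ := uo 3744 9 3 0x147 tu117a x y
def S1_117a : ℕ := TB 9 13 b117 u117a v117a
def S0_117a_3 : ℕ := T0 9 13 7 3 6 10 s117 b117 u117a v117a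
def S2_117a_3 : ℕ := T2 9 13 6 10 b117 u117a v117a
def S0_117a_4 : ℕ := T0 9 13 7 4 5 9 s117 b117 u117a v117a
def S2_117a_4 : ℕ := T2 9 13 5 9 b117 u117a v117a

/-! ### conductor 140, values modulo 13 -/

def s140 (x y : ℕ) : ℕ := sw 140 13 21 120 x y
def b140 (x y : ℕ) : ℕ := bw 140 13 21 120 x y
def tv140a : ℕ := 0xc43a910
def v140a (x y : ℕ) : ℕ := uo 48 7 3 0x124 tv140a x y
def ta140a : ℕ := 0xc010
def tb140a : ℕ := 0xc8510
def ua140a (x y : ℕ) : ℕ := ue 10080 4 2 ta140a x y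
def ub140a (x y : ℕ) : ℕ := uo 1008 5 2 0x23 tb140a x y
def u140a (x y : ℕ) : ℕ := up 4 5 ua140a ub140a x y
def S1_140a : ℕ := TB 20 7 b140 u140a v140a
def S0_140a_3 : ℕ := T0 20 7 13 3 17 4 s140 b140 u140a v140a
def S2_140a_3 : ℕ := T2 20 7 17 4 b140 u140a v140a
def S0_140a_4 : ℕ := T0 20 7 13 4 16 3 s140 b140 u140a v140a
def S2_140a_4 : ℕ := T2 20 7 16 3 b140 u140a v140a

/-! ### conductor 105, values modulo 13 -/

def s105 (x y : ℕ) : ℕ := sw 105 13 91 15 x y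
def b105 (x y : ℕ) : ℕ := bw 105 13 91 15 x y
def tv105a : ℕ := 0xca94310
def v105a (x y : ℕ) : ℕ := uo 48 7 3 0x124 tv105a x y
def ta105a : ℕ := 0xc10
def tb105a : ℕ := 0xc8510
def ua105a (x y : ℕ) : ℕ := uo 10080 3 1 0x1 ta105a x y
def ub105a (x y : ℕ) : ℕ := uo 1008 5 2 0x23 tb105a x y
def u105a (x y : ℕ) : ℕ := up 3 5 ua105a ub105a x y
def S1_105a : ℕ := TB 15 7 b105 u105a v105a
def S0_105a_3 : ℕ := T0 15 7 13 3 12 4 s105 b105 u105a v105a
def S2_105a_3 : ℕ := T2 15 7 12 4 b105 u105a v105a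
def S0_105a_4 : ℕ := T0 15 7 13 4 11 3 s105 b105 u105a v105a
def S2_105a_4 : ℕ := T2 15 7 11 3 b105 u105a v105a

/-! ### conductor 143, values modulo 5 -/

def s143 (x y : ℕ) : ℕ := sw 143 5 78 66 x y
def b143 (x y : ℕ) : ℕ := bw 143 5 78 66 x y
def tv143a : ℕ := 0x1411444411410
def v143a (x y : ℕ) : ℕ := uo 48 13 6 0x25678b tv143a x y
def tu143a : ℕ := 0x41444111410
def u143a (x y : ℕ) : ℕ := uo 3744 11 5 0x13459 tu143a x y
def S1_143a : ℕ := TB 11 13 b143 u143a v143a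
def S0_143a_3 : ℕ := T0 11 13 5 3 8 10 s143 b143 u143a v143a
def S2_143a_3 : ℕ := T2 11 13 8 10 b143 u143a v143a

/-! ### conductor 143, values modulo 7 -/

def s143x (x y : ℕ) : ℕ := sw 143 7 78 66 x y
def b143x (x y : ℕ) : ℕ := bw 143 7 78 66 x y
def tv143xa : ℕ := 0x1442122124410
def v143xa (x y : ℕ) : ℕ := uo 48 13 6 0x25678b tv143xa x y
def tu143xa : ℕ := 0x61666111610
def u143xa (x y : ℕ) : ℕ := uo 3744 11 5 0x13459 tu143xa x y
def S1_143xa : ℕ := TB 11 13 b143x u143xa v143xa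
def S0_143xa_3 : ℕ := T0 11 13 7 3 8 10 s143x b143x u143xa v143xa
def S2_143xa_3 : ℕ := T2 11 13 8 10 b143x u143xa v143xa

/-! ### conductor 176, values modulo 5 -/

def s176 (x y : ℕ) : ℕ := sw 176 5 33 144 x y
def b176 (x y : ℕ) : ℕ := bw 176 5 33 144 x y
def tv176a : ℕ := 0x41444111410
def v176a (x y : ℕ) : ℕ := uo 48 11 5 0x13459 tv176a x y
def tu176a : ℕ := 0x1030204040203010
def u176a (x y : ℕ) : ℕ := ue 2640 16 8 tu176a x y
def S1_176a : ℕ := TB 16 11 b176 u176a v176a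
def S0_176a_3 : ℕ := T0 16 11 5 3 13 8 s176 b176 u176a v176a
def S2_176a_3 : ℕ := T2 16 11 13 8 b176 u176a v176a

/-! ### conductor 315, values modulo 13 -/

def s315 (x y : ℕ) : ℕ := sw 315 13 91 225 x y
def b315 (x y : ℕ) : ℕ := bw 315 13 91 225 x y
def tv315a : ℕ := 0xca94310
def v315a (x y : ℕ) : ℕ := uo 48 7 3 0x124 tv315a x y
def ta315a : ℕ := 0xc30490a10
def tb315a : ℕ := 0xc8510
def ua315a (x y : ℕ) : ℕ := uo 10080 9 3 0x147 ta315a x y
def ub315a (x y : ℕ) : ℕ := uo 1008 5 2 0x23 tb315a x y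
def u315a (x y : ℕ) : ℕ := up 9 5 ua315a ub315a x y
def S1_315a : ℕ := TB 45 7 b315 u315a v315a
def S0_315a_4 : ℕ := T0 45 7 13 4 41 3 s315 b315 u315a v315a
def S2_315a_4 : ℕ := T2 45 7 41 3 b315 u315a v315a

/-! ### the values of `m` -/

def mt5_3 : ℕ := 0x4420231013
def mt5_4 : ℕ := 0x1433020412
def mt7_3 : ℕ := 0x514160462333204506152
def mt7_4 : ℕ := 0x201503444315610263625
def mt13_3 : ℕ := 0xc87019b23a9107428bcb627102a41c9ca674973026555555137a841b0436a8069bbc4839a3682c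
def mt13_4 : ℕ := 0x504b3c2cab085b9482629a046015ba7777778109348c541a935a6cc2431691a3b2230586cb1968

end CN94.K
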