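import Pool.Agent.Lib_CN94.KChi
import Pool.Agent.Lib_CN94.KRels

/-!
# The characters
-/

namespace CN94.K

theorem fv208a : FC 13 5 (tc 13 5 tv208a) := fc_of_check (by norm_num) (by decide +kernel)

theorem fu208a : FC 16 5 (tc 16 5 tu208a) := fc_of_check (by norm_num) (by decide +kernel)

/-- the character `208a` -/
def ch208a : ZMod (16 * 13) → ZMod 5 := pc 16 13 5 (tc 16 5 tu208a) (tc 13 5 tv208a)

theorem good208a : GoodChar (16 * 13) 5 ch208a :=
  good_of (fu208a.pc fv208a) (fun x => Nat.mul (lk tu208a (Nat.mod x 16)) (lk tv208a (Nat.mod x 13)))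
    (by intro x; rw [ch208a, pc_nat, tc_nat, tc_nat]; exact Nat.cast_mul _ _) (by norm_num)
    (by decide +kernel) (by decide +kernel)

theorem fv208b : FC 13 5 (tc 13 5 tv208b) := fc_of_check (by norm_num) (by decide +kernel)

theorem fu208b : FC 16 5 (tc 16 5 tu208b) := fc_of_check (by norm_num) (by decide +kernel)

/-- the character `208b` -/
def ch208b : ZMod (16 * 13) → ZMod 5 := pc 16 13 5 (tc 16 5 tu208b) (tc 13 5 tv208b)

theorem good208b : GoodChar (16 * 13) 5 ch208b :=
  good_of (fu208b.pc fv208b) (fun x => Nat.mul (lk tu208b (Nat.mod x 16)) (lk tv208b (Nat.mod x 13)))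
    (by intro x; rw [ch208b, pc_nat, tc_nat, tc_nat]; exact Nat.cast_mul _ _) (by norm_num)
    (by decide +kernel) (by decide +kernel)

theorem fv208c : FC 13 5 (tc 13 5 tv208c) := fc_of_check (by norm_num) (by decide +kernel)

theorem fu208c : FC 16 5 (tc 16 5 tu208c) := fc_of_check (by norm_num) (by decide +kernel)

/-- the character `208c` -/
def ch208c : ZMod (16 * 13) → ZMod 5 := pc 16 13 5 (tc 16 5 tu208c) (tc 13 5 tv208c)

theorem good208c : GoodChar (16 * 13) 5 ch208c :=
  good_of (fu208c.pc fv208c) (fun x => Nat.mul (lk tu208c (Nat.mod x 16)) (lk tv208c (Nat.mod x 13)))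
    (by intro x; rw [ch208c, pc_nat, tc_nat, tc_nat]; exact Nat.cast_mul _ _) (by norm_num)
    (by decide +kernel) (by decide +kernel)

theorem fv144a : FC 9 13 (tc 9 13 tv144a) := fc_of_check (by norm_num) (by decide +kernel)

theorem fu144a : FC 16 13 (tc 16 13 tu144a) := fc_of_check (by norm_num) (by decide +kernel)

/-- the character `144a` -/
def ch144a : ZMod (16 * 9) → ZMod 13 := pc 16 9 13 (tc 16 13 tu144a) (tc 9 13 tv144a)

theorem good144a : GoodChar (16 * 9) 13 ch144a :=
  good_of (fu144a.pc fv144a) (fun x => Nat.mul (lk tu144a (Nat.mod x 16)) (lk tv144a (Nat.mod x 9)))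
    (by intro x; rw [ch144a, pc_nat, tc_nat, tc_nat]; exact Nat.cast_mul _ _) (by norm_num)
    (by decide +kernel) (by decide +kernel)

theorem fv144b : FC 9 13 (tc 9 13 tv144b) := fc_of_check (by norm_num) (by decide +kernel)

theorem fu144b : FC 16 13 (tc 16 13 tu144b) := fc_of_check (by norm_num) (by decide +kernel)

/-- the character `144b` -/
def ch144b : ZMod (16 * 9) → ZMod 13 := pc 16 9 13 (tc 16 13 tu144b) (tc 9 13 tv144b)

theorem good144b : GoodChar (16 * 9) 13 ch144b :=
  good_of (fu144b.pc fv144b) (fun x => Nat.mul (lk tu144b (Nat.mod x 16)) (lk tv144b (Nat.mod x 9)))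
    (by intro x; rw [ch144b, pc_nat, tc_nat, tc_nat]; exact Nat.cast_mul _ _) (by norm_num)
    (by decide +kernel) (by decide +kernel)

theorem fv112a : FC 7 13 (tc 7 13 tv112a) := fc_of_check (by norm_num) (by decide +kernel)

theorem fu112a : FC 16 13 (tc 16 13 tu112a) := fc_of_check (by norm_num) (by decide +kernel)

/-- the character `112a` -/
def ch112a : ZMod (16 * 7) → ZMod 13 := pc 16 7 13 (tc 16 13 tu112a) (tc 7 13 tv112a)

theorem good112a : GoodChar (16 * 7) 13 ch112a :=
  good_of (fu112a.pc fv112a) (fun x => Nat.mul (lk tu112a (Nat.mod x 16)) (lk tv112a (Nat.mod x 7)))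
    (by intro x; rw [ch112a, pc_nat, tc_nat, tc_nat]; exact Nat.cast_mul _ _) (by norm_num)
    (by decide +kernel) (by decide +kernel)

theorem fv117a : FC 13 7 (tc 13 7 tv117a) := fc_of_check (by norm_num) (by decide +kernel)

theorem fu117a : FC 9 7 (tc 9 7 tu117a) := fc_of_check (by norm_num) (by decide +kernel)

/-- the character `117a` -/
def ch117a : ZMod (9 * 13) → ZMod 7 := pc 9 13 7 (tc 9 7 tu117a) (tc 13 7 tv117a)

theorem good117a : GoodChar (9 * 13) 7 ch117a :=
  good_of (fu117a.pc fv117a) (fun x => Nat.mul (lk tu117a (Nat.mod x 9)) (lk tv117a (Nat.mod x 13)))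
    (by intro x; rw [ch117a, pc_nat, tc_nat, tc_nat]; exact Nat.cast_mul _ _) (by norm_num)
    (by decide +kernel) (by decide +kernel)

theorem fv140a : FC 7 13 (tc 7 13 tv140a) := fc_of_check (by norm_num) (by decide +kernel)

theorem fa140a : FC 4 13 (tc 4 13 ta140a) := fc_of_check (by norm_num) (by decide +kernel)

theorem fb140a : FC 5 13 (tc 5 13 tb140a) := fc_of_check (by norm_num) (by decide +kernel)

/-- the character `140a` -/
def ch140a : ZMod (4 * 5 * 7) → ZMod 13 :=
  pc (4 * 5) 7 13 (pc 4 5 13 (tc 4 13 ta140a) (tc 5 13 tb140a)) (tc 7 13 tv140a)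

theorem good140a : GoodChar (4 * 5 * 7) 13 ch140a :=
  good_of ((fa140a.pc fb140a).pc fv140a) (fun x => Nat.mul (Nat.mul (lk ta140a (Nat.mod x 4))
      (lk tb140a (Nat.mod x 5))) (lk tv140a (Nat.mod x 7)))
    (by intro x; rw [ch140a, pc_nat, pc_nat, tc_nat, tc_nat, tc_nat]; exact (Nat.cast_mul _ _).trans (congrArg (· * _) (Nat.cast_mul _ _)))
    (by norm_num) (by decide +kernel) (by decide +kernel)

theorem fv105a : FC 7 13 (tc 7 13 tv105a) := fc_of_check (by norm_num) (by decide +kernel)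

theorem fa105a : FC 3 13 (tc 3 13 ta105a) := fc_of_check (by norm_num) (by decide +kernel)

theorem fb105a : FC 5 13 (tc 5 13 tb105a) := fc_of_check (by norm_num) (by decide +kernel)

/-- the character `105a` -/
def ch105a : ZMod (3 * 5 * 7) → ZMod 13 :=
  pc (3 * 5) 7 13 (pc 3 5 13 (tc 3 13 ta105a) (tc 5 13 tb105a)) (tc 7 13 tv105a)

theorem good105a : GoodChar (3 * 5 * 7) 13 ch105a :=
  good_of ((fa105a.pc fb105a).pc fv105a) (fun x => Nat.mul (Nat.mul (lk ta105a (Nat.mod x 3))
      (lk tb105a (Nat.mod x 5))) (lk tv105a (Nat.mod x 7)))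
    (by intro x; rw [ch105a, pc_nat, pc_nat, tc_nat, tc_nat, tc_nat]; exact (Nat.cast_mul _ _).trans (congrArg (· * _) (Nat.cast_mul _ _)))
    (by norm_num) (by decide +kernel) (by decide +kernel)

theorem fv143a : FC 13 5 (tc 13 5 tv143a) := fc_of_check (by norm_num) (by decide +kernel)

theorem fu143a : FC 11 5 (tc 11 5 tu143a) := fc_of_check (by norm_num) (by decide +kernel)

/-- the character `143a` -/
def ch143a : ZMod (11 * 13) → ZMod 5 := pc 11 13 5 (tc 11 5 tu143a) (tc 13 5 tv143a)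

theorem good143a : GoodChar (11 * 13) 5 ch143a :=
  good_of (fu143a.pc fv143a) (fun x => Nat.mul (lk tu143a (Nat.mod x 11)) (lk tv143a (Nat.mod x 13)))
    (by intro x; rw [ch143a, pc_nat, tc_nat, tc_nat]; exact Nat.cast_mul _ _) (by norm_num)
    (by decide +kernel) (by decide +kernel)

theorem fv143xa : FC 13 7 (tc 13 7 tv143xa) := fc_of_check (by norm_num) (by decide +kernel)

theorem fu143xa : FC 11 7 (tc 11 7 tu143xa) := fc_of_check (by norm_num) (by decide +kernel)

/-- the character `143xa` -/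
def ch143xa : ZMod (11 * 13) → ZMod 7 := pc 11 13 7 (tc 11 7 tu143xa) (tc 13 7 tv143xa)

theorem good143xa : GoodChar (11 * 13) 7 ch143xa :=
  good_of (fu143xa.pc fv143xa) (fun x => Nat.mul (lk tu143xa (Nat.mod x 11)) (lk tv143xa (Nat.mod x 13)))
    (by intro x; rw [ch143xa, pc_nat, tc_nat, tc_nat]; exact Nat.cast_mul _ _) (by norm_num)
    (by decide +kernel) (by decide +kernel)

theorem fv176a : FC 11 5 (tc 11 5 tv176a) := fc_of_check (by norm_num) (by decide +kernel)

theorem fu176a : FC 16 5 (tc 16 5 tu176a) := fc_of_check (by norm_num) (by decide +kernel)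

/-- the character `176a` -/
def ch176a : ZMod (16 * 11) → ZMod 5 := pc 16 11 5 (tc 16 5 tu176a) (tc 11 5 tv176a)

theorem good176a : GoodChar (16 * 11) 5 ch176a :=
  good_of (fu176a.pc fv176a) (fun x => Nat.mul (lk tu176a (Nat.mod x 16)) (lk tv176a (Nat.mod x 11)))
    (by intro x; rw [ch176a, pc_nat, tc_nat, tc_nat]; exact Nat.cast_mul _ _) (by norm_num)
    (by decide +kernel) (by decide +kernel)

theorem fv315a : FC 7 13 (tc 7 13 tv315a) := fc_of_check (by norm_num) (by decide +kernel)

theorem fa315a : FC 9 13 (tc 9 13 ta315a) := fc_of_check (by norm_num) (by decide +kernel)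

theorem fb315a : FC 5 13 (tc 5 13 tb315a) := fc_of_check (by norm_num) (by decide +kernel)

/-- the character `315a` -/
def ch315a : ZMod (9 * 5 * 7) → ZMod 13 :=
  pc (9 * 5) 7 13 (pc 9 5 13 (tc 9 13 ta315a) (tc 5 13 tb315a)) (tc 7 13 tv315a)

theorem good315a : GoodChar (9 * 5 * 7) 13 ch315a :=
  good_of ((fa315a.pc fb315a).pc fv315a) (fun x => Nat.mul (Nat.mul (lk ta315a (Nat.mod x 9))
      (lk tb315a (Nat.mod x 5))) (lk tv315a (Nat.mod x 7)))
    (by intro x; rw [ch315a, pc_nat, pc_nat, tc_nat, tc_nat, tc_nat]; exact (Nat.cast_mul _ _).trans (congrArg (· * _) (Nat.cast_mul _ _)))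
    (by norm_num) (by decide +kernel) (by decide +kernel)

end CN94.K
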