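import Pool.Agent.Lib_CN94.KGood

/-!
# The tests for the single characters
-/

namespace CN94.K

/-- the class of `(B, N)` modulo the even number `q = 2 h` has index `i` -/
def CE (q h : ℕ) (B N : ℤ) (i : ℕ) : Prop :=
  i < h * h ∧ (B : ZMod q) = ((2 * (i / h) + 1 : ℕ) : ZMod q) ∧
    (N : ZMod q) = ((2 * (i % h) + 1 : ℕ) : ZMod q)

/-- the class of `(B, N)` modulo the odd number `q` has index `i` -/
def CO (q nd Es : ℕ) (B N : ℤ) (i : ℕ) : Prop :=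
  i < q * nd ∧ (B : ZMod q) = ((i / nd : ℕ) : ZMod q) ∧
    ((B ^ 2 - 4 * N : ℤ) : ZMod q) = -((lk Es (i % nd) : ℕ) : ZMod q)

theorem sp_16_13 : Sp 16 13 65 144 := ⟨by norm_num, by norm_num, by norm_num, by norm_num, by norm_num, by norm_num⟩

theorem t208a_3 {B N m : ℤ} {i j b' m' : ℕ} (h1 : CE 16 8 B N i) (h2 : CO 13 6 0x25678b B N j)
    (hrel : Rel (16 * 13) 5 ch208a (3 : ℕ) B N m)
    (hb : (b' : ZMod 5) = (B : ZMod 5)) (hm : (m' : ZMod 5) = (m : ZMod 5)) :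
    ts 5 S0_208a_3 S1_208a S2_208a_3 (78 * i + j) b' m' = true :=
  rel_test sp_16_13 (n1 := 64) (n2 := 78) (c1 := (cE 16 8 tu208a)) (c2 := (cO 13 6 0x25678b tv208a))
    (ue_rp 3744 16 8 tu208a) (uo_rp 48 13 6 0x25678b tv208a)
    (fun i x y => ((lk_lt _ _).le).trans (by norm_num)) (fun i x y => (lk_lt _ _).le)
    (by norm_num) (by norm_num) (by norm_num) (by decide) (by decide) h1.1 h2.1
    (ue_UR h1.2.1 h1.2.2) (uo_UR fv208a h2.2.1 h2.2.2) hrel hb hm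

theorem t208a_4 {B N m : ℤ} {i j b' m' : ℕ} (h1 : CE 16 8 B N i) (h2 : CO 13 6 0x25678b B N j)
    (hrel : Rel (16 * 13) 5 ch208a (4 : ℕ) B N m)
    (hb : (b' : ZMod 5) = (B : ZMod 5)) (hm : (m' : ZMod 5) = (m : ZMod 5)) :
    ts 5 S0_208a_4 S1_208a S2_208a_4 (78 * i + j) b' m' = true :=
  rel_test sp_16_13 (n1 := 64) (n2 := 78) (c1 := (cE 16 8 tu208a)) (c2 := (cO 13 6 0x25678b tv208a))
    (ue_rp 3744 16 8 tu208a) (uo_rp 48 13 6 0x25678b tv208a)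
    (fun i x y => ((lk_lt _ _).le).trans (by norm_num)) (fun i x y => (lk_lt _ _).le)
    (by norm_num) (by norm_num) (by norm_num) (by decide) (by decide) h1.1 h2.1
    (ue_UR h1.2.1 h1.2.2) (uo_UR fv208a h2.2.1 h2.2.2) hrel hb hm

theorem t208b_3 {B N m : ℤ} {i j b' m' : ℕ} (h1 : CE 16 8 B N i) (h2 : CO 13 6 0x25678b B N j)
    (hrel : Rel (16 * 13) 5 ch208b (3 : ℕ) B N m)
    (hb : (b' : ZMod 5) = (B : ZMod 5)) (hm : (m' : ZMod 5) = (m : ZMod 5)) :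
    ts 5 S0_208b_3 S1_208b S2_208b_3 (78 * i + j) b' m' = true :=
  rel_test sp_16_13 (n1 := 64) (n2 := 78) (c1 := (cE 16 8 tu208b)) (c2 := (cO 13 6 0x25678b tv208b))
    (ue_rp 3744 16 8 tu208b) (uo_rp 48 13 6 0x25678b tv208b)
    (fun i x y => ((lk_lt _ _).le).trans (by norm_num)) (fun i x y => (lk_lt _ _).le)
    (by norm_num) (by norm_num) (by norm_num) (by decide) (by decide) h1.1 h2.1
    (ue_UR h1.2.1 h1.2.2) (uo_UR fv208b h2.2.1 h2.2.2) hrel hb hm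

theorem t208b_4 {B N m : ℤ} {i j b' m' : ℕ} (h1 : CE 16 8 B N i) (h2 : CO 13 6 0x25678b B N j)
    (hrel : Rel (16 * 13) 5 ch208b (4 : ℕ) B N m)
    (hb : (b' : ZMod 5) = (B : ZMod 5)) (hm : (m' : ZMod 5) = (m : ZMod 5)) :
    ts 5 S0_208b_4 S1_208b S2_208b_4 (78 * i + j) b' m' = true :=
  rel_test sp_16_13 (n1 := 64) (n2 := 78) (c1 := (cE 16 8 tu208b)) (c2 := (cO 13 6 0x25678b tv208b))
    (ue_rp 3744 16 8 tu208b) (uo_rp 48 13 6 0x25678b tv208b)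
    (fun i x y => ((lk_lt _ _).le).trans (by norm_num)) (fun i x y => (lk_lt _ _).le)
    (by norm_num) (by norm_num) (by norm_num) (by decide) (by decide) h1.1 h2.1
    (ue_UR h1.2.1 h1.2.2) (uo_UR fv208b h2.2.1 h2.2.2) hrel hb hm

theorem t208c_3 {B N m : ℤ} {i j b' m' : ℕ} (h1 : CE 16 8 B N i) (h2 : CO 13 6 0x25678b B N j)
    (hrel : Rel (16 * 13) 5 ch208c (3 : ℕ) B N m)
    (hb : (b' : ZMod 5) = (B : ZMod 5)) (hm : (m' : ZMod 5) = (m : ZMod 5)) :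
    ts 5 S0_208c_3 S1_208c S2_208c_3 (78 * i + j) b' m' = true :=
  rel_test sp_16_13 (n1 := 64) (n2 := 78) (c1 := (cE 16 8 tu208c)) (c2 := (cO 13 6 0x25678b tv208c))
    (ue_rp 3744 16 8 tu208c) (uo_rp 48 13 6 0x25678b tv208c)
    (fun i x y => ((lk_lt _ _).le).trans (by norm_num)) (fun i x y => (lk_lt _ _).le)
    (by norm_num) (by norm_num) (by norm_num) (by decide) (by decide) h1.1 h2.1
    (ue_UR h1.2.1 h1.2.2) (uo_UR fv208c h2.2.1 h2.2.2) hrel hb hm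

theorem t208c_4 {B N m : ℤ} {i j b' m' : ℕ} (h1 : CE 16 8 B N i) (h2 : CO 13 6 0x25678b B N j)
    (hrel : Rel (16 * 13) 5 ch208c (4 : ℕ) B N m)
    (hb : (b' : ZMod 5) = (B : ZMod 5)) (hm : (m' : ZMod 5) = (m : ZMod 5)) :
    ts 5 S0_208c_4 S1_208c S2_208c_4 (78 * i + j) b' m' = true :=
  rel_test sp_16_13 (n1 := 64) (n2 := 78) (c1 := (cE 16 8 tu208c)) (c2 := (cO 13 6 0x25678b tv208c))
    (ue_rp 3744 16 8 tu208c) (uo_rp 48 13 6 0x25678b tv208c)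
    (fun i x y => ((lk_lt _ _).le).trans (by norm_num)) (fun i x y => (lk_lt _ _).le)
    (by norm_num) (by norm_num) (by norm_num) (by decide) (by decide) h1.1 h2.1
    (ue_UR h1.2.1 h1.2.2) (uo_UR fv208c h2.2.1 h2.2.2) hrel hb hm

theorem sp_16_9 : Sp 16 9 81 64 := ⟨by norm_num, by norm_num, by norm_num, by norm_num, by norm_num, by norm_num⟩

theorem t144a_3 {B N m : ℤ} {i j b' m' : ℕ} (h1 : CE 16 8 B N i) (h2 : CO 9 3 0x147 B N j)
    (hrel : Rel (16 * 9) 13 ch144a (3 : ℕ) B N m)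
    (hb : (b' : ZMod 13) = (B : ZMod 13)) (hm : (m' : ZMod 13) = (m : ZMod 13)) :
    ts 13 S0_144a_3 S1_144a S2_144a_3 (27 * i + j) b' m' = true :=
  rel_test sp_16_9 (n1 := 64) (n2 := 27) (c1 := (cE 16 8 tu144a)) (c2 := (cO 9 3 0x147 tv144a))
    (ue_rp 1296 16 8 tu144a) (uo_rp 48 9 3 0x147 tv144a)
    (fun i x y => ((lk_lt _ _).le).trans (by norm_num)) (fun i x y => (lk_lt _ _).le)
    (by norm_num) (by norm_num) (by norm_num) (by decide) (by decide) h1.1 h2.1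
    (ue_UR h1.2.1 h1.2.2) (uo_UR fv144a h2.2.1 h2.2.2) hrel hb hm

theorem t144a_4 {B N m : ℤ} {i j b' m' : ℕ} (h1 : CE 16 8 B N i) (h2 : CO 9 3 0x147 B N j)
    (hrel : Rel (16 * 9) 13 ch144a (4 : ℕ) B N m)
    (hb : (b' : ZMod 13) = (B : ZMod 13)) (hm : (m' : ZMod 13) = (m : ZMod 13)) :
    ts 13 S0_144a_4 S1_144a S2_144a_4 (27 * i + j) b' m' = true :=
  rel_test sp_16_9 (n1 := 64) (n2 := 27) (c1 := (cE 16 8 tu144a)) (c2 := (cO 9 3 0x147 tv144a))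
    (ue_rp 1296 16 8 tu144a) (uo_rp 48 9 3 0x147 tv144a)
    (fun i x y => ((lk_lt _ _).le).trans (by norm_num)) (fun i x y => (lk_lt _ _).le)
    (by norm_num) (by norm_num) (by norm_num) (by decide) (by decide) h1.1 h2.1
    (ue_UR h1.2.1 h1.2.2) (uo_UR fv144a h2.2.1 h2.2.2) hrel hb hm

theorem t144b_3 {B N m : ℤ} {i j b' m' : ℕ} (h1 : CE 16 8 B N i) (h2 : CO 9 3 0x147 B N j)
    (hrel : Rel (16 * 9) 13 ch144b (3 : ℕ) B N m)
    (hb : (b' : ZMod 13) = (B : ZMod 13)) (hm : (m' : ZMod 13) = (m : ZMod 13)) :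
    ts 13 S0_144b_3 S1_144b S2_144b_3 (27 * i + j) b' m' = true :=
  rel_test sp_16_9 (n1 := 64) (n2 := 27) (c1 := (cE 16 8 tu144b)) (c2 := (cO 9 3 0x147 tv144b))
    (ue_rp 1296 16 8 tu144b) (uo_rp 48 9 3 0x147 tv144b)
    (fun i x y => ((lk_lt _ _).le).trans (by norm_num)) (fun i x y => (lk_lt _ _).le)
    (by norm_num) (by norm_num) (by norm_num) (by decide) (by decide) h1.1 h2.1
    (ue_UR h1.2.1 h1.2.2) (uo_UR fv144b h2.2.1 h2.2.2) hrel hb hm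

theorem t144b_4 {B N m : ℤ} {i j b' m' : ℕ} (h1 : CE 16 8 B N i) (h2 : CO 9 3 0x147 B N j)
    (hrel : Rel (16 * 9) 13 ch144b (4 : ℕ) B N m)
    (hb : (b' : ZMod 13) = (B : ZMod 13)) (hm : (m' : ZMod 13) = (m : ZMod 13)) :
    ts 13 S0_144b_4 S1_144b S2_144b_4 (27 * i + j) b' m' = true :=
  rel_test sp_16_9 (n1 := 64) (n2 := 27) (c1 := (cE 16 8 tu144b)) (c2 := (cO 9 3 0x147 tv144b))
    (ue_rp 1296 16 8 tu144b) (uo_rp 48 9 3 0x147 tv144b)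
    (fun i x y => ((lk_lt _ _).le).trans (by norm_num)) (fun i x y => (lk_lt _ _).le)
    (by norm_num) (by norm_num) (by norm_num) (by decide) (by decide) h1.1 h2.1
    (ue_UR h1.2.1 h1.2.2) (uo_UR fv144b h2.2.1 h2.2.2) hrel hb hm

theorem sp_16_7 : Sp 16 7 49 64 := ⟨by norm_num, by norm_num, by norm_num, by norm_num, by norm_num, by norm_num⟩

theorem t112a_3 {B N m : ℤ} {i j b' m' : ℕ} (h1 : CE 16 8 B N i) (h2 : CO 7 3 0x124 B N j)
    (hrel : Rel (16 * 7) 13 ch112a (3 : ℕ) B N m)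
    (hb : (b' : ZMod 13) = (B : ZMod 13)) (hm : (m' : ZMod 13) = (m : ZMod 13)) :
    ts 13 S0_112a_3 S1_112a S2_112a_3 (21 * i + j) b' m' = true :=
  rel_test sp_16_7 (n1 := 64) (n2 := 21) (c1 := (cE 16 8 tu112a)) (c2 := (cO 7 3 0x124 tv112a))
    (ue_rp 1008 16 8 tu112a) (uo_rp 48 7 3 0x124 tv112a)
    (fun i x y => ((lk_lt _ _).le).trans (by norm_num)) (fun i x y => (lk_lt _ _).le)
    (by norm_num) (by norm_num) (by norm_num) (by decide) (by decide) h1.1 h2.1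
    (ue_UR h1.2.1 h1.2.2) (uo_UR fv112a h2.2.1 h2.2.2) hrel hb hm

theorem t112a_4 {B N m : ℤ} {i j b' m' : ℕ} (h1 : CE 16 8 B N i) (h2 : CO 7 3 0x124 B N j)
    (hrel : Rel (16 * 7) 13 ch112a (4 : ℕ) B N m)
    (hb : (b' : ZMod 13) = (B : ZMod 13)) (hm : (m' : ZMod 13) = (m : ZMod 13)) :
    ts 13 S0_112a_4 S1_112a S2_112a_4 (21 * i + j) b' m' = true :=
  rel_test sp_16_7 (n1 := 64) (n2 := 21) (c1 := (cE 16 8 tu112a)) (c2 := (cO 7 3 0x124 tv112a))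
    (ue_rp 1008 16 8 tu112a) (uo_rp 48 7 3 0x124 tv112a)
    (fun i x y => ((lk_lt _ _).le).trans (by norm_num)) (fun i x y => (lk_lt _ _).le)
    (by norm_num) (by norm_num) (by norm_num) (by decide) (by decide) h1.1 h2.1
    (ue_UR h1.2.1 h1.2.2) (uo_UR fv112a h2.2.1 h2.2.2) hrel hb hm

theorem sp_9_13 : Sp 9 13 91 27 := ⟨by norm_num, by norm_num, by norm_num, by norm_num, by norm_num, by norm_num⟩

theorem t117a_3 {B N m : ℤ} {i j b' m' : ℕ} (h1 : CO 9 3 0x147 B N i) (h2 : CO 13 6 0x25678b B N j)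
    (hrel : Rel (9 * 13) 7 ch117a (3 : ℕ) B N m)
    (hb : (b' : ZMod 7) = (B : ZMod 7)) (hm : (m' : ZMod 7) = (m : ZMod 7)) :
    ts 7 S0_117a_3 S1_117a S2_117a_3 (78 * i + j) b' m' = true :=
  rel_test sp_9_13 (n1 := 27) (n2 := 78) (c1 := (cO 9 3 0x147 tu117a)) (c2 := (cO 13 6 0x25678b tv117a))
    (uo_rp 3744 9 3 0x147 tu117a) (uo_rp 48 13 6 0x25678b tv117a)
    (fun i x y => ((lk_lt _ _).le).trans (by norm_num)) (fun i x y => (lk_lt _ _).le)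
    (by norm_num) (by norm_num) (by norm_num) (by decide) (by decide) h1.1 h2.1
    (uo_UR fu117a h1.2.1 h1.2.2) (uo_UR fv117a h2.2.1 h2.2.2) hrel hb hm

theorem t117a_4 {B N m : ℤ} {i j b' m' : ℕ} (h1 : CO 9 3 0x147 B N i) (h2 : CO 13 6 0x25678b B N j)
    (hrel : Rel (9 * 13) 7 ch117a (4 : ℕ) B N m)
    (hb : (b' : ZMod 7) = (B : ZMod 7)) (hm : (m' : ZMod 7) = (m : ZMod 7)) :
    ts 7 S0_117a_4 S1_117a S2_117a_4 (78 * i + j) b' m' = true :=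
  rel_test sp_9_13 (n1 := 27) (n2 := 78) (c1 := (cO 9 3 0x147 tu117a)) (c2 := (cO 13 6 0x25678b tv117a))
    (uo_rp 3744 9 3 0x147 tu117a) (uo_rp 48 13 6 0x25678b tv117a)
    (fun i x y => ((lk_lt _ _).le).trans (by norm_num)) (fun i x y => (lk_lt _ _).le)
    (by norm_num) (by norm_num) (by norm_num) (by decide) (by decide) h1.1 h2.1
    (uo_UR fu117a h1.2.1 h1.2.2) (uo_UR fv117a h2.2.1 h2.2.2) hrel hb hm

theorem sp_20_7 : Sp 20 7 21 120 := ⟨by norm_num, by norm_num, by norm_num, by norm_num, by norm_num, by norm_num⟩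

theorem t140a_3 {B N m : ℤ} {ia ib j b' m' : ℕ} (ha : CE 4 2 B N ia) (hb' : CO 5 2 0x23 B N ib)
    (h2 : CO 7 3 0x124 B N j) (hrel : Rel (4 * 5 * 7) 13 ch140a (3 : ℕ) B N m)
    (hb : (b' : ZMod 13) = (B : ZMod 13)) (hm : (m' : ZMod 13) = (m : ZMod 13)) :
    ts 13 S0_140a_3 S1_140a S2_140a_3 (21 * (10 * ia + ib) + j) b' m' = true := by
  have hi : 10 * ia + ib < 40 := by have := ha.1; have := hb'.1; omega
  have hd : (10 * ia + ib) / 10 = ia := by have := hb'.1; omega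
  have hmd : (10 * ia + ib) % 10 = ib := by have := hb'.1; omega
  exact rel_test sp_20_7 (n1 := 40) (n2 := 21)
    (c1 := cP 4 5 10 (cE 4 2 ta140a) (cO 5 2 0x23 tb140a)) (c2 := (cO 7 3 0x124 tv140a))
    (up_rp (w := 1008) (na := 4) (nb := 10) (ue_rp 10080 4 2 ta140a) (uo_rp 1008 5 2 0x23 tb140a)) (uo_rp 48 7 3 0x124 tv140a)
    (fun i x y => (Nat.mul_le_mul (lk_lt _ _).le (lk_lt _ _).le)) (fun i x y => (lk_lt _ _).le)
    (by norm_num) (by norm_num) (by norm_num) (by decide) (by decide) hi h2.1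
    (up_UR hd hmd (ue_UR ha.2.1 ha.2.2) (uo_UR fb140a hb'.2.1 hb'.2.2)) (uo_UR fv140a h2.2.1 h2.2.2) hrel hb hm

theorem t140a_4 {B N m : ℤ} {ia ib j b' m' : ℕ} (ha : CE 4 2 B N ia) (hb' : CO 5 2 0x23 B N ib)
    (h2 : CO 7 3 0x124 B N j) (hrel : Rel (4 * 5 * 7) 13 ch140a (4 : ℕ) B N m)
    (hb : (b' : ZMod 13) = (B : ZMod 13)) (hm : (m' : ZMod 13) = (m : ZMod 13)) :
    ts 13 S0_140a_4 S1_140a S2_140a_4 (21 * (10 * ia + ib) + j) b' m' = true := by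
  have hi : 10 * ia + ib < 40 := by have := ha.1; have := hb'.1; omega
  have hd : (10 * ia + ib) / 10 = ia := by have := hb'.1; omega
  have hmd : (10 * ia + ib) % 10 = ib := by have := hb'.1; omega
  exact rel_test sp_20_7 (n1 := 40) (n2 := 21)
    (c1 := cP 4 5 10 (cE 4 2 ta140a) (cO 5 2 0x23 tb140a)) (c2 := (cO 7 3 0x124 tv140a))
    (up_rp (w := 1008) (na := 4) (nb := 10) (ue_rp 10080 4 2 ta140a) (uo_rp 1008 5 2 0x23 tb140a)) (uo_rp 48 7 3 0x124 tv140a)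
    (fun i x y => (Nat.mul_le_mul (lk_lt _ _).le (lk_lt _ _).le)) (fun i x y => (lk_lt _ _).le)
    (by norm_num) (by norm_num) (by norm_num) (by decide) (by decide) hi h2.1
    (up_UR hd hmd (ue_UR ha.2.1 ha.2.2) (uo_UR fb140a hb'.2.1 hb'.2.2)) (uo_UR fv140a h2.2.1 h2.2.2) hrel hb hm

theorem sp_15_7 : Sp 15 7 91 15 := ⟨by norm_num, by norm_num, by norm_num, by norm_num, by norm_num, by norm_num⟩

theorem t105a_3 {B N m : ℤ} {ia ib j b' m' : ℕ} (ha : CO 3 1 0x1 B N ia) (hb' : CO 5 2 0x23 B N ib)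
    (h2 : CO 7 3 0x124 B N j) (hrel : Rel (3 * 5 * 7) 13 ch105a (3 : ℕ) B N m)
    (hb : (b' : ZMod 13) = (B : ZMod 13)) (hm : (m' : ZMod 13) = (m : ZMod 13)) :
    ts 13 S0_105a_3 S1_105a S2_105a_3 (21 * (10 * ia + ib) + j) b' m' = true := by
  have hi : 10 * ia + ib < 30 := by have := ha.1; have := hb'.1; omega
  have hd : (10 * ia + ib) / 10 = ia := by have := hb'.1; omega
  have hmd : (10 * ia + ib) % 10 = ib := by have := hb'.1; omega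
  exact rel_test sp_15_7 (n1 := 30) (n2 := 21)
    (c1 := cP 3 5 10 (cO 3 1 0x1 ta105a) (cO 5 2 0x23 tb105a)) (c2 := (cO 7 3 0x124 tv105a))
    (up_rp (w := 1008) (na := 3) (nb := 10) (uo_rp 10080 3 1 0x1 ta105a) (uo_rp 1008 5 2 0x23 tb105a)) (uo_rp 48 7 3 0x124 tv105a)
    (fun i x y => (Nat.mul_le_mul (lk_lt _ _).le (lk_lt _ _).le)) (fun i x y => (lk_lt _ _).le)
    (by norm_num) (by norm_num) (by norm_num) (by decide) (by decide) hi h2.1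
    (up_UR hd hmd (uo_UR fa105a ha.2.1 ha.2.2) (uo_UR fb105a hb'.2.1 hb'.2.2)) (uo_UR fv105a h2.2.1 h2.2.2) hrel hb hm

theorem t105a_4 {B N m : ℤ} {ia ib j b' m' : ℕ} (ha : CO 3 1 0x1 B N ia) (hb' : CO 5 2 0x23 B N ib)
    (h2 : CO 7 3 0x124 B N j) (hrel : Rel (3 * 5 * 7) 13 ch105a (4 : ℕ) B N m)
    (hb : (b' : ZMod 13) = (B : ZMod 13)) (hm : (m' : ZMod 13) = (m : ZMod 13)) :
    ts 13 S0_105a_4 S1_105a S2_105a_4 (21 * (10 * ia + ib) + j) b' m' = true := by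
  have hi : 10 * ia + ib < 30 := by have := ha.1; have := hb'.1; omega
  have hd : (10 * ia + ib) / 10 = ia := by have := hb'.1; omega
  have hmd : (10 * ia + ib) % 10 = ib := by have := hb'.1; omega
  exact rel_test sp_15_7 (n1 := 30) (n2 := 21)
    (c1 := cP 3 5 10 (cO 3 1 0x1 ta105a) (cO 5 2 0x23 tb105a)) (c2 := (cO 7 3 0x124 tv105a))
    (up_rp (w := 1008) (na := 3) (nb := 10) (uo_rp 10080 3 1 0x1 ta105a) (uo_rp 1008 5 2 0x23 tb105a)) (uo_rp 48 7 3 0x124 tv105a)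
    (fun i x y => (Nat.mul_le_mul (lk_lt _ _).le (lk_lt _ _).le)) (fun i x y => (lk_lt _ _).le)
    (by norm_num) (by norm_num) (by norm_num) (by decide) (by decide) hi h2.1
    (up_UR hd hmd (uo_UR fa105a ha.2.1 ha.2.2) (uo_UR fb105a hb'.2.1 hb'.2.2)) (uo_UR fv105a h2.2.1 h2.2.2) hrel hb hm

theorem sp_11_13 : Sp 11 13 78 66 := ⟨by norm_num, by norm_num, by norm_num, by norm_num, by norm_num, by norm_num⟩

theorem t143a_3 {B N m : ℤ} {i j b' m' : ℕ} (h1 : CO 11 5 0x13459 B N i) (h2 : CO 13 6 0x25678b B N j)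
    (hrel : Rel (11 * 13) 5 ch143a (3 : ℕ) B N m)
    (hb : (b' : ZMod 5) = (B : ZMod 5)) (hm : (m' : ZMod 5) = (m : ZMod 5)) :
    ts 5 S0_143a_3 S1_143a S2_143a_3 (78 * i + j) b' m' = true :=
  rel_test sp_11_13 (n1 := 55) (n2 := 78) (c1 := (cO 11 5 0x13459 tu143a)) (c2 := (cO 13 6 0x25678b tv143a))
    (uo_rp 3744 11 5 0x13459 tu143a) (uo_rp 48 13 6 0x25678b tv143a)
    (fun i x y => ((lk_lt _ _).le).trans (by norm_num)) (fun i x y => (lk_lt _ _).le)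
    (by norm_num) (by norm_num) (by norm_num) (by decide) (by decide) h1.1 h2.1
    (uo_UR fu143a h1.2.1 h1.2.2) (uo_UR fv143a h2.2.1 h2.2.2) hrel hb hm

theorem t143xa_3 {B N m : ℤ} {i j b' m' : ℕ} (h1 : CO 11 5 0x13459 B N i) (h2 : CO 13 6 0x25678b B N j)
    (hrel : Rel (11 * 13) 7 ch143xa (3 : ℕ) B N m)
    (hb : (b' : ZMod 7) = (B : ZMod 7)) (hm : (m' : ZMod 7) = (m : ZMod 7)) :
    ts 7 S0_143xa_3 S1_143xa S2_143xa_3 (78 * i + j) b' m' = true :=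
  rel_test sp_11_13 (n1 := 55) (n2 := 78) (c1 := (cO 11 5 0x13459 tu143xa)) (c2 := (cO 13 6 0x25678b tv143xa))
    (uo_rp 3744 11 5 0x13459 tu143xa) (uo_rp 48 13 6 0x25678b tv143xa)
    (fun i x y => ((lk_lt _ _).le).trans (by norm_num)) (fun i x y => (lk_lt _ _).le)
    (by norm_num) (by norm_num) (by norm_num) (by decide) (by decide) h1.1 h2.1
    (uo_UR fu143xa h1.2.1 h1.2.2) (uo_UR fv143xa h2.2.1 h2.2.2) hrel hb hm

theorem sp_16_11 : Sp 16 11 33 144 := ⟨by norm_num, by norm_num, by norm_num, by norm_num, by norm_num, by norm_num⟩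

theorem t176a_3 {B N m : ℤ} {i j b' m' : ℕ} (h1 : CE 16 8 B N i) (h2 : CO 11 5 0x13459 B N j)
    (hrel : Rel (16 * 11) 5 ch176a (3 : ℕ) B N m)
    (hb : (b' : ZMod 5) = (B : ZMod 5)) (hm : (m' : ZMod 5) = (m : ZMod 5)) :
    ts 5 S0_176a_3 S1_176a S2_176a_3 (55 * i + j) b' m' = true :=
  rel_test sp_16_11 (n1 := 64) (n2 := 55) (c1 := (cE 16 8 tu176a)) (c2 := (cO 11 5 0x13459 tv176a))
    (ue_rp 2640 16 8 tu176a) (uo_rp 48 11 5 0x13459 tv176a)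
    (fun i x y => ((lk_lt _ _).le).trans (by norm_num)) (fun i x y => (lk_lt _ _).le)
    (by norm_num) (by norm_num) (by norm_num) (by decide) (by decide) h1.1 h2.1
    (ue_UR h1.2.1 h1.2.2) (uo_UR fv176a h2.2.1 h2.2.2) hrel hb hm

theorem sp_45_7 : Sp 45 7 91 225 := ⟨by norm_num, by norm_num, by norm_num, by norm_num, by norm_num, by norm_num⟩

theorem t315a_4 {B N m : ℤ} {ia ib j b' m' : ℕ} (ha : CO 9 3 0x147 B N ia) (hb' : CO 5 2 0x23 B N ib)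
    (h2 : CO 7 3 0x124 B N j) (hrel : Rel (9 * 5 * 7) 13 ch315a (4 : ℕ) B N m)
    (hb : (b' : ZMod 13) = (B : ZMod 13)) (hm : (m' : ZMod 13) = (m : ZMod 13)) :
    ts 13 S0_315a_4 S1_315a S2_315a_4 (21 * (10 * ia + ib) + j) b' m' = true := by
  have hi : 10 * ia + ib < 270 := by have := ha.1; have := hb'.1; omega
  have hd : (10 * ia + ib) / 10 = ia := by have := hb'.1; omega
  have hmd : (10 * ia + ib) % 10 = ib := by have := hb'.1; omega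
  exact rel_test sp_45_7 (n1 := 270) (n2 := 21)
    (c1 := cP 9 5 10 (cO 9 3 0x147 ta315a) (cO 5 2 0x23 tb315a)) (c2 := (cO 7 3 0x124 tv315a))
    (up_rp (w := 1008) (na := 27) (nb := 10) (uo_rp 10080 9 3 0x147 ta315a) (uo_rp 1008 5 2 0x23 tb315a)) (uo_rp 48 7 3 0x124 tv315a)
    (fun i x y => (Nat.mul_le_mul (lk_lt _ _).le (lk_lt _ _).le)) (fun i x y => (lk_lt _ _).le)
    (by norm_num) (by norm_num) (by norm_num) (by decide) (by decide) hi h2.1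
    (up_UR hd hmd (uo_UR fa315a ha.2.1 ha.2.2) (uo_UR fb315a hb'.2.1 hb'.2.2)) (uo_UR fv315a h2.2.1 h2.2.2) hrel hb hm

end CN94.K
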