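import Pool.Agent.Lib_CN94.KCrt

/-!
# The relations imply the tests
-/

namespace CN94.K

open Finset

/-- product of two functions for coprime moduli -/
def pc (q1 q2 r : ℕ) (χ1 : ZMod q1 → ZMod r) (χ2 : ZMod q2 → ZMod r) (x : ZMod (q1 * q2)) :
    ZMod r :=
  χ1 (ZMod.castHom (dvd_mul_right q1 q2) (ZMod q1) x) *
    χ2 (ZMod.castHom (dvd_mul_left q2 q1) (ZMod q2) x)

/-- the table `c` gives the values `κ χ(x² + B x y + N y²)` -/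
def UR (q r : ℕ) (χ : ZMod q → ZMod r) (c : ℕ → ℕ → ℕ) (κ : ZMod r) (B N : ℤ) : Prop :=
  ∀ x y : ℕ, (c x y : ZMod r) = κ * χ (qf q 1 B N (x : ZMod q) (y : ZMod q))

theorem qf_cast {q q' : ℕ} (f : ZMod q →+* ZMod q') (A T C : ℤ) (x y : ZMod q) :
    f (qf q A T C x y) = qf q' A T C (f x) (f y) := by
  simp [qf]

theorem val_cast1 {q1 q2 : ℕ} [NeZero (q1 * q2)] (x : ZMod (q1 * q2)) :
    ((x.val % q1 : ℕ) : ZMod q1) = ZMod.castHom (dvd_mul_right q1 q2) (ZMod q1) x := by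
  rw [ZMod.natCast_mod]
  conv_rhs => rw [← ZMod.natCast_zmod_val x]
  rw [map_natCast]

theorem val_cast2 {q1 q2 : ℕ} [NeZero (q1 * q2)] (x : ZMod (q1 * q2)) :
    ((x.val % q2 : ℕ) : ZMod q2) = ZMod.castHom (dvd_mul_left q2 q1) (ZMod q2) x := by
  rw [ZMod.natCast_mod]
  conv_rhs => rw [← ZMod.natCast_zmod_val x]
  rw [map_natCast]

variable {q1 q2 r : ℕ}

theorem phi_eq [NeZero (q1 * q2)] {χ1 : ZMod q1 → ZMod r} {χ2 : ZMod q2 → ZMod r}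
    {c1 c2 : ℕ → ℕ → ℕ} {κ1 κ2 : ZMod r} {B N : ℤ} (h1 : UR q1 r χ1 c1 κ1 B N)
    (h2 : UR q2 r χ2 c2 κ2 B N) (x y : ZMod (q1 * q2)) :
    (c1 (x.val % q1) (y.val % q1) : ZMod r) * (c2 (x.val % q2) (y.val % q2) : ZMod r) =
      κ1 * κ2 * pc q1 q2 r χ1 χ2 (qf (q1 * q2) 1 B N x y) := by
  rw [h1, h2, pc, qf_cast, qf_cast, val_cast1, val_cast1, val_cast2, val_cast2]
  ring

theorem sh_cast1 [NeZero (q1 * q2)] {kk1 : ℕ} {k : ℤ} (hk1 : (kk1 : ZMod q1) = -(k : ZMod q1))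
    (x y : ZMod (q1 * q2)) : (((y.val % q1 + kk1 * (x.val % q1)) % q1 : ℕ) : ZMod q1) =
      ZMod.castHom (dvd_mul_right q1 q2) (ZMod q1) (y - k * x) := by
  rw [ZMod.natCast_mod, Nat.cast_add, Nat.cast_mul, val_cast1, val_cast1, hk1, map_sub, map_mul,
    map_intCast]
  ring

theorem sh_cast2 [NeZero (q1 * q2)] {kk2 : ℕ} {k : ℤ} (hk2 : (kk2 : ZMod q2) = -(k : ZMod q2))
    (x y : ZMod (q1 * q2)) : (((y.val % q2 + kk2 * (x.val % q2)) % q2 : ℕ) : ZMod q2) =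
      ZMod.castHom (dvd_mul_left q2 q1) (ZMod q2) (y - k * x) := by
  rw [ZMod.natCast_mod, Nat.cast_add, Nat.cast_mul, val_cast2, val_cast2, hk2, map_sub, map_mul,
    map_intCast]
  ring

theorem phi_eq' [NeZero (q1 * q2)] {χ1 : ZMod q1 → ZMod r} {χ2 : ZMod q2 → ZMod r}
    {c1 c2 : ℕ → ℕ → ℕ} {κ1 κ2 : ZMod r} {B N k : ℤ} (h1 : UR q1 r χ1 c1 κ1 B N)
    (h2 : UR q2 r χ2 c2 κ2 B N) {kk1 kk2 : ℕ} (hk1 : (kk1 : ZMod q1) = -(k : ZMod q1))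
    (hk2 : (kk2 : ZMod q2) = -(k : ZMod q2)) (x y : ZMod (q1 * q2)) :
    (shc q1 kk1 c1 (x.val % q1) (y.val % q1) : ZMod r) *
      (shc q2 kk2 c2 (x.val % q2) (y.val % q2) : ZMod r) =
      κ1 * κ2 * pc q1 q2 r χ1 χ2 (qf (q1 * q2) 1 B N x (y - k * x)) := by
  rw [shc, shc, h1, h2, pc, qf_cast, qf_cast, sh_cast1 hk1, sh_cast2 hk2, val_cast1, val_cast2]
  ring

/-- the sum over `z = k x + y` -/
theorem shift_sum {M : Type*} [AddCommMonoid M] (q : ℕ) [NeZero q] (k : ZMod q)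
    (F : ZMod q → ZMod q → M) :
    ∑ x : ZMod q, ∑ z : ZMod q, F x z = ∑ x : ZMod q, ∑ y : ZMod q, F x (k * x + y) := by
  refine sum_congr rfl fun x _ => ?_
  exact (Fintype.sum_equiv (Equiv.addLeft (k * x)) _ _ fun y => rfl).symm

/-- **the relation implies the test** -/
theorem rel_test [NeZero (q1 * q2)] {e1 e2 : ℕ} (hsp : Sp q1 q2 e1 e2) {χ1 : ZMod q1 → ZMod r}
    {χ2 : ZMod q2 → ZMod r} {κ1 κ2 : ZMod r} {k kk1 kk2 n1 n2 : ℕ} {B N m : ℤ}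
    {u1 u2 : ℕ → ℕ → ℕ} {c1 c2 : ℕ → ℕ → ℕ → ℕ}
    (h1 : ∀ x y, Rp (48 * n2) n1 (u1 x y) (fun i => c1 i x y))
    (h2 : ∀ x y, Rp 48 n2 (u2 x y) (fun j => c2 j x y))
    (hc1 : ∀ i x y, c1 i x y ≤ 256) (hc2 : ∀ i x y, c2 i x y ≤ 16) (hr : 1 ≤ r) (hr' : r ≤ 16)
    (hM : (q1 * q2) ^ 2 * 2 ^ 20 * (6 * r + 2 * k) < 2 ^ 48)
    (hk1 : (kk1 : ZMod q1) = -(k : ZMod q1)) (hk2 : (kk2 : ZMod q2) = -(k : ZMod q2))
    {i j : ℕ} (hi : i < n1) (hj : j < n2)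
    (hu1 : UR q1 r χ1 (c1 i) κ1 B N) (hu2 : UR q2 r χ2 (c2 j) κ2 B N)
    (hrel : Rel (q1 * q2) r (pc q1 q2 r χ1 χ2) k B N m) {b' m' : ℕ}
    (hb : (b' : ZMod r) = (B : ZMod r)) (hm : (m' : ZMod r) = (m : ZMod r)) :
    ts r (T0 q1 q2 r k kk1 kk2 (sw (q1 * q2) r e1 e2) (bw (q1 * q2) r e1 e2) u1 u2)
      (TB q1 q2 (bw (q1 * q2) r e1 e2) u1 u2) (T2 q1 q2 kk1 kk2 (bw (q1 * q2) r e1 e2) u1 u2)
      (n2 * i + j) b' m' = true := by
  have hl : n2 * i + j < n1 * n2 := by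
    calc n2 * i + j < n2 * i + n2 := by omega
      _ = n2 * (i + 1) := by ring
      _ ≤ n2 * n1 := Nat.mul_le_mul le_rfl hi
      _ = n1 * n2 := mul_comm _ _
  have hdiv : (n2 * i + j) / n2 = i := by
    rw [Nat.mul_add_div (by omega), Nat.div_eq_of_lt hj, add_zero]
  have hmod : (n2 * i + j) % n2 = j := by
    rw [Nat.mul_add_mod, Nat.mod_eq_of_lt hj]
  obtain ⟨d0, d1, d2⟩ := digits (q1 := q1) (q2 := q2) r k kk1 kk2 (sw (q1 * q2) r e1 e2)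
    (bw (q1 * q2) r e1 e2) h1 h2 hc1 hc2 (sw_le hr hr') (bw_le hr hr') hr hM hl
  rw [hdiv, hmod] at d0 d1 d2
  have hk1' : (kk1 : ZMod q1) = -(((k : ℕ) : ℤ) : ZMod q1) := by rw [hk1]; push_cast; rfl
  have hk2' : (kk2 : ZMod q2) = -(((k : ℕ) : ℤ) : ZMod q2) := by rw [hk2]; push_cast; rfl
  set q := q1 * q2 with hq
  set κ := κ1 * κ2 with hκ
  set χ := pc q1 q2 r χ1 χ2 with hχ
  -- the five sums
  have gA : ((gs q1 q2 (c1 i) (c2 j) (fun x1 x2 y1 y2 => sw q r e1 e2 x1 x2 * sw q r e1 e2 y1 y2) :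
      ℕ) : ZMod r) = κ * ∑ x : ZMod q, ∑ y : ZMod q, χ (qf q 1 B N x y) *
        (((si q x : ℤ) : ZMod r) * ((si q y : ℤ) : ZMod r)) := by
    rw [gs_eq hsp, Nat.cast_sum, mul_sum]
    refine sum_congr rfl fun x _ => ?_
    rw [Nat.cast_sum, mul_sum]
    refine sum_congr rfl fun y _ => ?_
    rw [Nat.cast_mul, Nat.cast_mul, Nat.cast_mul, sw_spec hsp hr, sw_spec hsp hr, phi_eq hu1 hu2]
    ring
  have gX : ((gs q1 q2 (c1 i) (c2 j) (fun x1 x2 _ _ => bw q r e1 e2 x1 x2) :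
      ℕ) : ZMod r) = κ * ∑ x : ZMod q, ∑ y : ZMod q, χ (qf q 1 B N x y) *
        ((bi q x : ℤ) : ZMod r) := by
    rw [gs_eq hsp, Nat.cast_sum, mul_sum]
    refine sum_congr rfl fun x _ => ?_
    rw [Nat.cast_sum, mul_sum]
    refine sum_congr rfl fun y _ => ?_
    rw [Nat.cast_mul, Nat.cast_mul, bw_spec hsp hr, phi_eq hu1 hu2]
    ring
  have gB : ((gs q1 q2 (c1 i) (c2 j) (fun _ _ y1 y2 => bw q r e1 e2 y1 y2) :
      ℕ) : ZMod r) = κ * ∑ x : ZMod q, ∑ y : ZMod q, χ (qf q 1 B N x y) *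
        ((bi q y : ℤ) : ZMod r) := by
    rw [gs_eq hsp, Nat.cast_sum, mul_sum]
    refine sum_congr rfl fun x _ => ?_
    rw [Nat.cast_sum, mul_sum]
    refine sum_congr rfl fun y _ => ?_
    rw [Nat.cast_mul, Nat.cast_mul, bw_spec hsp hr, phi_eq hu1 hu2]
    ring
  have gA' : ((gs q1 q2 (shc q1 kk1 (c1 i)) (shc q2 kk2 (c2 j))
      (fun x1 x2 y1 y2 => sw q r e1 e2 x1 x2 * sw q r e1 e2 y1 y2) :
      ℕ) : ZMod r) = κ * ∑ x : ZMod q, ∑ y : ZMod q, χ (qf q 1 B N x y) *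
        (((si q x : ℤ) : ZMod r) * ((si q ((k : ZMod q) * x + y) : ℤ) : ZMod r)) := by
    rw [gs_eq hsp, Nat.cast_sum]
    rw [sum_congr rfl fun x _ => Nat.cast_sum _ _]
    rw [shift_sum q (k : ZMod q), mul_sum]
    refine sum_congr rfl fun x _ => ?_
    rw [mul_sum]
    refine sum_congr rfl fun y _ => ?_
    rw [Nat.cast_mul, Nat.cast_mul, Nat.cast_mul, sw_spec hsp hr, sw_spec hsp hr,
      phi_eq' hu1 hu2 hk1' hk2']
    rw [Int.cast_natCast, add_sub_cancel_left]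
    ring
  have gB' : ((gs q1 q2 (shc q1 kk1 (c1 i)) (shc q2 kk2 (c2 j))
      (fun _ _ y1 y2 => bw q r e1 e2 y1 y2) :
      ℕ) : ZMod r) = κ * ∑ x : ZMod q, ∑ y : ZMod q, χ (qf q 1 B N x y) *
        ((bi q ((k : ZMod q) * x + y) : ℤ) : ZMod r) := by
    rw [gs_eq hsp, Nat.cast_sum]
    rw [sum_congr rfl fun x _ => Nat.cast_sum _ _]
    rw [shift_sum q (k : ZMod q), mul_sum]
    refine sum_congr rfl fun x _ => ?_
    rw [mul_sum]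
    refine sum_congr rfl fun y _ => ?_
    rw [Nat.cast_mul, Nat.cast_mul, bw_spec hsp hr, phi_eq' hu1 hu2 hk1' hk2']
    rw [Int.cast_natCast, add_sub_cancel_left]
    ring
  have hzero : ((dg (T0 q1 q2 r k kk1 kk2 (sw q r e1 e2) (bw q r e1 e2) u1 u2) (n2 * i + j) +
      (b' * dg (TB q1 q2 (bw q r e1 e2) u1 u2) (n2 * i + j) +
        m' * dg (T2 q1 q2 kk1 kk2 (bw q r e1 e2) u1 u2) (n2 * i + j)) : ℕ) : ZMod r) = 0 := by
    rw [d0, d1, d2]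
    simp only [Nat.cast_add, Nat.cast_mul]
    rw [gA, gA', gX, gB, gB', sub_one_cast hr, hb, hm]
    have hR := hrel
    rw [Rel] at hR
    have h3 : ∀ x y : ZMod q, χ (qf q 1 B N x y) * ((WW q k B m x y : ℤ) : ZMod r) =
        6 * (χ (qf q 1 B N x y) * (((si q x : ℤ) : ZMod r) * ((si q y : ℤ) : ZMod r))) +
        -6 * (χ (qf q 1 B N x y) *
          (((si q x : ℤ) : ZMod r) * ((si q ((k : ZMod q) * x + y) : ℤ) : ZMod r))) +
        2 * k * (χ (qf q 1 B N x y) * ((bi q x : ℤ) : ZMod r)) +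
        B * (χ (qf q 1 B N x y) * ((bi q y : ℤ) : ZMod r)) +
        m * (χ (qf q 1 B N x y) * ((bi q ((k : ZMod q) * x + y) : ℤ) : ZMod r)) := by
      intro x y
      rw [WW]
      push_cast
      ring
    rw [sum_congr rfl fun x _ => sum_congr rfl fun y _ => h3 x y] at hR
    simp only [sum_add_distrib, ← mul_sum] at hR
    push_cast
    linear_combination κ * hR
  rw [ts, tz]
  have h4 := (ZMod.natCast_eq_zero_iff _ r).1 hzero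
  rw [Nat.beq_eq]
  exact Nat.mod_eq_zero_of_dvd h4

end CN94.K
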