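import Pool.Agent.Lib_CN94.KBasic

/-!
# The digits of the tables
-/

namespace CN94.K

open Finset

/-- the sums in the tables -/
def gs (q1 q2 : ℕ) (c1 c2 : ℕ → ℕ → ℕ) (F : ℕ → ℕ → ℕ → ℕ → ℕ) : ℕ :=
  ∑ x1 ∈ range q1, ∑ y1 ∈ range q1, ∑ x2 ∈ range q2, ∑ y2 ∈ range q2,
    c1 x1 y1 * c2 x2 y2 * F x1 x2 y1 y2

/-- the shifted coefficients -/
def shc (q kk : ℕ) (c : ℕ → ℕ → ℕ) (x z : ℕ) : ℕ := c x ((z + kk * x) % q)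

theorem sh_eq (q kk : ℕ) (u : ℕ → ℕ → ℕ) (x z : ℕ) : sh q kk u x z = u x ((z + kk * x) % q) := by
  rw [sh, fc_eq]; rfl

variable {q1 q2 n1 n2 : ℕ} {u1 u2 : ℕ → ℕ → ℕ} {c1 c2 : ℕ → ℕ → ℕ → ℕ}

theorem TA_rp (s : ℕ → ℕ → ℕ) (h1 : ∀ x y, Rp (48 * n2) n1 (u1 x y) (fun i => c1 i x y))
    (h2 : ∀ x y, Rp 48 n2 (u2 x y) (fun j => c2 j x y)) :
    Rp 48 (n1 * n2) (TA q1 q2 s u1 u2)
      (fun l => gs q1 q2 (c1 (l / n2)) (c2 (l % n2)) (fun x1 x2 y1 y2 => s x1 x2 * s y1 y2)) := by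
  have h : TA q1 q2 s u1 u2 = ∑ x1 ∈ range q1, ∑ y1 ∈ range q1, u1 x1 y1 *
      ∑ x2 ∈ range q2, s x1 x2 * ∑ y2 ∈ range q2, s y1 y2 * u2 x2 y2 := by
    simp only [TA, sm_eq, Nat.mul_eq]
  rw [h]
  refine Rp.sum fun x1 _ => Rp.sum fun y1 _ => ?_
  refine (Rp.mul (h1 x1 y1) (Rp.sum fun x2 _ => Rp.cmul _ (Rp.sum fun y2 _ =>
    Rp.cmul _ (h2 x2 y2)))).congr fun l _ => ?_
  simp only [mul_sum]
  exact sum_congr rfl fun x2 _ => sum_congr rfl fun y2 _ => by ring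

theorem TB_rp (b : ℕ → ℕ → ℕ) (h1 : ∀ x y, Rp (48 * n2) n1 (u1 x y) (fun i => c1 i x y))
    (h2 : ∀ x y, Rp 48 n2 (u2 x y) (fun j => c2 j x y)) :
    Rp 48 (n1 * n2) (TB q1 q2 b u1 u2)
      (fun l => gs q1 q2 (c1 (l / n2)) (c2 (l % n2)) (fun _ _ y1 y2 => b y1 y2)) := by
  have h : TB q1 q2 b u1 u2 = ∑ y1 ∈ range q1, (∑ x1 ∈ range q1, u1 x1 y1) *
      ∑ y2 ∈ range q2, b y1 y2 * ∑ x2 ∈ range q2, u2 x2 y2 := by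
    simp only [TB, sm_eq, Nat.mul_eq]
  rw [h]
  refine (Rp.sum fun y1 _ => Rp.mul (Rp.sum fun x1 _ => h1 x1 y1) (Rp.sum fun y2 _ =>
    Rp.cmul _ (Rp.sum fun x2 _ => h2 x2 y2))).congr fun l _ => ?_
  rw [gs, sum_comm]
  refine sum_congr rfl fun y1 _ => ?_
  rw [sum_mul]
  refine sum_congr rfl fun x1 _ => ?_
  rw [sum_comm (s := range q2) (t := range q2)]
  simp only [mul_sum]
  exact sum_congr rfl fun x2 _ => sum_congr rfl fun y2 _ => by ring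

theorem TX_rp (b : ℕ → ℕ → ℕ) (h1 : ∀ x y, Rp (48 * n2) n1 (u1 x y) (fun i => c1 i x y))
    (h2 : ∀ x y, Rp 48 n2 (u2 x y) (fun j => c2 j x y)) :
    Rp 48 (n1 * n2) (TX q1 q2 b u1 u2)
      (fun l => gs q1 q2 (c1 (l / n2)) (c2 (l % n2)) (fun x1 x2 _ _ => b x1 x2)) := by
  have h : TX q1 q2 b u1 u2 = ∑ x1 ∈ range q1, (∑ y1 ∈ range q1, u1 x1 y1) *
      ∑ x2 ∈ range q2, b x1 x2 * ∑ y2 ∈ range q2, u2 x2 y2 := by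
    simp only [TX, sm_eq, Nat.mul_eq]
  rw [h]
  refine (Rp.sum fun x1 _ => Rp.mul (Rp.sum fun y1 _ => h1 x1 y1) (Rp.sum fun x2 _ =>
    Rp.cmul _ (Rp.sum fun y2 _ => h2 x2 y2))).congr fun l _ => ?_
  rw [gs]
  refine sum_congr rfl fun x1 _ => ?_
  rw [sum_mul]
  refine sum_congr rfl fun y1 _ => ?_
  simp only [mul_sum]
  exact sum_congr rfl fun x2 _ => sum_congr rfl fun y2 _ => by ring

theorem gs_le (c1 c2 : ℕ → ℕ → ℕ) (F : ℕ → ℕ → ℕ → ℕ → ℕ) (M1 M2 M3 : ℕ)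
    (h1 : ∀ x y, c1 x y ≤ M1) (h2 : ∀ x y, c2 x y ≤ M2) (h3 : ∀ x x' y y', F x x' y y' ≤ M3) :
    gs q1 q2 c1 c2 F ≤ (q1 * q2) ^ 2 * (M1 * M2 * M3) := by
  have h : ∀ x1 y1 x2 y2, c1 x1 y1 * c2 x2 y2 * F x1 x2 y1 y2 ≤ M1 * M2 * M3 := fun x1 y1 x2 y2 =>
    Nat.mul_le_mul (Nat.mul_le_mul (h1 _ _) (h2 _ _)) (h3 _ _ _ _)
  calc gs q1 q2 c1 c2 F ≤ ∑ _x1 ∈ range q1, ∑ _y1 ∈ range q1, ∑ _x2 ∈ range q2, ∑ _y2 ∈ range q2,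
        M1 * M2 * M3 :=
        sum_le_sum fun x1 _ => sum_le_sum fun y1 _ => sum_le_sum fun x2 _ => sum_le_sum fun y2 _ =>
          h x1 y1 x2 y2
    _ = (q1 * q2) ^ 2 * (M1 * M2 * M3) := by
        simp only [sum_const, card_range, smul_eq_mul]
        ring

/-- the digits of the three tables -/
theorem digits (r k kk1 kk2 : ℕ) (s b : ℕ → ℕ → ℕ)
    (h1 : ∀ x y, Rp (48 * n2) n1 (u1 x y) (fun i => c1 i x y))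
    (h2 : ∀ x y, Rp 48 n2 (u2 x y) (fun j => c2 j x y))
    (hc1 : ∀ i x y, c1 i x y ≤ 256) (hc2 : ∀ i x y, c2 i x y ≤ 16) (hs : ∀ x y, s x y ≤ 16)
    (hb : ∀ x y, b x y ≤ 16) (hr : 1 ≤ r)
    (hM : (q1 * q2) ^ 2 * 2 ^ 20 * (6 * r + 2 * k) < 2 ^ 48) {l : ℕ}
    (hl : l < n1 * n2) :
    dg (T0 q1 q2 r k kk1 kk2 s b u1 u2) l =
        6 * gs q1 q2 (c1 (l / n2)) (c2 (l % n2)) (fun x1 x2 y1 y2 => s x1 x2 * s y1 y2) +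
        (6 * (r - 1) * gs q1 q2 (shc q1 kk1 (c1 (l / n2))) (shc q2 kk2 (c2 (l % n2)))
          (fun x1 x2 y1 y2 => s x1 x2 * s y1 y2) +
        2 * k * gs q1 q2 (c1 (l / n2)) (c2 (l % n2)) (fun x1 x2 _ _ => b x1 x2)) ∧
      dg (TB q1 q2 b u1 u2) l =
        gs q1 q2 (c1 (l / n2)) (c2 (l % n2)) (fun _ _ y1 y2 => b y1 y2) ∧
      dg (T2 q1 q2 kk1 kk2 b u1 u2) l =
        gs q1 q2 (shc q1 kk1 (c1 (l / n2))) (shc q2 kk2 (c2 (l % n2)))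
          (fun _ _ y1 y2 => b y1 y2) := by
  have h1' : ∀ x y, Rp (48 * n2) n1 (sh q1 kk1 u1 x y) (fun i => shc q1 kk1 (c1 i) x y) := by
    intro x y; rw [sh_eq]; exact h1 _ _
  have h2' : ∀ x y, Rp 48 n2 (sh q2 kk2 u2 x y) (fun i => shc q2 kk2 (c2 i) x y) := by
    intro x y; rw [sh_eq]; exact h2 _ _
  have hc1' : ∀ i x y, shc q1 kk1 (c1 i) x y ≤ 256 := fun i x y => hc1 _ _ _
  have hc2' : ∀ i x y, shc q2 kk2 (c2 i) x y ≤ 16 := fun i x y => hc2 _ _ _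
  have hss : ∀ x x' y y', s x x' * s y y' ≤ 256 := fun x x' y y' =>
    (Nat.mul_le_mul (hs x x') (hs y y')).trans (by norm_num)
  have hbb : ∀ x y, b x y ≤ 256 := fun x y => (hb x y).trans (by norm_num)
  have hA : ∀ i j, gs q1 q2 (c1 i) (c2 j) (fun x1 x2 y1 y2 => s x1 x2 * s y1 y2) ≤
      (q1 * q2) ^ 2 * 2 ^ 20 := fun i j =>
    (gs_le (c1 i) (c2 j) _ 256 16 256 (hc1 i) (hc2 j) hss).trans (le_of_eq (by norm_num))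
  have hA' : ∀ i j, gs q1 q2 (shc q1 kk1 (c1 i)) (shc q2 kk2 (c2 j))
      (fun x1 x2 y1 y2 => s x1 x2 * s y1 y2) ≤ (q1 * q2) ^ 2 * 2 ^ 20 := fun i j =>
    (gs_le _ _ _ 256 16 256 (hc1' i) (hc2' j) hss).trans (le_of_eq (by norm_num))
  have hX : ∀ i j, gs q1 q2 (c1 i) (c2 j) (fun x1 x2 _ _ => b x1 x2) ≤
      (q1 * q2) ^ 2 * 2 ^ 20 := fun i j =>
    (gs_le (c1 i) (c2 j) _ 256 16 256 (hc1 i) (hc2 j) (fun x x' _ _ => hbb x x')).trans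
      (le_of_eq (by norm_num))
  have hB : ∀ i j, gs q1 q2 (c1 i) (c2 j) (fun _ _ y1 y2 => b y1 y2) ≤
      (q1 * q2) ^ 2 * 2 ^ 20 := fun i j =>
    (gs_le (c1 i) (c2 j) _ 256 16 256 (hc1 i) (hc2 j) (fun _ _ x x' => hbb x x')).trans
      (le_of_eq (by norm_num))
  have hB' : ∀ i j, gs q1 q2 (shc q1 kk1 (c1 i)) (shc q2 kk2 (c2 j))
      (fun _ _ y1 y2 => b y1 y2) ≤ (q1 * q2) ^ 2 * 2 ^ 20 := fun i j =>
    (gs_le _ _ _ 256 16 256 (hc1' i) (hc2' j) (fun _ _ x x' => hbb x x')).trans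
      (le_of_eq (by norm_num))
  have hM1 : (q1 * q2) ^ 2 * 2 ^ 20 < 2 ^ 48 := by
    refine lt_of_le_of_lt ?_ hM
    exact Nat.le_mul_of_pos_right _ (by omega)
  refine ⟨?_, ?_, ?_⟩
  · have hrp : Rp 48 (n1 * n2) (T0 q1 q2 r k kk1 kk2 s b u1 u2) _ :=
      Rp.add (Rp.cmul 6 (TA_rp s h1 h2)) (Rp.add (Rp.cmul (6 * (r - 1)) (TA_rp s h1' h2'))
        (Rp.cmul (2 * k) (TX_rp b h1 h2)))
    refine Rp.dg hrp ?_ hl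
    intro l _
    calc _ ≤ 6 * ((q1 * q2) ^ 2 * 2 ^ 20) + (6 * (r - 1) * ((q1 * q2) ^ 2 * 2 ^ 20) +
          2 * k * ((q1 * q2) ^ 2 * 2 ^ 20)) :=
          Nat.add_le_add (Nat.mul_le_mul le_rfl (hA _ _)) (Nat.add_le_add
            (Nat.mul_le_mul le_rfl (hA' _ _)) (Nat.mul_le_mul le_rfl (hX _ _)))
      _ = (q1 * q2) ^ 2 * 2 ^ 20 * (6 * (r - 1) + 6 + 2 * k) := by ring
      _ = (q1 * q2) ^ 2 * 2 ^ 20 * (6 * r + 2 * k) := by congr 2; omega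
      _ < 2 ^ 48 := hM
  · exact Rp.dg (TB_rp b h1 h2) (fun l _ => (hB _ _).trans_lt hM1) hl
  · exact Rp.dg (TB_rp b h1' h2') (fun l _ => (hB' _ _).trans_lt hM1) hl

end CN94.K
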