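import Pool.Agent.Lib_CN94.KRels

/-!
# The search trees
-/

namespace CN94.K

/-- the search tree for `k = 3` -/
noncomputable def tree3 : Bool :=
  al 8 fun u16 => al 8 fun v16 => al 13 fun b13 => al 6 fun j13 =>
  fc (Nat.add (Nat.mul 8 u16) v16) fun i16 => fc (Nat.add (Nat.mul 6 b13) j13) fun i13 =>
  fc (Nat.add (Nat.mul 78 i16) i13) fun l => fc (Nat.mod (dg S0_208a_3 l) 5) fun a0 =>
  fc (Nat.mod (dg S1_208a l) 5) fun a1 => fc (Nat.mod (dg S2_208a_3 l) 5) fun a2 =>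
  al 5 fun b5 => al 2 fun j5 => fc (Nat.add (Nat.mul 2 b5) j5) fun i5 =>
  fc (lk mt5_3 i5) fun m5 => im (tz 5 a0 a1 a2 b5 m5) <|
  im (ts 5 S0_208b_3 S1_208b S2_208b_3 l b5 m5) <|
  im (ts 5 S0_208c_3 S1_208c S2_208c_3 l b5 m5) <|
  fc (lk mt13_3 i13) fun m13 =>
  an
  (im (c16 6 u16 v16) <| im (co 13 11 (lk 0x25678b j13) b13 2) <|
    im (co 5 3 (lk 0x23 j5) b5 3) <| al 9 fun b9 => al 3 fun j9 =>
    im (co 9 7 (lk 0x147 j9) b9 1) <|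
    fc (Nat.add (Nat.mul 3 b9) j9) fun i9 =>
    im (ts 13 S0_144a_3 S1_144a S2_144a_3 (Nat.add (Nat.mul 27 i16) i9) b13 m13) <|
    im (ts 13 S0_144b_3 S1_144b S2_144b_3 (Nat.add (Nat.mul 27 i16) i9) b13 m13) <|
    al 11 fun b11 => al 5 fun j11 => im (co 11 9 (lk 0x13459 j11) b11 6) <|
    fc (Nat.add (Nat.mul 5 b11) j11) fun i11 =>
    im (ts 5 S0_143a_3 S1_143a S2_143a_3 (Nat.add (Nat.mul 78 i11) i13) b5 m5) <|
    im (ts 5 S0_176a_3 S1_176a S2_176a_3 (Nat.add (Nat.mul 55 i16) i11) b5 m5) false)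
    (al 7 fun b7 => al 3 fun j7 => fc (Nat.add (Nat.mul 3 b7) j7) fun i7 =>
    im (ts 13 S0_112a_3 S1_112a S2_112a_3 (Nat.add (Nat.mul 21 i16) i7) b13 m13) <|
    fc (Nat.add (Nat.mul 2 (Nat.mod u16 2)) (Nat.mod v16 2)) fun i4 =>
    im (ts 13 S0_140a_3 S1_140a S2_140a_3 (Nat.add (Nat.mul 21 (Nat.add (Nat.mul 10 i4) i5)) i7) b13 m13) <|
    al 3 fun b3 =>
    im (ts 13 S0_105a_3 S1_105a S2_105a_3 (Nat.add (Nat.mul 21 (Nat.add (Nat.mul 10 b3) i5)) i7) b13 m13) <|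
    fc (lk mt7_3 i7) fun m7 => al 3 fun w9 => al 3 fun j9 =>
    fc (Nat.add b3 (Nat.mul 3 w9)) fun b9 => fc (Nat.add (Nat.mul 3 b9) j9) fun i9 =>
    im (ts 7 S0_117a_3 S1_117a S2_117a_3 (Nat.add (Nat.mul 78 i9) i13) b7 m7) <|
    im (ts 13 S0_144a_3 S1_144a S2_144a_3 (Nat.add (Nat.mul 27 i16) i9) b13 m13) <|
    im (ts 13 S0_144b_3 S1_144b S2_144b_3 (Nat.add (Nat.mul 27 i16) i9) b13 m13) <|
    an (im (c16 4 u16 v16) <| im (co 13 11 (lk 0x25678b j13) b13 8) <|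
        im (co 5 3 (lk 0x23 j5) b5 1) <| im (co 7 5 (lk 0x124 j7) b7 5) <|
        im (co 9 7 (lk 0x147 j9) b9 1) false)
      (al 11 fun b11 => al 5 fun j11 => fc (Nat.add (Nat.mul 5 b11) j11) fun i11 =>
      im (ts 5 S0_143a_3 S1_143a S2_143a_3 (Nat.add (Nat.mul 78 i11) i13) b5 m5) <|
      im (ts 7 S0_143xa_3 S1_143xa S2_143xa_3 (Nat.add (Nat.mul 78 i11) i13) b7 m7) <|
      im (ts 5 S0_176a_3 S1_176a S2_176a_3 (Nat.add (Nat.mul 55 i16) i11) b5 m5) false))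

/-- the search tree for `k = 4` -/
noncomputable def tree4 : Bool :=
  al 8 fun u16 => al 8 fun v16 => al 13 fun b13 => al 6 fun j13 =>
  fc (Nat.add (Nat.mul 8 u16) v16) fun i16 => fc (Nat.add (Nat.mul 6 b13) j13) fun i13 =>
  fc (Nat.add (Nat.mul 78 i16) i13) fun l => fc (Nat.mod (dg S0_208a_4 l) 5) fun a0 =>
  fc (Nat.mod (dg S1_208a l) 5) fun a1 => fc (Nat.mod (dg S2_208a_4 l) 5) fun a2 =>
  al 5 fun b5 => al 2 fun j5 => fc (Nat.add (Nat.mul 2 b5) j5) fun i5 =>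
  fc (lk mt5_4 i5) fun m5 => im (tz 5 a0 a1 a2 b5 m5) <|
  im (ts 5 S0_208b_4 S1_208b S2_208b_4 l b5 m5) <|
  im (ts 5 S0_208c_4 S1_208c S2_208c_4 l b5 m5) <|
  fc (lk mt13_4 i13) fun m13 =>
  al 7 fun b7 => al 3 fun j7 => fc (Nat.add (Nat.mul 3 b7) j7) fun i7 =>
  im (ts 13 S0_112a_4 S1_112a S2_112a_4 (Nat.add (Nat.mul 21 i16) i7) b13 m13) <|
  fc (Nat.add (Nat.mul 2 (Nat.mod u16 2)) (Nat.mod v16 2)) fun i4 =>
  im (ts 13 S0_140a_4 S1_140a S2_140a_4 (Nat.add (Nat.mul 21 (Nat.add (Nat.mul 10 i4) i5)) i7) b13 m13) <|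
  al 3 fun b3 =>
  im (ts 13 S0_105a_4 S1_105a S2_105a_4 (Nat.add (Nat.mul 21 (Nat.add (Nat.mul 10 b3) i5)) i7) b13 m13) <|
  fc (lk mt7_4 i7) fun m7 => al 3 fun w9 => al 3 fun j9 =>
  fc (Nat.add b3 (Nat.mul 3 w9)) fun b9 => fc (Nat.add (Nat.mul 3 b9) j9) fun i9 =>
  im (ts 7 S0_117a_4 S1_117a S2_117a_4 (Nat.add (Nat.mul 78 i9) i13) b7 m7) <|
  im (ts 13 S0_144a_4 S1_144a S2_144a_4 (Nat.add (Nat.mul 27 i16) i9) b13 m13) <|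
  im (ts 13 S0_144b_4 S1_144b S2_144b_4 (Nat.add (Nat.mul 27 i16) i9) b13 m13) <|
  im (ts 13 S0_315a_4 S1_315a S2_315a_4 (Nat.add (Nat.mul 21 (Nat.add (Nat.mul 10 i9) i5)) i7) b13 m13) false

end CN94.K
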