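import Pool.Agent.Lib_CN94.Basic

/-!
# Piece MEAN: odd functions of a norm form have mean zero
-/

namespace CN94

open QP QuadraticAlgebra

variable {e : ℤ}

/-- the linear map of `(ZMod q)²` with an explicit inverse -/
private def lin (q : ℕ) (a b c d k : ZMod q) (h : k * (a * d - b * c) = 1) :
    ZMod q × ZMod q ≃ ZMod q × ZMod q where
  toFun z := (z.1 * a + z.2 * c, z.1 * b + z.2 * d)
  invFun z := (k * (z.1 * d - z.2 * c), k * (z.2 * a - z.1 * b))
  left_inv := by
    rintro ⟨x, y⟩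
    simp only [Prod.mk.injEq]
    exact ⟨by linear_combination x * h, by linear_combination y * h⟩
  right_inv := by
    rintro ⟨x, y⟩
    simp only [Prod.mk.injEq]
    exact ⟨by linear_combination x * h, by linear_combination y * h⟩

/-- PROOF: let `P X Y = X² + X Y - e Y²` on `ZMod q` (the norm form).  The map
`(x, y) ↦ (x v.re + y w.re, x v.im + y w.im)` is a bijection of `(ZMod q)²` (determinant
`dt v w = 1`) and `qf q (norm v) (pr v w) (norm w) x y = P` of the image (`norm_combo`).  Multiplication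
by `γ`: `(X, Y) ↦ (γ.re X + e γ.im Y, γ.im X + (γ.re + γ.im) Y)` is a bijection (determinant
`norm γ = -1`) and multiplies `P` by `norm γ = -1`.  So the sum equals its negative. -/
theorem mean_zero (q : ℕ) [NeZero q] (f : ZMod q → ℝ) (hodd : ∀ x, f (-x) = -f x) (v w γ : R e)
    (hd : dt v w = 1) (hγ : ((norm γ : ℤ) : ZMod q) = -1) :
    ∑ x : ZMod q, ∑ y : ZMod q, f (qf q (norm v) (pr v w) (norm w) x y) = 0 := by
  have h1 : (1 : ZMod q) * ((v.re : ZMod q) * (w.im : ZMod q) - (v.im : ZMod q) * (w.re : ZMod q)) = 1 := by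
    have h := congrArg (fun z : ℤ => (z : ZMod q)) hd
    simp only [dt, Int.cast_sub, Int.cast_mul, Int.cast_one] at h
    rw [one_mul, h]
  have h2 : (-1 : ZMod q) * ((γ.re : ZMod q) * ((γ.re : ZMod q) + (γ.im : ZMod q)) -
      (γ.im : ZMod q) * ((e : ZMod q) * (γ.im : ZMod q))) = 1 := by
    rw [norm_eq] at hγ
    push_cast at hγ
    linear_combination (-1 : ZMod q) * hγ
  have h3 : ∑ z : ZMod q × ZMod q, f (qf q (norm v) (pr v w) (norm w) z.1 z.2) =
      ∑ z : ZMod q × ZMod q, f (z.1 ^ 2 + z.1 * z.2 - (e : ZMod q) * z.2 ^ 2) := by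
    rw [← Equiv.sum_comp (lin q v.re v.im w.re w.im 1 h1)
      (fun z => f (z.1 ^ 2 + z.1 * z.2 - (e : ZMod q) * z.2 ^ 2))]
    refine Finset.sum_congr rfl (fun z _ => congrArg f ?_)
    simp only [lin, Equiv.coe_fn_mk, qf, norm_eq, pr_eq]
    push_cast
    ring
  have h4 : ∑ z : ZMod q × ZMod q, f (z.1 ^ 2 + z.1 * z.2 - (e : ZMod q) * z.2 ^ 2) =
      -∑ z : ZMod q × ZMod q, f (z.1 ^ 2 + z.1 * z.2 - (e : ZMod q) * z.2 ^ 2) := by
    conv_lhs => rw [← Equiv.sum_comp (lin q γ.re γ.im ((e : ZMod q) * (γ.im : ZMod q))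
      ((γ.re : ZMod q) + (γ.im : ZMod q)) (-1) h2)
      (fun z => f (z.1 ^ 2 + z.1 * z.2 - (e : ZMod q) * z.2 ^ 2))]
    rw [← Finset.sum_neg_distrib]
    refine Finset.sum_congr rfl (fun z _ => ?_)
    rw [← hodd]
    refine congrArg f ?_
    simp only [lin, Equiv.coe_fn_mk]
    rw [norm_eq] at hγ
    push_cast at hγ
    linear_combination (z.1 ^ 2 + z.1 * z.2 - (e : ZMod q) * z.2 ^ 2) * hγ
  rw [← Fintype.sum_prod_type' (fun x y : ZMod q => f (qf q (norm v) (pr v w) (norm w) x y)), h3]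
  linarith

end CN94
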