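import Pool.Agent.Lib_CN94.Defs
import Pool.Agent.Lib_MP_94ab8c.CondInt

/-!
# Piece NEGONE: an element of norm `≡ -1` modulo `q`
-/

namespace CN94

open QP QuadraticAlgebra

variable {q1 q2 : ℕ} {e : ℤ}

/-- no square is congruent to `- k ^ 2` modulo a prime `3 mod 4` not dividing `k` -/
private theorem negone_no_sq {q : ℕ} (hq : q.Prime) (h3 : q % 4 = 3) {x k : ℤ}
    (hk : ¬ (q : ℤ) ∣ k) (h : (q : ℤ) ∣ x ^ 2 + k ^ 2) : False := by
  have : Fact q.Prime := ⟨hq⟩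
  have h1 : ((x : ZMod q)) ^ 2 + (k : ZMod q) ^ 2 = 0 := by
    have := (ZMod.intCast_zmod_eq_zero_iff_dvd (x ^ 2 + k ^ 2) q).2 h
    push_cast at this
    exact this
  have hk0 : (k : ZMod q) ≠ 0 := by
    intro h0
    exact hk ((ZMod.intCast_zmod_eq_zero_iff_dvd k q).1 h0)
  have h2 : ((x : ZMod q) * (k : ZMod q)⁻¹) ^ 2 = -1 := by
    field_simp
    linear_combination h1
  exact ZMod.mod_four_ne_three_of_sq_eq_neg_one h2 h3

/-- PROOF: by Dirichlet's theorem (`Nat.forall_exists_prime_gt_and_eq_mod`) for the modulus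
`q * (q1 q2)` (coprime factors, CRT) there is a prime `ℓ > 2 q1 q2` with `ℓ ≡ -1 mod q` and
`ℓ ≡ 1 mod q1 q2`.  Then `jacobiSym (q1 q2) ℓ = jacobiSym ℓ (q1 q2) = 1`
(`jacobiSym.quadratic_reciprocity_one_mod_four`, `q1 q2 ≡ 1 mod 4`), so `b² ≡ q1 q2 mod ℓ` with an
odd integer `b`; `δ` with `tr δ = b`, `im δ = 1` has norm `(b² - q1 q2)/4` divisible by `ℓ` and
`ℓ ∤ δ`.  `QP.exists_factor` gives `γ` with `norm γ = ± ℓ`.  If `norm γ = -ℓ` then
`-4 ℓ = tr² - q1 q2 im²`, so `tr² ≡ -4 mod q1`, impossible for `q1 ≡ 3 mod 4`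
(`QP.no_neg_sq` in `ShapeQ.lean`, or `ZMod.exists_sq_eq_neg_one_iff`).  So
`norm γ = ℓ ≡ -1 mod q`. -/
theorem exists_norm_neg_one (h : Setting q1 q2) (he : 4 * e + 1 = q1 * q2)
    [IsPrincipalIdealRing (R e)] (q : ℕ) (hq : 0 < q) (hqD : q.Coprime (q1 * q2)) :
    ∃ γ : R e, ((norm γ : ℤ) : ZMod q) = -1 := by
  have hq1 := h.prime1
  have hq2 := h.prime2
  have hD0 : 0 < q1 * q2 := Nat.mul_pos hq1.pos hq2.pos
  have hD8 := h.mod8
  obtain ⟨k, hk1, hk2⟩ := Nat.chineseRemainder hqD (q - 1) 1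
  have hkq : k.Coprime q := by
    have h1 : Nat.gcd q k = Nat.gcd q (q - 1) := by
      have := hk1.gcd_eq
      rw [Nat.gcd_comm q k, Nat.gcd_comm q (q - 1)]
      exact this
    have h2 : Nat.gcd q (q - 1) = 1 := by
      have h3 : Nat.Coprime (q - 1 + 1) (q - 1) := by simp
      rwa [Nat.sub_add_cancel hq] at h3
    rw [Nat.coprime_comm]
    unfold Nat.Coprime
    rw [h1, h2]
  have hkD : k.Coprime (q1 * q2) := by
    have h1 := hk2.gcd_eq
    unfold Nat.Coprime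
    rw [h1]
    simp
  have hkk : k.Coprime (q * (q1 * q2)) := Nat.Coprime.mul_right hkq hkD
  obtain ⟨l, hl1, hl2, hl3⟩ := Nat.forall_exists_prime_gt_and_modEq (2 * (q1 * q2))
    (Nat.mul_pos hq hD0).ne' hkk
  have hlq : l ≡ q - 1 [MOD q] := (hl3.of_mul_right _).trans hk1
  have hlD : l ≡ 1 [MOD (q1 * q2)] := (hl3.of_mul_left _).trans hk2
  have hlfact : Fact l.Prime := ⟨hl2⟩
  have hlodd : Odd l := hl2.odd_of_ne_two (by omega)
  -- the Legendre symbol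
  have hJ : jacobiSym ((q1 * q2 : ℕ) : ℤ) l = 1 := by
    rw [jacobiSym.quadratic_reciprocity_one_mod_four (by omega) hlodd, jacobiSym.mod_left]
    have h1 : ((l : ℤ) % ((q1 * q2 : ℕ) : ℤ)) = (1 : ℤ) % ((q1 * q2 : ℕ) : ℤ) := by
      exact_mod_cast hlD
    rw [h1, ← jacobiSym.mod_left, jacobiSym.one_left]
  have hsq : IsSquare ((((q1 * q2 : ℕ) : ℤ)) : ZMod l) := by
    have h1 : legendreSym l ((q1 * q2 : ℕ) : ℤ) = 1 := by
      rw [jacobiSym.legendreSym.to_jacobiSym]; exact hJ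
    refine (legendreSym.eq_one_iff l ?_).mp h1
    intro h2
    rw [ZMod.intCast_zmod_eq_zero_iff_dvd] at h2
    have h3 : l ∣ q1 * q2 := by exact_mod_cast h2
    have h4 := Nat.le_of_dvd hD0 h3
    omega
  obtain ⟨c, hc⟩ := hsq
  obtain ⟨b, hb1, hb2⟩ : ∃ b : ℤ, b % 2 = 1 ∧ (l : ℤ) ∣ b ^ 2 - (q1 * q2 : ℕ) := by
    have h1 : ∀ b : ℤ, ((b : ZMod l)) = c → (l : ℤ) ∣ b ^ 2 - (q1 * q2 : ℕ) := by
      intro b hb
      rw [← ZMod.intCast_zmod_eq_zero_iff_dvd]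
      rw [Int.cast_sub, hc]
      push_cast
      rw [hb]
      ring
    have hc2 : (((c.val : ℕ) : ℤ) : ZMod l) = c := by
      rw [Int.cast_natCast, ZMod.natCast_zmod_val]
    obtain ⟨t, ht⟩ := hlodd
    rcases Int.emod_two_eq_zero_or_one (c.val : ℤ) with h2 | h2
    · refine ⟨c.val + l, by omega, h1 _ ?_⟩
      rw [Int.cast_add, hc2]
      simp
    · exact ⟨c.val, h2, h1 _ hc2⟩
  obtain ⟨δ, hδ1, hδ2⟩ := exists_mk (e := e) b 1 (by omega)
  have h4N := four_norm δ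
  rw [hδ1, hδ2, he] at h4N
  have hlN : (l : ℤ) ∣ norm δ := by
    have h1 : (l : ℤ) ∣ 4 * norm δ := by
      rw [h4N]
      obtain ⟨t, ht⟩ := hb2
      exact ⟨t, by push_cast at ht; linear_combination ht⟩
    have h2 : IsCoprime (l : ℤ) 4 := by
      have h3 : Nat.Coprime l 4 := by
        have h5 : Nat.Coprime l (2 ^ 2) :=
          Nat.Coprime.pow_right 2 (Nat.coprime_two_right.mpr hlodd)
        simpa using h5
      exact_mod_cast Nat.isCoprime_iff_coprime.mpr h3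
    exact h2.dvd_of_dvd_mul_left h1
  have hlδ : ¬ (l : R e) ∣ δ := by
    rintro ⟨w, hw⟩
    have h1 := congrArg QuadraticAlgebra.im hw
    rw [hδ2] at h1
    have h2 : ((l : R e) * w).im = (l : ℤ) * w.im := by
      rw [im_mul]
      simp
    rw [h2] at h1
    have h3 : (l : ℤ) ∣ 1 := ⟨_, h1⟩
    have h4 := Int.le_of_dvd one_pos h3
    have h5 := hl2.two_le
    omega
  obtain ⟨β, γ, -, hβ⟩ := exists_factor (not_sq h he) hl2 hlN hlδ
  have hN : norm β = l ∨ norm β = -(l : ℤ) := by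
    have := Int.natAbs_eq (norm β)
    rw [hβ] at this
    exact this
  rcases hN with hN | hN
  · refine ⟨β, ?_⟩
    rw [hN]
    have h1 : ((l : ℕ) : ZMod q) = ((q - 1 : ℕ) : ZMod q) := (ZMod.natCast_eq_natCast_iff _ _ _).mpr hlq
    rw [Int.cast_natCast, h1, Nat.cast_sub hq]
    simp
  · exfalso
    have h4 := four_norm β
    rw [hN, he] at h4
    refine negone_no_sq h.prime1 h.mod1 (x := tr β) (k := 2) ?_ ?_
    · intro h2
      have h3 := Int.le_of_dvd two_pos h2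
      have := h.mod1
      omega
    · have h5 : ((q1 * q2 : ℕ) : ℤ) ∣ (1 : ℤ) - l := by
        have := (Nat.modEq_iff_dvd).mp hlD
        push_cast at this ⊢
        exact this
      obtain ⟨t, ht⟩ := h5
      push_cast at ht
      refine ⟨q2 * β.im ^ 2 + 4 * (q2 * t), ?_⟩
      linear_combination (-1 : ℤ) * h4 + 4 * ht

end CN94
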