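import Pool.Agent.Lib_CN94.Plu

/-!
# Piece SECCONE: the cones of a path tile the sector
-/

namespace CN94

open QP QuadraticAlgebra

variable {e : ℤ} {ε : R e} {L : ℕ} {p : ℕ → R e}

private theorem sc_one (z : R e) : dt 1 z = z.im := by
  simp [dt]

private theorem sc_anti (v w : R e) : dt w v = -dt v w := by
  simp only [dt]
  ring

private theorem sc_self (v : R e) : dt v v = 0 := by
  simp only [dt]
  ring

private theorem sc_left (v w : R e) (x y : ℕ) :
    dt ((x : R e) * v + (y : R e) * w) w = x * dt v w := by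
  have h1 : (x : R e) = ((x : ℤ) : R e) := (Int.cast_natCast x).symm
  have h2 : (y : R e) = ((y : ℤ) : R e) := (Int.cast_natCast y).symm
  rw [h1, h2]
  simp only [dt, re_add, im_add, re_mul, im_mul, re_intCast, im_intCast, Int.cast_id]
  ring

private theorem sc_right (v w : R e) (x y : ℕ) :
    dt v ((x : R e) * v + (y : R e) * w) = y * dt v w := by
  have h1 : (x : R e) = ((x : ℤ) : R e) := (Int.cast_natCast x).symm
  have h2 : (y : R e) = ((y : ℤ) : R e) := (Int.cast_natCast y).symm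
  rw [h1, h2]
  simp only [dt, re_add, im_add, re_mul, im_mul, re_intCast, im_intCast, Int.cast_id]
  ring

/-- PROOF: `dt_trans` along the path, `dt (p i) (p (i+1)) = 1 > 0`; induction. -/
theorem path_mono (hpos : 0 < 4 * e + 1) (hp : IsPath ε L p) {i j : ℕ} (hij : i < j) (hj : j ≤ L) :
    0 < dt (p i) (p j) := by
  induction j, hij using Nat.le_induction with
  | base =>
    rw [hp.det i (by omega)]
    exact one_pos
  | succ n hn ih =>
    refine dt_trans_lt hpos (hp.tp i (by omega)) (hp.tp n (by omega)) (hp.tp (n + 1) hj)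
      (ih (by omega)) ?_
    rw [hp.det n (by omega)]
    exact zero_le_one

private theorem sc_le (hpos : 0 < 4 * e + 1) (hp : IsPath ε L p) {i j : ℕ} (hij : i ≤ j)
    (hj : j ≤ L) : 0 ≤ dt (p i) (p j) := by
  rcases hij.eq_or_lt with rfl | h
  · rw [sc_self]
  · exact (path_mono hpos hp h hj).le

/-- PROOF: `TP.combo`; with `v = p i`, `w = p (i+1)`, `β = x v + y w`: `dt v β = y`, `dt β w = x`
(`dt` is bilinear and alternating, `dt v w = 1`).  `0 ≤ dt 1 v ` (`path_mono`, `p 0 = 1`, and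
`dt 1 z = z.im`) and `0 ≤ dt v β` give `0 ≤ β.im`; `0 < dt β w` and `0 ≤ dt w ε` give `0 < dt β ε`. -/
theorem cone_sec (hpos : 0 < 4 * e + 1) (hp : IsPath ε L p) {i x y : ℕ} (hi : i < L) (hx : 1 ≤ x) :
    TP ((x : R e) * p i + (y : R e) * p (i + 1)) ∧
      Sec ε ((x : R e) * p i + (y : R e) * p (i + 1)) := by
  have t0 := hp.tp 0 (Nat.zero_le L)
  have t1 := hp.tp i hi.le
  have t2 := hp.tp (i + 1) hi
  have t3 := hp.tp L le_rfl
  have tb := TP.combo hpos t1 t2 x y hx
  refine ⟨tb, ?_, ?_⟩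
  · have h1 : 0 ≤ dt (p i) ((x : R e) * p i + (y : R e) * p (i + 1)) := by
      rw [sc_right, hp.det i hi, mul_one]
      exact Int.natCast_nonneg y
    have h2 := dt_trans_le hpos t0 t1 tb (sc_le hpos hp (Nat.zero_le i) hi.le) h1
    rw [hp.zero, sc_one] at h2
    exact h2
  · have h1 : 0 < dt ((x : R e) * p i + (y : R e) * p (i + 1)) (p (i + 1)) := by
      rw [sc_left, hp.det i hi, mul_one]
      exact_mod_cast hx
    have h2 := dt_trans_lt hpos tb t2 t3 h1 (sc_le hpos hp hi le_rfl)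
    rw [hp.last] at h2
    exact h2

/-- PROOF: let `i` be the largest index `< L` with `0 ≤ dt (p i) β` (it exists: `i = 0`).  Then
`0 < dt β (p (i+1))`: if `i + 1 < L` because `dt (p (i+1)) β < 0` by maximality, if `i + 1 = L`
because `p L = ε`.  By Cramer (`cramer`, `dt (p i) (p (i+1)) = 1`)
`β = dt β (p (i+1)) * p i + dt (p i) β * p (i+1)`; take `x, y` the `toNat` of the coefficients. -/
theorem sec_cone (hpos : 0 < 4 * e + 1) (hp : IsPath ε L p) (β : R e) (hβ : TP β)
    (hs : Sec ε β) : ∃ i x y : ℕ, i < L ∧ 1 ≤ x ∧ β = (x : R e) * p i + (y : R e) * p (i + 1) := by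
  have _ := hpos
  have _ := hβ
  obtain ⟨i, hi, h1, h2⟩ : ∃ i < L, 0 ≤ dt (p i) β ∧ 0 < dt β (p (i + 1)) := by
    by_contra hcon
    push Not at hcon
    have hall : ∀ i ≤ L, 0 ≤ dt (p i) β := by
      intro i
      induction i with
      | zero =>
        intro _
        rw [hp.zero, sc_one]
        exact hs.1
      | succ n ih =>
        intro hn
        have h3 := hcon n (by omega) (ih (by omega))
        rw [sc_anti β (p (n + 1))]
        linarith
    have h4 := hall L le_rfl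
    rw [hp.last, sc_anti β ε] at h4
    have h5 := hs.2
    linarith
  refine ⟨i, (dt β (p (i + 1))).toNat, (dt (p i) β).toNat, hi, by omega, ?_⟩
  have h3 := cramer (p i) (p (i + 1)) β
  rw [hp.det i hi, Int.cast_one, one_mul] at h3
  have e1 : (((dt β (p (i + 1))).toNat : ℕ) : R e) = ((dt β (p (i + 1)) : ℤ) : R e) := by
    rw [← Int.cast_natCast, Int.toNat_of_nonneg h2.le]
  have e2 : (((dt (p i) β).toNat : ℕ) : R e) = ((dt (p i) β : ℤ) : R e) := by
    rw [← Int.cast_natCast, Int.toNat_of_nonneg h1]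
  rw [e1, e2]
  exact h3

/-- PROOF: if `β = x p_i + y p_{i+1} = x' p_j + y' p_{j+1}` with `i < j` then `0 < dt β (p (i+1))`
(it is `x`), `0 ≤ dt (p (i+1)) (p j)`, `0 ≤ dt (p j) β` (it is `y'`), so `0 < dt β β = 0`, a
contradiction (`dt_trans`).  So `i = j`, and `x = dt β (p (i+1))`, `y = dt (p i) β`. -/
theorem cone_unique (hpos : 0 < 4 * e + 1) (hp : IsPath ε L p) {i x y j x' y' : ℕ} (hi : i < L)
    (hj : j < L) (hx : 1 ≤ x) (hx' : 1 ≤ x')
    (h : (x : R e) * p i + (y : R e) * p (i + 1) = (x' : R e) * p j + (y' : R e) * p (j + 1)) :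
    i = j ∧ x = x' ∧ y = y' := by
  have key : ∀ {i x y j x' y' : ℕ}, i < L → j < L → 1 ≤ x → 1 ≤ x' →
      (x : R e) * p i + (y : R e) * p (i + 1) = (x' : R e) * p j + (y' : R e) * p (j + 1) →
      ¬ i < j := by
    intro i x y j x' y' hi hj hx hx' h hij
    have tb := TP.combo hpos (hp.tp i hi.le) (hp.tp (i + 1) hi) x y hx
    have h1 : 0 < dt ((x : R e) * p i + (y : R e) * p (i + 1)) (p (i + 1)) := by
      rw [sc_left, hp.det i hi, mul_one]
      exact_mod_cast hx
    have h2 := dt_trans_lt hpos tb (hp.tp (i + 1) hi) (hp.tp j hj.le) h1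
      (sc_le hpos hp hij hj.le)
    rw [sc_anti (p j), h, sc_right, hp.det j hj, mul_one] at h2
    omega
  have hij : i = j := by
    rcases lt_trichotomy i j with h1 | h1 | h1
    · exact absurd h1 (key hi hj hx hx' h)
    · exact h1
    · exact absurd h1 (key hj hi hx' hx h.symm)
  subst hij
  have h1 := congrArg (fun z => dt z (p (i + 1))) h
  have h2 := congrArg (fun z => dt (p i) z) h
  simp only [sc_left, sc_right, hp.det i hi, mul_one] at h1 h2
  exact ⟨rfl, by exact_mod_cast h1, by exact_mod_cast h2⟩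

/-- finiteness of the count.
PROOF: for `(i, x, y)` in the set, `n = norm (p i) x² + pr x y + norm (p (i+1)) y² ≥ x² + y²`
(`norm_combo`, `pr_pos`), so `x, y ≤ n`; `i < L`. -/
theorem cset_finite (hpos : 0 < 4 * e + 1) (hp : IsPath ε L p) (n : ℤ) : (cset L p n).Finite := by
  refine ((Set.finite_Iio L).prod ((Set.finite_Iic n.toNat).prod (Set.finite_Iic n.toNat))).subset ?_
  rintro ⟨i, x, y⟩ ⟨hi, hx, hn⟩
  change i < L at hi
  change 1 ≤ x at hx
  change norm ((x : R e) * p i + (y : R e) * p (i + 1)) = n at hn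
  have h1 : (x : R e) = ((x : ℤ) : R e) := (Int.cast_natCast x).symm
  have h2 : (y : R e) = ((y : ℤ) : R e) := (Int.cast_natCast y).symm
  rw [h1, h2, norm_combo] at hn
  have t1 := hp.tp i hi.le
  have t2 := hp.tp (i + 1) hi
  have h3 := pr_pos hpos t1 t2
  have h4 : 1 ≤ norm (p i) := t1.1
  have h5 : 1 ≤ norm (p (i + 1)) := t2.1
  have hx0 : (0 : ℤ) ≤ x := Int.natCast_nonneg x
  have hy0 : (0 : ℤ) ≤ y := Int.natCast_nonneg y
  have h6 : (x : ℤ) ^ 2 + (y : ℤ) ^ 2 ≤ n := by
    rw [← hn]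
    nlinarith [mul_nonneg hx0 hy0, sq_nonneg (x : ℤ), sq_nonneg (y : ℤ),
      mul_nonneg h3.le (mul_nonneg hx0 hy0), mul_nonneg (sub_nonneg.2 h4) (sq_nonneg (x : ℤ)),
      mul_nonneg (sub_nonneg.2 h5) (sq_nonneg (y : ℤ))]
  have h7 : (x : ℤ) ≤ (x : ℤ) ^ 2 := by
    rcases Nat.eq_zero_or_pos x with h | h
    · rw [h]; simp
    · have : (1 : ℤ) ≤ x := by exact_mod_cast h
      nlinarith
  have h8 : (y : ℤ) ≤ (y : ℤ) ^ 2 := by
    rcases Nat.eq_zero_or_pos y with h | h
    · rw [h]; simp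
    · have : (1 : ℤ) ≤ y := by exact_mod_cast h
      nlinarith
  have h9 := sq_nonneg (x : ℤ)
  have h10 := sq_nonneg (y : ℤ)
  refine ⟨hi, ?_, ?_⟩
  · change x ≤ n.toNat
    omega
  · change y ≤ n.toNat
    omega

end CN94
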