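import Pool.Agent.Lib_CN94.SecJ
import Pool.Agent.Lib_CN94.SecCone

/-!
# Piece ORBIT: the count of lattice points is the count of ideals times a constant
-/

namespace CN94

open QP QuadraticAlgebra

variable {e : ℤ} {ε : R e} {L : ℕ} {p : ℕ → R e}

/-- totally positive elements of norm `n` in the sector -/
def OrbitF (ε : R e) (n : ℤ) : Set (R e) := {β | TP β ∧ Sec ε β ∧ norm β = n}

theorem Orbit_cnt (hpos : 0 < 4 * e + 1) (hp : IsPath ε L p) (n : ℤ) :
    cnt L p n = Nat.card (OrbitF ε n) := by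
  unfold cnt
  refine Nat.card_congr (Equiv.ofBijective (fun z : cset L p n =>
    (⟨(z.1.2.1 : R e) * p z.1.1 + (z.1.2.2 : R e) * p (z.1.1 + 1),
      (cone_sec hpos hp z.2.1 z.2.2.1).1, (cone_sec hpos hp z.2.1 z.2.2.1).2, z.2.2.2⟩ :
      OrbitF ε n)) ⟨?_, ?_⟩)
  · rintro ⟨⟨i, x, y⟩, h1, h2, h3⟩ ⟨⟨j, x', y'⟩, h1', h2', h3'⟩ h
    have h4 := congrArg Subtype.val h
    obtain ⟨e1, e2, e3⟩ := cone_unique hpos hp h1 h1' h2 h2' h4
    subst e1
    subst e2
    subst e3
    rfl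
  · rintro ⟨β, h1, h2, h3⟩
    obtain ⟨i, x, y, hi, hx, hb⟩ := sec_cone hpos hp β h1 h2
    exact ⟨⟨(i, x, y), hi, hx, by
      show norm ((x : R e) * p i + (y : R e) * p (i + 1)) = n
      rw [← hb]; exact h3⟩, Subtype.ext hb.symm⟩

theorem Orbit_unit {η : R e} (h : norm η = 1) : IsUnit η := by
  refine IsUnit.of_mul_eq_one (star η) ?_
  rw [QP.mul_star_self, h]
  simp

theorem Orbit_card (hsq : ¬ IsSquare (4 * e + 1)) (hpos : 0 < 4 * e + 1) (hε : norm ε = 1)
    (htp : TP ε) (him : 0 < ε.im) (n : ℤ) (hn : 0 < n) :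
    Nat.card (OrbitF ε n) = Nat.card (OrbitF ε 1 × IdP e n) := by
  classical
  have hdom : IsDomain (R e) := QP.isDomain hsq
  set u : (R e)ˣ := un ε hε with hu
  have hex : ∀ β : R e, ∃ j : ℤ, TP β → Sec ε (((u ^ j : (R e)ˣ) : R e) * β) := by
    intro β
    by_cases hβ : TP β
    · obtain ⟨j, hj, _⟩ := sec_existsUnique hpos hε htp him β hβ
      exact ⟨j, fun _ => hj⟩
    · exact ⟨0, fun h => absurd h hβ⟩
  choose g hg using hex
  have huniq : ∀ β : R e, TP β → ∀ i j : ℤ, Sec ε (((u ^ i : (R e)ˣ) : R e) * β) →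
      Sec ε (((u ^ j : (R e)ˣ) : R e) * β) → i = j := by
    intro β hβ i j hi hj
    exact (sec_existsUnique hpos hε htp him β hβ).unique hi hj
  have hgen : ∀ I : IdP e n, ∃ β : R e, TP β ∧ norm β = n ∧ I.1 = Ideal.span {β} := fun I => I.2
  choose b hb1 hb2 hb3 using hgen
  have hb0 : ∀ I, b I ≠ 0 := by
    intro I h0
    have h1 := hb2 I
    rw [h0] at h1
    have h2 : norm (0 : R e) = 0 := by rw [norm_eq]; simp
    rw [h2] at h1
    omega
  have hutp := fun j : ℤ => un_zpow_tp hpos hε htp j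
  have hnm : ∀ a c : R e, norm (a * c) = norm a * norm c := fun a c => map_mul _ _ _
  let Φ : OrbitF ε 1 × IdP e n → OrbitF ε n := fun x =>
    ⟨((u ^ (g (x.1.1 * b x.2)) : (R e)ˣ) : R e) * (x.1.1 * b x.2),
      TP.mul hpos (hutp _).1 (TP.mul hpos x.1.2.1 (hb1 _)),
      hg _ (TP.mul hpos x.1.2.1 (hb1 _)), by
        rw [hnm, hnm, (hutp _).2, x.1.2.2.2, hb2, one_mul, one_mul]⟩
  have hspan : ∀ x, Ideal.span {(Φ x).1} = x.2.1 := by
    intro x
    show Ideal.span {((u ^ (g (x.1.1 * b x.2)) : (R e)ˣ) : R e) * (x.1.1 * b x.2)} = _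
    rw [Ideal.span_singleton_mul_left_unit (Units.isUnit _),
      Ideal.span_singleton_mul_left_unit (Orbit_unit x.1.2.2.2), ← hb3]
  refine (Nat.card_congr (Equiv.ofBijective Φ ⟨?_, ?_⟩)).symm
  · rintro ⟨⟨η, hη⟩, I⟩ ⟨⟨η', hη'⟩, I'⟩ h
    have hI : I = I' := by
      have h1 := hspan (⟨η, hη⟩, I)
      have h2 := hspan (⟨η', hη'⟩, I')
      rw [h] at h1
      exact Subtype.ext (h1.symm.trans h2)
    subst hI
    have h3 : ((u ^ (g (η * b I)) : (R e)ˣ) : R e) * (η * b I) =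
        ((u ^ (g (η' * b I)) : (R e)ˣ) : R e) * (η' * b I) := congrArg Subtype.val h
    rw [← mul_assoc, ← mul_assoc] at h3
    have h4 := mul_right_cancel₀ (hb0 I) h3
    have h5 : ((u ^ (g (η' * b I) - g (η * b I)) : (R e)ˣ) : R e) * η' = η := by
      have h6 : u ^ (g (η' * b I) - g (η * b I)) = (u ^ (g (η * b I)))⁻¹ * u ^ (g (η' * b I)) := by
        rw [sub_eq_neg_add, zpow_add, zpow_neg]
      rw [h6, Units.val_mul, mul_assoc, ← h4, ← mul_assoc, Units.inv_mul, one_mul]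
    have h7 := huniq η' hη'.1 (g (η' * b I) - g (η * b I)) 0 (by rw [h5]; exact hη.2.1)
      (by rw [zpow_zero, Units.val_one, one_mul]; exact hη'.2.1)
    rw [h7, zpow_zero, Units.val_one, one_mul] at h5
    subst h5
    rfl
  · rintro ⟨β, h1, h2, h3⟩
    let I : IdP e n := ⟨Ideal.span {β}, β, h1, h3, rfl⟩
    have h4 : Ideal.span {b I} = Ideal.span {β} := (hb3 I).symm
    obtain ⟨v, hv⟩ := Ideal.span_singleton_eq_span_singleton.1 h4
    have h5 : norm (v : R e) = 1 := by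
      have h6 : norm (b I * (v : R e)) = norm β := by rw [hv]
      rw [hnm, hb2, h3] at h6
      have h7 : n * norm (v : R e) = n * 1 := by rw [h6, mul_one]
      exact mul_left_cancel₀ hn.ne' h7
    have h6 : TP (v : R e) := by
      rcases TP_or_neg hpos (a := (v : R e)) (by rw [h5]; norm_num) with h | h
      · exact h
      · exfalso
        have h8 := (TP.mul hpos (hb1 I) h).2
        rw [mul_neg, hv, QP.tr_neg] at h8
        have := h1.2
        omega
    let η : OrbitF ε 1 := ⟨((u ^ (g v) : (R e)ˣ) : R e) * v, TP.mul hpos (hutp _).1 h6, hg _ h6, by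
      rw [hnm, (hutp _).2, h5, one_mul]⟩
    refine ⟨(η, I), Subtype.ext ?_⟩
    show ((u ^ (g (((u ^ (g v) : (R e)ˣ) : R e) * v * b I)) : (R e)ˣ) : R e) *
      (((u ^ (g v) : (R e)ˣ) : R e) * v * b I) = β
    have h9 : ((u ^ (g v) : (R e)ˣ) : R e) * v * b I = ((u ^ (g v) : (R e)ˣ) : R e) * β := by
      rw [mul_assoc, mul_comm (v : R e), hv]
    rw [h9]
    set j := g (((u ^ (g v) : (R e)ˣ) : R e) * β) with hj
    have h10 : ((u ^ j : (R e)ˣ) : R e) * (((u ^ (g v) : (R e)ˣ) : R e) * β) =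
        ((u ^ (j + g v) : (R e)ˣ) : R e) * β := by
      rw [zpow_add, Units.val_mul, mul_assoc]
    rw [h10]
    have h11 : Sec ε (((u ^ (j + g v) : (R e)ˣ) : R e) * β) := by
      rw [← h10, hj]
      exact hg _ (TP.mul hpos (hutp _).1 h1)
    have h12 := huniq β h1 (j + g v) 0 h11
      (by rw [zpow_zero, Units.val_one, one_mul]; exact h2)
    rw [h12, zpow_zero, Units.val_one, one_mul]

/-- PROOF.  Let `F n = {β | TP β ∧ Sec ε β ∧ norm β = n}`.  By `cone_sec`, `sec_cone`, `cone_unique`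
the map `(i,x,y) ↦ x p_i + y p_{i+1}` is a bijection `cset L p n ≃ F n`.  It remains to find a
bijection `F n ≃ F 1 × IdP e n`.  For every `I ∈ IdP e n` choose a generator `β_I`, `TP β_I`,
`norm β_I = n`.  For `η ∈ F 1` and `I`, let `j` be the unique integer with `ε^j η β_I` in the sector
(`sec_existsUnique`), and send `(η, I)` to `ε^j η β_I ∈ F n` (`norm = n`, `TP.mul`, `un_zpow_tp`).
Injective: the ideal of the image is `I` (`η`, `ε` are units: `η * star η = norm η = 1`); if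
`ε^j η β_I = ε^j' η' β_I` then `η' = ε^(j-j') η` (`R e` is a domain, `β_I ≠ 0`), and both are in the
sector, so `η = η'` by uniqueness.  Surjective: for `β ∈ F n` let `I = (β)`; `β = u β_I` with a unit
`u`; `norm u = 1` because `norm β = norm β_I = n ≠ 0`; `TP u`: `TP_or_neg`, and `-u` totally positive
would make `-β` totally positive.  Let `η = ε^j u` be in the sector; then `(η, I) ↦ β` by
uniqueness.  Use `Nat.card_congr` and `Nat.card_prod`. -/
theorem cnt_eq (hsq : ¬ IsSquare (4 * e + 1)) (hpos : 0 < 4 * e + 1) (hp : IsPath ε L p) (n : ℤ)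
    (hn : 0 < n) : cnt L p n = cnt L p 1 * Nat.card (IdP e n) := by
  have htp : TP ε := by
    have := hp.tp L le_rfl
    rwa [hp.last] at this
  rw [Orbit_cnt hpos hp n, Orbit_cnt hpos hp 1,
    Orbit_card hsq hpos hp.unit htp hp.im n hn, Nat.card_prod]

end CN94
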