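import Pool.Agent.Lib_CN94.ElemId
import Pool.Agent.Lib_CN94.Plu

/-!
# Data for the paths
-/

namespace CN94

open QP QuadraticAlgebra

/-- the conclusion of the path constructions: there is a path whose total value is
`± 2 (Lam 1 B N + Lam N (2kN - B) (-a))` for all `q` and all `f` with `f 0 = 0` -/
def HasPath (e k B N a : ℤ) : Prop :=
  ∃ (ε : R e) (L : ℕ) (p : ℕ → R e) (σ : ℝ), (σ = 1 ∨ σ = -1) ∧ IsPath ε L p ∧
    ∀ (q : ℕ) [NeZero q] (f : ZMod q → ℝ), f 0 = 0 →
      ∑ i ∈ Finset.range L, Lv q f (p i) (p (i + 1)) =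
        σ * (2 * (Lam q f 1 B N + Lam q f N (2 * k * N - B) (-a)))

/-- the numerical data of an element `w` of trace `B` and norm `N` such that `k w - 1` has norm
`-a` -/
structure Dat (e k B N a m : ℤ) : Prop where
  k3 : 3 ≤ k
  hN : k ^ 2 * N = k * B - 1 - a
  ham : a * m = B - 2 * k * N
  disc : B ^ 2 - 4 * N = 4 * e + 1
  a3 : 3 ≤ |a|

end CN94
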