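import Pool.Agent.Lib_CN94.ZSum
import Pool.Agent.Lib_CN94.DltA
import Pool.Agent.Lib_CN94.ConeLim
import Pool.Agent.Lib_CN94.NegOne
import Pool.Agent.Lib_CN94.Mean

/-!
# Piece PATHFA: the limit of the cone sums
-/

namespace CN94

open QP QuadraticAlgebra Filter Topology

variable {q1 q2 : ℕ} {e : ℤ} {ε : R e} {L : ℕ} {p : ℕ → R e}

/-- PROOF: `cone_limit` for every `i < L` with `F x y = dl q u (qf ...)`: even because
`qf (-x) (-y) = qf x y`, mean zero by `mean_zero` (`dl` is odd, `exists_norm_neg_one`, `hp.det`);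
the form has positive coefficients (`hp.tp`, `pr_pos`).  Finite sum of limits. -/
theorem Zt_tendsto (h : Setting q1 q2) (he : 4 * e + 1 = q1 * q2) [IsPrincipalIdealRing (R e)]
    (hp : IsPath ε L p) (q : ℕ) [NeZero q] (hq : 2 < q) (hqD : q.Coprime (q1 * q2))
    (u : (ZMod q)ˣ) :
    Tendsto (Zt q (dl q u) L p) (𝓝[>] 0)
      (𝓝 (∑ i ∈ Finset.range L, Lv q (dl q u) (p i) (p (i + 1)))) := by
  have _ := hq
  obtain ⟨γ, hγ⟩ := exists_norm_neg_one h he q (Nat.pos_of_ne_zero (NeZero.ne q)) hqD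
  have hD : 0 < 4 * e + 1 := by
    rw [he]
    exact_mod_cast Nat.mul_pos h.prime1.pos h.prime2.pos
  unfold Zt
  refine tendsto_finsetSum _ fun i hi => ?_
  have hi' : i < L := Finset.mem_range.1 hi
  have h1 := hp.tp i hi'.le
  have h2 := hp.tp (i + 1) hi'
  refine cone_limit q (fun x y => dl q u
    (qf q (norm (p i)) (pr (p i) (p (i + 1))) (norm (p (i + 1))) x y)) ?_ ?_ _ _ _ ?_ ?_ ?_
  · intro x y
    simp only [qf]
    congr 1
    ring
  · exact mean_zero q (dl q u) (dl_neg q u) (p i) (p (i + 1)) γ (hp.det i hi') hγ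
  · exact_mod_cast h1.1
  · exact_mod_cast pr_pos hD h1 h2
  · exact_mod_cast h2.1

end CN94
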