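import Pool.Agent.Lib_CN94.ZSum
import Pool.Agent.Lib_CN94.DivSum
import Pool.Agent.Lib_CN94.Dlt
import Pool.Agent.Lib_CN94.Hyper
import Pool.Agent.Lib_CN94.Orbit
import Pool.Agent.Lib_CN94.IdPos

/-!
# Piece PATHFB: the limit of the Dirichlet sum
-/

namespace CN94

open QP QuadraticAlgebra Filter Topology

variable {q1 q2 : ℕ} {e : ℤ} {ε : R e} {L : ℕ} {p : ℕ → R e}

theorem PathFB_dl_abs (q : ℕ) [NeZero q] (h x : ZMod q) : |dl q h x| ≤ 1 := by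
  unfold dl
  split_ifs <;> norm_num

theorem PathFB_jac_abs (a : ℤ) (D : ℕ) : |(jacobiSym a D : ℝ)| ≤ 1 := by
  rcases jacobiSym.trichotomy a D with h | h | h <;> rw [h] <;> norm_num

theorem PathFB_dlJ_abs (q D : ℕ) [NeZero q] (h : ZMod q) (x : ZMod (q * D)) :
    |dlJ q D h x| ≤ 1 := by
  unfold dlJ
  rw [abs_mul]
  calc |dl q h (x.val : ZMod q)| * |(jacobiSym x.val D : ℝ)| ≤ 1 * 1 :=
        mul_le_mul (PathFB_dl_abs q h _) (PathFB_jac_abs _ _) (abs_nonneg _) zero_le_one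
    _ = 1 := one_mul 1

theorem PathFB_summable (c : ℕ × ℕ → ℝ) (hc : ∀ z, |c z| ≤ 1) (t : ℝ) (ht : 0 < t) :
    Summable fun z : ℕ × ℕ => c z * Real.exp (-(t * ((z.1 + 1) * (z.2 + 1)))) := by
  refine Summable.of_norm_bounded (hyper_summable t ht) fun z => ?_
  rw [norm_mul, Real.norm_eq_abs, Real.norm_eq_abs, abs_of_pos (Real.exp_pos _)]
  calc |c z| * Real.exp (-(t * ((z.1 + 1) * (z.2 + 1))))
      ≤ 1 * Real.exp (-(t * ((z.1 + 1) * (z.2 + 1)))) :=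
        mul_le_mul_of_nonneg_right (hc z) (Real.exp_pos _).le
    _ = _ := one_mul _

theorem PathFB_not_sq (h : Setting q1 q2) (he : 4 * e + 1 = q1 * q2) :
    ¬ IsSquare (4 * e + 1) := by
  rw [he]
  rintro ⟨r, hr⟩
  have h1 : (q1 * q2 : ℕ) = r.natAbs * r.natAbs := by
    have := congrArg Int.natAbs hr
    rw [Int.natAbs_mul, Int.natAbs_mul] at this
    simpa using this
  have hq1 := h.prime1
  have hq2 := h.prime2
  have hd : q1 ∣ r.natAbs := by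
    have : q1 ∣ r.natAbs * r.natAbs := by rw [← h1]; exact dvd_mul_right _ _
    exact (hq1.dvd_mul.1 this).elim id id
  obtain ⟨c, hc⟩ := hd
  rw [hc] at h1
  have h2 : q2 = q1 * (c * c) := by
    have h3 : q1 * q2 = q1 * (q1 * (c * c)) := by rw [h1]; ring
    exact Nat.eq_of_mul_eq_mul_left hq1.pos h3
  have h4 : q1 ∣ q2 := ⟨_, h2⟩
  have h5 := (Nat.prime_dvd_prime_iff_eq hq1 hq2).1 h4
  have := h.lt
  omega


theorem PathFB_split (q : ℕ) [NeZero q] (hq : 2 < q) (u : (ZMod q)ˣ) (a b : ℕ → ℝ)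
    (ha : ∀ n, |a n| ≤ 1) (hb : ∀ n, |b n| ≤ 1) (t : ℝ) (ht : 0 < t) :
    ∑' z : ℕ × ℕ, a (z.1 + 1) * b (z.2 + 1) * dl q u ((((z.1 + 1) * (z.2 + 1) : ℕ)) : ZMod q) *
        Real.exp (-(t * ((z.1 + 1) * (z.2 + 1)))) =
      1 / 2 * ∑ g : (ZMod q)ˣ, ∑' z : ℕ × ℕ, (dl q g ((z.1 + 1 : ℕ) : ZMod q) * a (z.1 + 1)) *
        (dl q ((g⁻¹ * u : (ZMod q)ˣ) : ZMod q) ((z.2 + 1 : ℕ) : ZMod q) * b (z.2 + 1)) *
        Real.exp (-(t * ((z.1 + 1) * (z.2 + 1)))) := by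
  have hs : ∀ g ∈ (Finset.univ : Finset (ZMod q)ˣ), Summable fun z : ℕ × ℕ =>
      (dl q g ((z.1 + 1 : ℕ) : ZMod q) * a (z.1 + 1)) *
        (dl q ((g⁻¹ * u : (ZMod q)ˣ) : ZMod q) ((z.2 + 1 : ℕ) : ZMod q) * b (z.2 + 1)) *
        Real.exp (-(t * ((z.1 + 1) * (z.2 + 1)))) := by
    intro g _
    refine PathFB_summable (fun z => (dl q g ((z.1 + 1 : ℕ) : ZMod q) * a (z.1 + 1)) *
        (dl q ((g⁻¹ * u : (ZMod q)ˣ) : ZMod q) ((z.2 + 1 : ℕ) : ZMod q) * b (z.2 + 1)))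
        (fun z => ?_) t ht
    have h1 : |dl q g ((z.1 + 1 : ℕ) : ZMod q) * a (z.1 + 1)| ≤ 1 := by
      rw [abs_mul]
      exact mul_le_one₀ (PathFB_dl_abs q _ _) (abs_nonneg _) (ha _)
    have h2 : |dl q ((g⁻¹ * u : (ZMod q)ˣ) : ZMod q) ((z.2 + 1 : ℕ) : ZMod q) * b (z.2 + 1)| ≤ 1 := by
      rw [abs_mul]
      exact mul_le_one₀ (PathFB_dl_abs q _ _) (abs_nonneg _) (hb _)
    rw [abs_mul]
    exact mul_le_one₀ h1 (abs_nonneg _) h2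
  rw [← Summable.tsum_finsetSum hs, ← tsum_mul_left]
  refine tsum_congr fun z => ?_
  rw [Nat.cast_mul, dl_mul q hq u]
  simp only [Finset.mul_sum, Finset.sum_mul]
  refine Finset.sum_congr rfl fun g _ => ?_
  ring

/-- the formula for `t > 0` -/
theorem PathFB_formula (h : Setting q1 q2) (he : 4 * e + 1 = q1 * q2) [IsPrincipalIdealRing (R e)]
    (hp : IsPath ε L p) (q : ℕ) [NeZero q] (hq : 2 < q) (u : (ZMod q)ˣ) (t : ℝ) (ht : 0 < t) :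
    Zt q (dl q u) L p t = (cnt L p 1 : ℝ) / 4 *
      ((∑ g : (ZMod q)ˣ, ∑' z : ℕ × ℕ, dl q g ((z.1 + 1 : ℕ) : ZMod q) *
        dlJ q (q1 * q2) ((g⁻¹ * u : (ZMod q)ˣ) : ZMod q) ((z.2 + 1 : ℕ) : ZMod (q * (q1 * q2))) *
        Real.exp (-(t * ((z.1 + 1) * (z.2 + 1))))) +
      ∑ g : (ZMod q)ˣ, ∑' z : ℕ × ℕ, dlJ q q1 g ((z.1 + 1 : ℕ) : ZMod (q * q1)) *
        dlJ q q2 ((g⁻¹ * u : (ZMod q)ˣ) : ZMod q) ((z.2 + 1 : ℕ) : ZMod (q * q2)) *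
        Real.exp (-(t * ((z.1 + 1) * (z.2 + 1))))) := by
  have : NeZero q1 := ⟨h.prime1.ne_zero⟩
  have : NeZero q2 := ⟨h.prime2.ne_zero⟩
  have : NeZero (q1 * q2) := ⟨mul_ne_zero h.prime1.ne_zero h.prime2.ne_zero⟩
  have hpos : 0 < 4 * e + 1 := by
    rw [he]
    exact_mod_cast Nat.mul_pos h.prime1.pos h.prime2.pos
  have hsq := PathFB_not_sq h he
  have hf0 : dl q u 0 = 0 := dl_zero q (by omega) u
  rw [zsum hpos hp q (dl q u) hf0 t ht]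
  -- the two divisor sums
  obtain ⟨-, s1, e1⟩ := div_sum (fun _ => 1) (fun n => (jacobiSym n (q1 * q2) : ℝ))
    (fun n => dl q u (n : ZMod q)) 1 (fun n => by simp) (fun n => PathFB_jac_abs _ _)
    (fun n => PathFB_dl_abs _ _ _) t ht
  obtain ⟨-, s2, e2⟩ := div_sum (fun n => (jacobiSym n q1 : ℝ)) (fun n => (jacobiSym n q2 : ℝ))
    (fun n => dl q u (n : ZMod q)) 1 (fun n => PathFB_jac_abs _ _) (fun n => PathFB_jac_abs _ _)
    (fun n => PathFB_dl_abs _ _ _) t ht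
  have key : ∀ n : ℕ, (cnt L p ((n + 1 : ℕ) : ℤ) : ℝ) * dl q u ((n + 1 : ℕ) : ZMod q) *
      Real.exp (-(t * (n + 1))) = (cnt L p 1 : ℝ) / 2 *
      ((∑ d ∈ (n + 1).divisors, (fun _ => (1 : ℝ)) ((n + 1) / d) *
          (fun n : ℕ => (jacobiSym n (q1 * q2) : ℝ)) d) *
          (fun n : ℕ => dl q u (n : ZMod q)) (n + 1) * Real.exp (-(t * (n + 1))) +
        (∑ d ∈ (n + 1).divisors, (fun n : ℕ => (jacobiSym n q1 : ℝ)) ((n + 1) / d) *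
          (fun n : ℕ => (jacobiSym n q2 : ℝ)) d) *
          (fun n : ℕ => dl q u (n : ZMod q)) (n + 1) * Real.exp (-(t * (n + 1)))) := by
    intro n
    have hc := cnt_eq hsq hpos hp ((n + 1 : ℕ) : ℤ) (by positivity)
    have hi := card_idP h he (n + 1) (Nat.succ_pos n)
    have hi' : 2 * (Nat.card (IdP e ((n + 1 : ℕ) : ℤ)) : ℝ) =
        ∑ d ∈ (n + 1).divisors, (1 : ℝ) * (jacobiSym (d : ℤ) (q1 * q2) : ℝ) +
        ∑ d ∈ (n + 1).divisors, (jacobiSym (((n + 1) / d : ℕ) : ℤ) q1 : ℝ) *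
          (jacobiSym (d : ℤ) q2 : ℝ) := by
      have := congrArg (Int.cast : ℤ → ℝ) hi
      rw [Finset.sum_add_distrib] at this
      push_cast at this ⊢
      simpa using this
    rw [hc]
    push_cast at hi' ⊢
    linear_combination (cnt L p 1 : ℝ) / 2 * dl q u ((n : ZMod q) + 1) *
      Real.exp (-(t * (n + 1))) * hi'
  rw [tsum_congr key, tsum_mul_left, s1.tsum_add s2, e1, e2]
  have p1 := PathFB_split q hq u (fun _ => 1) (fun n => (jacobiSym n (q1 * q2) : ℝ))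
    (fun n => by simp) (fun n => PathFB_jac_abs _ _) t ht
  have p2 := PathFB_split q hq u (fun n => (jacobiSym n q1 : ℝ)) (fun n => (jacobiSym n q2 : ℝ))
    (fun n => PathFB_jac_abs _ _) (fun n => PathFB_jac_abs _ _) t ht
  rw [p1, p2]
  simp only [dlJ_nat, mul_one]
  ring

/-- PROOF: `zsum` (`dl_zero`); `2 cnt n = cnt 1 * ∑_{d ∣ n} (χ(d) + ψ1(n/d) ψ2(d))` by `cnt_eq` and
`card_idP` (`χ d = jacobiSym d (q1 q2)`, `ψ1 = jacobiSym · q1`, `ψ2 = jacobiSym · q2`); so by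
`div_sum` (twice: `a = 1, b = χ` and `a = ψ1, b = ψ2`)
`Zt t = cnt 1 / 2 * (∑'_{m,k} χ(k) dl (m k) e^{-tmk} + ∑'_{m,k} ψ1(m) ψ2(k) dl (m k) e^{-tmk})`.
Insert `dl_mul`: `dl u (m k) = 1/2 ∑_g dl g m * dl (g⁻¹ u) k`, so the two double sums are
`1/2 ∑_g` of the sums of `hyper_limit` for the pairs `(dl g, dlJ (q1 q2) (g⁻¹ u))` and
`(dlJ q1 g, dlJ q2 (g⁻¹ u))` (all of mean zero and zero at `0`: `dl_sum`, `dl_zero`, `dlJ_sum`,
`jacobi_sum_prime`, `jacobi_sum_mul`, `dlJ_zero`).  The second pair has `LL (q * q1) (dlJ ..) = 0`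
by `LL_even` (`jacobiSym (-1) q1 = -1` since `q1 ≡ 3 mod 4`). -/
theorem Zt_tendsto' (h : Setting q1 q2) (he : 4 * e + 1 = q1 * q2) [IsPrincipalIdealRing (R e)]
    (hp : IsPath ε L p) (q : ℕ) [NeZero q] (hq : 2 < q) (hqD : q.Coprime (q1 * q2))
    [NeZero (q * (q1 * q2))] (u : (ZMod q)ˣ) :
    Tendsto (Zt q (dl q u) L p) (𝓝[>] 0)
      (𝓝 ((cnt L p 1 : ℝ) / 4 * ∑ g : (ZMod q)ˣ, LL q (dl q g) *
        LL (q * (q1 * q2)) (dlJ q (q1 * q2) ((g⁻¹ * u : (ZMod q)ˣ) : ZMod q)))) := by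
  have : NeZero q1 := ⟨h.prime1.ne_zero⟩
  have : NeZero q2 := ⟨h.prime2.ne_zero⟩
  have : NeZero (q1 * q2) := ⟨mul_ne_zero h.prime1.ne_zero h.prime2.ne_zero⟩
  have : NeZero (q * q1) := ⟨mul_ne_zero (NeZero.ne q) h.prime1.ne_zero⟩
  have : NeZero (q * q2) := ⟨mul_ne_zero (NeZero.ne q) h.prime2.ne_zero⟩
  have hq1 : 1 < q := by omega
  have h2a : q1 ≠ 2 := by
    intro hh
    have := h.mod1
    omega
  have h2b : q2 ≠ 2 := by
    intro hh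
    have := h.mod2
    omega
  have hc1 : q.Coprime q1 := hqD.coprime_dvd_right (dvd_mul_right _ _)
  have hc2 : q.Coprime q2 := hqD.coprime_dvd_right (dvd_mul_left _ _)
  have hneg : jacobiSym (-1) q1 = -1 := by
    have hodd : Odd q1 := by
      rw [Nat.odd_iff]
      have := h.mod1
      omega
    rw [jacobiSym.at_neg_one hodd]
    exact ZMod.χ₄_nat_three_mod_four h.mod1
  have l1 : ∀ g : (ZMod q)ˣ, Tendsto (fun t : ℝ => ∑' z : ℕ × ℕ, dl q g ((z.1 + 1 : ℕ) : ZMod q) *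
        dlJ q (q1 * q2) ((g⁻¹ * u : (ZMod q)ˣ) : ZMod q) ((z.2 + 1 : ℕ) : ZMod (q * (q1 * q2))) *
        Real.exp (-(t * ((z.1 + 1) * (z.2 + 1))))) (𝓝[>] 0) (𝓝 (LL q (dl q g) *
        LL (q * (q1 * q2)) (dlJ q (q1 * q2) ((g⁻¹ * u : (ZMod q)ˣ) : ZMod q)))) := fun g =>
    hyper_limit q (q * (q1 * q2)) (dl q g) _ (dl_zero q hq1 g) (dlJ_zero q _ hq1 _)
      (dl_sum q _) (dlJ_sum q _ _ hqD
        (jacobi_sum_mul q1 q2 h.prime1 h.prime2 h.lt.ne h2a h2b))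
  have l2 : ∀ g : (ZMod q)ˣ, Tendsto (fun t : ℝ => ∑' z : ℕ × ℕ,
        dlJ q q1 g ((z.1 + 1 : ℕ) : ZMod (q * q1)) *
        dlJ q q2 ((g⁻¹ * u : (ZMod q)ˣ) : ZMod q) ((z.2 + 1 : ℕ) : ZMod (q * q2)) *
        Real.exp (-(t * ((z.1 + 1) * (z.2 + 1))))) (𝓝[>] 0) (𝓝 0) := by
    intro g
    have := hyper_limit (q * q1) (q * q2) (dlJ q q1 g)
      (dlJ q q2 ((g⁻¹ * u : (ZMod q)ˣ) : ZMod q)) (dlJ_zero q _ hq1 _) (dlJ_zero q _ hq1 _)
      (dlJ_sum q _ _ hc1 (jacobi_sum_prime q1 h.prime1 h2a))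
      (dlJ_sum q _ _ hc2 (jacobi_sum_prime q2 h.prime2 h2b))
    rwa [LL_even q q1 _ hneg, zero_mul] at this
  have lim := ((tendsto_finsetSum Finset.univ fun g _ => l1 g).add
    (tendsto_finsetSum (Finset.univ : Finset (ZMod q)ˣ) fun g _ => l2 g)).const_mul
      ((cnt L p 1 : ℝ) / 4)
  rw [Finset.sum_const_zero, add_zero] at lim
  refine lim.congr' ?_
  filter_upwards [self_mem_nhdsWithin] with t ht
  exact (PathFB_formula h he hp q hq u t ht).symm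

end CN94
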