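import Pool.Agent.Lib_CN94.PathFA
import Pool.Agent.Lib_CN94.PathFB

/-!
# the path formula
-/

namespace CN94

open QP QuadraticAlgebra Filter Topology

variable {q1 q2 : ℕ} {e : ℤ} {ε : R e} {L : ℕ} {p : ℕ → R e}

/-- PROOF: uniqueness of limits. -/
theorem path_formula (h : Setting q1 q2) (he : 4 * e + 1 = q1 * q2) [IsPrincipalIdealRing (R e)]
    (hp : IsPath ε L p) (q : ℕ) [NeZero q] (hq : 2 < q) (hqD : q.Coprime (q1 * q2))
    [NeZero (q * (q1 * q2))] (u : (ZMod q)ˣ) :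
    ∑ i ∈ Finset.range L, Lv q (dl q u) (p i) (p (i + 1)) =
      (cnt L p 1 : ℝ) / 4 * ∑ g : (ZMod q)ˣ, LL q (dl q g) *
        LL (q * (q1 * q2)) (dlJ q (q1 * q2) ((g⁻¹ * u : (ZMod q)ˣ) : ZMod q)) :=
  tendsto_nhds_unique (Zt_tendsto h he hp q hq hqD u) (Zt_tendsto' h he hp q hq hqD u)

end CN94
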