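import Pool.Agent.Lib_CN94.PathDefs

/-!
# Piece PATHMB: the paths for `w` not totally positive

Put `τ = k B - 2`; then `a (2 - k m) = τ` (from `ham` and `hN`).  Here `τ < 0`.  Let `v : R e` be the
element with `tr v = 2 - B`, `im v = 1` (`B` is odd by `disc`), so `norm v = 1 - B + N`
(`disc`), and `u = k v - (k - 1) = 1 + k (v - 1)`: `tr u = -τ > 0`, `norm u = -a`, `im u = k`.
Let `c = v - 1`, `P i = 1 + i c` (`0 ≤ i ≤ k`, `P 0 = 1`, `P k = u`); `k P i = (k - i) + i u`, so
`k² norm (P i) = (k - i)² + i (k - i) tr u - i² a`, and `k tr (P i) = 2 (k - i) + i tr u`.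
`dt (P i) (P (i+1)) = dt 1 c = 1`.  With `t = tr u / |a|`: `t = k m - 2` if `a > 0`, `t = 2 - k m` if
`a < 0`; `ε = 1 + t u` (`a > 0`), `ε = t u - 1` (`a < 0`), `norm ε = 1`, `μ x = ε * star x`,
`dt (μ b) (μ a) = dt a b`, `Lv (μ a) (μ b) = Lv a b`.
Values: with `w = 1 - v = -c` (`tr w = B`, `norm w = N`, `k w - 1 = -u`):
`∑_{i<k} Lv (P i) (P (i+1)) = Lv 1 c - Lv u c` (`Lv_run`), `Lv 1 c = -Lam 1 B N`,
`Lv u c = Lv (-(k w - 1)) (-w) = Lam N (2 k N - B) (-a)`; so the sum is
`-(Lam 1 B N + Lam N (2 k N - B) (-a))`, `σ = -1`.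
-/

namespace CN94

open QP QuadraticAlgebra

section MB

variable {e : ℤ}

/-- the points of the run -/
private def PP (b : ℤ) (i : ℕ) : R e := ⟨1 + i * b, i⟩

private theorem PP_eq (b : ℤ) (i : ℕ) : (PP b i : R e) = 1 + (i : R e) * ⟨b, 1⟩ := by
  ext <;> simp [PP]

private theorem PP_norm (b : ℤ) (i : ℕ) : norm (PP b i : R e) = 1 + i * (2 * b + 1) + i ^ 2 * (b ^ 2 + b - e) := by
  rw [norm_eq]; simp only [PP]; ring

private theorem PP_tr (b : ℤ) (i : ℕ) : tr (PP b i : R e) = 2 + i * (2 * b + 1) := by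
  simp only [PP, tr]; ring

private theorem PP_dt (b : ℤ) (i : ℕ) : dt (PP b i : R e) (PP b (i + 1)) = 1 := by
  simp only [PP, dt]; push_cast; ring

end MB

/-- `a < 0`, `m ≤ -1`.
PROOF: `μ u = u`; path `P 0, …, P (k-1), P k = u, μ (P (k-1)), …, μ (P 0) = ε`, `L = 2 k`.  All norms
and traces are positive.  Total `2 ∑_{i<k} Lv (P i) (P (i+1))`. -/
theorem path_M_neg (e k B N a m : ℤ) (hsq : ¬ IsSquare (4 * e + 1)) (hpos : 0 < 4 * e + 1)
    (hd : Dat e k B N a m) (ha : a < 0) (hm : m ≤ -1) : HasPath e k B N a := by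
  obtain ⟨hk3, hN, ham, hdisc, ha3⟩ := hd
  -- B is odd
  obtain ⟨b, hb⟩ : ∃ b : ℤ, B = -(2 * b + 1) := by
    have h1 : B % 2 = 1 := by
      rcases Int.emod_two_eq_zero_or_one B with h | h
      · exfalso
        obtain ⟨c, hc⟩ := Int.dvd_of_emod_eq_zero h
        rw [hc] at hdisc
        have : 4 * (c ^ 2 - N - e) = 1 := by linarith
        omega
      · exact h
    exact ⟨-(B + 1) / 2, by omega⟩
  obtain ⟨kn, hkn⟩ : ∃ kn : ℕ, k = kn := ⟨k.toNat, by omega⟩
  have hNb : b ^ 2 + b - e = N := by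
    have : 4 * (b ^ 2 + b - e) = 4 * N := by rw [hb] at hdisc; linarith
    linarith
  set t : ℤ := 2 - k * m with ht
  have hat : a * t = k * B - 2 := by
    rw [ht]
    have : a * (2 - k * m) = 2 * a - k * (a * m) := by ring
    rw [this, ham]; linarith
  have ht0 : 5 ≤ t := by rw [ht]; nlinarith
  have ha3' : a ≤ -3 := by
    rw [abs_of_neg ha] at ha3; linarith
  set P : ℕ → R e := PP b with hP
  have hnP : ∀ i, norm (P i) = 1 - i * B + i ^ 2 * N := by
    intro i; rw [hP, PP_norm, hNb, hb]; ring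
  have htP : ∀ i, tr (P i) = 2 - i * B := by
    intro i; rw [hP, PP_tr, hb]; ring
  set u : R e := P kn with hu
  have hnu : norm u = -a := by rw [hu, hnP, ← hkn, hN]; ring
  have htu : tr u = -(a * t) := by rw [hu, htP, hat, ← hkn]; ring
  set ε : R e := ((t : ℤ) : R e) * u - 1 with hε
  have hεim : ε.im = t * k := by
    simp [hε, hu, hP, PP, hkn]
  have hεtr : tr ε = t * tr u - 2 := by
    simp only [hε, tr, re_sub, im_sub, re_mul, im_mul, re_intCast, im_intCast, re_one, im_one, Int.cast_id]; ring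
  have hεn : norm ε = 1 := by
    have h1 : 4 * norm ε = 4 := by
      rw [four_norm, hεtr, hεim]
      have h2 := four_norm u
      have h3 : u.im = k := by simp [hu, hP, PP, hkn]
      rw [h3, hnu] at h2
      rw [htu] at h2 ⊢
      nlinarith
    linarith
  have hTPε : TP ε := by
    refine ⟨by rw [hεn]; norm_num, ?_⟩
    rw [hεtr, htu]
    have h1 : t * -(a * t) = (-a) * (t * t) := by ring
    have h2 : 25 ≤ t * t := by nlinarith
    rw [h1]; nlinarith
  have hTPP : ∀ i ≤ kn, TP (P i) := by
    intro i hi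
    have hi' : (i : ℤ) ≤ k := by rw [hkn]; exact_mod_cast hi
    have hi0 : (0 : ℤ) ≤ i := Int.natCast_nonneg i
    have hat' : 0 < -(a * t) := by nlinarith
    have hkB : k * B = a * t + 2 := by rw [hat]; ring
    constructor
    · have h1 : k ^ 2 * norm (P i) = (k - i) ^ 2 + i * (k - i) * (-(a * t)) + i ^ 2 * (-a) := by
        rw [hnP]
        have : k ^ 2 * (1 - i * B + i ^ 2 * N) = k ^ 2 - i * k * (k * B) + i ^ 2 * (k ^ 2 * N) := by ring
        rw [this, hN, hkB]; ring
      have h2 : 0 < (k - i) ^ 2 + i * (k - i) * (-(a * t)) + i ^ 2 * (-a) := by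
        have hA : 0 ≤ i * (k - i) * (-(a * t)) := by
          apply mul_nonneg (mul_nonneg hi0 (by linarith)) hat'.le
        rcases eq_or_lt_of_le hi0 with h | h
        · rw [← h]; nlinarith
        · have : 0 < (i : ℤ) ^ 2 * (-a) := mul_pos (by positivity) (by linarith)
          nlinarith [sq_nonneg (k - i)]
      rw [← h1] at h2
      exact (mul_pos_iff_of_pos_left (by positivity)).1 h2
    · have h1 : k * tr (P i) = 2 * (k - i) + i * (-(a * t)) := by
        rw [htP]
        have : k * (2 - i * B) = 2 * k - i * (k * B) := by ring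
        rw [this, hkB]; ring
      have h2 : 0 < 2 * (k - i) + i * (-(a * t)) := by
        rcases eq_or_lt_of_le hi0 with h | h
        · rw [← h]; linarith
        · nlinarith
      rw [← h1] at h2
      exact (mul_pos_iff_of_pos_left (by linarith)).1 h2
  have huim : u.im = k := by simp [hu, hP, PP, hkn]
  have hμu : ε * star u = u := by
    apply ext'
    · have h1 := tr_mul ε (star u)
      rw [tr_star, im_star, hεtr, hεim, huim] at h1
      have h2 := four_norm u
      rw [huim, hnu] at h2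
      have h3 : t * (tr u ^ 2 - (4 * e + 1) * k ^ 2) = 4 * tr u := by rw [← h2, htu]; ring
      have h4 : 2 * tr (ε * star u) = 2 * tr u := by rw [h1]; linarith
      linarith
    · have h1 := im_mul2 ε (star u)
      rw [tr_star, im_star, hεtr, hεim, huim] at h1
      have h4 : 2 * (ε * star u).im = 2 * k := by rw [h1]; ring
      rw [huim]; linarith
  set p : ℕ → R e := fun i => if i ≤ kn then P i else ε * star (P (2 * kn - i)) with hp
  have hkn3 : 3 ≤ kn := by
    have : (3 : ℤ) ≤ (kn : ℤ) := by rw [← hkn]; exact hk3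
    exact_mod_cast this
  have hp1 : ∀ i ≤ kn, p i = P i := fun i hi => if_pos hi
  have hp2 : ∀ i, kn ≤ i → p i = ε * star (P (2 * kn - i)) := by
    intro i hi
    rcases eq_or_lt_of_le hi with h | h
    · rw [← h, hp1 kn le_rfl]
      have : 2 * kn - kn = kn := by omega
      rw [this]
      exact hμu.symm
    · exact if_neg (by omega)
  have hP0 : P 0 = 1 := by
    rw [hP, PP_eq]; simp
  refine ⟨ε, 2 * kn, p, -1, Or.inr rfl, ⟨?_, ?_, ?_, ?_, hεn, ?_⟩, ?_⟩
  · rw [hp1 0 (Nat.zero_le _), hP0]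
  · intro i hi
    rcases le_total i kn with h | h
    · rw [hp1 i h]; exact hTPP i h
    · rw [hp2 i h]
      exact TP.mul hpos hTPε (TP.star (hTPP _ (by omega)))
  · intro i hi
    rcases lt_or_ge i kn with h | h
    · rw [hp1 i h.le, hp1 (i + 1) h]
      exact PP_dt b i
    · rw [hp2 i h, hp2 (i + 1) (by omega), dt_mul, dt_star, hεn]
      have h1 : 2 * kn - i = (2 * kn - (i + 1)) + 1 := by omega
      have h2 := PP_dt (e := e) b (2 * kn - (i + 1))
      rw [← h1] at h2
      have h3 : dt (P (2 * kn - i)) (P (2 * kn - (i + 1))) = - dt (P (2 * kn - (i + 1))) (P (2 * kn - i)) := by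
        simp only [dt]; ring
      rw [h3, hP, h2]; norm_num
  · rw [hp2 _ (by omega), Nat.sub_self, hP0, star_one, mul_one]
  · rw [hεim]; positivity
  · intro q _ f hf
    have hrun : ∑ j ∈ Finset.range kn, Lv q f (P j) (P (j + 1)) =
        -(Lam q f 1 B N + Lam q f N (2 * k * N - B) (-a)) := by
      set c : R e := ⟨b, 1⟩ with hc
      have h1 := Lv_run q f hsq hf (1 : R e) c (by simp [dt, hc]) kn
      have h2 : ∀ j : ℕ, P j = 1 + (j : R e) * c := fun j => PP_eq b j
      have h3 : ∀ j : ℕ, (1 : R e) + (j : R e) * c = P j := fun j => (h2 j).symm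
      simp only [h3] at h1
      rw [h1]
      have hnc : norm c = N := by rw [norm_eq, hc]; simp only; linarith
      have hprc : pr (1 : R e) c = -B := by
        rw [pr_eq, hc, hb]; simp only [re_one, im_one]; ring
      have hpuc : pr (P kn) c = 2 * k * N - B := by
        rw [h2, pr_add_left, hprc]
        have : pr ((kn : R e) * c) c = k * (2 * N) := by
          have h4 : pr ((kn : R e) * c) c = kn * pr c c := by
            simp only [pr_eq, re_mul, im_mul, re_natCast, im_natCast]; ring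
          rw [h4, pr_self, hnc, hkn]
        rw [this]; ring
      have hL1 : Lv q f 1 c = -Lam q f 1 B N := by
        unfold Lv
        rw [hprc, hnc, Lam_neg]
        simp
      have hL2 : Lv q f (P kn) c = Lam q f N (2 * k * N - B) (-a) := by
        unfold Lv
        rw [hpuc, hnc, ← hu, hnu, Lam_symm]
      rw [hL1, hL2]; ring
    have hsplit : ∑ i ∈ Finset.range (2 * kn), Lv q f (p i) (p (i + 1)) =
        2 * ∑ j ∈ Finset.range kn, Lv q f (P j) (P (j + 1)) := by
      rw [two_mul kn, Finset.sum_range_add, two_mul]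
      congr 1
      · refine Finset.sum_congr rfl (fun i hi => ?_)
        have hi' := Finset.mem_range.1 hi
        rw [hp1 i hi'.le, hp1 (i + 1) hi']
      · rw [← Finset.sum_range_reflect (fun j => Lv q f (P j) (P (j + 1))) kn]
        refine Finset.sum_congr rfl (fun i hi => ?_)
        have hi' := Finset.mem_range.1 hi
        rw [hp2 (kn + i) (by omega), hp2 (kn + i + 1) (by omega), Lv_unit q f _ _ _ hεn, Lv_star, Lv_symm]
        have h1 : 2 * kn - (kn + i + 1) = kn - 1 - i := by omega
        have h2 : 2 * kn - (kn + i) = kn - 1 - i + 1 := by omega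
        rw [h1, h2]
    rw [hsplit, hrun]
    ring

end CN94
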