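import Pool.Agent.Lib_CN94.PathMA
import Pool.Agent.Lib_CN94.PathMB

/-!
# The paths for `w` not totally positive (collects the two pieces)
-/
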