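import Pool.Agent.Lib_CN94.PathDefs

/-!
# Piece PATHMA: the paths for `w` not totally positive

Put `τ = k B - 2`; then `a (2 - k m) = τ` (from `ham` and `hN`).  Here `τ < 0`.  Let `v : R e` be the
element with `tr v = 2 - B`, `im v = 1` (`B` is odd by `disc`), so `norm v = 1 - B + N`
(`disc`), and `u = k v - (k - 1) = 1 + k (v - 1)`: `tr u = -τ > 0`, `norm u = -a`, `im u = k`.
Let `c = v - 1`, `P i = 1 + i c` (`0 ≤ i ≤ k`, `P 0 = 1`, `P k = u`); `k P i = (k - i) + i u`, so
`k² norm (P i) = (k - i)² + i (k - i) tr u - i² a`, and `k tr (P i) = 2 (k - i) + i tr u`.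
`dt (P i) (P (i+1)) = dt 1 c = 1`.  With `t = tr u / |a|`: `t = k m - 2` if `a > 0`, `t = 2 - k m` if
`a < 0`; `ε = 1 + t u` (`a > 0`), `ε = t u - 1` (`a < 0`), `norm ε = 1`, `μ x = ε * star x`,
`dt (μ b) (μ a) = dt a b`, `Lv (μ a) (μ b) = Lv a b`.
Values: with `w = 1 - v = -c` (`tr w = B`, `norm w = N`, `k w - 1 = -u`):
`∑_{i<k} Lv (P i) (P (i+1)) = Lv 1 c - Lv u c` (`Lv_run`), `Lv 1 c = -Lam 1 B N`,
`Lv u c = Lv (-(k w - 1)) (-w) = Lam N (2 k N - B) (-a)`; so the sum is
`-(Lam 1 B N + Lam N (2 k N - B) (-a))`, `σ = -1`.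
-/

namespace CN94

open QP QuadraticAlgebra

section MA

variable {e : ℤ}

/-- the points of the run -/
private def PA (b : ℤ) (i : ℕ) : R e := ⟨1 + i * b, i⟩

private theorem PA_eq (b : ℤ) (i : ℕ) : (PA b i : R e) = 1 + (i : R e) * ⟨b, 1⟩ := by
  ext <;> simp [PA]

private theorem PA_norm (b : ℤ) (i : ℕ) : norm (PA b i : R e) = 1 + i * (2 * b + 1) + i ^ 2 * (b ^ 2 + b - e) := by
  rw [norm_eq]; simp only [PA]; ring

private theorem PA_tr (b : ℤ) (i : ℕ) : tr (PA b i : R e) = 2 + i * (2 * b + 1) := by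
  simp only [PA, tr]; ring

private theorem PA_dt (b : ℤ) (i : ℕ) : dt (PA b i : R e) (PA b (i + 1)) = 1 := by
  simp only [PA, dt]; push_cast; ring

private theorem PA_run (b : ℤ) (i j : ℕ) : dt ((PA b i : R e) + (j : R e) * PA b (i + 1))
    (PA b i + ((j + 1 : ℕ) : R e) * PA b (i + 1)) = 1 := by
  simp only [PA, dt, re_add, im_add, re_mul, im_mul, re_natCast, im_natCast]; push_cast; ring

/-- positivity of the norm -/
private theorem PA_posn (k i a t : ℤ) (hi : 0 ≤ i) (hik : i + 1 ≤ k) (ha : 0 < a) (ht : 2 * k - 2 ≤ t) :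
    0 < (k - i) ^ 2 + i * (k - i) * (a * t) - i ^ 2 * a := by
  have h1 : i ≤ (k - i) * t := by
    have h2 : i ≤ t := by linarith
    have h3 : 0 ≤ t := by linarith
    nlinarith
  have h2 : 0 ≤ i * a * ((k - i) * t - i) := mul_nonneg (mul_nonneg hi ha.le) (by linarith)
  have h3 : 0 < (k - i) ^ 2 := by
    have : 0 < k - i := by linarith
    positivity
  have h4 : (k - i) ^ 2 + i * (k - i) * (a * t) - i ^ 2 * a = (k - i) ^ 2 + i * a * ((k - i) * t - i) := by ring
  rw [h4]; linarith

end MA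

/-- `a > 0`, `m ≥ 2`.
PROOF: `μ u = -u`, `J = m - 2`, `μ (P (k-1)) = P (k-1) + J u` (`k P (k-1) = 1 + (k-1) u`,
`ε star u = -u`).  Path: `P 0, …, P (k-1)`, then `P (k-1) + j u` (`0 ≤ j ≤ J`), then
`μ (P (k-2)), …, μ (P 0) = ε`; `L = (k-1) + J + (k-1)`.  Positivity: `(k-i) tr u ≥ i a`, because
`t ≥ 2 k - 2 ≥ i` for `i < k`; along the run `norm (P (k-1) + j u) = norm (P (k-1)) + a j (J - j)`.
Total: `∑_{i<k-1} Lv (P i) (P (i+1))` twice plus
`Lv (P (k-1)) u - Lv (μ (P (k-1))) u = 2 Lv (P (k-1)) u` (`u = -μ u`), i.e. twice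
`∑_{i<k} Lv (P i) (P (i+1))`. -/
theorem path_M_pos (e k B N a m : ℤ) (hsq : ¬ IsSquare (4 * e + 1)) (hpos : 0 < 4 * e + 1)
    (hd : Dat e k B N a m) (ha : 0 < a) (hm : 2 ≤ m) : HasPath e k B N a := by
  obtain ⟨hk3, hN, ham, hdisc, -⟩ := hd
  -- B is odd
  obtain ⟨b, hb⟩ : ∃ b : ℤ, B = -(2 * b + 1) := by
    have h1 : B % 2 = 1 := by
      rcases Int.emod_two_eq_zero_or_one B with h | h
      · exfalso
        obtain ⟨c, hc⟩ := Int.dvd_of_emod_eq_zero h
        rw [hc] at hdisc
        have : 4 * (c ^ 2 - N - e) = 1 := by linarith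
        omega
      · exact h
    exact ⟨-(B + 1) / 2, by omega⟩
  obtain ⟨K1, hK1⟩ : ∃ K1 : ℕ, k = K1 + 1 := ⟨(k - 1).toNat, by omega⟩
  obtain ⟨J, hJ⟩ : ∃ J : ℕ, m = J + 2 := ⟨(m - 2).toNat, by omega⟩
  have hNb : b ^ 2 + b - e = N := by
    have : 4 * (b ^ 2 + b - e) = 4 * N := by rw [hb] at hdisc; linarith
    linarith
  set t : ℤ := k * m - 2 with ht
  have hat : a * t = 2 - k * B := by
    rw [ht]
    have : a * (k * m - 2) = k * (a * m) - 2 * a := by ring
    rw [this, ham]; linarith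
  have ht0 : 2 * k - 2 ≤ t := by rw [ht]; nlinarith
  have ht4 : 4 ≤ t := by linarith
  have hkB : k * B = 2 - a * t := by rw [hat]; ring
  set P : ℕ → R e := PA b with hP
  have hnP : ∀ i, norm (P i) = 1 - i * B + i ^ 2 * N := by
    intro i; rw [hP, PA_norm, hNb, hb]; ring
  have htP : ∀ i, tr (P i) = 2 - i * B := by
    intro i; rw [hP, PA_tr, hb]; ring
  set u : R e := P (K1 + 1) with hu
  have hK1c : ((K1 + 1 : ℕ) : ℤ) = k := by rw [hK1]; push_cast; ring
  have hnu : norm u = -a := by rw [hu, hnP, hK1c, hN]; ring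
  have htu : tr u = a * t := by rw [hu, htP, hK1c, hat]
  have huim : u.im = k := by simp [hu, hP, PA, hK1]
  set ε : R e := 1 + ((t : ℤ) : R e) * u with hε
  have hεim : ε.im = t * k := by
    simp [hε, huim]
  have hεtr : tr ε = 2 + t * tr u := by
    simp only [hε, tr, re_add, im_add, re_mul, im_mul, re_intCast, im_intCast, re_one, im_one, Int.cast_id]; ring
  have hfn := four_norm u
  rw [huim, hnu, htu] at hfn
  have hεn : norm ε = 1 := by
    have h1 : 4 * norm ε = 4 := by
      rw [four_norm, hεtr, hεim, htu]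
      have h2 : (2 + t * (a * t)) ^ 2 - (4 * e + 1) * (t * k) ^ 2 =
          4 + 4 * (a * t ^ 2) + t ^ 2 * ((a * t) ^ 2 - (4 * e + 1) * k ^ 2) := by ring
      rw [h2, ← hfn]; ring
    linarith
  have hTPε : TP ε := by
    refine ⟨by rw [hεn]; norm_num, ?_⟩
    rw [hεtr, htu]
    have h1 : t * (a * t) = a * (t * t) := by ring
    rw [h1]; positivity
  have hTPP : ∀ i ≤ K1, TP (P i) := by
    intro i hi
    have hi' : (i : ℤ) + 1 ≤ k := by rw [hK1]; exact_mod_cast Nat.succ_le_succ hi
    have hi0 : (0 : ℤ) ≤ i := Int.natCast_nonneg i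
    constructor
    · have h1 : k ^ 2 * norm (P i) = (k - i) ^ 2 + i * (k - i) * (a * t) - i ^ 2 * a := by
        rw [hnP]
        have : k ^ 2 * (1 - i * B + i ^ 2 * N) = k ^ 2 - i * k * (k * B) + i ^ 2 * (k ^ 2 * N) := by ring
        rw [this, hN, hkB]; ring
      have h2 := PA_posn k i a t hi0 hi' ha ht0
      rw [← h1] at h2
      exact (mul_pos_iff_of_pos_left (by positivity)).1 h2
    · have h1 : k * tr (P i) = 2 * (k - i) + i * (a * t) := by
        rw [htP]
        have : k * (2 - i * B) = 2 * k - i * (k * B) := by ring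
        rw [this, hkB]; ring
      have h2 : 0 < 2 * (k - i) + i * (a * t) := by
        have : 0 ≤ i * (a * t) := by positivity
        linarith
      rw [← h1] at h2
      exact (mul_pos_iff_of_pos_left (by linarith)).1 h2
  have hμu : ε * star u = -u := by
    apply ext'
    · have h1 := tr_mul ε (star u)
      rw [tr_star, im_star, hεtr, hεim, huim] at h1
      rw [tr_neg]
      have h3 : t * ((a * t) ^ 2 - (4 * e + 1) * k ^ 2) = -4 * (a * t) := by rw [← hfn]; ring
      have h4 : 2 * tr (ε * star u) = 2 * (-(tr u)) := by rw [h1, htu]; linarith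
      linarith
    · have h1 := im_mul2 ε (star u)
      rw [tr_star, im_star, hεtr, hεim, huim] at h1
      have h4 : 2 * (ε * star u).im = 2 * (-k) := by rw [h1]; ring
      rw [im_neg, huim]; linarith
  have hkP : ((k : ℤ) : R e) * P K1 = 1 + ((K1 : ℤ) : R e) * u := by
    ext
    · simp only [hu, hP, PA, hK1, re_add, re_mul, re_intCast, im_intCast, re_one, Int.cast_id]; push_cast; ring
    · simp only [hu, hP, PA, hK1, im_add, im_mul, re_intCast, im_intCast, im_one, Int.cast_id]; push_cast; ring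
  have hμP : ε * star (P K1) = P K1 + (J : R e) * u := by
    have hk0 : ((k : ℤ) : R e) * (ε * star (P K1)) = ((k : ℤ) : R e) * (P K1 + (J : R e) * u) := by
      have h1 : ((k : ℤ) : R e) * (ε * star (P K1)) = ε * star (((k : ℤ) : R e) * P K1) := by
        rw [star_mul]
        have : star ((k : ℤ) : R e) = ((k : ℤ) : R e) := by
          ext <;> simp
        rw [this]; ring
      rw [h1, hkP, star_add, star_one, star_mul]
      have h2 : star ((K1 : ℤ) : R e) = ((K1 : ℤ) : R e) := by
        ext <;> simp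
      rw [h2, mul_add, mul_one, ← mul_assoc, hμu, hε, mul_add, hkP]
      have h3 : ((t : ℤ) : R e) = ((k : ℤ) : R e) * ((J : R e) + 2) - 2 := by
        rw [ht, hJ]; push_cast; ring
      have h4 : ((k : ℤ) : R e) = (K1 : R e) + 1 := by
        rw [hK1]; push_cast; ring
      rw [h3, h4]; push_cast; ring
    have hdom := QP.isDomain hsq
    refine mul_left_cancel₀ ?_ hk0
    intro h
    have := congrArg QuadraticAlgebra.re h
    simp only [re_intCast, re_zero, Int.cast_id] at this
    omega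
  have hprPu : pr (P K1) u = a * J := by
    have h1 : k * pr (P K1) u = k * (a * J) := by
      have h2 : pr (((k : ℤ) : R e) * P K1) u = k * pr (P K1) u := by
        simp only [pr_eq, re_mul, im_mul, re_intCast, im_intCast, Int.cast_id]; ring
      have h3 : pr (((K1 : ℤ) : R e) * u) u = K1 * pr u u := by
        simp only [pr_eq, re_mul, im_mul, re_intCast, im_intCast, Int.cast_id]; ring
      have h4 : pr 1 u = tr u := by
        simp only [pr_eq, re_one, im_one, tr]; ring
      rw [← h2, hkP, pr_add_left, h3, h4, pr_self, hnu, htu, ht, hJ, hK1]; ring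
    exact mul_left_cancel₀ (by omega) h1
  have hrunTP : ∀ j ≤ J, TP (P K1 + (j : R e) * u) := by
    intro j hj
    have hj' : (j : ℤ) ≤ J := by exact_mod_cast hj
    obtain ⟨hn1, ht1⟩ := hTPP K1 le_rfl
    constructor
    · have h1 : norm (P K1 + (j : R e) * u) = norm (P K1) + a * (j * (J - j)) := by
        have h2 := norm_combo 1 (j : ℤ) (P K1) u
        rw [hprPu, hnu] at h2
        have h3 : ((1 : ℤ) : R e) * P K1 + (((j : ℕ) : ℤ) : R e) * u = P K1 + (j : R e) * u := by
          push_cast; ring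
        rw [h3] at h2
        rw [h2]; ring
      rw [h1]
      have : 0 ≤ a * ((j : ℤ) * (J - j)) := by
        apply mul_nonneg ha.le (mul_nonneg (Int.natCast_nonneg j) (by linarith))
      linarith
    · have h1 : tr (P K1 + (j : R e) * u) = tr (P K1) + j * tr u := by
        simp only [tr, re_add, im_add, re_mul, im_mul, re_natCast, im_natCast]; ring
      rw [h1, htu]
      have : 0 ≤ (j : ℤ) * (a * t) := by positivity
      linarith
  set p : ℕ → R e := fun i => if i ≤ K1 then P i else if i ≤ K1 + J then P K1 + ((i - K1 : ℕ) : R e) * u else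
    ε * star (P (2 * K1 + J - i)) with hp
  have hK1' : 2 ≤ K1 := by
    have : (3 : ℤ) ≤ (K1 : ℤ) + 1 := by rw [← hK1]; exact hk3
    omega
  have hp1 : ∀ i ≤ K1, p i = P i := fun i hi => if_pos hi
  have hp2 : ∀ j, j ≤ J → p (K1 + j) = P K1 + (j : R e) * u := by
    intro j hj
    rcases Nat.eq_zero_or_pos j with h | h
    · rw [h]; simp [hp1 K1 le_rfl]
    · have h1 : ¬ (K1 + j ≤ K1) := by omega
      have h2 : K1 + j ≤ K1 + J := by omega
      simp only [hp]
      rw [if_neg h1, if_pos h2]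
      congr 3
      omega
  have hp3 : ∀ i, K1 + J ≤ i → p i = ε * star (P (2 * K1 + J - i)) := by
    intro i hi
    rcases eq_or_lt_of_le hi with h | h
    · rw [← h, hp2 J le_rfl, ← hμP]
      congr 3
      omega
    · have h1 : ¬ (i ≤ K1) := by omega
      have h2 : ¬ (i ≤ K1 + J) := by omega
      simp only [hp]
      rw [if_neg h1, if_neg h2]
  have hP0 : P 0 = 1 := by
    rw [hP, PA_eq]; simp
  refine ⟨ε, K1 + J + K1, p, -1, Or.inr rfl, ⟨?_, ?_, ?_, ?_, hεn, ?_⟩, ?_⟩
  · rw [hp1 0 (Nat.zero_le _), hP0]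
  · intro i hi
    rcases le_total i K1 with h | h
    · rw [hp1 i h]; exact hTPP i h
    · rcases le_total i (K1 + J) with h' | h'
      · obtain ⟨j, rfl⟩ := Nat.exists_eq_add_of_le h
        rw [hp2 j (by omega)]
        exact hrunTP j (by omega)
      · rw [hp3 i h']
        exact TP.mul hpos hTPε (TP.star (hTPP _ (by omega)))
  · intro i hi
    rcases lt_or_ge i K1 with h | h
    · rw [hp1 i h.le, hp1 (i + 1) h]
      exact PA_dt b i
    · rcases lt_or_ge i (K1 + J) with h' | h'
      · obtain ⟨j, rfl⟩ := Nat.exists_eq_add_of_le h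
        rw [hp2 j (by omega), add_assoc, hp2 (j + 1) (by omega)]
        exact PA_run b K1 j
      · rw [hp3 i h', hp3 (i + 1) (by omega), dt_mul, dt_star, hεn]
        have h1 : 2 * K1 + J - i = (2 * K1 + J - (i + 1)) + 1 := by omega
        have h2 := PA_dt (e := e) b (2 * K1 + J - (i + 1))
        rw [← h1] at h2
        have h3 : dt (P (2 * K1 + J - i)) (P (2 * K1 + J - (i + 1))) =
            - dt (P (2 * K1 + J - (i + 1))) (P (2 * K1 + J - i)) := by
          simp only [dt]; ring
        rw [h3, hP, h2]; norm_num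
  · rw [hp3 _ (by omega)]
    have : 2 * K1 + J - (K1 + J + K1) = 0 := by omega
    rw [this, hP0, star_one, mul_one]
  · rw [hεim]; positivity
  · intro q _ f hf
    have hrun : ∑ j ∈ Finset.range (K1 + 1), Lv q f (P j) (P (j + 1)) =
        -(Lam q f 1 B N + Lam q f N (2 * k * N - B) (-a)) := by
      set c : R e := ⟨b, 1⟩ with hc
      have h1 := Lv_run q f hsq hf (1 : R e) c (by simp [dt, hc]) (K1 + 1)
      have h2 : ∀ j : ℕ, P j = 1 + (j : R e) * c := fun j => PA_eq b j
      have h3 : ∀ j : ℕ, (1 : R e) + (j : R e) * c = P j := fun j => (h2 j).symm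
      simp only [h3] at h1
      rw [h1]
      have hnc : norm c = N := by rw [norm_eq, hc]; simp only; linarith
      have hprc : pr (1 : R e) c = -B := by
        rw [pr_eq, hc, hb]; simp only [re_one, im_one]; ring
      have hpuc : pr (P (K1 + 1)) c = 2 * k * N - B := by
        rw [h2, pr_add_left, hprc]
        have : pr (((K1 + 1 : ℕ) : R e) * c) c = k * (2 * N) := by
          have h4 : pr (((K1 + 1 : ℕ) : R e) * c) c = ((K1 + 1 : ℕ) : ℤ) * pr c c := by
            simp only [pr_eq, re_mul, im_mul, re_natCast, im_natCast]; ring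
          rw [h4, pr_self, hnc, hK1c]
        rw [this]; ring
      have hL1 : Lv q f 1 c = -Lam q f 1 B N := by
        unfold Lv
        rw [hprc, hnc, Lam_neg]
        simp
      have hL2 : Lv q f (P (K1 + 1)) c = Lam q f N (2 * k * N - B) (-a) := by
        unfold Lv
        rw [hpuc, hnc, ← hu, hnu, Lam_symm]
      rw [hL1, hL2]; ring
    have hmid : ∑ j ∈ Finset.range J, Lv q f (p (K1 + j)) (p (K1 + j + 1)) = 2 * Lv q f (P K1) u := by
      have h0 : dt (P K1) u = 1 := PA_dt b K1
      have h1 := Lv_run q f hsq hf (P K1) u (by rw [h0]; norm_num) J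
      have h2 : ∑ j ∈ Finset.range J, Lv q f (p (K1 + j)) (p (K1 + j + 1)) =
          ∑ j ∈ Finset.range J, Lv q f (P K1 + (j : R e) * u) (P K1 + ((j + 1 : ℕ) : R e) * u) := by
        refine Finset.sum_congr rfl (fun j hj => ?_)
        have hj' := Finset.mem_range.1 hj
        rw [hp2 j hj'.le, add_assoc, hp2 (j + 1) hj']
      rw [h2, h1, ← hμP]
      have h3 : Lv q f (ε * star (P K1)) u = -Lv q f (P K1) u := by
        have h4 : u = -(ε * star u) := by rw [hμu, neg_neg]
        calc Lv q f (ε * star (P K1)) u = Lv q f (ε * star (P K1)) (-(ε * star u)) := by rw [← h4]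
          _ = -Lv q f (P K1) u := by rw [Lv_neg_right, Lv_unit q f _ _ _ hεn, Lv_star]
      rw [h3]; ring
    have hsplit : ∑ i ∈ Finset.range (K1 + J + K1), Lv q f (p i) (p (i + 1)) =
        2 * ∑ j ∈ Finset.range (K1 + 1), Lv q f (P j) (P (j + 1)) := by
      rw [Finset.sum_range_add, Finset.sum_range_add, hmid, Finset.sum_range_succ]
      have h1 : ∑ i ∈ Finset.range K1, Lv q f (p i) (p (i + 1)) =
          ∑ i ∈ Finset.range K1, Lv q f (P i) (P (i + 1)) := by
        refine Finset.sum_congr rfl (fun i hi => ?_)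
        have hi' := Finset.mem_range.1 hi
        rw [hp1 i hi'.le, hp1 (i + 1) hi']
      have h2 : ∑ i ∈ Finset.range K1, Lv q f (p (K1 + J + i)) (p (K1 + J + i + 1)) =
          ∑ i ∈ Finset.range K1, Lv q f (P i) (P (i + 1)) := by
        rw [← Finset.sum_range_reflect (fun j => Lv q f (P j) (P (j + 1))) K1]
        refine Finset.sum_congr rfl (fun i hi => ?_)
        have hi' := Finset.mem_range.1 hi
        rw [hp3 (K1 + J + i) (by omega), hp3 (K1 + J + i + 1) (by omega), Lv_unit q f _ _ _ hεn, Lv_star, Lv_symm]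
        have h1 : 2 * K1 + J - (K1 + J + i + 1) = K1 - 1 - i := by omega
        have h2 : 2 * K1 + J - (K1 + J + i) = K1 - 1 - i + 1 := by omega
        rw [h1, h2]
      rw [h1, h2, ← hu]; ring
    rw [hsplit, hrun]
    ring

end CN94
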