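import Pool.Agent.Lib_CN94.PathDefs

/-!
# Piece PATHPB: the paths for `w` totally positive

Put `τ = k B - 2`; then `a (2 - k m) = τ` (from `ham` and `hN`: `k a m = k B - 2 k² N =
k B - 2 (k B - 1 - a) = 2 + 2 a - k B`).  Let `v : R e` be the element with `tr v = B`, `im v = 1`
(`B` is odd by `disc`; `QP.exists_mk`), `norm v = N`, and `u = k v - 1`: `tr u = τ`, `norm u = -a`,
`im u = k`.  Let `t = 2 - k m` if `a > 0`, `t = k m - 2` if `a < 0`; in both cases `tr u = |a| t`, `t > 0`.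
`ε = 1 + t u` if `a > 0`, `ε = t u - 1` if `a < 0`; `norm ε = 1`.  Let `μ x = ε * star x`.
`dt (μ b) (μ a) = dt a b`, `Lv (μ a) (μ b) = Lv a b` (`dt_mul`, `dt_star`, `Lv_unit`, `Lv_star`).
-/

namespace CN94

open QP QuadraticAlgebra

/-- `a < 0`, `m ≥ 1`.
PROOF: `t = k m - 2 ≥ 1`, `b = -a`.  `u` is totally positive, `μ u = u`,
`μ v = (1 + t) v - m`.  Path `1, v, u, μ v, ε = μ 1`, `L = 4`.  `dt v u = 1`, `dt u (μ v) =
dt (μ u) (μ v) = dt v u`.  Total `Lv 1 v + Lv v u + Lv (μ u) (μ v) + Lv (μ v) (μ 1) =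
2 (Lv 1 v + Lv v u)`.  `norm v = N = (τ + 1 + b)/k² > 0`.  `σ = 1`. -/
theorem path_P_neg (e k B N a m : ℤ) (hsq : ¬ IsSquare (4 * e + 1)) (hpos : 0 < 4 * e + 1)
    (hd : Dat e k B N a m) (ha : a < 0) (hm : 1 ≤ m) : HasPath e k B N a := by
  obtain ⟨h3, hN, ham, hdisc, ha3⟩ := hd
  have ha3' : a ≤ -3 := by
    rw [abs_of_neg ha] at ha3
    linarith
  obtain ⟨r, hr⟩ : ∃ r : ℤ, B = 2 * r + 1 := by
    rcases Int.even_or_odd' B with ⟨s, hs | hs⟩
    · exfalso
      rw [hs] at hdisc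
      have h1 : (2 * s) ^ 2 = 4 * s ^ 2 := by ring
      rw [h1] at hdisc
      omega
    · exact ⟨s, hs⟩
  have hNr : N = r ^ 2 + r - e := by
    rw [hr] at hdisc
    linarith
  obtain ⟨t, ht⟩ : ∃ t : ℤ, t = k * m - 2 := ⟨_, rfl⟩
  have ht1 : 1 ≤ t := by nlinarith
  have hτ : k * B - 2 = -a * t := by
    rw [ht]
    linear_combination k * ham - 2 * hN
  have hτ3 : 3 ≤ k * B - 2 := by
    rw [hτ]
    nlinarith
  obtain ⟨v, hv⟩ : ∃ v : R e, v = ⟨r, 1⟩ := ⟨_, rfl⟩
  obtain ⟨u, hu⟩ : ∃ u : R e, u = ⟨k * r - 1, k⟩ := ⟨_, rfl⟩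
  obtain ⟨ε, hε⟩ : ∃ ε : R e, ε = ⟨t * (k * r - 1) - 1, t * k⟩ := ⟨_, rfl⟩
  have hnv : norm v = N := by
    rw [norm_eq, hv, hNr]
    ring
  have hnu : norm u = -a := by
    rw [norm_eq, hu]
    rw [hr, hNr] at hN
    linear_combination hN
  have hnε : norm ε = 1 := by
    have h1 := hnu
    rw [norm_eq, hu] at h1
    rw [norm_eq, hε]
    rw [hr] at hτ
    linear_combination t ^ 2 * h1 - t * hτ
  have htv : tr v = B := by
    rw [hv, hr]
    rfl
  have htu : tr u = k * B - 2 := by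
    rw [hu, hr]
    show 2 * (k * r - 1) + k = _
    ring
  have htε : tr ε = t * (k * B - 2) - 2 := by
    rw [hε, hr]
    show 2 * (t * (k * r - 1) - 1) + t * k = _
    ring
  have hB : 0 < B := by nlinarith
  have hN0 : 0 < N := by
    by_contra hcon
    push Not at hcon
    nlinarith
  have TPv : TP v := ⟨by rw [hnv]; exact hN0, by rw [htv]; exact hB⟩
  have TPu : TP u := ⟨by rw [hnu]; linarith, by rw [htu]; linarith⟩
  have TPε : TP ε := ⟨by rw [hnε]; norm_num, by rw [htε]; nlinarith⟩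
  have hμu : ε * star u = u := by
    rw [hr] at hτ
    have h1 := hnu
    rw [norm_eq, hu] at h1
    rw [hε, hu]
    ext
    · simp only [re_mul, re_star, im_star]
      linear_combination t * h1 - hτ
    · simp only [im_mul, re_star, im_star]
      linear_combination (0 : ℤ) * h1
  have hdv : dt 1 v = 1 := by
    rw [hv]
    simp [dt]
  have hdvu : dt v u = 1 := by
    rw [hv, hu]
    simp only [dt]
    ring
  have hd1 : dt u (ε * star v) = 1 := by
    have h1 : dt u (ε * star v) = dt (ε * star u) (ε * star v) := by rw [hμu]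
    rw [h1, dt_mul, dt_star, hnε]
    have h2 : dt u v = -dt v u := by simp only [dt]; ring
    rw [h2, hdvu]
    norm_num
  have hd2 : dt (ε * star v) ε = 1 := by
    have h1 : dt (ε * star v) ε = dt (ε * star v) (ε * star 1) := by rw [star_one, mul_one]
    rw [h1, dt_mul, dt_star, hnε]
    have h2 : dt v 1 = -dt 1 v := by simp only [dt]; ring
    rw [h2, hdv]
    norm_num
  obtain ⟨p, hp⟩ : ∃ p : ℕ → R e, p = fun i => match i with
    | 0 => 1
    | 1 => v
    | 2 => u
    | 3 => ε * star v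
    | _ => ε := ⟨_, rfl⟩
  have hp0 : p 0 = 1 := by rw [hp]; rfl
  have hp1 : p 1 = v := by rw [hp]; rfl
  have hp2 : p 2 = u := by rw [hp]; rfl
  have hp3 : p 3 = ε * star v := by rw [hp]; rfl
  have hp4 : p 4 = ε := by rw [hp]; rfl
  refine ⟨ε, 4, p, 1, Or.inl rfl, ⟨hp0, ?_, ?_, hp4, hnε, ?_⟩, ?_⟩
  · intro i hi
    interval_cases i
    · rw [hp0]; exact TP.one
    · rw [hp1]; exact TPv
    · rw [hp2]; exact TPu
    · rw [hp3]; exact TP.mul hpos TPε TPv.star
    · rw [hp4]; exact TPε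
  · intro i hi
    interval_cases i
    · rw [hp0, hp1]; exact hdv
    · rw [hp1, hp2]; exact hdvu
    · rw [hp2, hp3]; exact hd1
    · rw [hp3, hp4]; exact hd2
  · rw [hε]
    show 0 < t * k
    exact mul_pos (by linarith) (by linarith)
  · intro q _ f hf
    have h1 : Lv q f u (ε * star v) = Lv q f v u := by
      have h2 : Lv q f u (ε * star v) = Lv q f (ε * star u) (ε * star v) := by rw [hμu]
      rw [h2, Lv_unit q f ε _ _ hnε, Lv_star, Lv_symm]
    have h2 : Lv q f (ε * star v) ε = Lv q f 1 v := by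
      have h3 : Lv q f (ε * star v) ε = Lv q f (ε * star v) (ε * star 1) := by
        rw [star_one, mul_one]
      rw [h3, Lv_unit q f ε _ _ hnε, Lv_star, Lv_symm]
    have h3 : Lv q f 1 v = Lam q f 1 B N := by
      unfold Lv
      have h4 : norm (1 : R e) = 1 := map_one _
      have h5 : pr 1 v = B := by
        rw [pr_eq, hv, hr]
        simp only [re_one, im_one]
        ring
      rw [h4, h5, hnv]
    have h4 : Lv q f v u = Lam q f N (2 * k * N - B) (-a) := by
      unfold Lv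
      have h5 : pr v u = 2 * k * N - B := by
        rw [pr_eq, hv, hu, hr, hNr]
        simp only
        ring
      rw [h5, hnv, hnu]
    rw [Finset.sum_range_succ, Finset.sum_range_succ, Finset.sum_range_succ,
      Finset.sum_range_succ, Finset.sum_range_zero, hp0, hp1, hp2, hp3, hp4, h1, h2, h3, h4]
    ring

end CN94
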