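import Pool.Agent.Lib_CN94.PathDefs

/-!
# Piece PATHPA: the paths for `w` totally positive

Put `τ = k B - 2`; then `a (2 - k m) = τ` (from `ham` and `hN`: `k a m = k B - 2 k² N =
k B - 2 (k B - 1 - a) = 2 + 2 a - k B`).  Let `v : R e` be the element with `tr v = B`, `im v = 1`
(`B` is odd by `disc`; `QP.exists_mk`), `norm v = N`, and `u = k v - 1`: `tr u = τ`, `norm u = -a`,
`im u = k`.  Let `t = 2 - k m` if `a > 0`, `t = k m - 2` if `a < 0`; in both cases `tr u = |a| t`, `t > 0`.
`ε = 1 + t u` if `a > 0`, `ε = t u - 1` if `a < 0`; `norm ε = 1`.  Let `μ x = ε * star x`.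
`dt (μ b) (μ a) = dt a b`, `Lv (μ a) (μ b) = Lv a b` (`dt_mul`, `dt_star`, `Lv_unit`, `Lv_star`).
-/

namespace CN94

open QP QuadraticAlgebra

/-- auxiliary facts on the elements `v`, `u`, `ε` -/
theorem PathPA_aux (e k B N a m : ℤ) (hd : Dat e k B N a m) (v : R e) (hv : tr v = B)
    (hvi : v.im = 1) :
    norm v = N ∧ tr ((k : R e) * v - 1) = k * B - 2 ∧ ((k : R e) * v - 1).im = k ∧
      norm ((k : R e) * v - 1) = -a ∧ pr v ((k : R e) * v - 1) = -(a * m) ∧
      dt v ((k : R e) * v - 1) = 1 ∧ dt (1 : R e) v = 1 ∧ pr (1 : R e) v = B := by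
  obtain ⟨hk, hN, ham, hdisc, ha3⟩ := hd
  have hnv : norm v = N := by
    have h := QP.four_norm v
    rw [hv, hvi] at h
    nlinarith
  have hre : 2 * v.re + 1 = B := by
    have := hv
    simp only [tr, hvi] at this
    exact this
  have hn2 : v.re ^ 2 + v.re * 1 - e * 1 ^ 2 = N := by
    rw [← hnv, norm_eq, hvi]
  refine ⟨hnv, ?_, ?_, ?_, ?_, ?_, ?_, ?_⟩
  · simp only [tr, re_sub, im_sub, re_mul, im_mul, re_intCast, im_intCast, Int.cast_id, re_one, im_one,
      hvi]
    linear_combination k * hre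
  · simp only [im_sub, im_mul, re_intCast, im_intCast, Int.cast_id, im_one, hvi]
    ring
  · simp only [norm_eq, re_sub, im_sub, re_mul, im_mul, re_intCast, im_intCast, Int.cast_id, re_one,
      im_one, hvi]
    linear_combination k ^ 2 * hn2 - k * hre + hN
  · simp only [pr_eq, re_sub, im_sub, re_mul, im_mul, re_intCast, im_intCast, Int.cast_id, re_one,
      im_one, hvi]
    linear_combination 2 * k * hn2 - hre + ham
  · simp only [dt, re_sub, im_sub, re_mul, im_mul, re_intCast, im_intCast, Int.cast_id, re_one,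
      im_one, hvi]
    ring
  · simp only [dt, re_one, im_one, hvi]
    ring
  · simp only [pr_eq, re_one, im_one, hvi]
    linear_combination hre

/-- `a > 0`, `m ≤ -1`.
PROOF: `t = 2 - k m`, `J = -m`.  `μ u = -u` (since `star u = tr u - u` and `u² = tr u u + a`), and
`μ v = v + J u`.  Path: `p 0 = 1`, `p (1+j) = v + j u` (`0 ≤ j ≤ J`), `p (J+2) = ε = μ 1`,
`L = J + 2`.  `dt 1 v = 1`, `dt v u = 1`, `dt (μ v) (μ 1) = dt 1 v = 1`.  `norm (v + j u) =
N + a j (J - j) > 0` (as `pr v u = a J` because `norm (v + J u) = norm v`), `k² N = a (1 - k m) + 1 > 0`,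
traces: `k B = τ + 2 > 0`, `τ > 0`.  Total value: `Lv 1 v + (Lv v u - Lv (v + J u) u) + Lv (μ v) (μ 1)`
(`Lv_run`), `Lv (v + J u) u = Lv (μ v) (-(μ u)) = -Lv v u`, `Lv (μ v) (μ 1) = Lv v 1 = Lv 1 v`.  So it is
`2 (Lv 1 v + Lv v u)`, and `Lv 1 v = Lam 1 B N`, `Lv v u = Lam N (2 k N - B) (-a)`
(`pr v u = 2 k N - B`).  `σ = 1`. -/
theorem path_P_pos (e k B N a m : ℤ) (hsq : ¬ IsSquare (4 * e + 1)) (hpos : 0 < 4 * e + 1)
    (hd : Dat e k B N a m) (ha : 0 < a) (hm : m ≤ -1) : HasPath e k B N a := by
  have hd0 := hd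
  obtain ⟨hk, hN, ham, hdisc, ha3⟩ := hd
  have hBodd : (B - 1) % 2 = 0 := by
    rcases Int.emod_two_eq_zero_or_one B with h | h
    · exfalso
      obtain ⟨c, hc⟩ : ∃ c, B = 2 * c := ⟨B / 2, by omega⟩
      rw [hc] at hdisc
      have h2 : 4 * (c ^ 2 - N) = 4 * e + 1 := by linear_combination hdisc
      omega
    · omega
  obtain ⟨v, hv, hvi⟩ := QP.exists_mk (e := e) B 1 hBodd
  obtain ⟨hnv, htu, hiu, hnu, hpvu, hdvu, hd1v, hp1v⟩ := PathPA_aux e k B N a m hd0 v hv hvi
  set u : R e := (k : R e) * v - 1 with hu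
  -- `t`
  obtain ⟨t, ht⟩ : ∃ t : ℤ, t = 2 - k * m := ⟨_, rfl⟩
  obtain ⟨J, hJ⟩ : ∃ J : ℕ, (J : ℤ) = -m := ⟨(-m).toNat, by omega⟩
  have hm' : m = -(J : ℤ) := by omega
  have hJ1 : 1 ≤ (J : ℤ) := by omega
  have htpos : 0 < t := by
    rw [ht, hm']
    nlinarith
  have hτ : a * t = k * B - 2 := by
    rw [ht]
    linear_combination (-k) * ham + 2 * hN
  have hτpos : 0 < k * B - 2 := by
    rw [← hτ]
    exact mul_pos ha htpos
  have hkpos : 0 < k := by omega
  have hBpos : 0 < B := by
    by_contra hcon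
    push Not at hcon
    nlinarith
  have hNpos : 0 < N := by
    have h1 : k ^ 2 * N = a * (1 + k * J) + 1 := by
      rw [hN]
      have h2 : a * t = a * (2 + k * J) := by rw [ht, hm']; ring
      linear_combination (-1 : ℤ) * hτ + h2
    by_contra hcon
    push Not at hcon
    have h3 : k ^ 2 * N ≤ 0 := mul_nonpos_of_nonneg_of_nonpos (by positivity) hcon
    have h4 : 0 < a * (1 + k * J) + 1 := by positivity
    omega
  -- real and imaginary parts
  have hvre : 2 * v.re + 1 = B := by
    have := hv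
    simp only [tr, hvi] at this
    exact this
  have hure : u.re = k * v.re - 1 := by
    rw [hu]
    simp only [re_sub, re_mul, re_intCast, im_intCast, Int.cast_id, re_one]
    ring
  have hnv2 : v.re ^ 2 + v.re - e = N := by
    have := hnv
    rw [norm_eq, hvi] at this
    linear_combination this
  set ε : R e := 1 + (t : R e) * u with hε
  have hεre : ε.re = 1 + t * (k * v.re - 1) := by
    rw [hε]
    simp only [re_add, re_mul, re_intCast, im_intCast, Int.cast_id, re_one, hure]
    ring
  have hεim : ε.im = t * k := by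
    rw [hε]
    simp only [im_add, im_mul, re_intCast, im_intCast, Int.cast_id, im_one, hiu]
    ring
  have hnε : norm ε = 1 := by
    have h1 := QP.four_norm ε
    have h2 : tr ε = 2 + t * (k * B - 2) := by
      simp only [tr, hεre, hεim]
      linear_combination t * k * hvre
    rw [h2, hεim, ← hdisc] at h1
    have h3 : (4 : ℤ) * norm ε = 4 := by
      rw [h1]
      linear_combination (-4 * t) * hτ + 4 * t ^ 2 * hN
    omega
  have hεtr : tr ε = 2 + t * (k * B - 2) := by
    simp only [tr, hεre, hεim]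
    linear_combination t * k * hvre
  have hTPε : TP ε := ⟨by rw [hnε]; norm_num, by rw [hεtr]; positivity⟩
  -- `μ v = v + J u`
  have hμv : ε * star v = v + ((J : ℕ) : R e) * u := by
    apply QP.ext'
    · have h1 := QP.tr_mul ε (star v)
      have h2 : tr (star v) = B := by rw [QP.tr_star, hv]
      have h3 : (star v).im = -1 := by rw [im_star, hvi]
      rw [h2, h3, hεtr, hεim] at h1
      have h4 : tr (v + ((J : ℕ) : R e) * u) = B + J * (k * B - 2) := by
        have : tr (v + ((J : ℕ) : R e) * u) = tr v + J * tr u := by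
          simp only [tr, re_add, im_add, re_mul, im_mul, re_natCast, im_natCast]
          push_cast
          ring
        rw [this, hv, htu]
      rw [h4]
      have h5 : 2 * tr (ε * star v) = 2 * (B + J * (k * B - 2)) := by
        rw [h1, ← hdisc, ← hτ]
        have h6 : (J : ℤ) = -m := hJ
        rw [h6]
        linear_combination (t * B) * hτ + (2 * t) * ham
      omega
    · have h1 := QP.im_mul2 ε (star v)
      have h2 : tr (star v) = B := by rw [QP.tr_star, hv]
      have h3 : (star v).im = -1 := by rw [im_star, hvi]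
      rw [h2, h3, hεtr, hεim] at h1
      have h4 : (v + ((J : ℕ) : R e) * u).im = 1 + J * k := by
        simp only [im_add, im_mul, re_natCast, im_natCast, hvi, hiu]
        push_cast
        ring
      rw [h4]
      have h5 : 2 * (ε * star v).im = 2 * (1 + J * k) := by
        rw [h1, hJ]
        linear_combination 2 * ht
      omega
  have hμu : ε * star u = -u := by
    have h1 : u * star u = ((norm u : ℤ) : R e) := QP.mul_star_self u
    have h2 : u + star u = ((k * B - 2 : ℤ) : R e) := by
      rw [← htu]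
      ext
      · simp only [re_add, re_star, re_intCast, tr, Int.cast_id]; ring
      · simp only [im_add, im_star, im_intCast]; ring
    have h3 : ε * star u = star u + (t : R e) * (u * star u) := by rw [hε]; ring
    rw [h3, h1, hnu]
    have h4 : ((t : ℤ) : R e) * ((-a : ℤ) : R e) = -((k * B - 2 : ℤ) : R e) := by
      rw [← hτ]
      push_cast
      ring
    rw [h4, ← h2]
    ring
  -- the path
  let p : ℕ → R e := fun i => if i = 0 then 1 else if i ≤ J + 1 then v + (((i - 1 : ℕ) : ℕ) : R e) * u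
    else ε
  have hp0 : p 0 = 1 := by simp [p]
  have hpj : ∀ j ≤ J, p (j + 1) = v + ((j : ℕ) : R e) * u := by
    intro j hj
    have h1 : j + 1 ≤ J + 1 := by omega
    simp [p, hj]
  have hpL : p (J + 2) = ε := by
    have h1 : ¬ (J + 2 ≤ J + 1) := by omega
    simp [p]
  have hpvu' : pr v u = a * J := by
    rw [hpvu, hm']
    ring
  have hTPj : ∀ j ≤ J, TP (v + ((j : ℕ) : R e) * u) := by
    intro j hj
    have hnorm : norm (v + ((j : ℕ) : R e) * u) = N + a * (j * (J - j)) := by
      have h1 := norm_combo 1 (j : ℤ) v u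
      have h2 : ((1 : ℤ) : R e) * v + ((j : ℤ) : R e) * u = v + ((j : ℕ) : R e) * u := by
        push_cast
        ring
      rw [h2, hnv, hpvu', hnu] at h1
      rw [h1]
      ring
    have htr : tr (v + ((j : ℕ) : R e) * u) = B + j * (k * B - 2) := by
      have : tr (v + ((j : ℕ) : R e) * u) = tr v + j * tr u := by
        simp only [tr, re_add, im_add, re_mul, im_mul, re_natCast, im_natCast]
        push_cast
        ring
      rw [this, hv, htu]
    refine ⟨?_, ?_⟩
    · rw [hnorm]
      have h3 : (0 : ℤ) ≤ (J : ℤ) - j := by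
        have : (j : ℤ) ≤ J := by exact_mod_cast hj
        omega
      have h4 : (0 : ℤ) ≤ a * (j * (J - j)) := by positivity
      omega
    · rw [htr]
      positivity
  have hdet1 : ∀ j : ℕ, dt (v + ((j : ℕ) : R e) * u) (v + ((j + 1 : ℕ) : R e) * u) = 1 := by
    intro j
    have h1 : dt (v + ((j : ℕ) : R e) * u) (v + ((j + 1 : ℕ) : R e) * u) = dt v u := by
      simp only [dt, re_add, im_add, re_mul, im_mul, re_natCast, im_natCast]
      push_cast
      ring
    rw [h1, hdvu]
  have hdetlast : dt (v + ((J : ℕ) : R e) * u) ε = 1 := by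
    have h1 : ε = ε * star (1 : R e) := by simp
    rw [← hμv]
    nth_rewrite 2 [h1]
    rw [dt_mul, hnε, dt_star, one_mul]
    have h2 : dt v (1 : R e) = -dt (1 : R e) v := by simp only [dt]; ring
    rw [h2, hd1v]
    ring
  have hpath : IsPath ε (J + 2) p := by
    refine ⟨hp0, ?_, ?_, hpL, hnε, ?_⟩
    · intro i hi
      rcases Nat.eq_zero_or_pos i with h | h
      · rw [h, hp0]
        exact TP.one
      · rcases Nat.lt_or_ge (J + 1) i with h' | h'
        · have : i = J + 2 := by omega
          rw [this, hpL]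
          exact hTPε
        · obtain ⟨j, rfl⟩ : ∃ j, i = j + 1 := ⟨i - 1, by omega⟩
          rw [hpj j (by omega)]
          exact hTPj j (by omega)
    · intro i hi
      rcases Nat.eq_zero_or_pos i with h | h
      · subst h
        rw [hp0, hpj 0 (by omega)]
        simpa using hd1v
      · obtain ⟨j, rfl⟩ : ∃ j, i = j + 1 := ⟨i - 1, by omega⟩
        rcases Nat.lt_or_ge j J with h' | h'
        · rw [hpj j (by omega), hpj (j + 1) (by omega)]
          exact hdet1 j
        · have h2 : j = J := by omega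
          subst h2
          rw [hpj j (le_refl _), hpL]
          exact hdetlast
    · rw [hεim]
      positivity
  refine ⟨ε, J + 2, p, 1, Or.inl rfl, hpath, ?_⟩
  intro q _ f hf
  have hdvu0 : dt v u ≠ 0 := by rw [hdvu]; norm_num
  have hrun := Lv_run q f hsq hf v u hdvu0 J
  have hsum : ∑ i ∈ Finset.range (J + 2), Lv q f (p i) (p (i + 1)) =
      Lv q f 1 v + (Lv q f v u - Lv q f (v + ((J : ℕ) : R e) * u) u) +
        Lv q f (v + ((J : ℕ) : R e) * u) ε := by
    rw [Finset.sum_range_succ, hpL, hpj J (le_refl _), Finset.sum_range_succ', hp0,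
      hpj 0 (Nat.zero_le _), ← hrun]
    have h1 : ∑ i ∈ Finset.range J, Lv q f (p (i + 1)) (p (i + 1 + 1)) =
        ∑ j ∈ Finset.range J, Lv q f (v + ((j : ℕ) : R e) * u) (v + ((j + 1 : ℕ) : R e) * u) := by
      refine Finset.sum_congr rfl fun j hj => ?_
      have hj' : j < J := Finset.mem_range.1 hj
      rw [hpj j (by omega), hpj (j + 1) (by omega)]
    rw [h1]
    have h2 : v + ((0 : ℕ) : R e) * u = v := by push_cast; ring
    rw [h2]
    ring
  have h3 : Lv q f (v + ((J : ℕ) : R e) * u) u = -Lv q f v u := by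
    have h4 : u = -(ε * star u) := by rw [hμu]; ring
    calc Lv q f (v + ((J : ℕ) : R e) * u) u
        = Lv q f (ε * star v) (-(ε * star u)) := by rw [← hμv, ← h4]
      _ = -Lv q f v u := by rw [Lv_neg_right, Lv_unit _ _ _ _ _ hnε, Lv_star]
  have h5 : Lv q f (v + ((J : ℕ) : R e) * u) ε = Lv q f 1 v := by
    have h6 : ε = ε * star (1 : R e) := by simp
    calc Lv q f (v + ((J : ℕ) : R e) * u) ε
        = Lv q f (ε * star v) (ε * star (1 : R e)) := by rw [← hμv, ← h6]
      _ = Lv q f 1 v := by rw [Lv_unit _ _ _ _ _ hnε, Lv_star, Lv_symm]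
  rw [hsum, h3, h5]
  have h7 : Lv q f 1 v = Lam q f 1 B N := by
    unfold Lv
    rw [hp1v, hnv]
    congr 1
    simp
  have h8 : Lv q f v u = Lam q f N (2 * k * N - B) (-a) := by
    unfold Lv
    rw [hnv, hnu, hpvu]
    congr 1
    linear_combination (-1 : ℤ) * ham
  rw [h7, h8]
  ring

end CN94
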