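import Pool.Agent.Lib_CN94.Defs

/-!
# Piece PHI: the function `φ(u) = ∑ g(k) e^{-uk}` for periodic `g` with `g 0 = 0`, `∑ g = 0`

Put `z = exp (-u) ∈ (0,1)`, `P z = ∑_{k=1}^{M} g k z^k` (`g M = g 0 = 0`).  Then
`φ u = P z / (1 - z^M)`, `P 1 = 0`, so `P z = (1 - z) R z` with the polynomial
`R z = ∑_{k=1}^{M-1} s k z^k`, `s k = g 1 + ... + g k`; hence `φ u = R z / W z`,
`W z = 1 + z + ... + z^{M-1} ≥ 1`.  (For `M = 1`, `g = 0`.)
Value at `z = 1`: `R 1 / M = (∑_{k<M} (M - k) g k) / M = -(∑ k g k)/M = LL M g`.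
-/

namespace CN94

open Filter Topology

noncomputable def phi (M : ℕ) (g : ZMod M → ℝ) (u : ℝ) : ℝ :=
  ∑' k : ℕ, g ((k + 1 : ℕ) : ZMod M) * Real.exp (-(u * (k + 1)))

private theorem phi_sumZ (M : ℕ) [NeZero M] (f : ℕ → ℝ) :
    ∑ x : ZMod M, f x.val = ∑ k ∈ Finset.range M, f k := by
  obtain ⟨m, rfl⟩ : ∃ m, M = m + 1 := Nat.exists_eq_succ_of_ne_zero (NeZero.ne M)
  exact Fin.sum_univ_eq_sum_range f (m + 1)

private theorem phi_sumg (M : ℕ) [NeZero M] (g : ZMod M → ℝ) :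
    ∑ x, g x = ∑ k ∈ Finset.range M, g (k : ZMod M) := by
  rw [← phi_sumZ M (fun k => g (k : ZMod M))]
  refine Finset.sum_congr rfl fun x _ => ?_
  rw [ZMod.natCast_zmod_val]

private theorem phi_sumxg (M : ℕ) [NeZero M] (g : ZMod M → ℝ) :
    ∑ x : ZMod M, (x.val : ℝ) * g x = ∑ k ∈ Finset.range M, (k : ℝ) * g (k : ZMod M) := by
  rw [← phi_sumZ M (fun k => (k : ℝ) * g (k : ZMod M))]
  refine Finset.sum_congr rfl fun x _ => ?_
  rw [ZMod.natCast_zmod_val]

/-- partial sums -/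
private noncomputable def phiS (a : ℕ → ℝ) (n : ℕ) : ℝ := ∑ k ∈ Finset.range n, a k

private noncomputable def phiR (a : ℕ → ℝ) (M : ℕ) : Polynomial ℝ :=
  ∑ k ∈ Finset.range M, Polynomial.C (phiS a (k + 1)) * Polynomial.X ^ k

private noncomputable def phiW (M : ℕ) : Polynomial ℝ := ∑ k ∈ Finset.range M, Polynomial.X ^ k

private theorem phiR_eval (a : ℕ → ℝ) (M : ℕ) (z : ℝ) :
    (phiR a M).eval z = ∑ k ∈ Finset.range M, phiS a (k + 1) * z ^ k := by
  unfold phiR
  rw [Polynomial.eval_finsetSum]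
  simp

private theorem phiW_eval (M : ℕ) (z : ℝ) :
    (phiW M).eval z = ∑ k ∈ Finset.range M, z ^ k := by
  unfold phiW
  rw [Polynomial.eval_finsetSum]
  simp

private theorem phi_abel (a : ℕ → ℝ) (z : ℝ) (n : ℕ) :
    (1 - z) * ∑ k ∈ Finset.range n, phiS a (k + 1) * z ^ k
      = ∑ k ∈ Finset.range n, a k * z ^ k - phiS a n * z ^ n := by
  induction n with
  | zero => simp [phiS]
  | succ n ih =>
    rw [Finset.sum_range_succ, Finset.sum_range_succ, mul_add, ih]
    have h : phiS a (n + 1) = phiS a n + a n := by unfold phiS; rw [Finset.sum_range_succ]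
    rw [h]; ring

private theorem phi_abel1 (a : ℕ → ℝ) (n : ℕ) :
    ∑ k ∈ Finset.range n, phiS a (k + 1)
      = n * phiS a n - ∑ k ∈ Finset.range n, (k : ℝ) * a k := by
  induction n with
  | zero => simp
  | succ n ih =>
    rw [Finset.sum_range_succ, Finset.sum_range_succ, ih]
    have h : phiS a (n + 1) = phiS a n + a n := by unfold phiS; rw [Finset.sum_range_succ]
    rw [h]; push_cast; ring

private theorem phiW_one_le {M : ℕ} (hM : 0 < M) {z : ℝ} (hz : 0 ≤ z) : 1 ≤ (phiW M).eval z := by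
  rw [phiW_eval]
  calc (1 : ℝ) = z ^ 0 := (pow_zero z).symm
    _ ≤ ∑ k ∈ Finset.range M, z ^ k :=
      Finset.single_le_sum (f := fun k => z ^ k) (fun k _ => pow_nonneg hz k)
        (Finset.mem_range.2 hM)

/-- the closed form of `phi` -/
private theorem phi_closed (M : ℕ) [NeZero M] (g : ZMod M → ℝ) (h0 : g 0 = 0)
    (hz : ∑ x, g x = 0) {u : ℝ} (hu : 0 < u) :
    phi M g u = (phiR (fun k => g (k : ZMod M)) M).eval (Real.exp (-u))
      / (phiW M).eval (Real.exp (-u)) := by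
  have hM : 0 < M := Nat.pos_of_ne_zero (NeZero.ne M)
  obtain ⟨z, hzdef⟩ : ∃ z, z = Real.exp (-u) := ⟨_, rfl⟩
  have hz0 : 0 < z := hzdef ▸ Real.exp_pos _
  have hz1 : z < 1 := by rw [hzdef, Real.exp_lt_one_iff]; linarith
  rw [← hzdef]
  have hphi : phi M g u = ∑' k : ℕ, g ((k + 1 : ℕ) : ZMod M) * z ^ (k + 1) := by
    unfold phi
    refine tsum_congr fun k => ?_
    rw [hzdef, ← Real.exp_nat_mul]
    congr 2
    push_cast; ring
  obtain ⟨B, hB⟩ : ∃ B : ℝ, ∀ x, |g x| ≤ B :=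
    ⟨∑ x, |g x|, fun x => Finset.single_le_sum (f := fun x => |g x|) (fun _ _ => abs_nonneg _)
      (Finset.mem_univ x)⟩
  have hsum : Summable fun k : ℕ => g ((k + 1 : ℕ) : ZMod M) * z ^ (k + 1) := by
    refine Summable.of_norm_bounded (g := fun k : ℕ => B * z * z ^ k)
      ((summable_geometric_of_lt_one hz0.le hz1).mul_left _) fun k => ?_
    rw [norm_mul, Real.norm_eq_abs, Real.norm_eq_abs, abs_of_nonneg (pow_nonneg hz0.le _)]
    calc |g ((k + 1 : ℕ) : ZMod M)| * z ^ (k + 1) ≤ B * z ^ (k + 1) :=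
          mul_le_mul_of_nonneg_right (hB _) (pow_nonneg hz0.le _)
      _ = B * z * z ^ k := by rw [pow_succ]; ring
  have hrec : phi M g u = ∑ k ∈ Finset.range M, g ((k + 1 : ℕ) : ZMod M) * z ^ (k + 1)
      + z ^ M * phi M g u := by
    rw [hphi]
    conv_lhs => rw [← hsum.sum_add_tsum_nat_add M]
    congr 1
    rw [← tsum_mul_left]
    refine tsum_congr fun k => ?_
    have h1 : ((k + M + 1 : ℕ) : ZMod M) = ((k + 1 : ℕ) : ZMod M) := by
      push_cast; simp
    rw [h1]; ring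
  have hP : ∑ k ∈ Finset.range M, g ((k + 1 : ℕ) : ZMod M) * z ^ (k + 1)
      = ∑ k ∈ Finset.range M, g (k : ZMod M) * z ^ k := by
    have h1 := Finset.sum_range_succ (fun k : ℕ => g (k : ZMod M) * z ^ k) M
    have h2 := Finset.sum_range_succ' (fun k : ℕ => g (k : ZMod M) * z ^ k) M
    have h3 : g ((M : ℕ) : ZMod M) = 0 := by rw [ZMod.natCast_self, h0]
    simp only [h3, zero_mul, add_zero, Nat.cast_zero, h0] at h1 h2
    rw [← h1, h2]
  have hS : phiS (fun k => g (k : ZMod M)) M = 0 := by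
    unfold phiS; rw [← phi_sumg, hz]
  have habel := phi_abel (fun k => g (k : ZMod M)) z M
  rw [hS, zero_mul, sub_zero] at habel
  rw [hP, ← habel] at hrec
  have hgeo : (1 - z) * ∑ k ∈ Finset.range M, z ^ k = 1 - z ^ M := by
    have := mul_neg_geom_sum z M
    linarith
  have hW : (1 : ℝ) ≤ (phiW M).eval z := phiW_one_le hM hz0.le
  rw [phiR_eval, eq_div_iff (by linarith), phiW_eval]
  have hne : (1 - z) ≠ 0 := by linarith
  apply mul_left_cancel₀ hne
  calc (1 - z) * (phi M g u * ∑ k ∈ Finset.range M, z ^ k)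
      = phi M g u * ((1 - z) * ∑ k ∈ Finset.range M, z ^ k) := by ring
    _ = phi M g u * (1 - z ^ M) := by rw [hgeo]
    _ = (1 - z) * ∑ k ∈ Finset.range M, phiS (fun k => g (k : ZMod M)) (k + 1) * z ^ k := by
      linarith

/-- derivative in `u` of `A z / W z ^ (m+1)`, `z = exp (-u)` -/
private noncomputable def phiT (W A : Polynomial ℝ) (m : ℕ) : Polynomial ℝ :=
  Polynomial.derivative A * W - Polynomial.C (m + 1 : ℝ) * A * Polynomial.derivative W

private theorem phi_der (A W : Polynomial ℝ) (m : ℕ) (u : ℝ)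
    (hW : W.eval (Real.exp (-u)) ≠ 0) :
    HasDerivAt (fun u => A.eval (Real.exp (-u)) / W.eval (Real.exp (-u)) ^ (m + 1))
      ((-(Polynomial.X * phiT W A m)).eval (Real.exp (-u))
        / W.eval (Real.exp (-u)) ^ (m + 2)) u := by
  have he : HasDerivAt (fun u : ℝ => Real.exp (-u)) (-Real.exp (-u)) u := by
    have := (hasDerivAt_neg u).exp
    simpa using this
  have hA : HasDerivAt (fun u => A.eval (Real.exp (-u)))
      ((Polynomial.derivative A).eval (Real.exp (-u)) * (-Real.exp (-u))) u :=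
    HasDerivAt.comp u (h₂ := fun z => A.eval z) (A.hasDerivAt (Real.exp (-u))) he
  have hW1 : HasDerivAt (fun u => W.eval (Real.exp (-u)))
      ((Polynomial.derivative W).eval (Real.exp (-u)) * (-Real.exp (-u))) u :=
    HasDerivAt.comp u (h₂ := fun z => W.eval z) (W.hasDerivAt (Real.exp (-u))) he
  have hW2 := hW1.fun_pow (m + 1)
  have hq := hA.fun_div hW2 (pow_ne_zero _ hW)
  refine hq.congr_deriv ?_
  unfold phiT
  simp only [Polynomial.eval_neg, Polynomial.eval_mul, Polynomial.eval_X, Polynomial.eval_sub,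
    Polynomial.eval_C, Nat.add_sub_cancel]
  push_cast
  field_simp
  ring

/-- second differences -/
private theorem phi_sd (ψ ψ1 ψ2 : ℝ → ℝ) (h1 : ∀ u, HasDerivAt ψ (ψ1 u) u)
    (h2 : ∀ u, HasDerivAt ψ1 (ψ2 u) u) {a t C : ℝ} (ht : 0 < t) (hC : ∀ v, a ≤ v → |ψ2 v| ≤ C) :
    |ψ (a + 2 * t) - 2 * ψ (a + t) + ψ a| ≤ C * t ^ 2 := by
  have hb1 : ∀ s, a ≤ s → |ψ1 (s + t) - ψ1 s| ≤ C * t := by
    intro s hs
    have := Convex.norm_image_sub_le_of_norm_hasDerivWithin_le (f := ψ1) (f' := ψ2)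
      (s := Set.Ici a) (C := C) (fun x _ => (h2 x).hasDerivWithinAt)
      (fun x hx => hC x hx) (convex_Ici a) (x := s) (y := s + t) hs
      (by simp only [Set.mem_Ici]; linarith)
    simpa [Real.norm_eq_abs, abs_of_pos ht] using this
  have hh : ∀ s, HasDerivAt (fun s => ψ (s + t) - ψ s) (ψ1 (s + t) - ψ1 s) s := by
    intro s
    have h3 : HasDerivAt (fun s => ψ (s + t)) (ψ1 (s + t)) s := by
      simpa using (h1 (s + t)).comp_add_const s t
    exact h3.sub (h1 s)
  have := Convex.norm_image_sub_le_of_norm_hasDerivWithin_le (f := fun s => ψ (s + t) - ψ s)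
      (f' := fun s => ψ1 (s + t) - ψ1 s)
      (s := Set.Ici a) (C := C * t) (fun x _ => (hh x).hasDerivWithinAt)
      (fun x hx => hb1 x hx) (convex_Ici a) (x := a) (y := a + t) (Set.mem_Ici.2 le_rfl)
      (by simp only [Set.mem_Ici]; linarith)
  have e1 : ψ (a + 2 * t) - 2 * ψ (a + t) + ψ a
      = (ψ (a + t + t) - ψ (a + t)) - (ψ (a + t) - ψ a) := by
    rw [show a + 2 * t = a + t + t by ring]; ring
  rw [e1]
  rw [add_sub_cancel_left, Real.norm_eq_abs, Real.norm_eq_abs, abs_of_pos ht] at this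
  calc _ ≤ C * t * t := this
    _ = C * t ^ 2 := by ring

/-- PROOF: `LL M g = -∑ g x (x.val/M - 1/2) [x ≠ 0]`, and `∑ g = 0`, `g 0 = 0`. -/
theorem LL_eq (M : ℕ) [NeZero M] (g : ZMod M → ℝ) (h0 : g 0 = 0) (hz : ∑ x, g x = 0) :
    LL M g = -(∑ x : ZMod M, (x.val : ℝ) * g x) / M := by
  unfold LL
  have h1 : ∀ x : ZMod M, g x * saw M x = (x.val : ℝ) * g x / M - 1 / 2 * g x := by
    intro x
    unfold saw
    by_cases hx : x = 0
    · rw [if_pos hx, hx, h0]; ring
    · rw [if_neg hx]; ring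
  simp_rw [h1]
  rw [Finset.sum_sub_distrib, ← Finset.mul_sum, hz, ← Finset.sum_div]
  ring

/-- PROOF: see the header: `φ u = ρ (exp (-u))` with `ρ z = R z / W z` continuous on `[0,1]`. -/
theorem phi_tendsto (M : ℕ) [NeZero M] (g : ZMod M → ℝ) (h0 : g 0 = 0) (hz : ∑ x, g x = 0) :
    Tendsto (phi M g) (𝓝[>] 0) (𝓝 (LL M g)) := by
  have hM : 0 < M := Nat.pos_of_ne_zero (NeZero.ne M)
  have hMr : (M : ℝ) ≠ 0 := by exact_mod_cast hM.ne'
  have hval : LL M g = (phiR (fun k => g (k : ZMod M)) M).eval (Real.exp (-0))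
      / (phiW M).eval (Real.exp (-0)) := by
    have hS : phiS (fun k => g (k : ZMod M)) M = 0 := by
      unfold phiS; rw [← phi_sumg, hz]
    have h1 := phi_abel1 (fun k => g (k : ZMod M)) M
    rw [hS, mul_zero, zero_sub] at h1
    rw [LL_eq M g h0 hz, phi_sumxg, neg_zero, Real.exp_zero, phiR_eval, phiW_eval]
    simp only [one_pow, mul_one, h1, Finset.sum_const, Finset.card_range, nsmul_eq_mul]
  have hcont : Continuous fun u : ℝ => (phiR (fun k => g (k : ZMod M)) M).eval (Real.exp (-u))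
      / (phiW M).eval (Real.exp (-u)) := by
    refine Continuous.div ((Polynomial.continuous _).comp (Real.continuous_exp.comp continuous_neg))
      ((Polynomial.continuous _).comp (Real.continuous_exp.comp continuous_neg)) fun u => ?_
    have := phiW_one_le hM (Real.exp_pos (-u)).le
    linarith
  have h2 : Tendsto (fun u : ℝ => (phiR (fun k => g (k : ZMod M)) M).eval (Real.exp (-u))
      / (phiW M).eval (Real.exp (-u))) (𝓝[>] 0) (𝓝 (LL M g)) := by
    rw [hval]
    exact (hcont.tendsto 0).mono_left nhdsWithin_le_nhds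
  refine h2.congr' ?_
  filter_upwards [self_mem_nhdsWithin] with u hu
  exact (phi_closed M g h0 hz hu).symm

/-- PROOF: `ρ` is a rational function, smooth on a neighbourhood of `[0,1]` with `ρ 0 = 0`; so
`d²/du² ρ (e^{-u}) = z² ρ'' z + z ρ' z` is at most `K z = K e^{-u}` in absolute value, and the second
difference with step `t` at `u = n t` is at most `t² sup_{[nt,(n+2)t]} |φ''| ≤ K t² e^{-nt}`.
(For instance show `∃ K, ∀ u > 0, |φ'' u| ≤ K e^{-u}` and apply the mean value theorem twice; or use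
the explicit `HasDerivAt` of `R z / W z`.) -/
theorem phi_diff2 (M : ℕ) [NeZero M] (g : ZMod M → ℝ) (h0 : g 0 = 0) (hz : ∑ x, g x = 0) :
    ∃ K : ℝ, 0 ≤ K ∧ ∀ t : ℝ, 0 < t → ∀ n : ℕ, 1 ≤ n →
      |phi M g ((n + 2) * t) - 2 * phi M g ((n + 1) * t) + phi M g (n * t)| ≤
        K * t ^ 2 * Real.exp (-(n * t)) := by
  have hM : 0 < M := Nat.pos_of_ne_zero (NeZero.ne M)
  set R := phiR (fun k => g (k : ZMod M)) M with hR
  set Wp := phiW M with hWp
  have hWne : ∀ u : ℝ, Wp.eval (Real.exp (-u)) ≠ 0 := fun u => by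
    have := phiW_one_le hM (Real.exp_pos (-u)).le
    rw [← hWp] at this
    linarith
  set T1 : Polynomial ℝ := -(Polynomial.X * phiT Wp R 0) with hT1
  set T2 : Polynomial ℝ := phiT Wp T1 1 with hT2
  obtain ⟨K, hK⟩ := (isCompact_Icc (a := (0:ℝ)) (b := 1)).exists_bound_of_continuousOn
    (f := fun z => T2.eval z) (Polynomial.continuous _).continuousOn
  have hK0 : 0 ≤ K := (norm_nonneg _).trans (hK 0 (by simp))
  have hd1 : ∀ u : ℝ, HasDerivAt (fun u => R.eval (Real.exp (-u)) / Wp.eval (Real.exp (-u)))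
      (T1.eval (Real.exp (-u)) / Wp.eval (Real.exp (-u)) ^ 2) u := by
    intro u
    have h := phi_der R Wp 0 u (hWne u)
    simp only [zero_add, pow_one] at h
    exact h
  have hd2 : ∀ u : ℝ, HasDerivAt (fun u => T1.eval (Real.exp (-u)) / Wp.eval (Real.exp (-u)) ^ 2)
      ((-(Polynomial.X * T2)).eval (Real.exp (-u)) / Wp.eval (Real.exp (-u)) ^ 3) u := fun u =>
    phi_der T1 Wp 1 u (hWne u)
  refine ⟨K, hK0, fun t ht n hn => ?_⟩
  have hnt : 0 < (n : ℝ) * t := by positivity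
  have hmain := phi_sd _ _ _ hd1 hd2 (a := n * t) (t := t) (C := K * Real.exp (-(n * t))) ht ?_
  · rw [show ((n : ℝ) + 2) * t = n * t + 2 * t by ring,
      show ((n : ℝ) + 1) * t = n * t + t by ring,
      phi_closed M g h0 hz (by linarith : 0 < (n : ℝ) * t + 2 * t),
      phi_closed M g h0 hz (by linarith : 0 < (n : ℝ) * t + t), phi_closed M g h0 hz hnt]
    calc _ ≤ K * Real.exp (-(n * t)) * t ^ 2 := hmain
      _ = _ := by ring
  · intro v hv
    have hz0 := Real.exp_pos (-v)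
    have hz1 : Real.exp (-v) ≤ Real.exp (-(n * t)) := Real.exp_le_exp.2 (by linarith)
    have hz2 : Real.exp (-v) ≤ 1 := Real.exp_le_one_iff.2 (by linarith)
    have hW1 : 1 ≤ Wp.eval (Real.exp (-v)) := phiW_one_le hM hz0.le
    have hT := hK (Real.exp (-v)) ⟨hz0.le, hz2⟩
    rw [Real.norm_eq_abs] at hT
    rw [Polynomial.eval_neg, Polynomial.eval_mul, Polynomial.eval_X, abs_div, abs_neg, abs_mul,
      abs_of_pos hz0]
    have hW3 : 1 ≤ |Wp.eval (Real.exp (-v)) ^ 3| := by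
      rw [abs_of_nonneg (by positivity)]
      exact one_le_pow₀ hW1
    refine (div_le_self (by positivity) hW3).trans ?_
    calc Real.exp (-v) * |T2.eval (Real.exp (-v))| ≤ Real.exp (-(n * t)) * K :=
          mul_le_mul hz1 hT (abs_nonneg _) (Real.exp_pos _).le
      _ = _ := by ring

/-- PROOF: `|φ u| = |R z / W z| ≤ K z`. -/
theorem phi_bound (M : ℕ) [NeZero M] (g : ZMod M → ℝ) (h0 : g 0 = 0) (hz : ∑ x, g x = 0) :
    ∃ K : ℝ, 0 ≤ K ∧ ∀ u : ℝ, 0 < u → |phi M g u| ≤ K * Real.exp (-u) := by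
  have hM : 0 < M := Nat.pos_of_ne_zero (NeZero.ne M)
  refine ⟨∑ k ∈ Finset.range M, |phiS (fun k => g (k : ZMod M)) (k + 1)|,
    Finset.sum_nonneg fun _ _ => abs_nonneg _, fun u hu => ?_⟩
  have hz0 := Real.exp_pos (-u)
  have hz1 : Real.exp (-u) ≤ 1 := Real.exp_le_one_iff.2 (by linarith)
  have hW1 : 1 ≤ (phiW M).eval (Real.exp (-u)) := phiW_one_le hM hz0.le
  rw [phi_closed M g h0 hz hu, abs_div]
  have hW2 : 1 ≤ |(phiW M).eval (Real.exp (-u))| := hW1.trans (le_abs_self _)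
  refine (div_le_self (abs_nonneg _) hW2).trans ?_
  rw [phiR_eval, Finset.sum_mul]
  refine (Finset.abs_sum_le_sum_abs _ _).trans (Finset.sum_le_sum fun k _ => ?_)
  rw [abs_mul]
  rcases Nat.eq_zero_or_pos k with rfl | hk
  · have h1 : phiS (fun k => g (k : ZMod M)) (0 + 1) = 0 := by
      unfold phiS
      simp [h0]
    rw [h1]
    simp
  · refine mul_le_mul_of_nonneg_left ?_ (abs_nonneg _)
    rw [abs_of_nonneg (pow_nonneg hz0.le _)]
    calc Real.exp (-u) ^ k ≤ Real.exp (-u) ^ 1 := pow_le_pow_of_le_one hz0.le hz1 hk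
      _ = Real.exp (-u) := pow_one _

end CN94
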