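import Pool.Agent.Lib_CN94.PathForm
import Pool.Agent.Lib_CN94.PathDefs
import Pool.Agent.Lib_CN94.HForm

/-!
# Piece RELINT: the integral identity
-/

namespace CN94

open QP QuadraticAlgebra

theorem CN94_relint_not_sq {q1 q2 : ℕ} {e : ℤ} (h : Setting q1 q2) (he : 4 * e + 1 = q1 * q2) :
    ¬ IsSquare (4 * e + 1) := by
  rw [he]
  rintro ⟨r, hr⟩
  have h1 : q1 * q2 = r.natAbs * r.natAbs := by
    have := congrArg Int.natAbs hr
    rw [Int.natAbs_mul, Int.natAbs_mul] at this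
    simpa using this
  have h3 : q1 ∣ r.natAbs := by
    rcases h.prime1.dvd_mul.1 (⟨q2, h1.symm⟩ : q1 ∣ r.natAbs * r.natAbs) with h | h <;> exact h
  have h4 : q2 ∣ r.natAbs := by
    rcases h.prime2.dvd_mul.1 (⟨q1, by rw [← h1, mul_comm]⟩ : q2 ∣ r.natAbs * r.natAbs) with h | h
      <;> exact h
  obtain ⟨k, hk⟩ := h3
  rw [hk] at h1 h4
  have h5 : q2 = k * (q1 * k) := by
    have := h.prime1.pos
    apply Nat.eq_of_mul_eq_mul_left this
    rw [h1]; ring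
  have h6 : q2 ∣ q1 * k := h4
  have h7 : k ∣ q2 := ⟨q1 * k, h5⟩
  rcases (Nat.dvd_prime h.prime2).1 h7 with h8 | h8
  · subst h8
    have := h.lt
    rw [mul_one, one_mul] at h5
    omega
  · subst h8
    have h9 := h.prime2.two_le
    have h10 := h.prime1.two_le
    have : k < k * (q1 * k) := by
      calc k = k * 1 := (mul_one k).symm
        _ < k * (q1 * k) := by
          apply Nat.mul_lt_mul_of_pos_left _ (by omega)
          nlinarith
    omega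

/-- integral identity.
PROOF: `T u = ∑_{x,y} dl u (qf q 1 B N x y) * WW ∈ ℤ` (`dl` is integer valued: write it with
`(if x = u then 1 else 0) - (if x = -u then 1 else 0) : ℤ`).  From `path_formula`, `HasPath` and
`H_form`: `24 q² * (total)/(2σ) = T u`, so with `c = cnt L p 1`
`σ T u / (12 q²) = c/4 ∑_g LL(dl g) LL(dlJ (g⁻¹ u))` and by `LL_eq` (`Phi.lean`)
`LL (dl g) = -A g / q`, `LL (dlJ h) = -C h / (q D)`, `D = q1 q2`, with the integers
`A g = ∑_x x.val dl g x`, `C h = ∑_x x.val dlJ h x`.  Multiply out. -/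
theorem int_identity {q1 q2 : ℕ} {e : ℤ} (h : Setting q1 q2) (he : 4 * e + 1 = q1 * q2)
    [IsPrincipalIdealRing (R e)] (k B N a m : ℤ) (hd : Dat e k B N a m) (hP : HasPath e k B N a)
    (q : ℕ) [NeZero q] (hq : 2 < q) (hqD : q.Coprime (q1 * q2)) :
    ∃ (c : ℤ) (C : (ZMod q)ˣ → ℤ), ∀ u : (ZMod q)ˣ,
      ((q1 : ℤ) * q2) * ∑ x : ZMod q, ∑ y : ZMod q,
          ((if qf q 1 B N x y = u then 1 else 0) - (if qf q 1 B N x y = -u then 1 else 0)) *
            WW q k B m x y =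
        c * ∑ g : (ZMod q)ˣ,
          (∑ x : ZMod q, (x.val : ℤ) * ((if x = g then 1 else 0) - (if x = -g then 1 else 0))) *
            C (g⁻¹ * u) := by
  have hq1 : 1 < q := by omega
  have hD : 0 < q1 * q2 := Nat.mul_pos h.prime1.pos h.prime2.pos
  have : NeZero (q1 * q2) := ⟨hD.ne'⟩
  have : NeZero (q * (q1 * q2)) := ⟨(Nat.mul_pos (by omega) hD).ne'⟩
  obtain ⟨ε, L, p, σ, hσ, hpath, hsum⟩ := hP
  obtain ⟨s, hs2, hsσ⟩ : ∃ s : ℤ, s * s = 1 ∧ (s : ℝ) = σ := by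
    rcases hσ with rfl | rfl
    · exact ⟨1, by norm_num, by norm_num⟩
    · exact ⟨-1, by norm_num, by norm_num⟩
  have ha0 : a ≠ 0 := by
    rintro rfl
    have := hd.a3
    simp at this
  have hN0 : N ≠ 0 := by
    rintro rfl
    have h1 := hd.disc
    exact CN94_relint_not_sq h he ⟨B, by rw [← h1]; ring⟩
  refine ⟨3 * s * cnt L p 1, fun h' => ∑ x : ZMod (q * (q1 * q2)), (x.val : ℤ) *
    (((if ((x.val : ℕ) : ZMod q) = h' then 1 else 0) -
      (if ((x.val : ℕ) : ZMod q) = -h' then 1 else 0)) *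
      jacobiSym x.val (q1 * q2)), fun u => ?_⟩
  -- the real identity
  have hT := H_form q (dl q u) k B N a m hd.hN hd.ham ha0 hN0
  have h0 : dl q u 0 = 0 := dl_zero q hq1 u
  have hs1 := hsum q (dl q u) h0
  have hpf := path_formula h he hpath q hq hqD u
  have hLL : ∀ g : (ZMod q)ˣ, LL q (dl q g) = -(∑ x : ZMod q, (x.val : ℝ) * dl q g x) / q :=
    fun g => LL_eq q _ (dl_zero q hq1 g) (dl_sum q _)
  have h2a : q1 ≠ 2 := by
    intro h2
    have := h.mod1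
    omega
  have h2b : q2 ≠ 2 := by
    intro h2
    have := h.mod2
    omega
  have hLJ : ∀ g : (ZMod q)ˣ, LL (q * (q1 * q2)) (dlJ q (q1 * q2) (g : ZMod q)) =
      -(∑ x : ZMod (q * (q1 * q2)), (x.val : ℝ) * dlJ q (q1 * q2) g x) /
        ((q * (q1 * q2) : ℕ) : ℝ) := fun g =>
    LL_eq _ _ (dlJ_zero q _ hq1 g) (dlJ_sum q _ _ hqD
      (jacobi_sum_mul q1 q2 h.prime1 h.prime2 h.lt.ne h2a h2b))
  have hqr : (q : ℝ) ≠ 0 := Nat.cast_ne_zero.2 (NeZero.ne q)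
  have hq1r : (q1 : ℝ) ≠ 0 := by exact_mod_cast h.prime1.pos.ne'
  have hq2r : (q2 : ℝ) ≠ 0 := by exact_mod_cast h.prime2.pos.ne'
  rw [hs1] at hpf
  have hreal : ((q1 : ℝ) * q2) * ∑ x : ZMod q, ∑ y : ZMod q,
      dl q u (qf q 1 B N x y) * (WW q k B m x y : ℝ) =
      3 * s * cnt L p 1 * ∑ g : (ZMod q)ˣ, (∑ x : ZMod q, (x.val : ℝ) * dl q g x) *
        (∑ x : ZMod (q * (q1 * q2)), (x.val : ℝ) *
          dlJ q (q1 * q2) ((g⁻¹ * u : (ZMod q)ˣ) : ZMod q) x) := by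
    rw [← hT]
    have h1 : ∑ g : (ZMod q)ˣ, LL q (dl q g) *
        LL (q * (q1 * q2)) (dlJ q (q1 * q2) ((g⁻¹ * u : (ZMod q)ˣ) : ZMod q)) =
        (1 / ((q : ℝ) ^ 2 * (q1 * q2))) *
          ∑ g : (ZMod q)ˣ, (∑ x : ZMod q, (x.val : ℝ) * dl q g x) *
        (∑ x : ZMod (q * (q1 * q2)), (x.val : ℝ) *
          dlJ q (q1 * q2) ((g⁻¹ * u : (ZMod q)ˣ) : ZMod q) x) := by
      rw [Finset.mul_sum]
      refine Finset.sum_congr rfl fun g _ => ?_
      rw [hLL g, hLJ (g⁻¹ * u)]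
      push_cast
      field_simp
    rw [h1] at hpf
    have hss : (s : ℝ) * s = 1 := by exact_mod_cast hs2
    rw [← hsσ] at hpf
    set S := ∑ g : (ZMod q)ˣ, (∑ x : ZMod q, (x.val : ℝ) * dl q g x) *
        (∑ x : ZMod (q * (q1 * q2)), (x.val : ℝ) *
          dlJ q (q1 * q2) ((g⁻¹ * u : (ZMod q)ˣ) : ZMod q) x) with hS
    set Z := Lam q (dl q u) 1 B N + Lam q (dl q u) N (2 * k * N - B) (-a) with hZ
    have h3 : (q : ℝ) ^ 2 * (q1 * q2) * (s * (2 * Z)) = (cnt L p 1 : ℝ) / 4 * S := by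
      rw [hpf]
      field_simp
    linear_combination (12 * s : ℝ) * h3 - 24 * (q : ℝ) ^ 2 * ((q1 : ℝ) * q2) * Z * hss
  apply (Int.cast_injective (α := ℝ))
  push_cast
  unfold dl dlJ dl at hreal
  push_cast at hreal
  exact hreal

end CN94
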