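import Pool.Agent.Lib_CN94.Defs

/-!
# Piece RELOF: from the integral identity to the relation modulo `r`
-/

namespace CN94

open QP QuadraticAlgebra

private theorem rel_of_unit (q : ℕ) [NeZero q] (r : ℕ) (χ : ZMod q → ZMod r)
    (hχ : GoodChar q r χ) (z : ZMod q) :
    ∑ u : (ZMod q)ˣ, χ u * (if z = u then 1 else 0) = χ z := by
  by_cases hz : IsUnit z
  · obtain ⟨v, rfl⟩ := hz
    rw [Finset.sum_eq_single v]
    · rw [if_pos rfl, mul_one]
    · intro u _ huv
      rw [if_neg, mul_zero]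
      intro h
      exact huv (Units.ext h).symm
    · intro h
      exact absurd (Finset.mem_univ v) h
  · rw [hχ.non z hz]
    apply Finset.sum_eq_zero
    intro u _
    rw [if_neg, mul_zero]
    rintro rfl
    exact hz u.isUnit

private theorem rel_of_neg (q : ℕ) [NeZero q] (r : ℕ) (χ : ZMod q → ZMod r)
    (hχ : GoodChar q r χ) (z : ZMod q) : χ (-z) = -χ z := by
  rw [← neg_one_mul, hχ.mul, hχ.odd, neg_one_mul]

private theorem rel_of_unit' (q : ℕ) [NeZero q] (r : ℕ) (χ : ZMod q → ZMod r)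
    (hχ : GoodChar q r χ) (z : ZMod q) :
    ∑ u : (ZMod q)ˣ, χ u * (if z = -(u : ZMod q) then 1 else 0) = -χ z := by
  have h : ∀ u : (ZMod q)ˣ, (if z = -(u : ZMod q) then (1 : ZMod r) else 0) =
      if -z = u then 1 else 0 := by
    intro u
    by_cases h : z = -(u : ZMod q)
    · rw [if_pos h, if_pos (by rw [h, neg_neg])]
    · rw [if_neg h, if_neg (fun h' => h (by rw [← h', neg_neg]))]
  simp only [h]
  rw [rel_of_unit q r χ hχ, rel_of_neg q r χ hχ]

/-- PROOF: cast `int_identity` to `ZMod r`, multiply by `χ u` and sum over the units `u`.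
Left side: `q1 q2 ∑_{x,y} WW (χ (qf) - χ (-qf)) = 2 q1 q2 ∑ χ(qf) WW` (`χ` is zero on the
non-units, odd).  Right side: substitute `u = g u'`:
`c (∑_g χ g ∑_x x.val ([x = g] - [x = -g])) (∑_{u'} χ u' C u')`, and
`∑_g χ g ∑_x x.val ([x = g] - [x = -g]) = ∑_x x.val (χ x - χ (-x)) = 2 ∑_x x.val χ x = 0`.  As
`2 q1 q2 ≠ 0` in the field `ZMod r`, the relation follows. -/
theorem rel_of_int {q1 q2 : ℕ} (q : ℕ) [NeZero q] (r : ℕ) [Fact r.Prime] (hr : ¬ r ∣ 2 * (q1 * q2))
    (χ : ZMod q → ZMod r) (hχ : GoodChar q r χ) (k B N m : ℤ)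
    (hI : ∃ (c : ℤ) (C : (ZMod q)ˣ → ℤ), ∀ u : (ZMod q)ˣ,
      ((q1 : ℤ) * q2) * ∑ x : ZMod q, ∑ y : ZMod q,
          ((if qf q 1 B N x y = u then 1 else 0) - (if qf q 1 B N x y = -u then 1 else 0)) *
            WW q k B m x y =
        c * ∑ g : (ZMod q)ˣ,
          (∑ x : ZMod q, (x.val : ℤ) * ((if x = g then 1 else 0) - (if x = -g then 1 else 0))) *
            C (g⁻¹ * u)) :
    Rel q r χ k B N m := by
  obtain ⟨c, C, hI⟩ := hI
  have hcast : ∀ u : (ZMod q)ˣ,
      ((q1 : ZMod r) * q2) * ∑ x : ZMod q, ∑ y : ZMod q,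
          ((if qf q 1 B N x y = u then 1 else 0) -
            (if qf q 1 B N x y = -(u : ZMod q) then 1 else 0)) * ((WW q k B m x y : ℤ) : ZMod r) =
        (c : ZMod r) * ∑ g : (ZMod q)ˣ,
          (∑ x : ZMod q, (x.val : ZMod r) *
            ((if x = g then 1 else 0) - (if x = -(g : ZMod q) then 1 else 0))) *
            ((C (g⁻¹ * u) : ℤ) : ZMod r) := by
    intro u
    have h := congrArg (fun z : ℤ => (z : ZMod r)) (hI u)
    push_cast at h
    exact h
  -- the sum of the left sides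
  have hL : ∑ u : (ZMod q)ˣ, χ u * (((q1 : ZMod r) * q2) * ∑ x : ZMod q, ∑ y : ZMod q,
      ((if qf q 1 B N x y = u then 1 else 0) -
        (if qf q 1 B N x y = -(u : ZMod q) then 1 else 0)) * ((WW q k B m x y : ℤ) : ZMod r)) =
      2 * ((q1 : ZMod r) * q2) * ∑ x : ZMod q, ∑ y : ZMod q,
        χ (qf q 1 B N x y) * ((WW q k B m x y : ℤ) : ZMod r) := by
    have h1 : ∀ u : (ZMod q)ˣ, χ u * (((q1 : ZMod r) * q2) * ∑ x : ZMod q, ∑ y : ZMod q,
        ((if qf q 1 B N x y = u then 1 else 0) -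
          (if qf q 1 B N x y = -(u : ZMod q) then 1 else 0)) * ((WW q k B m x y : ℤ) : ZMod r)) =
        ((q1 : ZMod r) * q2) * ∑ x : ZMod q, ∑ y : ZMod q,
          (χ u * (if qf q 1 B N x y = u then 1 else 0) -
            χ u * (if qf q 1 B N x y = -(u : ZMod q) then 1 else 0)) *
            ((WW q k B m x y : ℤ) : ZMod r) := by
      intro u
      rw [← mul_assoc, mul_comm (χ u), mul_assoc]
      congr 1
      rw [Finset.mul_sum]
      apply Finset.sum_congr rfl
      intro x _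
      rw [Finset.mul_sum]
      apply Finset.sum_congr rfl
      intro y _
      ring
    rw [Finset.sum_congr rfl fun u _ => h1 u, ← Finset.mul_sum, Finset.sum_comm,
      mul_comm (2 : ZMod r), mul_assoc (((q1 : ZMod r) * q2)) 2]
    congr 1
    rw [Finset.mul_sum]
    apply Finset.sum_congr rfl
    intro x _
    rw [Finset.sum_comm, Finset.mul_sum]
    apply Finset.sum_congr rfl
    intro y _
    rw [← Finset.sum_mul, Finset.sum_sub_distrib, rel_of_unit q r χ hχ, rel_of_unit' q r χ hχ]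
    ring
  -- the sum of the right sides
  have hR : ∑ u : (ZMod q)ˣ, χ u * ((c : ZMod r) * ∑ g : (ZMod q)ˣ,
      (∑ x : ZMod q, (x.val : ZMod r) *
        ((if x = g then 1 else 0) - (if x = -(g : ZMod q) then 1 else 0))) *
        ((C (g⁻¹ * u) : ℤ) : ZMod r)) = 0 := by
    set S : (ZMod q)ˣ → ZMod r := fun g => ∑ x : ZMod q, (x.val : ZMod r) *
        ((if x = g then 1 else 0) - (if x = -(g : ZMod q) then 1 else 0)) with hS
    have hS0 : ∑ g : (ZMod q)ˣ, χ g * S g = 0 := by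
      rw [hS]
      simp only [Finset.mul_sum]
      rw [Finset.sum_comm]
      have h2 : ∀ x : ZMod q, ∑ g : (ZMod q)ˣ, χ g * ((x.val : ZMod r) *
          ((if x = g then 1 else 0) - (if x = -(g : ZMod q) then 1 else 0))) =
          2 * ((x.val : ZMod r) * χ x) := by
        intro x
        have h3 : ∀ g : (ZMod q)ˣ, χ g * ((x.val : ZMod r) *
            ((if x = g then 1 else 0) - (if x = -(g : ZMod q) then 1 else 0))) =
            (x.val : ZMod r) * (χ g * (if x = g then 1 else 0) -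
              χ g * (if x = -(g : ZMod q) then 1 else 0)) := by
          intro g
          ring
        rw [Finset.sum_congr rfl fun g _ => h3 g, ← Finset.mul_sum, Finset.sum_sub_distrib,
          rel_of_unit q r χ hχ, rel_of_unit' q r χ hχ]
        ring
      rw [Finset.sum_congr rfl fun x _ => h2 x, ← Finset.mul_sum, hχ.sum, mul_zero]
    have h4 : ∀ u : (ZMod q)ˣ, χ u * ((c : ZMod r) * ∑ g : (ZMod q)ˣ, S g *
        ((C (g⁻¹ * u) : ℤ) : ZMod r)) =
        (c : ZMod r) * ∑ g : (ZMod q)ˣ, S g * (χ u * ((C (g⁻¹ * u) : ℤ) : ZMod r)) := by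
      intro u
      rw [← mul_assoc, mul_comm (χ u), mul_assoc]
      congr 1
      rw [Finset.mul_sum]
      apply Finset.sum_congr rfl
      intro g _
      ring
    rw [Finset.sum_congr rfl fun u _ => h4 u, ← Finset.mul_sum, Finset.sum_comm]
    have h5 : ∀ g : (ZMod q)ˣ, ∑ u : (ZMod q)ˣ, S g * (χ u * ((C (g⁻¹ * u) : ℤ) : ZMod r)) =
        χ g * S g * ∑ v : (ZMod q)ˣ, χ v * ((C v : ℤ) : ZMod r) := by
      intro g
      rw [← Finset.mul_sum]
      have h6 : ∑ u : (ZMod q)ˣ, χ u * ((C (g⁻¹ * u) : ℤ) : ZMod r) =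
          ∑ v : (ZMod q)ˣ, χ (g * v : (ZMod q)ˣ) * ((C v : ℤ) : ZMod r) := by
        rw [← Equiv.sum_comp (Equiv.mulLeft g)
          (fun u : (ZMod q)ˣ => χ u * ((C (g⁻¹ * u) : ℤ) : ZMod r))]
        apply Finset.sum_congr rfl
        intro v _
        rw [Equiv.coe_mulLeft, inv_mul_cancel_left]
      rw [h6]
      have h7 : ∀ v : (ZMod q)ˣ, χ (g * v : (ZMod q)ˣ) * ((C v : ℤ) : ZMod r) =
          χ g * (χ v * ((C v : ℤ) : ZMod r)) := by
        intro v
        rw [Units.val_mul, hχ.mul]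
        ring
      rw [Finset.sum_congr rfl fun v _ => h7 v, ← Finset.mul_sum]
      ring
    rw [Finset.sum_congr rfl fun g _ => h5 g, ← Finset.sum_mul, hS0, zero_mul, mul_zero]
  have hsum := Finset.sum_congr (s₁ := (Finset.univ : Finset (ZMod q)ˣ)) rfl
    (fun u _ => congrArg (fun z : ZMod r => χ u * z) (hcast u))
  rw [hL, hR] at hsum
  have h2 : (2 : ZMod r) * ((q1 : ZMod r) * q2) ≠ 0 := by
    intro h0
    apply hr
    rw [← ZMod.natCast_eq_zero_iff]
    push_cast
    exact h0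
  exact (mul_eq_zero.1 hsum).resolve_left h2

end CN94
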