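import Pool.Agent.Lib_CN94.RelInt
import Pool.Agent.Lib_CN94.RelOf
import Pool.Agent.Lib_CN94.PathP
import Pool.Agent.Lib_CN94.PathM

/-!
# the relation modulo `r`
-/

namespace CN94

open QP QuadraticAlgebra

/-- the relation for all data with the path conditions -/
theorem rel_mod {q1 q2 : ℕ} {e : ℤ} (h : Setting q1 q2) (he : 4 * e + 1 = q1 * q2)
    [IsPrincipalIdealRing (R e)] (hsq : ¬ IsSquare (4 * e + 1)) (k B N a m : ℤ)
    (hd : Dat e k B N a m)
    (hc : (0 < a ∧ (m ≤ -1 ∨ 2 ≤ m)) ∨ (a < 0 ∧ (m ≤ -1 ∨ 1 ≤ m)))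
    (q : ℕ) [NeZero q] (hq : 2 < q) (hqD : q.Coprime (q1 * q2)) (r : ℕ) [Fact r.Prime]
    (hr : ¬ r ∣ 2 * (q1 * q2)) (χ : ZMod q → ZMod r) (hχ : GoodChar q r χ) :
    Rel q r χ k B N m := by
  have hpos : 0 < 4 * e + 1 := by
    rw [he]
    have h1 := h.prime1.pos
    have h2 := h.prime2.pos
    positivity
  have hP : HasPath e k B N a := by
    rcases hc with ⟨ha, hm | hm⟩ | ⟨ha, hm | hm⟩
    · exact path_P_pos e k B N a m hsq hpos hd ha hm
    · exact path_M_pos e k B N a m hsq hpos hd ha hm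
    · exact path_M_neg e k B N a m hsq hpos hd ha hm
    · exact path_P_neg e k B N a m hsq hpos hd ha hm
  exact rel_of_int q r hr χ hχ k B N m (int_identity h he k B N a m hd hP q hq hqD)

end CN94
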