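import Pool.Agent.Lib_CN94.Plu

/-!
# Piece SECJ: every totally positive element has exactly one multiple by a power of `ε` in the
sector `[1, ε)`
-/

namespace CN94

open QP QuadraticAlgebra

variable {e : ℤ}

theorem SecJ_pow (hpos : 0 < 4 * e + 1) {z : R e} (hz : TP z) (h1 : norm z = 1) (n : ℕ) :
    TP (z ^ n) ∧ norm (z ^ n) = 1 := by
  induction n with
  | zero =>
    rw [pow_zero]
    exact ⟨TP.one, map_one _⟩
  | succ n ih =>
    rw [pow_succ]
    refine ⟨ih.1.mul hpos hz, ?_⟩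
    rw [map_mul, ih.2, h1, one_mul]

/-- PROOF: powers of `ε` and of `star ε = ε⁻¹` are totally positive (`TP.mul`, `TP.star`). -/
theorem SecJ_tp (hpos : 0 < 4 * e + 1) {ε : R e} (hε : norm ε = 1) (htp : TP ε) (j : ℤ) :
    TP ((un ε hε ^ j : (R e)ˣ) : R e) ∧ norm ((un ε hε ^ j : (R e)ˣ) : R e) = 1 := by
  obtain ⟨n, rfl | rfl⟩ := j.eq_nat_or_neg
  · rw [zpow_natCast, Units.val_pow_eq_pow_val]
    exact SecJ_pow hpos htp hε n
  · rw [zpow_neg, zpow_natCast, ← inv_pow, Units.val_pow_eq_pow_val]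
    have h1 : norm (star ε) = 1 := by rw [QuadraticAlgebra.norm_star, hε]
    exact SecJ_pow hpos htp.star h1 n

theorem SecJ_emb_dt (s : ℝ) (hs : s ^ 2 = 4 * e + 1) (hs' : (-s) ^ 2 = 4 * e + 1) (v w : R e) :
    emb s hs w * emb (-s) hs' v - emb s hs v * emb (-s) hs' w = s * dt v w := by
  rw [emb_eq, emb_eq, emb_eq, emb_eq]
  simp only [tr, dt]
  push_cast
  ring

theorem SecJ_pos (s : ℝ) (hs : s ^ 2 = 4 * e + 1) (hs' : (-s) ^ 2 = 4 * e + 1) {z : R e}
    (hz : TP z) : 0 < emb s hs z ∧ 0 < emb (-s) hs' z := by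
  have h1 : emb s hs z * emb (-s) hs' z = norm z := emb_mul_conj s hs hs' z
  have h2 : emb s hs z + emb (-s) hs' z = tr z := by
    rw [emb_eq, emb_eq]; ring
  have h3 : (0 : ℝ) < norm z := by exact_mod_cast hz.1
  have h4 : (0 : ℝ) < tr z := by exact_mod_cast hz.2
  rw [← h1] at h3
  rw [← h2] at h4
  rcases pos_and_pos_or_neg_and_neg_of_mul_pos h3 with h | h
  · exact h
  · linarith [h.1, h.2]

theorem SecJ_zpow (s : ℝ) (hs : s ^ 2 = 4 * e + 1) (u : (R e)ˣ) (j : ℤ) :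
    emb s hs ((u ^ j : (R e)ˣ) : R e) = (emb s hs (u : R e)) ^ j := by
  have h1 : Units.map (emb s hs : R e →* ℝ) (u ^ j) = (Units.map (emb s hs : R e →* ℝ) u) ^ j :=
    map_zpow _ _ _
  have h2 := congrArg (fun x : ℝˣ => (x : ℝ)) h1
  simp only [Units.coe_map, Units.val_zpow_eq_zpow_val] at h2
  exact h2

/-- PROOF: use the real embeddings `QP.emb s`, `QP.emb (-s)` with `s = √(4e+1) > 0`; for `TP z` both
are positive (product `norm z`, sum `tr z`).  Put `σ z = emb s z / emb (-s) z > 0`, multiplicative.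
`emb s w * emb (-s) v - emb s v * emb (-s) w = s * dt v w`, so `0 ≤ dt v w ↔ σ v ≤ σ w` and
`0 < dt v w ↔ σ v < σ w` for `TP v, TP w`.  `dt 1 β = β.im`, so `Sec ε β ↔ 1 ≤ σ β < σ ε`.
As `ε.im > 0` (`TP ε`), `σ ε > 1`.  `σ (ε^j β) = (σ ε)^j σ β`, and there is exactly one `j : ℤ` with
`1 ≤ (σ ε)^j σ β < σ ε` (`exists_mem_Ico_zpow` for existence; `zpow` strictly monotone for
uniqueness). -/
theorem sec_existsUnique (hpos : 0 < 4 * e + 1) {ε : R e} (hε : norm ε = 1) (htp : TP ε)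
    (him : 0 < ε.im) (β : R e) (hβ : TP β) :
    ∃! j : ℤ, Sec ε (((un ε hε ^ j : (R e)ˣ) : R e) * β) := by
  obtain ⟨s, hsdef⟩ : ∃ s : ℝ, s = Real.sqrt (4 * e + 1) := ⟨_, rfl⟩
  have hposR : (0 : ℝ) < 4 * e + 1 := by exact_mod_cast hpos
  have hs : s ^ 2 = 4 * e + 1 := by rw [hsdef, Real.sq_sqrt hposR.le]
  have hs' : (-s) ^ 2 = 4 * e + 1 := by rw [neg_sq, hs]
  have hs0 : 0 < s := by rw [hsdef]; exact Real.sqrt_pos.2 hposR
  obtain ⟨σ, hσ⟩ : ∃ σ : R e → ℝ, σ = fun z => emb s hs z / emb (-s) hs' z := ⟨_, rfl⟩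
  have hε0 := SecJ_pos s hs hs' htp
  have hβ0 := SecJ_pos s hs hs' hβ
  obtain ⟨y, hy⟩ : ∃ y : ℝ, y = σ ε := ⟨_, rfl⟩
  obtain ⟨x, hx⟩ : ∃ x : ℝ, x = σ β := ⟨_, rfl⟩
  have hx0 : 0 < x := by rw [hx, hσ]; exact div_pos hβ0.1 hβ0.2
  have hy1 : 1 < y := by
    rw [hy, hσ]
    simp only
    rw [one_lt_div hε0.2]
    have h1 := SecJ_emb_dt s hs hs' 1 ε
    rw [map_one, map_one, mul_one, one_mul] at h1
    have h2 : dt 1 ε = ε.im := by simp [dt]
    rw [h2] at h1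
    have h3 : (0 : ℝ) < ε.im := by exact_mod_cast him
    have h4 : 0 < s * ε.im := mul_pos hs0 h3
    linarith
  have hmul : ∀ j : ℤ, σ (((un ε hε ^ j : (R e)ˣ) : R e) * β) = y ^ j * x := by
    intro j
    rw [hσ, hy, hx, hσ]
    simp only
    rw [map_mul, map_mul, SecJ_zpow, SecJ_zpow]
    have h1 : ((un ε hε : (R e)ˣ) : R e) = ε := rfl
    rw [h1, div_zpow]
    rw [mul_div_mul_comm]
  have hiff : ∀ z : R e, TP z → (Sec ε z ↔ 1 ≤ σ z ∧ σ z < y) := by
    intro z hz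
    have hz0 := SecJ_pos s hs hs' hz
    have h1 := SecJ_emb_dt s hs hs' 1 z
    rw [map_one, map_one, mul_one, one_mul] at h1
    have h2 : dt 1 z = z.im := by simp [dt]
    rw [h2] at h1
    have h3 := SecJ_emb_dt s hs hs' z ε
    rw [hy, hσ]
    simp only
    unfold Sec
    rw [one_le_div hz0.2, div_lt_div_iff₀ hz0.2 hε0.2]
    refine and_congr ?_ ?_
    · constructor
      · intro h
        have h4 : (0 : ℝ) ≤ z.im := by exact_mod_cast h
        have h5 : 0 ≤ s * z.im := mul_nonneg hs0.le h4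
        linarith
      · intro h
        have h5 : 0 ≤ s * z.im := by rw [← h1]; linarith
        have h6 : (0 : ℝ) ≤ z.im := nonneg_of_mul_nonneg_right h5 hs0
        exact_mod_cast h6
    · constructor
      · intro h
        have h4 : (0 : ℝ) < dt z ε := by exact_mod_cast h
        have h5 : 0 < s * dt z ε := mul_pos hs0 h4
        linarith
      · intro h
        have h5 : 0 < s * dt z ε := by rw [← h3]; linarith
        have h6 : (0 : ℝ) < dt z ε := (pos_iff_pos_of_mul_pos h5).1 hs0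
        exact_mod_cast h6
  have hSec : ∀ j : ℤ, Sec ε (((un ε hε ^ j : (R e)ˣ) : R e) * β) ↔ 1 ≤ y ^ j * x ∧ y ^ j * x < y := by
    intro j
    rw [hiff _ ((SecJ_tp hpos hε htp j).1.mul hpos hβ), hmul]
  obtain ⟨n, hn⟩ := exists_mem_Ico_zpow hx0 hy1
  have hy0 : 0 < y := by linarith
  refine ⟨-n, ?_, ?_⟩
  · simp only
    rw [hSec, zpow_neg]
    have h1 : 0 < y ^ n := zpow_pos hy0 n
    rw [inv_mul_eq_div, one_le_div h1, div_lt_iff₀ h1]
    refine ⟨hn.1, ?_⟩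
    have h2 := hn.2
    rw [zpow_add_one₀ hy0.ne', mul_comm] at h2
    exact h2
  · intro j hj
    rw [hSec] at hj
    have h1 : 0 < y ^ n := zpow_pos hy0 n
    have h2 : 0 < y ^ j := zpow_pos hy0 j
    have h3 : y ^ (-j) ≤ x := by
      rw [zpow_neg, inv_le_iff_one_le_mul₀' h2]
      exact hj.1
    have h4 : x < y ^ (-j + 1) := by
      rw [zpow_add_one₀ hy0.ne', zpow_neg, inv_mul_eq_div, lt_div_iff₀ h2, mul_comm]
      exact hj.2
    have h5 : -j < n + 1 := by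
      have := lt_of_le_of_lt h3 hn.2
      exact (zpow_lt_zpow_iff_right₀ hy1).1 this
    have h6 : n < -j + 1 := by
      have := lt_of_le_of_lt hn.1 h4
      exact (zpow_lt_zpow_iff_right₀ hy1).1 this
    omega

/-- PROOF: powers of `ε` and of `star ε = ε⁻¹` are totally positive (`TP.mul`, `TP.star`). -/
theorem un_zpow_tp (hpos : 0 < 4 * e + 1) {ε : R e} (hε : norm ε = 1) (htp : TP ε) (j : ℤ) :
    TP ((un ε hε ^ j : (R e)ˣ) : R e) ∧ norm ((un ε hε ^ j : (R e)ˣ) : R e) = 1 :=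
  SecJ_tp hpos hε htp j

end CN94
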