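import Pool.Agent.Lib_CN94.SecCone
import Pool.Agent.Lib_CN94.Gauss

/-!
# Piece ZSUM: the sum over the cones of a path as a Dirichlet type sum
-/

namespace CN94

open QP QuadraticAlgebra

variable {e : ℤ} {ε : R e} {L : ℕ} {p : ℕ → R e}

/-- the smoothed sum over the cones -/
noncomputable def Zt (q : ℕ) (f : ZMod q → ℝ) (L : ℕ) (p : ℕ → R e) (t : ℝ) : ℝ :=
  ∑ i ∈ Finset.range L, ∑' z : ℕ × ℕ, hw z.1 * hw z.2 *
    f (qf q (norm (p i)) (pr (p i) (p (i + 1))) (norm (p (i + 1))) (z.1 : ZMod q) (z.2 : ZMod q)) *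
    ex ((norm (p i) : ℤ) : ℝ) ((pr (p i) (p (i + 1)) : ℤ) : ℝ) ((norm (p (i + 1)) : ℤ) : ℝ) t z.1 z.2

/-- the weighted sum over the quadrant in terms of the half open cone and the axes -/
private theorem zsum_one (G : ℕ → ℕ → ℝ) (h00 : G 0 0 = 0)
    (hs : Summable fun z : ℕ × ℕ => G z.1 z.2) :
    (Summable fun z : ℕ × ℕ => if 1 ≤ z.1 then G z.1 z.2 else 0) ∧
    ∑' z : ℕ × ℕ, hw z.1 * hw z.2 * G z.1 z.2 =
      (∑' z : ℕ × ℕ, if 1 ≤ z.1 then G z.1 z.2 else 0) - 1 / 2 * (∑' x : ℕ, G x 0) +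
        1 / 2 * ∑' y : ℕ, G 0 y := by
  have h1 : Summable fun z : ℕ × ℕ => if 1 ≤ z.1 then G z.1 z.2 else 0 := by
    refine Summable.of_norm_bounded hs.norm fun z => ?_
    split_ifs
    · exact le_refl _
    · rw [_root_.norm_zero]; exact norm_nonneg _
  have h2 : Summable fun z : ℕ × ℕ => if z.2 = 0 then G z.1 z.2 else 0 := by
    refine Summable.of_norm_bounded hs.norm fun z => ?_
    split_ifs
    · exact le_refl _
    · rw [_root_.norm_zero]; exact norm_nonneg _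
  have h3 : Summable fun z : ℕ × ℕ => if z.1 = 0 then G z.1 z.2 else 0 := by
    refine Summable.of_norm_bounded hs.norm fun z => ?_
    split_ifs
    · exact le_refl _
    · rw [_root_.norm_zero]; exact norm_nonneg _
  have h4 : ∑' z : ℕ × ℕ, (if z.2 = 0 then G z.1 z.2 else 0) = ∑' x : ℕ, G x 0 := by
    rw [h2.tsum_prod]
    refine tsum_congr fun x => ?_
    rw [tsum_eq_single 0]
    · simp
    · intro y hy
      simp [hy]
  have h5 : ∑' z : ℕ × ℕ, (if z.1 = 0 then G z.1 z.2 else 0) = ∑' y : ℕ, G 0 y := by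
    rw [h3.tsum_prod, tsum_eq_single 0]
    · simp
    · intro x hx
      simp [hx]
  refine ⟨h1, ?_⟩
  rw [← h4, ← h5, ← tsum_mul_left, ← tsum_mul_left, ← h1.tsum_sub (h2.mul_left _),
    ← (h1.sub (h2.mul_left _)).tsum_add (h3.mul_left _)]
  refine tsum_congr fun z => ?_
  obtain ⟨x, y⟩ := z
  simp only
  rcases Nat.eq_zero_or_pos x with hx | hx
  · rcases Nat.eq_zero_or_pos y with hy | hy
    · subst hx; subst hy; simp [h00]
    · subst hx
      rw [if_neg (by omega), if_neg (by omega), if_pos rfl]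
      unfold hw
      rw [if_pos rfl, if_neg (by omega)]
      ring
  · rcases Nat.eq_zero_or_pos y with hy | hy
    · subst hy
      rw [if_pos (by omega), if_pos rfl, if_neg (by omega)]
      unfold hw
      rw [if_neg (by omega), if_pos rfl]
      ring
    · rw [if_pos (by omega), if_neg (by omega), if_neg (by omega)]
      unfold hw
      rw [if_neg (by omega), if_neg (by omega)]
      ring

/-- PROOF: for fixed `i` let `G x y = f(..) ex(..)` be the summand without the weights (it depends on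
`N = norm (x p_i + y p_{i+1})` only: it is `f N * exp (-(t N))`, `norm_combo`).  Then
`∑'_{x,y ≥ 0} hw x hw y G x y = ∑'_{x ≥ 1, y ≥ 0} G x y - 1/2 ∑'_{x ≥ 1} G x 0 + 1/2 ∑'_{y ≥ 1} G 0 y`
(the point `(0,0)` has `f 0 = 0`).  `G x 0 = f (norm (p i) x²) exp (..)` and
`G 0 y = f (norm (p (i+1)) y²) exp (..)`; so summing over `i` the axis terms telescope to
`1/2 ∑'_{x ≥ 1} (g_L x - g_0 x) = 0`, `g_i x = f (norm (p i) x²) exp (-(t norm (p i) x²))`, since
`norm (p L) = norm ε = 1 = norm (p 0)`.  The remaining sum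
`∑_{i<L} ∑'_{x ≥ 1, y ≥ 0} f N exp (-(t N))` is grouped by the value `n = N ≥ 1`
(`cset_finite`, everything is absolutely summable: `f` is bounded, `ex_summable`): the fibre over `n`
is `cset L p n`.  (`HasSum.sigma`/`Summable.tsum_sigma'` with `Equiv.sigmaFiberEquiv`, or
`tsum_eq` over fibres.) -/
theorem zsum (hpos : 0 < 4 * e + 1) (hp : IsPath ε L p) (q : ℕ) [NeZero q] (f : ZMod q → ℝ)
    (hf : f 0 = 0) (t : ℝ) (ht : 0 < t) :
    Zt q f L p t = ∑' n : ℕ, (cnt L p ((n + 1 : ℕ) : ℤ) : ℝ) * f ((n + 1 : ℕ) : ZMod q) *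
      Real.exp (-(t * (n + 1))) := by
  -- the value of the norm form
  obtain ⟨N, hN⟩ : ∃ N : ℕ → ℕ → ℕ → ℤ, N = fun i (x y : ℕ) =>
      norm (p i) * (x : ℤ) ^ 2 + pr (p i) (p (i + 1)) * ((x : ℤ) * y) + norm (p (i + 1)) * (y : ℤ) ^ 2 :=
    ⟨_, rfl⟩
  obtain ⟨G, hG⟩ : ∃ G : ℕ → ℕ → ℕ → ℝ, G = fun i (x y : ℕ) =>
      f ((N i x y : ℤ) : ZMod q) * Real.exp (-(t * (N i x y : ℤ))) := ⟨_, rfl⟩
  obtain ⟨g, hg⟩ : ∃ g : ℕ → ℕ → ℝ, g = fun i (x : ℕ) =>
      f (((norm (p i) * (x : ℤ) ^ 2 : ℤ)) : ZMod q) *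
        Real.exp (-(t * ((norm (p i) * (x : ℤ) ^ 2 : ℤ) : ℝ))) := ⟨_, rfl⟩
  have hGx : ∀ i x, G i x 0 = g i x := by
    intro i x
    rw [hG, hg, hN]
    simp
  have hGy : ∀ i y, G i 0 y = g (i + 1) y := by
    intro i y
    rw [hG, hg, hN]
    simp
  have hG0 : ∀ i, G i 0 0 = 0 := by
    intro i
    rw [hG, hN]
    simp [hf]
  -- bound for `f`
  obtain ⟨K, hK0, hK⟩ : ∃ K : ℝ, 0 ≤ K ∧ ∀ x, |f x| ≤ K :=
    ⟨∑ x, |f x|, Finset.sum_nonneg fun x _ => abs_nonneg _,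
      fun x => Finset.single_le_sum (f := fun x => |f x|) (fun x _ => abs_nonneg _)
        (Finset.mem_univ x)⟩
  have hterm : ∀ i (x y : ℕ), f (qf q (norm (p i)) (pr (p i) (p (i + 1))) (norm (p (i + 1)))
      (x : ZMod q) (y : ZMod q)) *
      ex ((norm (p i) : ℤ) : ℝ) ((pr (p i) (p (i + 1)) : ℤ) : ℝ) ((norm (p (i + 1)) : ℤ) : ℝ) t x y =
      G i x y := by
    intro i x y
    rw [hG, hN]
    unfold qf ex
    push_cast
    rfl
  have hGs : ∀ i, i < L → Summable fun z : ℕ × ℕ => G i z.1 z.2 := by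
    intro i hi
    have h1 : 0 < norm (p i) := (hp.tp i hi.le).1
    have h2 : 0 < norm (p (i + 1)) := (hp.tp (i + 1) hi).1
    have h3 : 0 < pr (p i) (p (i + 1)) := pr_pos hpos (hp.tp i hi.le) (hp.tp (i + 1) hi)
    have h4 := ex_summable ((norm (p i) : ℤ) : ℝ) ((pr (p i) (p (i + 1)) : ℤ) : ℝ)
      ((norm (p (i + 1)) : ℤ) : ℝ) t (by exact_mod_cast h1) (by exact_mod_cast h3)
      (by exact_mod_cast h2) ht
    refine Summable.of_norm_bounded (h4.mul_left K) fun z => ?_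
    rw [← hterm, Real.norm_eq_abs, abs_mul, abs_of_pos (ex_pos _ _ _ _ _ _)]
    exact mul_le_mul_of_nonneg_right (hK _) (ex_pos _ _ _ _ _ _).le
  -- step 1
  have hstep : Zt q f L p t = ∑ i ∈ Finset.range L, ((∑' z : ℕ × ℕ, if 1 ≤ z.1 then G i z.1 z.2
      else 0) + (1 / 2 * (∑' x : ℕ, g (i + 1) x) - 1 / 2 * (∑' x : ℕ, g i x))) := by
    unfold Zt
    refine Finset.sum_congr rfl fun i hi => ?_
    have hi' := Finset.mem_range.1 hi
    have h1 := (zsum_one (G i) (hG0 i) (hGs i hi')).2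
    have h2 : ∑' z : ℕ × ℕ, hw z.1 * hw z.2 *
        f (qf q (norm (p i)) (pr (p i) (p (i + 1))) (norm (p (i + 1))) (z.1 : ZMod q)
          (z.2 : ZMod q)) *
        ex ((norm (p i) : ℤ) : ℝ) ((pr (p i) (p (i + 1)) : ℤ) : ℝ) ((norm (p (i + 1)) : ℤ) : ℝ)
          t z.1 z.2 = ∑' z : ℕ × ℕ, hw z.1 * hw z.2 * G i z.1 z.2 := by
      refine tsum_congr fun z => ?_
      rw [mul_assoc, hterm]
    rw [h2, h1]
    have h3 : ∑' x : ℕ, G i x 0 = ∑' x : ℕ, g i x := tsum_congr fun x => hGx i x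
    have h4 : ∑' y : ℕ, G i 0 y = ∑' y : ℕ, g (i + 1) y := tsum_congr fun y => hGy i y
    rw [h3, h4]
    ring
  have htel : ∑ i ∈ Finset.range L, (1 / 2 * (∑' x : ℕ, g (i + 1) x) - 1 / 2 * (∑' x : ℕ, g i x)) =
      0 := by
    rw [Finset.sum_range_sub (fun i => 1 / 2 * (∑' x : ℕ, g i x))]
    have h1 : g L = g 0 := by
      rw [hg]
      have h2 : norm (p L) = norm (p 0) := by
        rw [hp.last, hp.zero, hp.unit, norm_eq]
        simp
      funext x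
      simp only [h2]
    rw [h1, sub_self]
  rw [Finset.sum_add_distrib, htel, add_zero] at hstep
  rw [hstep]
  -- step 2: one sum over triples
  obtain ⟨F, hF⟩ : ∃ F : ℕ × ℕ × ℕ → ℝ, F = fun X =>
      if X.1 < L ∧ 1 ≤ X.2.1 then G X.1 X.2.1 X.2.2 else 0 := ⟨_, rfl⟩
  have hFsum : HasSum F (∑ i ∈ Finset.range L, ∑' z : ℕ × ℕ, if 1 ≤ z.1 then G i z.1 z.2 else 0) := by
    have h1 : ∀ i ∈ Finset.range L, HasSum (fun X : ℕ × ℕ × ℕ =>
        if X.1 = i ∧ 1 ≤ X.2.1 then G i X.2.1 X.2.2 else 0)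
        (∑' z : ℕ × ℕ, if 1 ≤ z.1 then G i z.1 z.2 else 0) := by
      intro i hi
      have h2 := (zsum_one (G i) (hG0 i) (hGs i (Finset.mem_range.1 hi))).1.hasSum
      have h3 : Function.Injective fun z : ℕ × ℕ => ((i, z) : ℕ × ℕ × ℕ) := fun a b h =>
        (Prod.ext_iff.1 h).2
      rw [← h3.hasSum_iff]
      · have h4 : ((fun X : ℕ × ℕ × ℕ => if X.1 = i ∧ 1 ≤ X.2.1 then G i X.2.1 X.2.2 else 0) ∘
            fun z : ℕ × ℕ => ((i, z) : ℕ × ℕ × ℕ)) =
            fun z : ℕ × ℕ => if 1 ≤ z.1 then G i z.1 z.2 else 0 := by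
          funext z
          simp
        rw [h4]
        exact h2
      · intro X hX
        rw [if_neg]
        rintro ⟨h4, -⟩
        exact hX ⟨X.2, by rw [← h4]⟩
    have h2 := hasSum_sum h1
    have h3 : (fun X : ℕ × ℕ × ℕ => ∑ i ∈ Finset.range L,
        if X.1 = i ∧ 1 ≤ X.2.1 then G i X.2.1 X.2.2 else 0) = F := by
      rw [hF]
      funext X
      by_cases hX : X.1 < L ∧ 1 ≤ X.2.1
      · rw [if_pos hX, Finset.sum_eq_single X.1]
        · rw [if_pos ⟨rfl, hX.2⟩]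
        · intro i _ hi
          rw [if_neg]
          rintro ⟨h4, -⟩
          exact hi h4.symm
        · intro h4
          exact absurd (Finset.mem_range.2 hX.1) h4
      · rw [if_neg hX]
        refine Finset.sum_eq_zero fun i hi => ?_
        rw [if_neg]
        rintro ⟨h4, h5⟩
        exact hX ⟨h4 ▸ Finset.mem_range.1 hi, h5⟩
    rw [h3] at h2
    exact h2
  have key := hFsum.tsum_fiberwise (fun X : ℕ × ℕ × ℕ => (N X.1 X.2.1 X.2.2).toNat - 1)
  rw [← key.tsum_eq]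
  refine tsum_congr fun n => ?_
  have hv : ∀ X : ℕ × ℕ × ℕ, X ∈ cset L p ((n + 1 : ℕ) : ℤ) ↔
      X.1 < L ∧ 1 ≤ X.2.1 ∧ N X.1 X.2.1 X.2.2 = ((n + 1 : ℕ) : ℤ) := by
    intro X
    have h1 := norm_combo (X.2.1 : ℤ) (X.2.2 : ℤ) (p X.1) (p (X.1 + 1))
    rw [Int.cast_natCast, Int.cast_natCast] at h1
    show (X.1 < L ∧ 1 ≤ X.2.1 ∧ norm ((X.2.1 : R e) * p X.1 + (X.2.2 : R e) * p (X.1 + 1)) =
      ((n + 1 : ℕ) : ℤ)) ↔ _
    rw [h1, hN]
  have hpos' : ∀ X : ℕ × ℕ × ℕ, X.1 < L → 1 ≤ X.2.1 → 0 < N X.1 X.2.1 X.2.2 := by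
    intro X hX1 hX2
    have h1 := (cone_sec hpos hp (y := X.2.2) hX1 hX2).1.1
    have h2 := norm_combo (X.2.1 : ℤ) (X.2.2 : ℤ) (p X.1) (p (X.1 + 1))
    rw [Int.cast_natCast, Int.cast_natCast] at h2
    rw [h2] at h1
    rw [hN]
    exact h1
  have hind : ((fun X : ℕ × ℕ × ℕ => (N X.1 X.2.1 X.2.2).toNat - 1) ⁻¹' {n} :
      Set (ℕ × ℕ × ℕ)).indicator F = (cset L p ((n + 1 : ℕ) : ℤ)).indicator fun _ =>
      f ((n + 1 : ℕ) : ZMod q) * Real.exp (-(t * (n + 1))) := by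
    funext X
    by_cases hX : X ∈ cset L p ((n + 1 : ℕ) : ℤ)
    · obtain ⟨h1, h2, h3⟩ := (hv X).1 hX
      rw [Set.indicator_of_mem hX, Set.indicator_of_mem]
      · rw [hF]
        simp only
        rw [if_pos ⟨h1, h2⟩, hG]
        simp only
        rw [h3]
        push_cast
        rfl
      · show (N X.1 X.2.1 X.2.2).toNat - 1 = n
        rw [h3, Int.toNat_natCast]
        rfl
    · rw [Set.indicator_of_notMem hX]
      by_cases hX' : X.1 < L ∧ 1 ≤ X.2.1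
      · rw [Set.indicator_of_notMem]
        intro h1
        have h2 : (N X.1 X.2.1 X.2.2).toNat - 1 = n := h1
        have h3 := hpos' X hX'.1 hX'.2
        apply hX
        rw [hv]
        refine ⟨hX'.1, hX'.2, ?_⟩
        omega
      · by_cases h1 : X ∈ ((fun X : ℕ × ℕ × ℕ => (N X.1 X.2.1 X.2.2).toNat - 1) ⁻¹' {n} :
          Set (ℕ × ℕ × ℕ))
        · rw [Set.indicator_of_mem h1, hF]
          simp only
          rw [if_neg hX']
        · rw [Set.indicator_of_notMem h1]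
  rw [tsum_subtype, hind, ← tsum_subtype, tsum_const, nsmul_eq_mul]
  unfold cnt
  ring

end CN94
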